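import Pool.Agent.PEN.Defs

/-!
[PEN-A1] dihedral angles at two opposite edges in terms of the volume.
With `a = |xy|/2`, `b = |zw|/2`, `g = ⟪y-x, w-z⟫/4 = (sd x w + sd y z - sd x z - sd y w)/8` and
`V = |det3|/6`.

PROOF: this is a repackaging of `BccCov.G2.half` (in `MP_bf7174_co/G2.lean`, see the proof of
`BccCov.G2.params` there, copy it). Put `N2 = ⟪y-x,y-x⟫⟪w-z,w-z⟫ - ⟪y-x,w-z⟫^2 > 0`,
`s = √N2/(4ab)`, `d = |det3|/√N2`; then `half` gives `dih x y z w ≤ 2 arctan (b s / d)` and (with the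
roles exchanged, `det3_swap`) `dih z w x y ≤ 2 arctan (a s / d)`. Since `|det3| = 4 a b s d = 6 V`
one has `b s / d = 4 a b^2 s^2 / |det3| = (2/3) ((a b)^2 - g^2) / (a V)` because
`16 a^2 b^2 s^2 = N2 = 16 a^2 b^2 - 16 g^2`. The formula for `⟪y-x, w-z⟫` in terms of `sd` is
`real_inner`/coordinates: `BccO.inner_sd : ⟪y - x, z - x⟫ = (sd x y + sd x z - sd y z) / 2` and
`w - z = (w - x) - (z - x)`.
-/

set_option autoImplicit false

open scoped InnerProductSpace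

namespace BccP.A1

open BccCov BccO BccCov.G2

theorem par (x y z w : E3) (h : det3 x y z w ≠ 0) :
    ∃ a b : ℝ, 0 < a ∧ 0 < b ∧ a ^ 2 = sd x y / 4 ∧ b ^ 2 = sd z w / 4 ∧
      ((sd x w + sd y z - sd x z - sd y w) / 8) ^ 2 < (a * b) ^ 2 ∧
      dih x y z w ≤ 2 * Real.arctan (2 / 3 * ((a * b) ^ 2 -
        ((sd x w + sd y z - sd x z - sd y w) / 8) ^ 2) / (a * (|det3 x y z w| / 6))) ∧
      dih z w x y ≤ 2 * Real.arctan (2 / 3 * ((a * b) ^ 2 -
        ((sd x w + sd y z - sd x z - sd y w) / 8) ^ 2) / (b * (|det3 x y z w| / 6))) := by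
  have hg : ⟪y - x, w - z⟫_ℝ = 4 * ((sd x w + sd y z - sd x z - sd y w) / 8) := by
    have e : w - z = (w - x) - (z - x) := by abel
    rw [e, inner_sub_right, inner_sd, inner_sd]
    ring
  generalize (sd x w + sd y z - sd x z - sd y w) / 8 = g at hg ⊢
  have hdet2 : 0 < det3 x y z w ^ 2 := by positivity
  set N2 : ℝ := ⟪y - x, y - x⟫_ℝ * ⟪w - z, w - z⟫_ℝ - ⟪y - x, w - z⟫_ℝ ^ 2 with hN2
  have hN : 0 < N2 := by
    have := det_le x y z w (z - x) 0 0 (by simp)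
    rw [← hN2] at this
    by_contra hneg
    push Not at hneg
    nlinarith [sq_nonneg ‖z - x‖]
  have hA0 : 0 ≤ ⟪y - x, y - x⟫_ℝ := real_inner_self_nonneg
  have hB0 : 0 ≤ ⟪w - z, w - z⟫_ℝ := real_inner_self_nonneg
  have hAB : 0 < ⟪y - x, y - x⟫_ℝ * ⟪w - z, w - z⟫_ℝ := by
    nlinarith [sq_nonneg ⟪y - x, w - z⟫_ℝ]
  have hA : 0 < ⟪y - x, y - x⟫_ℝ := by
    rcases hA0.lt_or_eq with h' | h'
    · exact h'
    · rw [← h'] at hAB; simp at hAB
  have hB : 0 < ⟪w - z, w - z⟫_ℝ := by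
    rcases hB0.lt_or_eq with h' | h'
    · exact h'
    · rw [← h'] at hAB; simp at hAB
  have hAn : 0 < ‖y - x‖ := by
    rw [real_inner_self_eq_norm_sq] at hA
    exact pos_of_ne_zero' (norm_nonneg _) (fun h0 => by rw [h0] at hA; simp at hA)
  have hBn : 0 < ‖w - z‖ := by
    rw [real_inner_self_eq_norm_sq] at hB
    exact pos_of_ne_zero' (norm_nonneg _) (fun h0 => by rw [h0] at hB; simp at hB)
  have hsa : (‖y - x‖ / 2) ^ 2 = sd x y / 4 := by
    rw [sd, dist_comm, dist_eq_norm]; ring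
  have hsb : (‖w - z‖ / 2) ^ 2 = sd z w / 4 := by
    rw [sd, dist_comm, dist_eq_norm]; ring
  set a : ℝ := ‖y - x‖ / 2 with ha
  set b : ℝ := ‖w - z‖ / 2 with hb
  have ha0 : 0 < a := by positivity
  have hb0 : 0 < b := by positivity
  have h1 : ⟪y - x, y - x⟫_ℝ = 4 * a ^ 2 := by
    rw [real_inner_self_eq_norm_sq, ha]; ring
  have h2 : ⟪w - z, w - z⟫_ℝ = 4 * b ^ 2 := by
    rw [real_inner_self_eq_norm_sq, hb]; ring
  set s : ℝ := √N2 / (4 * a * b) with hs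
  have hsN : 0 < √N2 := Real.sqrt_pos.2 hN
  have hs0 : 0 < s := by positivity
  set d : ℝ := |det3 x y z w| / √N2 with hd
  have hd0 : 0 < d := by
    have := abs_pos.2 h
    positivity
  have hdet : |det3 x y z w| = 4 * a * b * s * d := by
    rw [hs, hd]; field_simp
  have hN2' : √N2 ^ 2 = N2 := Real.sq_sqrt hN.le
  have hs2 : 16 * a ^ 2 * b ^ 2 * s ^ 2 = 16 * a ^ 2 * b ^ 2 - ⟪y - x, w - z⟫_ℝ ^ 2 := by
    have : 16 * a ^ 2 * b ^ 2 * s ^ 2 = √N2 ^ 2 := by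
      rw [hs]; field_simp; norm_num
    rw [this, hN2', hN2, h1, h2]; ring
  have hdd : (4 * a * b * s * d) ^ 2 = det3 x y z w ^ 2 := by
    rw [← hdet, sq_abs]
  have hgs : (a * b) ^ 2 - g ^ 2 = a ^ 2 * b ^ 2 * s ^ 2 := by
    rw [hg] at hs2
    linarith
  have hpos : 0 < a ^ 2 * b ^ 2 * s ^ 2 := by positivity
  refine ⟨a, b, ha0, hb0, hsa, hsb, by linarith, ?_, ?_⟩
  · have h5 := half x y z w a b s d ha0 hb0 hs0 hd0 h1 h2 hs2 hdd
    have h6 : 2 / 3 * ((a * b) ^ 2 - g ^ 2) / (a * (|det3 x y z w| / 6)) = b * s / d := by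
      rw [hgs, hdet]
      clear_value a b s d
      field_simp
      ring
    rw [h6]
    exact h5
  · have h5 : dih z w x y ≤ 2 * Real.arctan (a * s / d) := by
      refine half z w x y b a s d hb0 ha0 hs0 hd0 h2 h1 ?_ ?_
      · rw [real_inner_comm]; linarith
      · rw [det3_swap, ← hdd]; ring
    have h6 : 2 / 3 * ((a * b) ^ 2 - g ^ 2) / (b * (|det3 x y z w| / 6)) = a * s / d := by
      rw [hgs, hdet]
      clear_value a b s d
      field_simp
      ring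
    rw [h6]
    exact h5

end BccP.A1
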