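import Pool.Agent.PEN.Defs

/-!
[PEN-A2] (real inequality) from `a, b` to `y = (a² + b²)/2`.

PROOF. Put `p = a b`, `P = p² - g² > 0`, `q = y² - g²`. One has `p ≤ y` so `0 < P ≤ q`, `0 < y`.

(1) `P / a ≤ 1.08867 * q / √y` (same for `b`). Since `y² ≥ p²` and both sides are affine in `g²`, the
inequality for `g² ∈ [0, p²)` follows from the cases `g² = 0` and `g² = p²`. Precisely: with
`λ = g²/p² ∈ [0,1)`: `P = (1-λ) p²`, `q = y² - λ p² ≥ (1-λ) y²`, so it is enough that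
`p²/a ≤ 1.08867 y²/√y = 1.08867 y √y`, i.e. `a b² ≤ 1.08867 y √y`. Squares: `a² b⁴ ≤ 1.18520 y³` where
`a² = 2y - b²`; put `v = b²`: `(2y - v) v² ≤ (32/27) y³ ` (since
`32/27 y³ - (2y - v) v² = (v - 4y/3)² (v + 2y/3) ≥ 0`), and `32/27 = 1.185185... ≤ 1.08867² = 1.18520...`.
Hence `A ≤ 2 arctan (1.08867 z)` with `z = 2/3 * q / (V √y)` by monotonicity of `arctan`.

(2) `A + B ≤ 4 arctan z`: `arctan u + arctan v ≤ 2 arctan ((u+v)/2)` for `u, v ≥ 0`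
(`BccCov.G4.arctan_mid`, or `arctan_concave`), and `(P/a + P/b)/2 = P (a+b)/(2 p) ≤ q/√y`:
indeed `P/p = p - g²/p ≤ y - g²/y = q/y` and `(a+b)/2 ≤ √y` (as `((a+b)/2)² ≤ (a²+b²)/2`).
-/

set_option autoImplicit false

namespace BccP.A2

open BccCov BccO

theorem a2_cube (a b y s : ℝ) (hs : 0 < s) (hsy : s ^ 2 = y)
    (hy : y = (a ^ 2 + b ^ 2) / 2) : a * b ^ 2 ≤ 1.08867 * s ^ 3 := by
  have h1 : (a * b ^ 2) ^ 2 ≤ (1.08867 * s ^ 3) ^ 2 := by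
    have h2 : (1.08867 * s ^ 3) ^ 2 = 1.08867 ^ 2 * y ^ 3 := by
      rw [← hsy]
      ring
    have h3 : (a * b ^ 2) ^ 2 = (2 * y - b ^ 2) * (b ^ 2) ^ 2 := by
      rw [hy]
      ring
    have hy0 : 0 < y := by
      rw [← hsy]
      positivity
    have h4 : 0 ≤ (b ^ 2 - 4 * y / 3) ^ 2 * (b ^ 2 + 2 * y / 3) := by positivity
    have h5 : (b ^ 2 - 4 * y / 3) ^ 2 * (b ^ 2 + 2 * y / 3) =
        32 / 27 * y ^ 3 - (2 * y - b ^ 2) * (b ^ 2) ^ 2 := by ring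
    have h6 : (0 : ℝ) ≤ y ^ 3 := by positivity
    rw [h2, h3]
    rw [h5] at h4
    have h7 : 32 / 27 * y ^ 3 ≤ 1.08867 ^ 2 * y ^ 3 := by
      apply mul_le_mul_of_nonneg_right _ h6
      norm_num
    linarith
  exact (abs_le_of_sq_le_sq' h1 (by positivity)).2

theorem a2_one (a b g y s : ℝ) (ha : 0 < a) (hb : 0 < b) (hs : 0 < s) (hsy : s ^ 2 = y)
    (hy : y = (a ^ 2 + b ^ 2) / 2) (hg : g ^ 2 < (a * b) ^ 2) :
    ((a * b) ^ 2 - g ^ 2) * s ≤ 1.08867 * (y ^ 2 - g ^ 2) * a := by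
  have hc := a2_cube a b y s hs hsy hy
  have hp : 0 < a * b := mul_pos ha hb
  have hpy : a * b ≤ y := by
    rw [hy]
    nlinarith [sq_nonneg (a - b)]
  have hP : 0 < (a * b) ^ 2 - g ^ 2 := by linarith
  have h1 : y ^ 2 * ((a * b) ^ 2 - g ^ 2) ≤ (y ^ 2 - g ^ 2) * (a * b) ^ 2 := by
    have h2 : (a * b) ^ 2 ≤ y ^ 2 := pow_le_pow_left₀ hp.le hpy 2
    have h3 : 0 ≤ g ^ 2 * (y ^ 2 - (a * b) ^ 2) := mul_nonneg (sq_nonneg g) (by linarith)
    nlinarith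
  have h4 : (a * b) ^ 2 * s ≤ 1.08867 * a * y ^ 2 := by
    have h5 : (a * b ^ 2) * (a * s) ≤ (1.08867 * s ^ 3) * (a * s) :=
      mul_le_mul_of_nonneg_right hc (by positivity)
    have h6 : (1.08867 * s ^ 3) * (a * s) = 1.08867 * a * y ^ 2 := by
      rw [← hsy]
      ring
    rw [h6] at h5
    linarith
  have h7 : (a * b) ^ 2 * (((a * b) ^ 2 - g ^ 2) * s) ≤
      (a * b) ^ 2 * (1.08867 * (y ^ 2 - g ^ 2) * a) := by
    have h8 : ((a * b) ^ 2 * s) * ((a * b) ^ 2 - g ^ 2) ≤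
        (1.08867 * a * y ^ 2) * ((a * b) ^ 2 - g ^ 2) := mul_le_mul_of_nonneg_right h4 hP.le
    have h9 : (1.08867 * a) * (y ^ 2 * ((a * b) ^ 2 - g ^ 2)) ≤
        (1.08867 * a) * ((y ^ 2 - g ^ 2) * (a * b) ^ 2) :=
      mul_le_mul_of_nonneg_left h1 (by positivity)
    linarith
  exact le_of_mul_le_mul_left h7 (by positivity)

theorem a2_ang (a b g y V s A : ℝ) (ha : 0 < a) (hb : 0 < b) (hV : 0 < V) (hs : 0 < s)
    (hsy : s ^ 2 = y) (hy : y = (a ^ 2 + b ^ 2) / 2) (hg : g ^ 2 < (a * b) ^ 2)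
    (hA : A ≤ 2 * Real.arctan (2 / 3 * ((a * b) ^ 2 - g ^ 2) / (a * V))) :
    A ≤ 2 * Real.arctan (1.08867 * (2 / 3 * (y ^ 2 - g ^ 2) / (V * s))) := by
  have h1 := a2_one a b g y s ha hb hs hsy hy hg
  have h2 : 2 / 3 * ((a * b) ^ 2 - g ^ 2) / (a * V) ≤
      1.08867 * (2 / 3 * (y ^ 2 - g ^ 2) / (V * s)) := by
    rw [← mul_div_assoc, div_le_div_iff₀ (by positivity) (by positivity)]
    have h3 : 2 / 3 * V * (((a * b) ^ 2 - g ^ 2) * s) ≤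
        2 / 3 * V * (1.08867 * (y ^ 2 - g ^ 2) * a) :=
      mul_le_mul_of_nonneg_left h1 (by positivity)
    linarith
  have h4 := Real.arctan_strictMono.monotone h2
  linarith

theorem real_AB (a b g y V A B : ℝ) (ha : 0 < a) (hb : 0 < b) (hV : 0 < V)
    (hy : y = (a ^ 2 + b ^ 2) / 2) (hg : g ^ 2 < (a * b) ^ 2)
    (hA : A ≤ 2 * Real.arctan (2 / 3 * ((a * b) ^ 2 - g ^ 2) / (a * V)))
    (hB : B ≤ 2 * Real.arctan (2 / 3 * ((a * b) ^ 2 - g ^ 2) / (b * V))) :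
    g ^ 2 < y ^ 2 ∧
    A ≤ 2 * Real.arctan (1.08867 * (2 / 3 * (y ^ 2 - g ^ 2) / (V * √y))) ∧
    B ≤ 2 * Real.arctan (1.08867 * (2 / 3 * (y ^ 2 - g ^ 2) / (V * √y))) ∧
    A + B ≤ 4 * Real.arctan (2 / 3 * (y ^ 2 - g ^ 2) / (V * √y)) := by
  have hy0 : 0 < y := by
    rw [hy]
    positivity
  have hs : 0 < √y := Real.sqrt_pos.mpr hy0
  have hsy : √y ^ 2 = y := Real.sq_sqrt hy0.le
  have hp : 0 < a * b := mul_pos ha hb
  have hpy : a * b ≤ y := by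
    rw [hy]
    nlinarith [sq_nonneg (a - b)]
  have hpy2 : (a * b) ^ 2 ≤ y ^ 2 := pow_le_pow_left₀ hp.le hpy 2
  refine ⟨lt_of_lt_of_le hg hpy2, a2_ang a b g y V _ A ha hb hV hs hsy hy hg hA, ?_, ?_⟩
  · have hy' : y = (b ^ 2 + a ^ 2) / 2 := by
      rw [hy]
      ring
    have hg' : g ^ 2 < (b * a) ^ 2 := by
      rw [mul_comm b a]
      exact hg
    have hB' : B ≤ 2 * Real.arctan (2 / 3 * ((b * a) ^ 2 - g ^ 2) / (b * V)) := by
      rw [mul_comm b a]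
      exact hB
    exact a2_ang b a g y V _ B hb ha hV hs hsy hy' hg' hB'
  · generalize √y = s at hs hsy
    have hP : 0 < (a * b) ^ 2 - g ^ 2 := by linarith
    have h1 := BccCov.G4.arctan_mid (2 / 3 * ((a * b) ^ 2 - g ^ 2) / (a * V))
      (2 / 3 * ((a * b) ^ 2 - g ^ 2) / (b * V)) (by positivity) (by positivity)
    have h2 : (2 / 3 * ((a * b) ^ 2 - g ^ 2) / (a * V) +
        2 / 3 * ((a * b) ^ 2 - g ^ 2) / (b * V)) / 2 =
        (2 / 3 * ((a * b) ^ 2 - g ^ 2) * (a + b)) / (2 * (a * b) * V) := by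
      field_simp
      ring
    have hab : a + b ≤ 2 * s := by
      have h3 : (a + b) ^ 2 ≤ (2 * s) ^ 2 := by
        have : (2 * s) ^ 2 = 4 * y := by
          rw [← hsy]
          ring
        rw [this, hy]
        nlinarith [sq_nonneg (a - b)]
      exact (abs_le_of_sq_le_sq' h3 (by positivity)).2
    have h4 : ((a * b) ^ 2 - g ^ 2) * y ≤ (a * b) * (y ^ 2 - g ^ 2) := by
      have h5 : 0 ≤ (y - a * b) * (a * b * y + g ^ 2) :=
        mul_nonneg (by linarith) (by positivity)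
      nlinarith
    have h6 : ((a * b) ^ 2 - g ^ 2) * (a + b) * s ≤ 2 * (a * b) * (y ^ 2 - g ^ 2) := by
      have h7 : ((a * b) ^ 2 - g ^ 2) * (a + b) ≤ ((a * b) ^ 2 - g ^ 2) * (2 * s) :=
        mul_le_mul_of_nonneg_left hab hP.le
      have h8 : ((a * b) ^ 2 - g ^ 2) * (a + b) * s ≤ ((a * b) ^ 2 - g ^ 2) * (2 * s) * s :=
        mul_le_mul_of_nonneg_right h7 hs.le
      have h9 : ((a * b) ^ 2 - g ^ 2) * (2 * s) * s = 2 * (((a * b) ^ 2 - g ^ 2) * y) := by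
        rw [← hsy]
        ring
      linarith
    have h10 : (2 / 3 * ((a * b) ^ 2 - g ^ 2) * (a + b)) / (2 * (a * b) * V) ≤
        2 / 3 * (y ^ 2 - g ^ 2) / (V * s) := by
      rw [div_le_div_iff₀ (by positivity) (by positivity)]
      have h11 : 2 / 3 * V * (((a * b) ^ 2 - g ^ 2) * (a + b) * s) ≤
          2 / 3 * V * (2 * (a * b) * (y ^ 2 - g ^ 2)) :=
        mul_le_mul_of_nonneg_left h6 (by positivity)
      linarith
    rw [h2] at h1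
    have h12 := Real.arctan_strictMono.monotone h10
    linarith

end BccP.A2
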