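import Pool.Agent.PEN.Defs

/-!
[PEN-A3] volume bounds for a tetrahedron inscribed in the unit sphere.

PROOF. (1) `BccCov.params` (G2) with `ρ = 1` gives `a b s d` with `|det3| = 4 a b s d`, `s ≤ 1`,
`d ≤ √(1-a²) + √(1-b²)`; but it does not say `a = |xy|/2`. So repeat its proof (copy) or use `A1`-like
data: with `a = dist x y / 2`, `b = dist z w / 2`. Then `V = |det3|/6 = (2/3) a b s d ≤
(2/3) a b (√(1-a²) + √(1-b²))`, `a b ≤ y := (a²+b²)/2` and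
`√(1-a²) + √(1-b²) ≤ 2 √(1-y)` (concavity: square both sides), so `V ≤ 4/3 y √(1-y) = VD y`.
Also `y < 1` because `VD y ≥ V > 0` (`√(1-y) > 0`), where `y = (sd x y + sd z w)/8`.

(2) `VD y ≤ 8 √3 / 27` for `0 ≤ y ≤ 1`: put `r = √(1-y)`, `4/3 (1-r²) r ≤ 8√3/27`, i.e.
`(r - 1/√3)² (r + 2/√3) ≥ 0`.
-/

set_option autoImplicit false

namespace BccP.A3

open BccCov BccO

open scoped InnerProductSpace

lemma vol_core (x y z w o : E3) (h : det3 x y z w ≠ 0) (hx : dist x o = 1) (hy : dist y o = 1)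
    (hz : dist z o = 1) (hw : dist w o = 1) :
    ∃ a b : ℝ, 0 < a ∧ a ≤ 1 ∧ 0 < b ∧ b ≤ 1 ∧ sd x y = 4 * a ^ 2 ∧ sd z w = 4 * b ^ 2 ∧
      |det3 x y z w| ≤ 4 * a * b * (√(1 - a ^ 2) + √(1 - b ^ 2)) := by
  have hdet2 : 0 < det3 x y z w ^ 2 := by positivity
  set N2 : ℝ := ⟪y - x, y - x⟫_ℝ * ⟪w - z, w - z⟫_ℝ - ⟪y - x, w - z⟫_ℝ ^ 2 with hN2
  have hN : 0 < N2 := by
    have := G2.det_le x y z w (z - x) 0 0 (by simp)
    rw [← hN2] at this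
    by_contra hneg
    push Not at hneg
    nlinarith [sq_nonneg ‖z - x‖]
  have hA0 : 0 ≤ ⟪y - x, y - x⟫_ℝ := real_inner_self_nonneg
  have hB0 : 0 ≤ ⟪w - z, w - z⟫_ℝ := real_inner_self_nonneg
  have hAB : 0 < ⟪y - x, y - x⟫_ℝ * ⟪w - z, w - z⟫_ℝ := by
    nlinarith [sq_nonneg ⟪y - x, w - z⟫_ℝ]
  have hA : 0 < ⟪y - x, y - x⟫_ℝ := by
    rcases hA0.lt_or_eq with h' | h'
    · exact h'
    · rw [← h'] at hAB; simp at hAB
  have hB : 0 < ⟪w - z, w - z⟫_ℝ := by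
    rcases hB0.lt_or_eq with h' | h'
    · exact h'
    · rw [← h'] at hAB; simp at hAB
  have hAn : 0 < ‖y - x‖ := by
    rw [real_inner_self_eq_norm_sq] at hA
    exact lt_of_le_of_ne (norm_nonneg _) (fun h0 => by rw [← h0] at hA; simp at hA)
  have hBn : 0 < ‖w - z‖ := by
    rw [real_inner_self_eq_norm_sq] at hB
    exact lt_of_le_of_ne (norm_nonneg _) (fun h0 => by rw [← h0] at hB; simp at hB)
  set a : ℝ := ‖y - x‖ / 2 with ha
  set b : ℝ := ‖w - z‖ / 2 with hb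
  have ha0 : 0 < a := by positivity
  have hb0 : 0 < b := by positivity
  have h1 : ⟪y - x, y - x⟫_ℝ = 4 * a ^ 2 := by
    rw [real_inner_self_eq_norm_sq, ha]; ring
  have h2 : ⟪w - z, w - z⟫_ℝ = 4 * b ^ 2 := by
    rw [real_inner_self_eq_norm_sq, hb]; ring
  have hsN : 0 < √N2 := Real.sqrt_pos.2 hN
  have hN2' : √N2 ^ 2 = N2 := Real.sq_sqrt hN.le
  have hNab : √N2 ≤ 4 * a * b := by
    rw [show 4 * a * b = √((4 * a * b) ^ 2) from (Real.sqrt_sq (by positivity)).symm]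
    apply Real.sqrt_le_sqrt
    rw [hN2, h1, h2]
    nlinarith [sq_nonneg ⟪y - x, w - z⟫_ℝ]
  refine ⟨a, b, ha0, ?_, hb0, ?_, ?_, ?_, ?_⟩
  · have : ‖y - x‖ ≤ 2 := by
      rw [← dist_eq_norm]
      calc dist y x ≤ dist y o + dist o x := dist_triangle _ _ _
        _ = 2 := by rw [dist_comm o x, hx, hy]; norm_num
    rw [ha]; linarith
  · have : ‖w - z‖ ≤ 2 := by
      rw [← dist_eq_norm]
      calc dist w z ≤ dist w o + dist o z := dist_triangle _ _ _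
        _ = 2 := by rw [dist_comm o z, hz, hw]; norm_num
    rw [hb]; linarith
  · unfold sd
    rw [dist_comm, dist_eq_norm, ha]; ring
  · unfold sd
    rw [dist_comm, dist_eq_norm, hb]; ring
  · have hle := G2.det_le x y z w ((1 / 2 : ℝ) • (z + w) - (1 / 2 : ℝ) • (x + y)) (-1 / 2) (1 / 2)
      (by ext i; simp; ring)
    rw [← hN2, ← sq_abs (det3 x y z w)] at hle
    have hd_le : |det3 x y z w| ≤ √N2 * ‖(1 / 2 : ℝ) • (z + w) - (1 / 2 : ℝ) • (x + y)‖ := by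
      refine (pow_le_pow_iff_left₀ (abs_nonneg _) (by positivity) two_ne_zero).1 ?_
      rw [mul_pow, hN2']
      linarith
    have hmid : ‖(1 / 2 : ℝ) • (z + w) - (1 / 2 : ℝ) • (x + y)‖
        ≤ √(1 - a ^ 2) + √(1 - b ^ 2) := by
      have e1 := G2.mid_dist x y o 1 a hx hy h1
      have e2 := G2.mid_dist z w o 1 b hz hw h2
      rw [one_pow] at e1 e2
      rw [← e1, ← e2]
      have : (1 / 2 : ℝ) • (z + w) - (1 / 2 : ℝ) • (x + y)
          = ((1 / 2 : ℝ) • (z + w) - o) - ((1 / 2 : ℝ) • (x + y) - o) := by abel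
      rw [this]
      refine (norm_sub_le _ _).trans ?_
      rw [add_comm]
    calc |det3 x y z w| ≤ √N2 * ‖(1 / 2 : ℝ) • (z + w) - (1 / 2 : ℝ) • (x + y)‖ := hd_le
      _ ≤ √N2 * (√(1 - a ^ 2) + √(1 - b ^ 2)) := mul_le_mul_of_nonneg_left hmid hsN.le
      _ ≤ 4 * a * b * (√(1 - a ^ 2) + √(1 - b ^ 2)) :=
        mul_le_mul_of_nonneg_right hNab (by positivity)

theorem vol_le (x y z w o : E3) (h : det3 x y z w ≠ 0) (hx : dist x o = 1) (hy : dist y o = 1)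
    (hz : dist z o = 1) (hw : dist w o = 1) :
    0 < (sd x y + sd z w) / 8 ∧ (sd x y + sd z w) / 8 < 1 ∧
      |det3 x y z w| / 6 ≤ VD ((sd x y + sd z w) / 8) := by
  obtain ⟨a, b, ha0, ha1, hb0, hb1, e1, e2, hV⟩ := vol_core x y z w o h hx hy hz hw
  have ey : (sd x y + sd z w) / 8 = (a ^ 2 + b ^ 2) / 2 := by rw [e1, e2]; ring
  rw [ey]
  have hp : 0 < |det3 x y z w| := abs_pos.2 h
  have ha2 : a ^ 2 ≤ 1 := by nlinarith
  have hb2 : b ^ 2 ≤ 1 := by nlinarith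
  have sa : √(1 - a ^ 2) ^ 2 = 1 - a ^ 2 := Real.sq_sqrt (by linarith)
  have sb : √(1 - b ^ 2) ^ 2 = 1 - b ^ 2 := Real.sq_sqrt (by linarith)
  have sa0 : 0 ≤ √(1 - a ^ 2) := Real.sqrt_nonneg _
  have sb0 : 0 ≤ √(1 - b ^ 2) := Real.sqrt_nonneg _
  have sy : √(1 - (a ^ 2 + b ^ 2) / 2) ^ 2 = 1 - (a ^ 2 + b ^ 2) / 2 :=
    Real.sq_sqrt (by linarith)
  have sy0 : 0 ≤ √(1 - (a ^ 2 + b ^ 2) / 2) := Real.sqrt_nonneg _
  have hsum : √(1 - a ^ 2) + √(1 - b ^ 2) ≤ 2 * √(1 - (a ^ 2 + b ^ 2) / 2) := by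
    refine (pow_le_pow_iff_left₀ (by positivity) (by positivity) two_ne_zero).1 ?_
    nlinarith [sq_nonneg (√(1 - a ^ 2) - √(1 - b ^ 2))]
  have hab : a * b ≤ (a ^ 2 + b ^ 2) / 2 := by nlinarith [sq_nonneg (a - b)]
  have hle : |det3 x y z w| / 6 ≤ VD ((a ^ 2 + b ^ 2) / 2) := by
    unfold VD
    have h1 : 4 * a * b * (√(1 - a ^ 2) + √(1 - b ^ 2))
        ≤ 4 * a * b * (2 * √(1 - (a ^ 2 + b ^ 2) / 2)) :=
      mul_le_mul_of_nonneg_left hsum (by positivity)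
    have h2 : a * b * √(1 - (a ^ 2 + b ^ 2) / 2)
        ≤ (a ^ 2 + b ^ 2) / 2 * √(1 - (a ^ 2 + b ^ 2) / 2) :=
      mul_le_mul_of_nonneg_right hab sy0
    nlinarith
  refine ⟨by positivity, ?_, hle⟩
  by_contra hcon
  push Not at hcon
  have h0 : √(1 - (a ^ 2 + b ^ 2) / 2) = 0 := Real.sqrt_eq_zero_of_nonpos (by linarith)
  unfold VD at hle
  rw [h0, mul_zero] at hle
  linarith

theorem VD_le (y : ℝ) (h0 : 0 ≤ y) (h1 : y ≤ 1) : VD y ≤ 8 * √3 / 27 := by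
  unfold VD
  have hr : √(1 - y) ^ 2 = 1 - y := Real.sq_sqrt (by linarith)
  have hr0 : 0 ≤ √(1 - y) := Real.sqrt_nonneg _
  set r : ℝ := √(1 - y)
  have h3 : √3 ^ 2 = 3 := Real.sq_sqrt (by norm_num)
  have h30 : 0 ≤ √3 := Real.sqrt_nonneg _
  have hy : y = 1 - r ^ 2 := by linarith
  rw [hy]
  have key : 0 ≤ (r - √3 / 3) ^ 2 * (r + 2 * (√3 / 3)) := by positivity
  have e : (r - √3 / 3) ^ 2 * (r + 2 * (√3 / 3))
      = r ^ 3 - √3 ^ 2 / 3 * r + 2 * (√3 ^ 2 * √3) / 27 := by ring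
  rw [e, h3] at key
  nlinarith

end BccP.A3
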