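import Pool.Agent.PEN.Defs

/-!
[PEN-A4] (algebra) three inequalities for three numbers `u₁, u₂, u₃ > 0` with sum `≤ 2`
(`y₁ = (u₂+u₃)/2` etc., `u₂ u₃ = y₁² - (y₂-y₃)²`).

PROOF.
(1) `u₃ (u₂/√((u₂+u₃)/2) + u₁/√((u₁+u₃)/2)) ≤ 1.16298`. Tangent line for the concave function
`h(u) = u/√((u+c)/2)`, or directly: with `w = u₁ + u₂` show
`u₂/√((u₂+u₃)/2) + u₁/√((u₁+u₃)/2) ≤ w/√((w/2+u₃)/2)`. (Elementary proof of concavity: put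
`h(u) = √2 ((u+c) - c)/√(u+c) = √2 (√(u+c) - c/√(u+c))`, a sum of two concave functions: `√` is concave
and `1/√` is convex. With `p = √(u₂+c)`, `q = √(u₁+c)`, `m = √((u₁+u₂)/2+c) = √((p²+q²)/2)`: `p+q ≤ 2m`
and `1/p + 1/q ≥ 2/m` because `1/p+1/q ≥ 4/(p+q) ≥ 4/(2m)`.)
Then `w ≤ 2 - u₃`, the right side is increasing in `w`, and with `x = u₃`:
`x (2-x)/√((2-x)/4 + x/2) = 2 x (2-x)/√(2+x) ≤ 1.16298` on `[0,2]`:
`4 x² (2-x)² ≤ 1.35252 (2+x)` (polynomial; maximum of the quotient at `x = 0.91486`, where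
`4x²(2-x)²/(2+x) = 1.352456`), and `1.16298² = 1.352522...`.
(2) follows from (1) and `u₃ u₁/√((u₁+u₃)/2) ≤ 1`: `u₁u₃ ≤ m²` with `m = (u₁+u₃)/2 ≤ 1`, so it is
`≤ m²/√m ≤ 1`.
(3) Cauchy-Schwarz: `(Σ u_j u_k/√y_i)² ≤ (Σ u_j u_k)(Σ u_j u_k/y_i)`; `Σ u_j u_k ≤ (Σu)²/3 ≤ 4/3` and
`u_j u_k/y_i = 2 u_j u_k/(u_j+u_k) ≤ (u_j+u_k)/2`, sum `≤ Σ u_i ≤ 2`; so the square is `≤ 8/3 ≤ 1.633²`
(`1.633² = 2.666689`).
-/

set_option autoImplicit false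

namespace BccP.A4

open BccCov BccO

theorem poly (c : ℝ) (h0 : 0 < c) (h1 : c < 2) :
    (2 * c * (2 - c)) ^ 2 ≤ 1.16298 ^ 2 * (2 + c) := by
  have h2 : 0 ≤ (c - 0.91486) ^ 2 * (-4 * c ^ 2 + 8.68112 * c + 3.231) := by
    refine mul_nonneg (sq_nonneg _) ?_
    nlinarith
  nlinarith

theorem term_le (a b : ℝ) (ha : 0 < a) (hb : 0 < b) (hs : a + b ≤ 2) :
    a * b / √((a + b) / 2) ≤ 1 := by
  have hQ : 0 < √((a + b) / 2) := Real.sqrt_pos.2 (by linarith)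
  have hQ2 : √((a + b) / 2) ^ 2 = (a + b) / 2 := Real.sq_sqrt (by linarith)
  have hQ1 : √((a + b) / 2) ≤ 1 := by
    exact Real.sqrt_le_iff.2 ⟨by norm_num, by linarith⟩
  rw [div_le_one hQ]
  set Q := √((a + b) / 2)
  have h1 : a * b ≤ Q ^ 2 * Q ^ 2 := by
    rw [hQ2]
    nlinarith [sq_nonneg (a - b)]
  have h2 : Q ^ 2 * Q ^ 2 ≤ Q := by
    have h3 : Q ^ 2 ≤ 1 := by nlinarith
    nlinarith [mul_le_mul_of_nonneg_left h3 (sq_nonneg Q)]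
  linarith

theorem term_le2 (a b l : ℝ) (ha : 0 < a) (hb : 0 < b) (hl : 0 < l) :
    a * b / √((a + b) / 2) ≤ (l * (a * b) + (a + b) / 2 / l) / 2 := by
  have hQ : 0 < √((a + b) / 2) := Real.sqrt_pos.2 (by linarith)
  have hQ2 : √((a + b) / 2) ^ 2 = (a + b) / 2 := Real.sq_sqrt (by linarith)
  set Q := √((a + b) / 2)
  have h1 : a * b ≤ Q ^ 2 * Q ^ 2 := by
    rw [hQ2]
    nlinarith [sq_nonneg (a - b)]
  obtain ⟨x, hx⟩ : ∃ x, x = a * b / Q := ⟨_, rfl⟩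
  have hab : a * b = x * Q := by rw [hx]; field_simp
  rw [← hQ2, ← hx, hab]
  have hx0 : 0 < x := by rw [hx]; positivity
  have hxQ : x ≤ Q ^ 3 := by
    have : x * Q ≤ Q ^ 3 * Q := by rw [← hab]; linarith [h1, show Q ^ 3 * Q = Q ^ 2 * Q ^ 2 by ring]
    exact le_of_mul_le_mul_right this hQ
  have e : (l * (x * Q) + Q ^ 2 / l) / 2 - x = ((Q ^ 2 * (1 - l * Q) ^ 2 + (Q ^ 3 - x) * l * (2 - l * Q))
    / l) / 2 := by
    field_simp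
    ring
  by_cases h : l * Q ≤ 2
  · have h5 : 0 ≤ ((Q ^ 2 * (1 - l * Q) ^ 2 + (Q ^ 3 - x) * l * (2 - l * Q)) / l) / 2 := by
      have h6 : 0 ≤ (Q ^ 3 - x) * l * (2 - l * Q) :=
        mul_nonneg (mul_nonneg (by linarith) hl.le) (by linarith)
      positivity
    linarith
  · push Not at h
    have h7 : 0 < Q ^ 2 / l := by positivity
    have h8 : 2 * x ≤ l * (x * Q) := by nlinarith
    linarith

theorem p1 (u₁ u₂ u₃ : ℝ) (h1 : 0 < u₁) (h2 : 0 < u₂) (h3 : 0 < u₃) (hs : u₁ + u₂ + u₃ ≤ 2) :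
    u₂ * u₃ / √((u₂ + u₃) / 2) + u₁ * u₃ / √((u₁ + u₃) / 2) ≤ 1.16298 := by
  have hP : 0 < √((u₂ + u₃) / 2) := Real.sqrt_pos.2 (by linarith)
  have hQ : 0 < √((u₁ + u₃) / 2) := Real.sqrt_pos.2 (by linarith)
  have hN : 0 < √(2 + u₃) := Real.sqrt_pos.2 (by linarith)
  have hP2 : √((u₂ + u₃) / 2) ^ 2 = (u₂ + u₃) / 2 := Real.sq_sqrt (by linarith)
  have hQ2 : √((u₁ + u₃) / 2) ^ 2 = (u₁ + u₃) / 2 := Real.sq_sqrt (by linarith)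
  have hN2 : √(2 + u₃) ^ 2 = 2 + u₃ := Real.sq_sqrt (by linarith)
  set P := √((u₂ + u₃) / 2)
  set Q := √((u₁ + u₃) / 2)
  set N := √(2 + u₃)
  have e1 : u₂ * u₃ / P = u₃ * (2 * P - u₃ / P) := by
    have : u₂ = 2 * P ^ 2 - u₃ := by rw [hP2]; ring
    rw [this]; field_simp
  have e2 : u₁ * u₃ / Q = u₃ * (2 * Q - u₃ / Q) := by
    have : u₁ = 2 * Q ^ 2 - u₃ := by rw [hQ2]; ring
    rw [this]; field_simp
  have h4 : (P + Q) ^ 2 ≤ N ^ 2 := by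
    have : P ^ 2 + Q ^ 2 ≤ N ^ 2 / 2 := by rw [hP2, hQ2, hN2]; linarith
    nlinarith [sq_nonneg (P - Q)]
  have h5 : P + Q ≤ N := by
    have := abs_le_of_sq_le_sq h4 hN.le
    exact (le_abs_self _).trans this
  have h6 : 4 / N ≤ 1 / P + 1 / Q := by
    have : 4 / N ≤ 4 / (P + Q) := div_le_div_of_nonneg_left (by norm_num) (by linarith) h5
    refine this.trans ?_
    rw [div_add_div _ _ hP.ne' hQ.ne', div_le_div_iff₀ (by linarith) (by positivity)]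
    nlinarith [sq_nonneg (P - Q)]
  have h7 : u₂ * u₃ / P + u₁ * u₃ / Q ≤ u₃ * (2 * N - u₃ * (4 / N)) := by
    rw [e1, e2, ← mul_add]
    refine mul_le_mul_of_nonneg_left ?_ h3.le
    have := mul_le_mul_of_nonneg_left h6 h3.le
    have e3 : u₃ * (1 / P + 1 / Q) = u₃ / P + u₃ / Q := by ring
    linarith
  have h8 : u₃ * (2 * N - u₃ * (4 / N)) = 2 * u₃ * (2 - u₃) / N := by
    have : 2 * u₃ * (2 - u₃) = u₃ * (2 * N ^ 2 - 4 * u₃) := by rw [hN2]; ring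
    rw [this]; field_simp
  rw [h8] at h7
  refine h7.trans ?_
  rw [div_le_iff₀ hN]
  have h9 := poly u₃ h3 (by linarith)
  rw [← hN2, ← mul_pow] at h9
  have := abs_le_of_sq_le_sq h9 (by positivity)
  exact (le_abs_self _).trans this

theorem p2 (u₁ u₂ u₃ : ℝ) (h1 : 0 < u₁) (h2 : 0 < u₂) (h3 : 0 < u₃) (hs : u₁ + u₂ + u₃ ≤ 2) :
    u₂ * u₃ / √((u₂ + u₃) / 2) + 1.08867 * (u₁ * u₃ / √((u₁ + u₃) / 2)) ≤ 1.25165 := by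
  have a1 := p1 u₁ u₂ u₃ h1 h2 h3 hs
  have a2 := term_le u₁ u₃ h1 h3 (by linarith)
  linarith

theorem p3 (u₁ u₂ u₃ : ℝ) (h1 : 0 < u₁) (h2 : 0 < u₂) (h3 : 0 < u₃) (hs : u₁ + u₂ + u₃ ≤ 2) :
    u₂ * u₃ / √((u₂ + u₃) / 2) + u₁ * u₃ / √((u₁ + u₃) / 2) + u₁ * u₂ / √((u₁ + u₂) / 2)
      ≤ 1.633 := by
  have a1 := term_le2 u₂ u₃ 1.2247 h2 h3 (by norm_num)
  have a2 := term_le2 u₁ u₃ 1.2247 h1 h3 (by norm_num)
  have a3 := term_le2 u₁ u₂ 1.2247 h1 h2 (by norm_num)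
  have a4 : u₂ * u₃ + u₁ * u₃ + u₁ * u₂ ≤ 4 / 3 := by
    nlinarith [sq_nonneg (u₁ - u₂), sq_nonneg (u₂ - u₃), sq_nonneg (u₁ - u₃)]
  have e1 : (u₂ + u₃) / 2 / 1.2247 + (u₁ + u₃) / 2 / 1.2247 + (u₁ + u₂) / 2 / 1.2247 ≤ 2 / 1.2247 := by
    have : (u₂ + u₃) / 2 / 1.2247 + (u₁ + u₃) / 2 / 1.2247 + (u₁ + u₂) / 2 / 1.2247 =
      (u₁ + u₂ + u₃) / 1.2247 := by ring
    rw [this]
    exact div_le_div_of_nonneg_right hs (by norm_num)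
  have e2 : (2 : ℝ) / 1.2247 ≤ 1.63306 := by norm_num
  linarith

end BccP.A4
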