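import Pool.Agent.PEN.A1
import Pool.Agent.PEN.A2
import Pool.Agent.PEN.A3
import Pool.Agent.PEN.A4

/-!
[PEN-A5] the arctan bounds for a tetrahedron inscribed in the unit sphere.

Notation: pair 1 = (xy | zw), pair 2 = (xz | yw), pair 3 = (xw | yz); `yᵢ = (sum of the two squared
edges)/8`; `V = |det3|/6`; `Zᵢ = 2/3 (yᵢ² - (yⱼ-yₖ)²)/(V √yᵢ)`.

PROOF. `A1.par` for the three orders `(x,y,z,w)`, `(x,z,y,w)`, `(x,w,y,z)` (`det3` changes only its sign: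
`det3_swap12`, `det3_swap23` in O/G2.lean; `sd_comm`), then `A2.real_AB` with
`y = yᵢ`, `g = ± (yⱼ - yₖ)` (check: `(sd x w + sd y z - sd x z - sd y w)/8 = y₃ - y₂`). Put
`u₁ = y₂+y₃-y₁` etc.: `g² < y²` gives `u₂u₃ > 0`, `u₁u₃ > 0`, `u₁u₂ > 0`, hence all `uᵢ > 0` (the sums
`uⱼ+uₖ = 2yᵢ` are positive); `uⱼuₖ = yᵢ² - (yⱼ-yₖ)²`; `Σu = Σy = (Σ sd)/8 ≤ 2` (`sum_sd_le`, R = 1). Now
`A4`: `Z₁+Z₂ ≤ 2/3·1.16298/V = 2·0.38766/V`, `Z₁ + 1.08867 Z₂ ≤ 2·0.41722/V`, `Z₁+Z₂+Z₃ ≤ 2/3·1.633/V`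
(for all orders). Finally `arctan a + arctan b ≤ 2 arctan ((a+b)/2)` (`BccCov.G4.arctan_mid`), and for
three `arctan a + arctan b + arctan c ≤ 3 arctan ((a+b+c)/3)` (concavity, or tangent line).
E.g. `adj`: `α+β ≤ 2 arctan (1.08867 Z₁) + 2 arctan (1.08867 Z₂) ≤ 4 arctan (1.08867 (Z₁+Z₂)/2) ≤
4 arctan (1.08867·0.38766/V) ≤ 4 arctan (0.42204/V)`;
`mix`: `(A+B)/2 ≤ 2 arctan Z₁`, `β ≤ 2 arctan (1.08867 Z₂)`; `dbl`: `A+B ≤ 4 arctan Zᵢ`.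
-/

set_option autoImplicit false

namespace BccP.A5

open BccCov BccO

theorem a5_three (a b c : ℝ) (ha : 0 ≤ a) (hb : 0 ≤ b) (hc : 0 ≤ c) :
    Real.arctan a + Real.arctan b + Real.arctan c ≤ 3 * Real.arctan ((a + b + c) / 3) := by
  have h1 := BccCov.G4.arctan_mid a b ha hb
  have h2 := BccCov.G4.arctan_concave.2 (x := (a + b) / 2) (y := c)
    (Set.mem_Ici.2 (by positivity)) (Set.mem_Ici.2 hc)
    (show (0 : ℝ) ≤ 2 / 3 by norm_num) (show (0 : ℝ) ≤ 1 / 3 by norm_num) (by norm_num)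
  simp only [smul_eq_mul] at h2
  have e : 2 / 3 * ((a + b) / 2) + 1 / 3 * c = (a + b + c) / 3 := by ring
  rw [e] at h2
  linarith

theorem a5_pos {y1 y2 y3 : ℝ} (h1 : 0 < y1) (h : (y2 - y3) ^ 2 < y1 ^ 2) :
    0 < y1 + y3 - y2 ∧ 0 < y1 + y2 - y3 := by
  have h2 := abs_lt.1 (abs_lt_of_sq_lt_sq h h1.le)
  constructor
  · linarith [h2.2]
  · linarith [h2.1]

section

variable {y1 y2 y3 : ℝ} (h1 : 0 < y1) (h2 : 0 < y2) (h3 : 0 < y3) (hs : y1 + y2 + y3 ≤ 2)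
  (g1 : (y2 - y3) ^ 2 < y1 ^ 2) (g2 : (y1 - y3) ^ 2 < y2 ^ 2)

include h1 h2 hs g1 g2

theorem a5_p1 : (y1 ^ 2 - (y2 - y3) ^ 2) / √y1 + (y2 ^ 2 - (y1 - y3) ^ 2) / √y2 ≤ 1.16298 := by
  obtain ⟨p1, p2⟩ := a5_pos h1 g1
  obtain ⟨p3, p4⟩ := a5_pos h2 g2
  have h := A4.p1 (y2 + y3 - y1) (y1 + y3 - y2) (y1 + y2 - y3) p3 p1 p2 (by linarith)
  have e1 : (y1 + y3 - y2) * (y1 + y2 - y3) = y1 ^ 2 - (y2 - y3) ^ 2 := by ring
  have e2 : (y1 + y3 - y2 + (y1 + y2 - y3)) / 2 = y1 := by ring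
  have e3 : (y2 + y3 - y1) * (y1 + y2 - y3) = y2 ^ 2 - (y1 - y3) ^ 2 := by ring
  have e4 : (y2 + y3 - y1 + (y1 + y2 - y3)) / 2 = y2 := by ring
  rwa [e1, e2, e3, e4] at h

theorem a5_p2 : (y1 ^ 2 - (y2 - y3) ^ 2) / √y1 +
    1.08867 * ((y2 ^ 2 - (y1 - y3) ^ 2) / √y2) ≤ 1.25165 := by
  obtain ⟨p1, p2⟩ := a5_pos h1 g1
  obtain ⟨p3, p4⟩ := a5_pos h2 g2
  have h := A4.p2 (y2 + y3 - y1) (y1 + y3 - y2) (y1 + y2 - y3) p3 p1 p2 (by linarith)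
  have e1 : (y1 + y3 - y2) * (y1 + y2 - y3) = y1 ^ 2 - (y2 - y3) ^ 2 := by ring
  have e2 : (y1 + y3 - y2 + (y1 + y2 - y3)) / 2 = y1 := by ring
  have e3 : (y2 + y3 - y1) * (y1 + y2 - y3) = y2 ^ 2 - (y1 - y3) ^ 2 := by ring
  have e4 : (y2 + y3 - y1 + (y1 + y2 - y3)) / 2 = y2 := by ring
  rwa [e1, e2, e3, e4] at h

theorem a5_p3 : (y1 ^ 2 - (y2 - y3) ^ 2) / √y1 + (y2 ^ 2 - (y1 - y3) ^ 2) / √y2 +
    (y3 ^ 2 - (y1 - y2) ^ 2) / √y3 ≤ 1.633 := by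
  obtain ⟨p1, p2⟩ := a5_pos h1 g1
  obtain ⟨p3, p4⟩ := a5_pos h2 g2
  have h := A4.p3 (y2 + y3 - y1) (y1 + y3 - y2) (y1 + y2 - y3) p3 p1 p2 (by linarith)
  have e1 : (y1 + y3 - y2) * (y1 + y2 - y3) = y1 ^ 2 - (y2 - y3) ^ 2 := by ring
  have e2 : (y1 + y3 - y2 + (y1 + y2 - y3)) / 2 = y1 := by ring
  have e3 : (y2 + y3 - y1) * (y1 + y2 - y3) = y2 ^ 2 - (y1 - y3) ^ 2 := by ring
  have e4 : (y2 + y3 - y1 + (y1 + y2 - y3)) / 2 = y2 := by ring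
  have e5 : (y2 + y3 - y1) * (y1 + y3 - y2) = y3 ^ 2 - (y1 - y2) ^ 2 := by ring
  have e6 : (y2 + y3 - y1 + (y1 + y3 - y2)) / 2 = y3 := by ring
  rwa [e1, e2, e3, e4, e5, e6] at h

end

/-- the abstract conclusion -/
theorem a5_core (V : ℝ) (hV : 0 < V) (A B Y Z : Fin 3 → ℝ) (hZ0 : ∀ i, 0 ≤ Z i)
    (hA : ∀ i, ∀ α, (α = A i ∨ α = B i) → α ≤ 2 * Real.arctan (1.08867 * Z i))
    (hAB : ∀ i, A i + B i ≤ 4 * Real.arctan (Z i))
    (hZ : ∀ i, Z i ≤ 2 / 3 * (Y i * √(Y i)) / V)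
    (h1 : ∀ i j, i ≠ j → Z i + Z j ≤ 2 / 3 * 1.16298 / V)
    (h2 : ∀ i j, i ≠ j → Z i + 1.08867 * Z j ≤ 2 / 3 * 1.25165 / V)
    (h3 : Z 0 + Z 1 + Z 2 ≤ 2 / 3 * 1.633 / V) :
    (∀ i, ∀ α, (α = A i ∨ α = B i) → α ≤ 2 * Real.arctan (1.08867 * (2 / 3 * (Y i * √(Y i)) / V))) ∧
    (∀ i, A i + B i ≤ 4 * Real.arctan (2 / 3 * (Y i * √(Y i)) / V)) ∧
    (∀ i j, i ≠ j → ∀ α β, (α = A i ∨ α = B i) → (β = A j ∨ β = B j) →
      α + β ≤ 4 * Real.arctan (0.42204 / V)) ∧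
    (∀ i j, i ≠ j → ∀ β, (β = A j ∨ β = B j) →
      (A i + B i) / 2 + β ≤ 4 * Real.arctan (0.41722 / V)) ∧
    (∀ i j, i ≠ j → A i + B i + (A j + B j) ≤ 8 * Real.arctan (0.38766 / V)) ∧
    (∀ α β γ, (α = A 0 ∨ α = B 0) → (β = A 1 ∨ β = B 1) → (γ = A 2 ∨ γ = B 2) →
      α + β + γ ≤ 6 * Real.arctan (0.39507 / V)) := by
  have mono : ∀ a b : ℝ, a ≤ b → Real.arctan a ≤ Real.arctan b := fun a b h =>
    Real.arctan_strictMono.monotone h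
  have hW0 : ∀ i, 0 ≤ 1.08867 * Z i := fun i => mul_nonneg (by norm_num) (hZ0 i)
  have dv : ∀ a b : ℝ, a ≤ b → a / V ≤ b / V := fun a b h => div_le_div_of_nonneg_right h hV.le
  refine ⟨fun i α hα => ?_, fun i => ?_, fun i j hij α β hα hβ => ?_, fun i j hij β hβ => ?_,
    fun i j hij => ?_, fun α β γ hα hβ hγ => ?_⟩
  · have := mono _ _ (mul_le_mul_of_nonneg_left (hZ i) (show (0 : ℝ) ≤ 1.08867 by norm_num))
    linarith [hA i α hα]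
  · linarith [hAB i, mono _ _ (hZ i)]
  · have k1 := BccCov.G4.arctan_mid _ _ (hW0 i) (hW0 j)
    have k2 : (1.08867 * Z i + 1.08867 * Z j) / 2 ≤ 0.42204 / V := by
      have k3 := h1 i j hij
      have k4 := dv (1.08867 * (2 / 3 * 1.16298) / 2) 0.42204 (by norm_num)
      have k5 : 1.08867 * (2 / 3 * 1.16298) / 2 / V = 1.08867 * (2 / 3 * 1.16298 / V) / 2 := by ring
      rw [k5] at k4
      linarith
    linarith [hA i α hα, hA j β hβ, mono _ _ k2]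
  · have k1 := BccCov.G4.arctan_mid _ _ (hZ0 i) (hW0 j)
    have k2 : (Z i + 1.08867 * Z j) / 2 ≤ 0.41722 / V := by
      have k3 := h2 i j hij
      have k4 := dv (2 / 3 * 1.25165 / 2) 0.41722 (by norm_num)
      have k5 : 2 / 3 * 1.25165 / 2 / V = 2 / 3 * 1.25165 / V / 2 := by ring
      rw [k5] at k4
      linarith
    linarith [hAB i, hA j β hβ, mono _ _ k2]
  · have k1 := BccCov.G4.arctan_mid _ _ (hZ0 i) (hZ0 j)
    have k2 : (Z i + Z j) / 2 ≤ 0.38766 / V := by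
      have k3 := h1 i j hij
      have k4 := dv (2 / 3 * 1.16298 / 2) 0.38766 (by norm_num)
      have k5 : 2 / 3 * 1.16298 / 2 / V = 2 / 3 * 1.16298 / V / 2 := by ring
      rw [k5] at k4
      linarith
    linarith [hAB i, hAB j, mono _ _ k2]
  · have k1 := a5_three _ _ _ (hW0 0) (hW0 1) (hW0 2)
    have k2 : (1.08867 * Z 0 + 1.08867 * Z 1 + 1.08867 * Z 2) / 3 ≤ 0.39507 / V := by
      have k4 := dv (1.08867 * (2 / 3 * 1.633) / 3) 0.39507 (by norm_num)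
      have k5 : 1.08867 * (2 / 3 * 1.633) / 3 / V = 1.08867 * (2 / 3 * 1.633 / V) / 3 := by ring
      rw [k5] at k4
      linarith
    linarith [hA 0 α hα, hA 1 β hβ, hA 2 γ hγ, mono _ _ k2]

/-- one pair -/
theorem a5_pair (x y z w : E3) (h : det3 x y z w ≠ 0) :
    0 < (sd x y + sd z w) / 8 ∧
    ((sd x w + sd y z - sd x z - sd y w) / 8) ^ 2 < ((sd x y + sd z w) / 8) ^ 2 ∧
    dih x y z w ≤ 2 * Real.arctan (1.08867 * (2 / 3 * (((sd x y + sd z w) / 8) ^ 2 -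
      ((sd x w + sd y z - sd x z - sd y w) / 8) ^ 2) /
        (|det3 x y z w| / 6 * √((sd x y + sd z w) / 8)))) ∧
    dih z w x y ≤ 2 * Real.arctan (1.08867 * (2 / 3 * (((sd x y + sd z w) / 8) ^ 2 -
      ((sd x w + sd y z - sd x z - sd y w) / 8) ^ 2) /
        (|det3 x y z w| / 6 * √((sd x y + sd z w) / 8)))) ∧
    dih x y z w + dih z w x y ≤ 4 * Real.arctan (2 / 3 * (((sd x y + sd z w) / 8) ^ 2 -
      ((sd x w + sd y z - sd x z - sd y w) / 8) ^ 2) /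
        (|det3 x y z w| / 6 * √((sd x y + sd z w) / 8))) := by
  obtain ⟨a, b, ha, hb, ea, eb, hg, hA, hB⟩ := A1.par x y z w h
  have hV : 0 < |det3 x y z w| / 6 := by
    have := abs_pos.2 h
    positivity
  have hy : (sd x y + sd z w) / 8 = (a ^ 2 + b ^ 2) / 2 := by
    rw [ea, eb]
    ring
  have hy0 : 0 < (sd x y + sd z w) / 8 := by
    rw [hy]
    positivity
  exact ⟨hy0, A2.real_AB a b _ _ _ _ _ ha hb hV hy hg hA hB⟩

/-- the three pairs in a symmetric form: `A i`, `B i` angles, `Y i` numbers. -/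
theorem arcs (x y z w o : E3) (h : det3 x y z w ≠ 0) (hx : dist x o = 1) (hy : dist y o = 1)
    (hz : dist z o = 1) (hw : dist w o = 1) (V : ℝ) (hV : V = |det3 x y z w| / 6)
    (A B Y : Fin 3 → ℝ) (hA : A = ![dih x y z w, dih x z y w, dih x w y z])
    (hB : B = ![dih z w x y, dih y w x z, dih y z x w])
    (hY : Y = ![(sd x y + sd z w) / 8, (sd x z + sd y w) / 8, (sd x w + sd y z) / 8]) :
    (∀ i, ∀ α, (α = A i ∨ α = B i) → α ≤ 2 * Real.arctan (1.08867 * (2 / 3 * (Y i * √(Y i)) / V))) ∧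
    (∀ i, A i + B i ≤ 4 * Real.arctan (2 / 3 * (Y i * √(Y i)) / V)) ∧
    (∀ i j, i ≠ j → ∀ α β, (α = A i ∨ α = B i) → (β = A j ∨ β = B j) →
      α + β ≤ 4 * Real.arctan (0.42204 / V)) ∧
    (∀ i j, i ≠ j → ∀ β, (β = A j ∨ β = B j) →
      (A i + B i) / 2 + β ≤ 4 * Real.arctan (0.41722 / V)) ∧
    (∀ i j, i ≠ j → A i + B i + (A j + B j) ≤ 8 * Real.arctan (0.38766 / V)) ∧
    (∀ α β γ, (α = A 0 ∨ α = B 0) → (β = A 1 ∨ β = B 1) → (γ = A 2 ∨ γ = B 2) →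
      α + β + γ ≤ 6 * Real.arctan (0.39507 / V)) := by
  have hV0 : 0 < V := by
    rw [hV]
    have := abs_pos.2 h
    positivity
  obtain ⟨a1, a2, a3, a4, a5⟩ := a5_pair x y z w h
  obtain ⟨b1, b2, b3, b4, b5⟩ := a5_pair x z y w (by rw [det3_swap12]; exact neg_ne_zero.2 h)
  obtain ⟨c1, c2, c3, c4, c5⟩ := a5_pair x w y z (by
    rw [det3_swap12, det3_swap23, neg_neg]; exact h)
  rw [det3_swap12, abs_neg] at b3 b4 b5
  rw [det3_swap12, det3_swap23, neg_neg] at c3 c4 c5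
  rw [← hV] at a3 a4 a5 b3 b4 b5 c3 c4 c5
  have hsum := sum_sd_le hx hy hz hw (le_refl 1)
  set y0 := (sd x y + sd z w) / 8 with hy0
  set y1 := (sd x z + sd y w) / 8 with hy1
  set y2 := (sd x w + sd y z) / 8 with hy2
  have ga : ((sd x w + sd y z - sd x z - sd y w) / 8) ^ 2 = (y1 - y2) ^ 2 := by
    rw [hy1, hy2]; ring
  have gb : ((sd x w + sd z y - sd x y - sd z w) / 8) ^ 2 = (y0 - y2) ^ 2 := by
    rw [hy0, hy2, sd_comm z y]; ring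
  have gc : ((sd x z + sd w y - sd x y - sd w z) / 8) ^ 2 = (y0 - y1) ^ 2 := by
    rw [hy0, hy1, sd_comm w y, sd_comm w z]; ring
  rw [ga] at a2 a3 a4 a5
  rw [gb] at b2 b3 b4 b5
  rw [gc] at c2 c3 c4 c5
  have hs : y0 + y1 + y2 ≤ 2 := by
    rw [hy0, hy1, hy2]
    linarith
  have sym : ∀ p q : ℝ, (p - q) ^ 2 = (q - p) ^ 2 := fun p q => by ring
  -- the bounds
  have q01 := a5_p1 a1 b1 hs a2 b2
  have q02 := a5_p1 (y1 := y0) (y2 := y2) (y3 := y1) a1 c1 (by linarith) (by rw [sym]; exact a2) c2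
  have q12 := a5_p1 (y1 := y1) (y2 := y2) (y3 := y0) b1 c1 (by linarith) (by rw [sym]; exact b2)
    (by rw [sym]; exact c2)
  have r01 := a5_p2 a1 b1 hs a2 b2
  have r10 := a5_p2 (y1 := y1) (y2 := y0) (y3 := y2) b1 a1 (by linarith) b2 a2
  have r02 := a5_p2 (y1 := y0) (y2 := y2) (y3 := y1) a1 c1 (by linarith) (by rw [sym]; exact a2) c2
  have r20 := a5_p2 (y1 := y2) (y2 := y0) (y3 := y1) c1 a1 (by linarith) c2 (by rw [sym]; exact a2)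
  have r12 := a5_p2 (y1 := y1) (y2 := y2) (y3 := y0) b1 c1 (by linarith) (by rw [sym]; exact b2)
    (by rw [sym]; exact c2)
  have r21 := a5_p2 (y1 := y2) (y2 := y1) (y3 := y0) c1 b1 (by linarith) (by rw [sym]; exact c2)
    (by rw [sym]; exact b2)
  have q3 := a5_p3 a1 b1 hs a2 b2
  rw [sym y2 y1] at q02 r02 r20
  rw [sym y2 y0, sym y1 y0] at q12 r12 r21
  set Q0 := (y0 ^ 2 - (y1 - y2) ^ 2) / √y0 with hQ0
  set Q1 := (y1 ^ 2 - (y0 - y2) ^ 2) / √y1 with hQ1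
  set Q2 := (y2 ^ 2 - (y0 - y1) ^ 2) / √y2 with hQ2
  have eZ : ∀ u v : ℝ, 2 / 3 * u / (V * v) = 2 / 3 * (u / v) / V := fun u v => by
    rw [mul_div_assoc, mul_comm V v, ← div_div]
    ring
  rw [eZ, ← hQ0] at a3 a4 a5
  rw [eZ, ← hQ1] at b3 b4 b5
  rw [eZ, ← hQ2] at c3 c4 c5
  have hQ : ∀ u g : ℝ, 0 < u → g ^ 2 < u ^ 2 → 0 ≤ (u ^ 2 - g ^ 2) / √u ∧
      (u ^ 2 - g ^ 2) / √u ≤ u * √u := by
    intro u g hu hg
    have hsu : 0 < √u := Real.sqrt_pos.2 hu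
    refine ⟨div_nonneg (by linarith) hsu.le, ?_⟩
    rw [div_le_iff₀ hsu, mul_assoc, Real.mul_self_sqrt hu.le]
    nlinarith [sq_nonneg g]
  obtain ⟨m0, n0⟩ := hQ y0 (y1 - y2) a1 a2
  obtain ⟨m1, n1⟩ := hQ y1 (y0 - y2) b1 b2
  obtain ⟨m2, n2⟩ := hQ y2 (y0 - y1) c1 c2
  have dv : ∀ a b : ℝ, a ≤ b → 2 / 3 * a / V ≤ 2 / 3 * b / V := fun a b h =>
    div_le_div_of_nonneg_right (mul_le_mul_of_nonneg_left h (by norm_num)) hV0.le
  have dv2 : ∀ a b c : ℝ, a + b ≤ c → 2 / 3 * a / V + 2 / 3 * b / V ≤ 2 / 3 * c / V :=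
    fun a b c h => by
      have := dv _ _ h
      rw [← add_div, ← mul_add]
      exact this
  have dv3 : ∀ a b c : ℝ, a + 1.08867 * b ≤ c →
      2 / 3 * a / V + 1.08867 * (2 / 3 * b / V) ≤ 2 / 3 * c / V := fun a b c h => by
    have := dv _ _ h
    have e : 2 / 3 * a / V + 1.08867 * (2 / 3 * b / V) = 2 / 3 * (a + 1.08867 * b) / V := by ring
    rw [e]
    exact this
  rw [hA, hB, hY]
  refine a5_core V hV0 _ _ _ ![2 / 3 * Q0 / V, 2 / 3 * Q1 / V, 2 / 3 * Q2 / V] ?_ ?_ ?_ ?_ ?_ ?_ ?_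
  · intro i
    fin_cases i
    · exact div_nonneg (mul_nonneg (by norm_num) m0) hV0.le
    · exact div_nonneg (mul_nonneg (by norm_num) m1) hV0.le
    · exact div_nonneg (mul_nonneg (by norm_num) m2) hV0.le
  · intro i α hα
    fin_cases i
    · rcases hα with rfl | rfl
      · exact a3
      · exact a4
    · rcases hα with rfl | rfl
      · exact b3
      · exact b4
    · rcases hα with rfl | rfl
      · exact c3
      · exact c4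
  · intro i
    fin_cases i
    · exact a5
    · exact b5
    · exact c5
  · intro i
    fin_cases i
    · exact dv _ _ n0
    · exact dv _ _ n1
    · exact dv _ _ n2
  · intro i j hij
    fin_cases i <;> fin_cases j
    · exact absurd rfl hij
    · exact dv2 _ _ _ q01
    · exact dv2 _ _ _ q02
    · exact dv2 Q1 Q0 _ (by linarith)
    · exact absurd rfl hij
    · exact dv2 _ _ _ q12
    · exact dv2 Q2 Q0 _ (by linarith)
    · exact dv2 Q2 Q1 _ (by linarith)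
    · exact absurd rfl hij
  · intro i j hij
    fin_cases i <;> fin_cases j
    · exact absurd rfl hij
    · exact dv3 _ _ _ r01
    · exact dv3 _ _ _ r02
    · exact dv3 _ _ _ r10
    · exact absurd rfl hij
    · exact dv3 _ _ _ r12
    · exact dv3 _ _ _ r20
    · exact dv3 _ _ _ r21
    · exact absurd rfl hij
  · show 2 / 3 * Q0 / V + 2 / 3 * Q1 / V + 2 / 3 * Q2 / V ≤ 2 / 3 * 1.633 / V
    have := dv _ _ q3
    have e : 2 / 3 * Q0 / V + 2 / 3 * Q1 / V + 2 / 3 * Q2 / V = 2 / 3 * (Q0 + Q1 + Q2) / V := by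
      ring
    rw [e]
    exact this

end BccP.A5
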