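import Pool.Agent.PEN.Defs

/-!
[PEN-C1] counting with weights on tetrahedra and edges, for windows `{x | p x ≤ R}` (`p` = norm: balls,
`p` = sup norm: cubes).

PROOF. Copy the proof of `BccCov.C.counting` (`MP_bf7174_co/C.lean`) with `p` in place of the norm (only
`p x ≤ p y + dist x y` is used) and change: no bound 24. With
`T = {t ∈ D | ∃ x ∈ t, p x ≤ R + 2r}` (finite: `BccCov.finiteness`, `‖x‖ ≤ 2 p x`) all vertices of `t ∈ T`
have `p ≤ R + 4r`, so `Σ_{t∈T} kt t ≤ (tetrahedra part of GG (R+4r))`; the window is covered by `T`: a point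
`q` with `p q ≤ R` lies in some `t ∈ D`, and a vertex `x` of `t` has `dist x q ≤ 2r` (`finiteness`, F1).
Boundary tetrahedra `B ⊆ T` (one vertex with `p > R + 2r`) lie in `GG (R+4r)` but not in `GG R`, and `kt ≥ 1`, so
`B.card ≤ (tetrahedra part of GG (R+4r)) - (tetrahedra part of GG R) ≤ GG (R+4r) - GG R` (the edge part
is monotone). Inner pairs (all points with `p ≤ R + 2r`): `Σ_{t∈T, m⊆t} wt t m ≤ K ke m`, total
`≤ K (edge part of GG (R+4r))` (`K ≥ 0`). `GG_mono`: finiteness of the index sets by `hfin`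
(`BccCov.finiteness`: `hF2`); `finsum_mem_eq_finite_toFinset_sum`, `Finset.sum_le_sum_of_subset`.
-/

set_option autoImplicit false

open scoped InnerProductSpace
open MeasureTheory

namespace BccP

open BccCov BccO

/-- windows `{x | p x ≤ R}` of volume `v R³` -/
structure Gauge (p : E3 → ℝ) (v : ℝ) : Prop where
  lip : ∀ x y : E3, p x ≤ p y + dist x y
  bdd : ∀ x : E3, ‖x‖ ≤ 2 * p x
  pos : 0 < v
  vol : ∀ R : ℝ, 0 ≤ R → volume {x | p x ≤ R} = ENNReal.ofReal (v * R ^ 3)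

/-- weighted number of tetrahedra and edges in the window -/
noncomputable def GG (p : E3 → ℝ) (D : Set (Finset E3)) (kt ke : Finset E3 → ℕ) (R : ℝ) : ℕ :=
  (∑ᶠ t ∈ {t | t ∈ D ∧ ∀ x ∈ t, p x ≤ R}, kt t) +
    (∑ᶠ m ∈ {m : Finset E3 | m.card = 2 ∧ (∃ t ∈ D, m ⊆ t) ∧ ∀ x ∈ m, p x ≤ R}, ke m)

namespace C1

theorem c1_F2 {p : E3 → ℝ} {v : ℝ} (hp : Gauge p v) {X : Set E3} {D : Set (Finset E3)} {r : ℝ}
    (hT : IsTriangulation X D)
    (hI : ∀ t ∈ D, Inscribed t r) (hfin : ∀ R : ℝ, (X ∩ Metric.closedBall (0 : E3) R).Finite)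
    (R : ℝ) : {t | t ∈ D ∧ ∃ x ∈ t, p x ≤ R}.Finite := by
  obtain ⟨-, hF2, -, -⟩ := finiteness hT hI hfin
  refine (hF2 (2 * R)).subset ?_
  rintro t ⟨ht, x, hxt, hx⟩
  exact ⟨ht, x, hxt, by linarith [hp.bdd x]⟩

theorem c1_fS {p : E3 → ℝ} {v : ℝ} (hp : Gauge p v) {X : Set E3} {D : Set (Finset E3)} {r : ℝ} (hT : IsTriangulation X D)
    (hI : ∀ t ∈ D, Inscribed t r) (hfin : ∀ R : ℝ, (X ∩ Metric.closedBall (0 : E3) R).Finite)
    (R : ℝ) : {t | t ∈ D ∧ ∀ x ∈ t, p x ≤ R}.Finite := by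
  have hF2 := c1_F2 hp hT hI hfin
  refine (hF2 R).subset ?_
  rintro t ⟨ht, hx⟩
  have hc := hT.card_eq t ht
  have hne : t.Nonempty := by
    rw [← Finset.card_pos]; omega
  obtain ⟨x, hxt⟩ := hne
  exact ⟨ht, x, hxt, hx x hxt⟩

theorem c1_fM {p : E3 → ℝ} {v : ℝ} (hp : Gauge p v) {X : Set E3} {D : Set (Finset E3)} {r : ℝ} (hT : IsTriangulation X D)
    (hI : ∀ t ∈ D, Inscribed t r) (hfin : ∀ R : ℝ, (X ∩ Metric.closedBall (0 : E3) R).Finite)
    (R : ℝ) : {m : Finset E3 | m.card = 2 ∧ (∃ t ∈ D, m ⊆ t) ∧ ∀ x ∈ m, p x ≤ R}.Finite := by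
  classical
  have hF2 := c1_F2 hp hT hI hfin
  refine (((hF2 R).toFinset.biUnion (fun t => t.powersetCard 2)).finite_toSet).subset ?_
  rintro m ⟨hc, ⟨t, ht, hmt⟩, hx⟩
  rw [Finset.mem_coe, Finset.mem_biUnion]
  have hne : m.Nonempty := by
    rw [← Finset.card_pos]; omega
  obtain ⟨x, hxm⟩ := hne
  refine ⟨t, ?_, Finset.mem_powersetCard.mpr ⟨hmt, hc⟩⟩
  rw [Set.Finite.mem_toFinset]
  exact ⟨ht, x, hmt hxm, hx x hxm⟩

theorem GG_mono {p : E3 → ℝ} {v : ℝ} (hp : Gauge p v) {X : Set E3} {D : Set (Finset E3)} {r : ℝ} (hT : IsTriangulation X D)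
    (hI : ∀ t ∈ D, Inscribed t r) (hfin : ∀ R : ℝ, (X ∩ Metric.closedBall (0 : E3) R).Finite)
    (kt ke : Finset E3 → ℕ) : Monotone (GG p D kt ke) := by
  classical
  intro a b hab
  have hSa := c1_fS hp hT hI hfin a
  have hSb := c1_fS hp hT hI hfin b
  have hMa := c1_fM hp hT hI hfin a
  have hMb := c1_fM hp hT hI hfin b
  unfold GG
  rw [finsum_mem_eq_finite_toFinset_sum _ hSa, finsum_mem_eq_finite_toFinset_sum _ hSb,
    finsum_mem_eq_finite_toFinset_sum _ hMa, finsum_mem_eq_finite_toFinset_sum _ hMb]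
  refine add_le_add ?_ ?_
  · refine Finset.sum_le_sum_of_subset fun t ht => ?_
    rw [Set.Finite.mem_toFinset] at ht ⊢
    exact ⟨ht.1, fun x hx => (ht.2 x hx).trans hab⟩
  · refine Finset.sum_le_sum_of_subset fun m hm => ?_
    rw [Set.Finite.mem_toFinset] at hm ⊢
    exact ⟨hm.1, hm.2.1, fun x hx => (hm.2.2 x hx).trans hab⟩

theorem counting2 {p : E3 → ℝ} {v : ℝ} (hp : Gauge p v) {X : Set E3} {D : Set (Finset E3)} {r : ℝ} (hr : 0 < r)
    (hT : IsTriangulation X D) (hI : ∀ t ∈ D, Inscribed t r)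
    (hfin : ∀ R : ℝ, (X ∩ Metric.closedBall (0 : E3) R).Finite)
    (K C : ℝ) (hK : 0 ≤ K) (hC : 0 ≤ C) (kt ke : Finset E3 → ℕ) (hkt : ∀ t, 1 ≤ kt t)
    (wt : Finset E3 → Finset E3 → ℝ) (hwC : ∀ t m, |wt t m| ≤ C)
    (hvol : ∀ t ∈ D, (volume (convexHull ℝ (t : Set E3))).toReal
      ≤ K * kt t + ∑ m ∈ t.powersetCard 2, wt t m)
    (hedge : ∀ (m : Finset E3) (s : Finset (Finset E3)), m.card = 2 → (∃ t ∈ D, m ⊆ t) →
      (∀ t, t ∈ s ↔ t ∈ D ∧ m ⊆ t) → ∑ t ∈ s, wt t m ≤ K * ke m) (R : ℝ) :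
    (volume {x | p x ≤ R}).toReal
      ≤ K * GG p D kt ke (R + 4 * r) + 6 * C * (GG p D kt ke (R + 4 * r) - GG p D kt ke R) := by
  classical
  obtain ⟨hF1, -, -, -⟩ := finiteness hT hI hfin
  have hF2 := c1_F2 hp hT hI hfin
  -- the finite set of tetrahedra
  let T : Finset (Finset E3) := (hF2 (R + 2 * r)).toFinset
  have hTm : ∀ t, t ∈ T ↔ t ∈ D ∧ ∃ x ∈ t, p x ≤ R + 2 * r := by
    intro t
    simp only [T, Set.Finite.mem_toFinset, Set.mem_ofPred_eq]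
  have hTD : ∀ t ∈ T, t ∈ D := fun t ht => ((hTm t).1 ht).1
  have hdist : ∀ t ∈ D, ∀ x ∈ t, ∀ y ∈ t, p x ≤ p y + 2 * r := by
    intro t ht x hx y hy
    have h1 := hF1 t ht x (subset_convexHull ℝ _ (Finset.mem_coe.2 hx)) y
      (subset_convexHull ℝ _ (Finset.mem_coe.2 hy))
    have h2 := hp.lip x y
    linarith
  have hS1 := c1_fS hp hT hI hfin (R + 4 * r)
  have hS0 := c1_fS hp hT hI hfin R
  have hM1 := c1_fM hp hT hI hfin (R + 4 * r)
  have hM0 := c1_fM hp hT hI hfin R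
  have hS1m : ∀ t, t ∈ hS1.toFinset ↔ t ∈ D ∧ ∀ x ∈ t, p x ≤ R + 4 * r := by
    intro t
    rw [Set.Finite.mem_toFinset]
    exact Iff.rfl
  have hS0m : ∀ t, t ∈ hS0.toFinset ↔ t ∈ D ∧ ∀ x ∈ t, p x ≤ R := by
    intro t
    rw [Set.Finite.mem_toFinset]
    exact Iff.rfl
  have hM1m : ∀ m, m ∈ hM1.toFinset ↔ m.card = 2 ∧ (∃ t ∈ D, m ⊆ t) ∧ ∀ x ∈ m, p x ≤ R + 4 * r := by
    intro m
    rw [Set.Finite.mem_toFinset]
    exact Iff.rfl
  have hM0m : ∀ m, m ∈ hM0.toFinset ↔ m.card = 2 ∧ (∃ t ∈ D, m ⊆ t) ∧ ∀ x ∈ m, p x ≤ R := by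
    intro m
    rw [Set.Finite.mem_toFinset]
    exact Iff.rfl
  have hG1 : GG p D kt ke (R + 4 * r) = ∑ t ∈ hS1.toFinset, kt t + ∑ m ∈ hM1.toFinset, ke m := by
    unfold GG
    rw [finsum_mem_eq_finite_toFinset_sum _ hS1, finsum_mem_eq_finite_toFinset_sum _ hM1]
  have hG0 : GG p D kt ke R = ∑ t ∈ hS0.toFinset, kt t + ∑ m ∈ hM0.toFinset, ke m := by
    unfold GG
    rw [finsum_mem_eq_finite_toFinset_sum _ hS0, finsum_mem_eq_finite_toFinset_sum _ hM0]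
  have hM01 : ∑ m ∈ hM0.toFinset, ke m ≤ ∑ m ∈ hM1.toFinset, ke m := by
    refine Finset.sum_le_sum_of_subset fun m hm => ?_
    rw [hM0m] at hm
    rw [hM1m]
    exact ⟨hm.1, hm.2.1, fun x hx => by linarith [hm.2.2 x hx]⟩
  have hS01 : hS0.toFinset ⊆ hS1.toFinset := by
    intro t ht
    rw [hS0m] at ht
    rw [hS1m]
    exact ⟨ht.1, fun x hx => by linarith [ht.2 x hx]⟩
  have hTS : T ⊆ hS1.toFinset := by
    intro t ht
    obtain ⟨htD, y, hy, hyn⟩ := (hTm t).1 ht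
    rw [hS1m]
    exact ⟨htD, fun x hx => by linarith [hdist t htD x hx y hy]⟩
  have hcT : ∑ t ∈ T, kt t ≤ ∑ t ∈ hS1.toFinset, kt t := Finset.sum_le_sum_of_subset hTS
  -- boundary tetrahedra
  let B : Finset (Finset E3) := T.filter (fun t => ∃ y ∈ t, R + 2 * r < p y)
  have hBm : ∀ t, t ∈ B ↔ t ∈ T ∧ ∃ y ∈ t, R + 2 * r < p y := by
    intro t
    simp only [B, Finset.mem_filter]
  have hcB : B.card + ∑ t ∈ hS0.toFinset, kt t ≤ ∑ t ∈ hS1.toFinset, kt t := by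
    have h1 : B ⊆ hS1.toFinset \ hS0.toFinset := by
      intro t ht
      obtain ⟨htT, y, hy, hyn⟩ := (hBm t).1 ht
      rw [Finset.mem_sdiff]
      refine ⟨hTS htT, fun h0 => ?_⟩
      have h2 := ((hS0m t).1 h0).2 y hy
      linarith
    have h2 : B.card ≤ ∑ t ∈ hS1.toFinset \ hS0.toFinset, kt t := by
      calc B.card = ∑ t ∈ B, 1 := by rw [Finset.card_eq_sum_ones]
        _ ≤ ∑ t ∈ B, kt t := Finset.sum_le_sum fun t _ => hkt t
        _ ≤ _ := Finset.sum_le_sum_of_subset h1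
    have h3 := Finset.sum_sdiff (f := kt) hS01
    omega
  -- volume
  have hvfin : ∀ t : Finset E3, volume (convexHull ℝ (t : Set E3)) ≠ ⊤ := fun t =>
    (Set.Finite.isCompact_convexHull ℝ t.finite_toSet).measure_lt_top.ne
  have hV : (volume {x : E3 | p x ≤ R}).toReal
      ≤ ∑ t ∈ T, (volume (convexHull ℝ (t : Set E3))).toReal := by
    have h1 : {x : E3 | p x ≤ R} ⊆ ⋃ t ∈ T, convexHull ℝ (t : Set E3) := by
      intro z hz
      have h2 : z ∈ ⋃ t ∈ D, convexHull ℝ (t : Set E3) := by rw [hT.cover]; exact Set.mem_univ z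
      simp only [Set.mem_iUnion, exists_prop] at h2 ⊢
      obtain ⟨t, ht, hzt⟩ := h2
      refine ⟨t, (hTm t).2 ⟨ht, ?_⟩, hzt⟩
      have hc := hT.card_eq t ht
      have hne : t.Nonempty := by
        rw [← Finset.card_pos]; omega
      obtain ⟨x, hxt⟩ := hne
      have h5 := hF1 t ht x (subset_convexHull ℝ _ (Finset.mem_coe.2 hxt)) z hzt
      have h6 := hp.lip x z
      have h7 : p z ≤ R := hz
      exact ⟨x, hxt, by linarith⟩
    have h3 : volume {x : E3 | p x ≤ R}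
        ≤ ∑ t ∈ T, volume (convexHull ℝ (t : Set E3)) :=
      (measure_mono h1).trans (measure_biUnion_finset_le _ _)
    rw [← ENNReal.toReal_sum fun t _ => hvfin t]
    exact ENNReal.toReal_mono (ENNReal.sum_ne_top.2 fun t _ => hvfin t) h3
  -- splitting
  let Q : Finset E3 → Prop := fun m => ∀ x ∈ m, p x ≤ R + 2 * r
  have hsplit : ∑ t ∈ T, ∑ m ∈ t.powersetCard 2, wt t m =
      ∑ t ∈ T, ∑ m ∈ (t.powersetCard 2).filter Q, wt t m +
      ∑ t ∈ T, ∑ m ∈ (t.powersetCard 2).filter (fun m => ¬ Q m), wt t m := by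
    rw [← Finset.sum_add_distrib]
    refine Finset.sum_congr rfl fun t _ => ?_
    rw [Finset.sum_filter_add_sum_filter_not]
  -- inner pairs
  have hin : ∑ t ∈ T, ∑ m ∈ (t.powersetCard 2).filter Q, wt t m ≤
      K * ((∑ m ∈ hM1.toFinset, ke m : ℕ) : ℝ) := by
    rw [Finset.sum_comm' (s' := fun m => T.filter (fun t => m ⊆ t))
      (t' := T.biUnion (fun t => (t.powersetCard 2).filter Q)) ?_]
    · have h1 : ∑ m ∈ T.biUnion (fun t => (t.powersetCard 2).filter Q),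
          ∑ t ∈ T.filter (fun t => m ⊆ t), wt t m ≤
          ∑ m ∈ T.biUnion (fun t => (t.powersetCard 2).filter Q), K * (ke m : ℝ) := by
        refine Finset.sum_le_sum fun m hm => ?_
        rw [Finset.mem_biUnion] at hm
        obtain ⟨t0, ht0, hm0⟩ := hm
        rw [Finset.mem_filter, Finset.mem_powersetCard] at hm0
        obtain ⟨⟨hmt0, hmc⟩, hmQ⟩ := hm0
        refine hedge m _ hmc ⟨t0, hTD t0 ht0, hmt0⟩ fun t => ?_
        rw [Finset.mem_filter]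
        refine ⟨fun h => ⟨hTD t h.1, h.2⟩, fun h => ⟨(hTm t).2 ⟨h.1, ?_⟩, h.2⟩⟩
        have hne : m.Nonempty := by
          rw [← Finset.card_pos]; omega
        obtain ⟨x, hx⟩ := hne
        exact ⟨x, h.2 hx, hmQ x hx⟩
      refine h1.trans ?_
      rw [← Finset.mul_sum]
      refine mul_le_mul_of_nonneg_left ?_ hK
      rw [← Nat.cast_sum]
      refine Nat.cast_le.mpr (Finset.sum_le_sum_of_subset fun m hm => ?_)
      rw [Finset.mem_biUnion] at hm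
      obtain ⟨t0, ht0, hm0⟩ := hm
      rw [Finset.mem_filter, Finset.mem_powersetCard] at hm0
      obtain ⟨⟨hmt0, hmc⟩, hmQ⟩ := hm0
      rw [hM1m]
      exact ⟨hmc, ⟨t0, hTD t0 ht0, hmt0⟩, fun x hx => by linarith [hmQ x hx]⟩
    · intro t m
      simp only [Finset.mem_filter, Finset.mem_powersetCard, Finset.mem_biUnion]
      constructor
      · rintro ⟨h1, ⟨h2, h3⟩, h4⟩
        exact ⟨⟨h1, h2⟩, t, h1, ⟨h2, h3⟩, h4⟩
      · rintro ⟨⟨h1, h2⟩, t', h3, ⟨h4, h5⟩, h6⟩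
        exact ⟨h1, ⟨h2, h5⟩, h6⟩
  -- boundary pairs
  have hout : ∑ t ∈ T, ∑ m ∈ (t.powersetCard 2).filter (fun m => ¬ Q m), wt t m
      ≤ B.card * (6 * C) := by
    have h1 : ∀ t ∈ T, ∑ m ∈ (t.powersetCard 2).filter (fun m => ¬ Q m), wt t m
        ≤ if (∃ y ∈ t, R + 2 * r < p y) then 6 * C else 0 := by
      intro t ht
      split_ifs with hy
      · have h2 : ∑ m ∈ (t.powersetCard 2).filter (fun m => ¬ Q m), wt t m
            ≤ ∑ m ∈ (t.powersetCard 2).filter (fun m => ¬ Q m), C :=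
          Finset.sum_le_sum fun m _ => (le_abs_self _).trans (hwC t m)
        refine h2.trans ?_
        rw [Finset.sum_const, nsmul_eq_mul]
        refine mul_le_mul_of_nonneg_right ?_ hC
        have h3 : ((t.powersetCard 2).filter (fun m => ¬ Q m)).card ≤ 6 := by
          refine (Finset.card_filter_le _ _).trans ?_
          rw [Finset.card_powersetCard, hT.card_eq t (hTD t ht)]
          decide
        exact_mod_cast h3
      · rw [Finset.sum_eq_zero]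
        intro m hm
        exfalso
        rw [Finset.mem_filter, Finset.mem_powersetCard] at hm
        apply hm.2
        intro x hx
        by_contra hc
        push Not at hc
        exact hy ⟨x, hm.1.1 hx, hc⟩
    refine (Finset.sum_le_sum h1).trans ?_
    rw [← Finset.sum_filter, Finset.sum_const, nsmul_eq_mul]
  -- conclusion
  have htot : ∑ t ∈ T, (volume (convexHull ℝ (t : Set E3))).toReal
      ≤ K * ((∑ t ∈ T, kt t : ℕ) : ℝ) + ∑ t ∈ T, ∑ m ∈ t.powersetCard 2, wt t m := by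
    have h1 := Finset.sum_le_sum fun t ht => hvol t (hTD t ht)
    rw [Finset.sum_add_distrib, ← Finset.mul_sum] at h1
    rw [Nat.cast_sum]
    exact h1
  have e1 : K * ((∑ t ∈ T, kt t : ℕ) : ℝ) ≤ K * ((∑ t ∈ hS1.toFinset, kt t : ℕ) : ℝ) :=
    mul_le_mul_of_nonneg_left (Nat.cast_le.mpr hcT) hK
  have e2 : (B.card : ℝ) ≤ GG p D kt ke (R + 4 * r) - GG p D kt ke R := by
    rw [hG1, hG0]
    have h1 : (B.card : ℝ) + ((∑ t ∈ hS0.toFinset, kt t : ℕ) : ℝ) ≤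
        ((∑ t ∈ hS1.toFinset, kt t : ℕ) : ℝ) := by exact_mod_cast hcB
    have h2 : ((∑ m ∈ hM0.toFinset, ke m : ℕ) : ℝ) ≤ ((∑ m ∈ hM1.toFinset, ke m : ℕ) : ℝ) := by
      exact_mod_cast hM01
    rw [Nat.cast_add, Nat.cast_add]
    linarith
  have e3 : (GG p D kt ke (R + 4 * r) : ℝ) = ((∑ t ∈ hS1.toFinset, kt t : ℕ) : ℝ) +
      ((∑ m ∈ hM1.toFinset, ke m : ℕ) : ℝ) := by
    rw [hG1, Nat.cast_add]
  have e4 := mul_le_mul_of_nonneg_right e2 (by positivity : 0 ≤ 6 * C)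
  have e5 : K * (GG p D kt ke (R + 4 * r) : ℝ) = K * ((∑ t ∈ hS1.toFinset, kt t : ℕ) : ℝ) +
      K * ((∑ m ∈ hM1.toFinset, ke m : ℕ) : ℝ) := by
    rw [e3, mul_add]
  linarith

end C1

end BccP
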