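import Pool.Agent.PEN.C1

/-!
[PEN-C2] from the counting inequality to the lower density (windows `{x | p x ≤ R}`, volume `v R³`).

PROOF. `density2`: copy `BccCov.E.density_of_bound` (`MP_bf7174_co/E.lean`) with the general constant `A`
in place of `30 cc r³` (there `4/3 π r³/(30 cc r³) = 5√5π/24`) and `v R³` in place of `4/3 π R³` for the
window (`Gauge.vol`); `volume (closedBall 0 r) = 4/3 π r³` by `BccCov.E.vol_ball`. `X ∩ {p ≤ R}` is finite
because it lies in `closedBall 0 (2R)` (`Gauge.bdd`). The case where `X` is not locally finite: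
`X ∩ closedBall 0 R₀` infinite, and `closedBall 0 R₀ ⊆ {p ≤ R}` for `R ≥ p 0 + R₀` (`Gauge.lip`), so the
density is infinite.
`master`: `lower_density` (`BccCov`, L.lean) for `N = GG p D kt ke` (monotone), `d := 4r`, and
`A := κ K`, `B := κ (6C + 1)`, `κ := (4/3 π)/v`, `η/κ` in place of `η` (`counting2`, `Gauge.vol`) gives: for all `η`
with `K η < 1` eventually `η·(v R³) ≤ GG R`. With `GG R ≤ σ #(X ∩ {p ≤ R})` eventually (`σ > 0`): for `η'` with
`K σ η' < 1` put `η = σ η'`: eventually `σ η' (v R³) ≤ GG R ≤ σ #(..)`; then `density2` with `A = K σ`.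
-/

set_option autoImplicit false

open scoped InnerProductSpace
open MeasureTheory

namespace BccP.C2

open BccCov BccO

theorem density2 {p : E3 → ℝ} {v : ℝ} (hp : Gauge p v) (X : Set E3) (r : ℝ) (hr : 0 < r) (A : ℝ)
    (hA : 0 < A)
    (h : (∀ R : ℝ, (X ∩ Metric.closedBall (0 : E3) R).Finite) → ∀ η : ℝ, A * η < 1 →
      ∀ᶠ R in Filter.atTop, η * (v * R ^ 3) ≤ ((X ∩ {x | p x ≤ R}).ncard : ℝ)) :
    ENNReal.ofReal (4 / 3 * Real.pi * r ^ 3 / A) ≤
      Filter.liminf
        (fun R : ℝ =>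
          ENat.toENNReal (X ∩ {x | p x ≤ R}).encard *
            MeasureTheory.volume (Metric.closedBall (0 : EuclideanSpace ℝ (Fin 3)) r) /
            MeasureTheory.volume {x | p x ≤ R})
        Filter.atTop := by
  have hpi := Real.pi_pos
  have hv := hp.pos
  have hvr : 0 < 4 / 3 * Real.pi * r ^ 3 := by positivity
  by_cases hfin : ∀ R : ℝ, (X ∩ Metric.closedBall (0 : E3) R).Finite
  · have hfin2 : ∀ R : ℝ, (X ∩ {x | p x ≤ R}).Finite := by
      intro R
      refine (hfin (2 * R)).subset (Set.inter_subset_inter_right _ ?_)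
      intro x hx
      rw [mem_closedBall_zero_iff]
      have h1 := hp.bdd x
      have h2 : p x ≤ R := hx
      linarith
    refine le_of_forall_lt fun c hc => ?_
    obtain ⟨c', hcc', hc'⟩ := exists_between hc
    refine lt_of_lt_of_le hcc' ?_
    have hc'top : c' ≠ ⊤ := (hc'.trans ENNReal.ofReal_lt_top).ne
    set q : ℝ := c'.toReal with hq
    have hq0 : 0 ≤ q := ENNReal.toReal_nonneg
    have hcq : c' = ENNReal.ofReal q := (ENNReal.ofReal_toReal hc'top).symm
    have hqlt : q < 4 / 3 * Real.pi * r ^ 3 / A := by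
      rw [hcq] at hc'
      exact (ENNReal.ofReal_lt_ofReal_iff (by positivity)).1 hc'
    set η : ℝ := q / (4 / 3 * Real.pi * r ^ 3) with hη
    have hη1 : A * η < 1 := by
      rw [lt_div_iff₀ hA] at hqlt
      rw [hη, mul_div_assoc', div_lt_one hvr]
      linarith
    refine Filter.le_liminf_of_le (by isBoundedDefault) ?_
    filter_upwards [h hfin η hη1, Filter.eventually_gt_atTop 0] with R hR hR0
    have hvR : 0 < v * R ^ 3 := by positivity
    have hcard : ENat.toENNReal (X ∩ {x | p x ≤ R}).encard =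
        ENNReal.ofReal ((X ∩ {x | p x ≤ R}).ncard : ℝ) := by
      rw [← (hfin2 R).cast_ncard_eq, ENNReal.ofReal_natCast]
      rfl
    rw [hcard, BccCov.E.vol_ball r hr.le, hp.vol R hR0.le,
      ← ENNReal.ofReal_mul (Nat.cast_nonneg _), ← ENNReal.ofReal_div_of_pos hvR, hcq]
    refine ENNReal.ofReal_le_ofReal ?_
    rw [le_div_iff₀ hvR]
    have e4 : η * (4 / 3 * Real.pi * r ^ 3) = q := div_mul_cancel₀ q hvr.ne'
    calc q * (v * R ^ 3)
        = (η * (v * R ^ 3)) * (4 / 3 * Real.pi * r ^ 3) := by rw [← e4]; ring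
      _ ≤ ((X ∩ {x | p x ≤ R}).ncard : ℝ) * (4 / 3 * Real.pi * r ^ 3) :=
          mul_le_mul_of_nonneg_right hR hvr.le
  · push Not at hfin
    obtain ⟨R₀, hR₀⟩ := hfin
    refine Filter.le_liminf_of_le (by isBoundedDefault) ?_
    filter_upwards [Filter.eventually_ge_atTop (p 0 + R₀), Filter.eventually_gt_atTop 0]
      with R hR hR0
    have hinf : (X ∩ {x | p x ≤ R}).Infinite := by
      refine hR₀.mono (Set.inter_subset_inter_right _ ?_)
      intro x hx
      have h1 := hp.lip x 0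
      have h2 : dist x 0 ≤ R₀ := hx
      show p x ≤ R
      linarith
    rw [hinf.encard_eq, ENat.toENNReal_top, BccCov.E.vol_ball r hr.le, hp.vol R hR0.le]
    have h1 : ENNReal.ofReal (4 / 3 * Real.pi * r ^ 3) ≠ 0 := by
      rw [Ne, ENNReal.ofReal_eq_zero, not_le]; exact hvr
    rw [ENNReal.top_mul h1, ENNReal.top_div_of_ne_top ENNReal.ofReal_ne_top]
    exact le_top

theorem master {p : E3 → ℝ} {v : ℝ} (hp : Gauge p v) {X : Set E3} {D : Set (Finset E3)} {r : ℝ}
    (hr : 0 < r) (hT : IsTriangulation X D) (hI : ∀ t ∈ D, Inscribed t r)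
    (K C σ : ℝ) (hK : 0 < K) (hC : 0 ≤ C) (hσ : 0 < σ) (kt ke : Finset E3 → ℕ)
    (hkt : ∀ t, 1 ≤ kt t) (wt : Finset E3 → Finset E3 → ℝ) (hwC : ∀ t m, |wt t m| ≤ C)
    (hvol : ∀ t ∈ D, (volume (convexHull ℝ (t : Set E3))).toReal
      ≤ K * kt t + ∑ m ∈ t.powersetCard 2, wt t m)
    (hedge : (∀ R : ℝ, (X ∩ Metric.closedBall (0 : E3) R).Finite) →
      ∀ (m : Finset E3) (s : Finset (Finset E3)), m.card = 2 → (∃ t ∈ D, m ⊆ t) →
      (∀ t, t ∈ s ↔ t ∈ D ∧ m ⊆ t) → ∑ t ∈ s, wt t m ≤ K * ke m)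
    (hG : (∀ R : ℝ, (X ∩ Metric.closedBall (0 : E3) R).Finite) →
      ∀ᶠ R in Filter.atTop, (GG p D kt ke R : ℝ) ≤ σ * ((X ∩ {x | p x ≤ R}).ncard : ℝ)) :
    ENNReal.ofReal (4 / 3 * Real.pi * r ^ 3 / (K * σ)) ≤
      Filter.liminf
        (fun R : ℝ =>
          ENat.toENNReal (X ∩ {x | p x ≤ R}).encard *
            MeasureTheory.volume (Metric.closedBall (0 : EuclideanSpace ℝ (Fin 3)) r) /
            MeasureTheory.volume {x | p x ≤ R})
        Filter.atTop := by
  have hpi := Real.pi_pos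
  have hv := hp.pos
  refine density2 hp X r hr (K * σ) (by positivity) ?_
  intro hfin η hη
  set κ : ℝ := (4 / 3 * Real.pi) / v with hκ
  have hκ0 : 0 < κ := by positivity
  have hκv : κ * v = 4 / 3 * Real.pi := by rw [hκ]; field_simp
  have hmono := C1.GG_mono hp hT hI hfin kt ke
  have hcount : ∀ R : ℝ, 0 ≤ R → 4 / 3 * Real.pi * R ^ 3 ≤
      (κ * K) * GG p D kt ke (R + 4 * r) +
        (κ * (6 * C)) * (GG p D kt ke (R + 4 * r) - GG p D kt ke R) := by
    intro R hR
    have h1 := C1.counting2 hp hr hT hI hfin K C hK.le hC kt ke hkt wt hwC hvol (hedge hfin) R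
    rw [hp.vol R hR, ENNReal.toReal_ofReal (by positivity)] at h1
    calc 4 / 3 * Real.pi * R ^ 3 = κ * (v * R ^ 3) := by rw [← hκv]; ring
      _ ≤ κ * (K * GG p D kt ke (R + 4 * r) +
          6 * C * (GG p D kt ke (R + 4 * r) - GG p D kt ke R)) :=
          mul_le_mul_of_nonneg_left h1 hκ0.le
      _ = _ := by ring
  have hlow := lower_density (GG p D kt ke) hmono (κ * K) (κ * (6 * C)) (4 * r) (by positivity)
    (by positivity) (by positivity) hcount (σ * η / κ) (by
      calc κ * K * (σ * η / κ) = K * σ * η := by field_simp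
        _ < 1 := hη)
  filter_upwards [hlow, hG hfin] with R h1 h2
  have h3 : σ * η / κ * (4 / 3 * Real.pi * R ^ 3) = σ * (η * (v * R ^ 3)) := by
    rw [← hκv]; field_simp
  rw [h3] at h1
  exact le_of_mul_le_mul_left (h1.trans h2) hσ

end BccP.C2
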