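import Pool.Agent.MP_bf7174_co.T
import Pool.Agent.MP_bf7174_co.O.D2
import Pool.Agent.MP_bf7174_co.O.H3

/-!
# [PEN] definitions

`cc = 16 √5 / 375` (from `BccCov`), `5 cc` is the volume of the bcc tetrahedron inscribed in the unit
sphere.
-/

set_option autoImplicit false

namespace BccP

open BccCov BccO

/-- slope of the potential at long edges -/
noncomputable def tt : ℝ := 29 / 50 * cc

/-- slope of the potential at short edges (`c' = 8 √15 / 375`) -/
noncomputable def ss : ℝ := 21 / 50 * (8 * √15 / 375)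

noncomputable def tau : ℝ := tt + ss

noncomputable def hh : ℝ := tt * (Real.pi / 2) + ss * (Real.pi / 3)

/-- the edge potential -/
noncomputable def WW (θ : ℝ) : ℝ := min (tt * (Real.pi / 2 - θ)) (ss * (θ - Real.pi / 3))

/-- sum of the four solid angles of the disphenoid with squared edges `4y, 4-2y, 4-2y` -/
noncomputable def SD (y : ℝ) : ℝ :=
  4 * Real.arccos ((4 - 5 * y) / (4 - 3 * y)) + 8 * Real.arccos (y / (4 - 3 * y)) - 4 * Real.pi

/-- volume of the same disphenoid (circumradius `1`) -/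
noncomputable def VD (y : ℝ) : ℝ := 4 / 3 * y * √(1 - y)

/-- the facts about the volume `V` and the dihedral angles of a tetrahedron inscribed in the unit
sphere which are used in the combinatorial part; `A i`, `B i` are the angles at the `i`-th pair of
opposite edges -/
structure Facts (V : ℝ) (A B : Fin 3 → ℝ) : Prop where
  V0 : 0 < V
  V1 : V ≤ 8 * √3 / 27
  A0 : ∀ i, 0 ≤ A i
  A1 : ∀ i, A i ≤ Real.pi
  B0 : ∀ i, 0 ≤ B i
  B1 : ∀ i, B i ≤ Real.pi
  /-- quadrilateral inequality for the four face normals -/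
  cyc : ∀ i j, i ≠ j → A i + B i + (A j + B j) ≤ 2 * Real.pi
  /-- Coxeter-Few-Rogers inequality -/
  sol : 4.2968 * V ≤ 2 * ∑ i, (A i + B i) - 4 * Real.pi
  opp : ∀ i, V ≤ cc * (5 + Real.pi - (A i + B i))
  one : ∀ i, ∀ α, (α = A i ∨ α = B i) → 0.92546 * V + tau * α - hh ≤ 5 * cc
  one' : ∀ i, ∀ α, (α = A i ∨ α = B i) → V ≤ cc * (Real.pi / 2 - α) + 5 * cc * (27 / 26)
  two : ∀ i, V - ss / 2 * (2 * ∑ i, (A i + B i) - 4 * Real.pi) + tau * (A i + B i) - 2 * hh
    ≤ 5 * cc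
  adj : ∀ i j, i ≠ j → ∀ α β, (α = A i ∨ α = B i) → (β = A j ∨ β = B j) →
    α + β ≤ 4 * Real.arctan (0.42204 / V)
  mix : ∀ i j, i ≠ j → ∀ β, (β = A j ∨ β = B j) →
    (A i + B i) / 2 + β ≤ 4 * Real.arctan (0.41722 / V)
  dbl : ∀ i j, i ≠ j → A i + B i + (A j + B j) ≤ 8 * Real.arctan (0.38766 / V)
  tri : ∀ α β γ, (α = A 0 ∨ α = B 0) → (β = A 1 ∨ β = B 1) → (γ = A 2 ∨ γ = B 2) →
    α + β + γ ≤ 6 * Real.arctan (0.39507 / V)

end BccP
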