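import Pool.Agent.PEN.Num

/-!
[PEN-E1] the potential around an edge.

PROOF. `WW θ ≤ tt (π/2 - θ)` and `WW θ ≤ ss (θ - π/3)`, `tt, ss > 0`. With `n = s.card`:
`n ≤ 4`: sum `≤ tt (n π/2 - 2π) ≤ 0`; `n ≥ 6`: sum `≤ ss (2π - n π/3) ≤ 0`; `n = 5`: sum `≤ ss π/3 ≤ 5cc/13`
(`0.0347020·3.141593/3 = 0.0363399`, `5·0.0954055/13 = 0.0366944`).
`WW_abs`: `|WW θ| ≤ 1` for `0 ≤ θ ≤ π`.
-/

set_option autoImplicit false

namespace BccP.E1

open BccCov BccO

theorem edge_sum {ι : Type} (s : Finset ι) (θ : ι → ℝ) (hs : ∑ i ∈ s, θ i = 2 * Real.pi) :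
    ∑ i ∈ s, WW (θ i) ≤ if s.card = 5 then 5 * cc / 13 else 0 := by
  have ht := Num.tt_pos
  have hss := Num.ss_pos
  have hp := Real.pi_pos
  have h1 : ∑ i ∈ s, WW (θ i) ≤ tt * (s.card * (Real.pi / 2) - 2 * Real.pi) := by
    have h2 : ∑ i ∈ s, WW (θ i) ≤ ∑ i ∈ s, tt * (Real.pi / 2 - θ i) :=
      Finset.sum_le_sum fun i _ => min_le_left _ _
    rw [← Finset.mul_sum, Finset.sum_sub_distrib, hs, Finset.sum_const, nsmul_eq_mul] at h2
    exact h2
  have h3 : ∑ i ∈ s, WW (θ i) ≤ ss * (2 * Real.pi - s.card * (Real.pi / 3)) := by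
    have h2 : ∑ i ∈ s, WW (θ i) ≤ ∑ i ∈ s, ss * (θ i - Real.pi / 3) :=
      Finset.sum_le_sum fun i _ => min_le_right _ _
    rw [← Finset.mul_sum, Finset.sum_sub_distrib, hs, Finset.sum_const, nsmul_eq_mul] at h2
    exact h2
  split_ifs with h5
  · refine h3.trans ?_
    rw [h5]
    have h6 : ss * Real.pi ≤ 0.0347020 * 3.141593 :=
      mul_le_mul Num.ss_ub Real.pi_lt_d6.le hp.le (by norm_num)
    have h7 := Num.cc_lb
    have h8 : ss * (2 * Real.pi - ((5 : ℕ) : ℝ) * (Real.pi / 3)) = ss * Real.pi / 3 := by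
      push_cast; ring
    rw [h8]
    norm_num at h6 h7 ⊢
    linarith
  · rcases Nat.lt_or_ge s.card 5 with h6 | h6
    · refine h1.trans ?_
      have h7 : (s.card : ℝ) ≤ 4 := by
        have : s.card ≤ 4 := by omega
        exact_mod_cast this
      have h8 : (s.card : ℝ) * (Real.pi / 2) - 2 * Real.pi ≤ 0 := by nlinarith
      exact mul_nonpos_of_nonneg_of_nonpos ht.le h8
    · refine h3.trans ?_
      have h7 : (6 : ℝ) ≤ s.card := by
        have : 6 ≤ s.card := by omega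
        exact_mod_cast this
      have h8 : 2 * Real.pi - (s.card : ℝ) * (Real.pi / 3) ≤ 0 := by nlinarith
      exact mul_nonpos_of_nonneg_of_nonpos hss.le h8

theorem WW_abs (θ : ℝ) (h0 : 0 ≤ θ) (h1 : θ ≤ Real.pi) : |WW θ| ≤ 1 := by
  have ht := Num.tt_pos
  have hss := Num.ss_pos
  have ht1 := Num.tt_ub
  have hs1 := Num.ss_ub
  have hp := Real.pi_pos
  have hp4 := Real.pi_le_four
  have ht2 : tt ≤ 1 / 4 := by norm_num at ht1; linarith
  have hs2 : ss ≤ 1 / 4 := by norm_num at hs1; linarith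
  have a1 : |tt * (Real.pi / 2 - θ)| ≤ 1 := by
    rw [abs_mul, abs_of_pos ht]
    have h2 : |Real.pi / 2 - θ| ≤ 4 := by
      rw [abs_le]
      constructor <;> linarith
    calc tt * |Real.pi / 2 - θ| ≤ 1 / 4 * 4 := mul_le_mul ht2 h2 (abs_nonneg _) (by norm_num)
      _ = 1 := by norm_num
  have a2 : |ss * (θ - Real.pi / 3)| ≤ 1 := by
    rw [abs_mul, abs_of_pos hss]
    have h2 : |θ - Real.pi / 3| ≤ 4 := by
      rw [abs_le]
      constructor <;> linarith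
    calc ss * |θ - Real.pi / 3| ≤ 1 / 4 * 4 := mul_le_mul hs2 h2 (abs_nonneg _) (by norm_num)
      _ = 1 := by norm_num
  rw [abs_le] at a1 a2 ⊢
  unfold WW
  exact ⟨le_min a1.1 a2.1, (min_le_left _ _).trans a1.2⟩

end BccP.E1
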