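import Pool.Agent.PEN.C1

/-!
[PEN-W0] the two families of windows: balls and cubes.

PROOF. `gauge_ball`: `{x | ‖x‖ ≤ R} = closedBall 0 R`, `BccCov.E.vol_ball`. `gauge_cube`: `cub x = ‖x.ofLp‖` (sup norm of
the coordinates); `cub x ≤ R ↔ ∀ i, |x i| ≤ R` for `R ≥ 0` (`pi_norm_le_iff_of_nonneg`); `‖x‖ ≤ √3 cub x ≤ 2 cub x`;
`cub x - cub y ≤ cub (x - y) ≤ ‖x - y‖`; volume: `EuclideanSpace.volume_preserving_symm_measurableEquiv_toLp` /
`EuclideanSpace.volume_preserving_measurableEquiv` and `Real.volume_pi_closedBall` : `(2R)^3 = 8 R³`.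
-/

set_option autoImplicit false

open scoped InnerProductSpace
open MeasureTheory

namespace BccP.W0

open BccCov BccO

/-- sup norm of the coordinates -/
noncomputable def cub (x : E3) : ℝ := max |x 0| (max |x 1| |x 2|)

theorem w0_coord (x : E3) (i : Fin 3) : |x i| ≤ ‖x‖ := by
  have h := PiLp.norm_apply_le x i
  rwa [Real.norm_eq_abs] at h

theorem w0_cub_le (x : E3) (R : ℝ) : cub x ≤ R ↔ ∀ i, |x i| ≤ R := by
  unfold cub
  rw [max_le_iff, max_le_iff]
  constructor
  · rintro ⟨h0, h1, h2⟩ i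
    fin_cases i
    · exact h0
    · exact h1
    · exact h2
  · intro h
    exact ⟨h 0, h 1, h 2⟩

theorem w0_le_cub (x : E3) (i : Fin 3) : |x i| ≤ cub x := (w0_cub_le x (cub x)).1 le_rfl i

theorem w0_cub_nonneg (x : E3) : 0 ≤ cub x := (abs_nonneg _).trans (w0_le_cub x 0)

theorem gauge_ball : Gauge (fun x : E3 => ‖x‖) (4 / 3 * Real.pi) := by
  refine ⟨?_, ?_, ?_, ?_⟩
  · intro x y
    rw [dist_eq_norm]
    have h := norm_add_le y (x - y)
    rwa [add_sub_cancel] at h
  · intro x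
    have := norm_nonneg x
    linarith
  · positivity
  · intro R hR
    have h : {x : E3 | ‖x‖ ≤ R} = Metric.closedBall (0 : E3) R := by
      ext x
      rw [Set.mem_ofPred_eq, mem_closedBall_zero_iff]
    rw [h]
    exact BccCov.E.vol_ball R hR

theorem gauge_cube : Gauge cub 8 := by
  refine ⟨?_, ?_, by norm_num, ?_⟩
  · intro x y
    rw [w0_cub_le]
    intro i
    have h1 := w0_coord (x - y) i
    have h2 := w0_le_cub y i
    rw [← dist_eq_norm] at h1
    have h3 : (x - y) i = x i - y i := rfl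
    rw [h3] at h1
    have h4 := abs_add_le (y i) (x i - y i)
    rw [add_sub_cancel] at h4
    linarith
  · intro x
    have h0 := w0_cub_nonneg x
    have h1 : ‖x‖ ^ 2 ≤ (2 * cub x) ^ 2 := by
      rw [EuclideanSpace.real_norm_sq_eq, Fin.sum_univ_three]
      have h2 : ∀ i, x i ^ 2 ≤ cub x ^ 2 := by
        intro i
        rw [← sq_abs (x i)]
        exact pow_le_pow_left₀ (abs_nonneg _) (w0_le_cub x i) 2
      have h3 := h2 0
      have h4 := h2 1
      have h5 := h2 2
      nlinarith [sq_nonneg (cub x)]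
    exact (pow_le_pow_iff_left₀ (norm_nonneg x) (by linarith) two_ne_zero).1 h1
  · intro R hR
    have hm := EuclideanSpace.volume_preserving_symm_measurableEquiv_toLp (Fin 3)
    have h : {x : E3 | cub x ≤ R}
        = (MeasurableEquiv.toLp 2 (Fin 3 → ℝ)).symm ⁻¹' (Metric.closedBall (0 : Fin 3 → ℝ) R) := by
      ext x
      rw [Set.mem_ofPred_eq, w0_cub_le, Set.mem_preimage, mem_closedBall_zero_iff,
        pi_norm_le_iff_of_nonneg hR]
      exact Iff.rfl
    rw [h, hm.measure_preimage_equiv, Real.volume_pi_closedBall _ hR, Fintype.card_fin]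
    congr 1
    ring

theorem win_ball (R : ℝ) : {x : E3 | ‖x‖ ≤ R} = Metric.closedBall (0 : E3) R := by
  ext x
  rw [Set.mem_ofPred_eq, mem_closedBall_zero_iff]

theorem win_cube (R : ℝ) : {x : E3 | cub x ≤ R} = {x : E3 | ∀ i, |x i| ≤ R} := by
  ext x
  rw [Set.mem_ofPred_eq, w0_cub_le, Set.mem_ofPred_eq]

end BccP.W0
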