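import Pool.Agent.PEN.T2
import Pool.Agent.PEN.C2
import Pool.Agent.MP_bf7174_co.O.R1

/-!
[PEN-Z2] the theorem with short edges (edges lying in at most four tetrahedra), windows `{x | p x ≤ R}`.

PROOF. `C2.master` with `K = 5 cc r³/26`, `ke = 0`, `kt t = 26 + 2` if `sh D t = 0`, `26 + 1` if `sh D t = 1`,
`26` otherwise, `wt t m = r³ cc (π/2 - tdih t m)` if `{t' | t' ∈ D ∧ m ⊆ t'}.encard ≤ 4`, else `0`, `C = r³·π`,
`σ = 26 τ`. `hvol`: `T2.local_L` with `LA 0 = ({x,y} has valence ≤ 4)` etc. (`BccO.six_sum`, `BccO.six_dih` in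
O/R1.lean, import `Pool.Agent.MP_bf7174_co.O.R1`; `L2.cnt LA LB = sh D t`: the set in `sh` is the filter of
`t.powersetCard 2`). `hedge` as in `BccCov.T.hedge`: marked `m`: `Σ = r³ cc (n π/2 - 2π) ≤ 0` for `n ≤ 4`.
-/

set_option autoImplicit false

namespace BccP

open BccCov BccO

/-- number of edges of `t` which lie in at most four tetrahedra of `D` -/
noncomputable def sh (D : Set (Finset E3)) (t : Finset E3) : ℕ :=
  {m : Finset E3 | m ⊆ t ∧ m.card = 2 ∧ {t' | t' ∈ D ∧ m ⊆ t'}.encard ≤ 4}.ncard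

namespace Z2

private lemma z2_wt (M : Set (Finset E3)) (r : ℝ) (t m : Finset E3) (P : Prop) [Decidable P]
    (hP : P ↔ m ∈ M) (θ : ℝ) (hθ : tdih t m = θ) :
    BccCov.T.wt M r t m = r ^ 3 * (if P then cc * (Real.pi / 2 - θ) else 0) := by
  unfold BccCov.T.wt
  by_cases hm : m ∈ M
  · rw [if_pos hm, if_pos (hP.2 hm), hθ]; ring
  · rw [if_neg hm, if_neg (fun h => hm (hP.1 h)), mul_zero]

private lemma z2_sum {T : Set (Finset E3)} (hT : T.Finite) (g : Finset E3 → ℕ) :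
    ∑ᶠ t ∈ T, (26 + (if g t = 0 then 2 else if g t = 1 then 1 else 0)) =
      26 * T.ncard + 2 * {t | t ∈ T ∧ g t = 0}.ncard + {t | t ∈ T ∧ g t = 1}.ncard := by
  classical
  have h0 : {t | t ∈ T ∧ g t = 0}.ncard = ∑ t ∈ hT.toFinset, (if g t = 0 then 1 else 0) := by
    have : {t | t ∈ T ∧ g t = 0} = ((hT.toFinset.filter (fun t => g t = 0) : Finset (Finset E3)) :
        Set (Finset E3)) := by
      ext t; simp
    rw [this, Set.ncard_coe_finset, Finset.card_filter]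
  have h1 : {t | t ∈ T ∧ g t = 1}.ncard = ∑ t ∈ hT.toFinset, (if g t = 1 then 1 else 0) := by
    have : {t | t ∈ T ∧ g t = 1} = ((hT.toFinset.filter (fun t => g t = 1) : Finset (Finset E3)) :
        Set (Finset E3)) := by
      ext t; simp
    rw [this, Set.ncard_coe_finset, Finset.card_filter]
  have h2 : T.ncard = ∑ t ∈ hT.toFinset, 1 := by
    rw [Set.ncard_eq_toFinset_card T hT]; simp
  rw [finsum_mem_eq_finite_toFinset_sum _ hT, h0, h1, h2, Finset.mul_sum, Finset.mul_sum,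
    ← Finset.sum_add_distrib, ← Finset.sum_add_distrib]
  refine Finset.sum_congr rfl fun t _ => ?_
  by_cases h : g t = 0
  · simp [h]
  · by_cases h' : g t = 1
    · simp [h']
    · simp [h, h']

private lemma z2_fin {p : E3 → ℝ} {v : ℝ} (hp : Gauge p v) {X : Set E3} {D : Set (Finset E3)}
    (hT : IsTriangulation X D) (hfin : ∀ R : ℝ, (X ∩ Metric.closedBall (0 : E3) R).Finite) (R : ℝ) :
    {t : Finset E3 | t ∈ D ∧ ∀ x ∈ t, p x ≤ R}.Finite := by
  refine ((hfin (2 * R)).toFinset.powerset.finite_toSet).subset ?_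
  rintro t ⟨htD, ht⟩
  rw [Finset.mem_coe, Finset.mem_powerset]
  intro x hx
  rw [Set.Finite.mem_toFinset]
  refine ⟨hT.vertices t htD x hx, ?_⟩
  rw [mem_closedBall_zero_iff]
  have h1 := hp.bdd x
  have h2 := ht x hx
  linarith

private lemma z2_vol {X : Set E3} {D : Set (Finset E3)} {r : ℝ} (hr : 0 < r)
    (hT : IsTriangulation X D) (hI : ∀ t ∈ D, Inscribed t r) (t : Finset E3) (ht : t ∈ D) :
    (MeasureTheory.volume (convexHull ℝ (t : Set E3))).toReal ≤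
      5 * cc * r ^ 3 / 26 *
        ((26 + (if sh D t = 0 then 2 else if sh D t = 1 then 1 else 0) : ℕ) : ℝ) +
      ∑ m ∈ t.powersetCard 2,
        BccCov.T.wt {m : Finset E3 | {t' | t' ∈ D ∧ m ⊆ t'}.encard ≤ 4} r t m := by
  classical
  set M : Set (Finset E3) := {m : Finset E3 | {t' | t' ∈ D ∧ m ⊆ t'}.encard ≤ 4} with hM
  have hc := hT.card_eq t ht
  have hpos : 0 < t.card := by omega
  obtain ⟨x, hx⟩ := Finset.card_pos.1 hpos
  obtain ⟨y, z, w, hl⟩ := exists_label hc hx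
  have hy : y ∈ t := by rw [← Finset.mem_coe, hl]; simp
  have hz : z ∈ t := by rw [← Finset.mem_coe, hl]; simp
  have hw : w ∈ t := by rw [← Finset.mem_coe, hl]; simp
  obtain ⟨o, ρ, hρ, ho⟩ := hI t ht
  have hdet := tdih_facts.2.2 x y z w t hc hl (hT.indep t ht)
  obtain ⟨d1, d2, d3, d4, d5, d6⟩ := six_dih hc hl
  have hloc := T2.local_L x y z w o ρ r hρ (ho x hx) (ho y hy) (ho z hz) (ho w hw) hdet
    ![({x, y} : Finset E3) ∈ M, ({x, z} : Finset E3) ∈ M, ({x, w} : Finset E3) ∈ M]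
    ![({z, w} : Finset E3) ∈ M, ({y, w} : Finset E3) ∈ M, ({y, z} : Finset E3) ∈ M]
  set LA : Fin 3 → Prop :=
    ![({x, y} : Finset E3) ∈ M, ({x, z} : Finset E3) ∈ M, ({x, w} : Finset E3) ∈ M] with hLA
  set LB : Fin 3 → Prop :=
    ![({z, w} : Finset E3) ∈ M, ({y, w} : Finset E3) ∈ M, ({y, z} : Finset E3) ∈ M] with hLB
  have a0 : LA 0 ↔ ({x, y} : Finset E3) ∈ M := Iff.rfl
  have a1 : LA 1 ↔ ({x, z} : Finset E3) ∈ M := Iff.rfl
  have a2 : LA 2 ↔ ({x, w} : Finset E3) ∈ M := Iff.rfl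
  have b0 : LB 0 ↔ ({z, w} : Finset E3) ∈ M := Iff.rfl
  have b1 : LB 1 ↔ ({y, w} : Finset E3) ∈ M := Iff.rfl
  have b2 : LB 2 ↔ ({y, z} : Finset E3) ∈ M := Iff.rfl
  have hcnt : L2.cnt LA LB = sh D t := by
    have h1 : ((sh D t : ℕ) : ℝ) = ∑ m ∈ t.powersetCard 2, (if m ∈ M then (1 : ℝ) else 0) := by
      have h2 : {m : Finset E3 | m ⊆ t ∧ m.card = 2 ∧ {t' | t' ∈ D ∧ m ⊆ t'}.encard ≤ 4} =
          (((t.powersetCard 2).filter (fun m => m ∈ M) : Finset (Finset E3)) :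
            Set (Finset E3)) := by
        ext m
        simp only [Set.mem_setOf_eq, Finset.coe_filter, Finset.mem_powersetCard, hM, and_assoc]
      rw [sh, h2, Set.ncard_coe_finset, Finset.card_filter]
      push_cast
      rfl
    rw [six_sum hc hl] at h1
    have h3 : ((L2.cnt LA LB : ℕ) : ℝ) = ((sh D t : ℕ) : ℝ) := by
      rw [h1]
      unfold L2.cnt
      rw [Fin.sum_univ_three]
      push_cast
      simp only [a0, a1, a2, b0, b1, b2]
      ring
    exact_mod_cast h3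
  rw [hcnt] at hloc
  rw [six_sum hc hl, z2_wt M r t {x, y} (LA 0) a0 _ d1, z2_wt M r t {x, z} (LA 1) a1 _ d2,
    z2_wt M r t {x, w} (LA 2) a2 _ d3, z2_wt M r t {y, z} (LB 2) b2 _ d4,
    z2_wt M r t {y, w} (LB 1) b1 _ d5, z2_wt M r t {z, w} (LB 0) b0 _ d6]
  rw [hl, vol_tet, ENNReal.toReal_ofReal (by positivity)]
  refine hloc.trans (le_of_eq ?_)
  ring

theorem main {p : E3 → ℝ} {v : ℝ} (hp : Gauge p v) (X : Set E3) (r : ℝ) (hr : 0 < r)
    (D : Set (Finset E3)) (hT : IsTriangulation X D) (hI : ∀ t ∈ D, Inscribed t r)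
    (τ : ℝ) (hτ : 0 < τ)
    (h : (∀ R : ℝ, (X ∩ Metric.closedBall (0 : E3) R).Finite) → ∀ᶠ R in Filter.atTop,
      (({t : Finset E3 | t ∈ D ∧ ∀ x ∈ t, p x ≤ R}.ncard : ℕ) : ℝ) +
        (({t : Finset E3 | t ∈ D ∧ (∀ x ∈ t, p x ≤ R) ∧ sh D t = 0}.ncard : ℕ) : ℝ) / 13 +
        (({t : Finset E3 | t ∈ D ∧ (∀ x ∈ t, p x ≤ R) ∧ sh D t = 1}.ncard : ℕ) : ℝ) / 26
      ≤ τ * (((X ∩ {x | p x ≤ R}).ncard : ℕ) : ℝ)) :
    ENNReal.ofReal (6 / τ * (5 * Real.sqrt 5 * Real.pi / 24)) ≤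
      Filter.liminf
        (fun R : ℝ =>
          ENat.toENNReal (X ∩ {x | p x ≤ R}).encard *
            MeasureTheory.volume (Metric.closedBall (0 : EuclideanSpace ℝ (Fin 3)) r) /
            MeasureTheory.volume {x | p x ≤ R})
        Filter.atTop := by
  have hpi := Real.pi_pos
  have hcc : 0 < cc := BccCov.T.cc_pos
  have hk : 0 < cc * r ^ 3 := by positivity
  have h5 : Real.sqrt 5 * Real.sqrt 5 = 5 := Real.mul_self_sqrt (by norm_num)
  have h50 : 0 < Real.sqrt 5 := Real.sqrt_pos.2 (by norm_num)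
  have key := C2.master hp hr hT hI (5 * cc * r ^ 3 / 26) (cc * r ^ 3 * Real.pi) (26 * τ)
    (by positivity) (by positivity) (by positivity)
    (fun t => 26 + (if sh D t = 0 then 2 else if sh D t = 1 then 1 else 0)) (fun _ => 0)
    (fun t => by omega)
    (BccCov.T.wt {m : Finset E3 | {t' | t' ∈ D ∧ m ⊆ t'}.encard ≤ 4} r)
    (BccCov.T.wt_bound _ r hr) (z2_vol hr hT hI) ?_ ?_
  · have e : 4 / 3 * Real.pi * r ^ 3 / (5 * cc * r ^ 3 / 26 * (26 * τ)) =
        6 / τ * (5 * Real.sqrt 5 * Real.pi / 24) := by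
      unfold cc
      rw [div_eq_iff (by positivity)]
      field_simp
      nlinarith [h5]
    rw [e] at key
    exact key
  · intro hfin m s hm hmD hs
    have h1 := BccCov.T.hedge (M := {m : Finset E3 | {t' | t' ∈ D ∧ m ⊆ t'}.encard ≤ 4}) hr hT hI
      hfin (fun m hm _ => hm) m s hm hmD hs
    simpa using h1
  · intro hfin
    filter_upwards [h hfin] with R hR
    have hTf := z2_fin hp hT hfin R
    have h1 := z2_sum hTf (sh D)
    have h2 : GG p D (fun t => 26 + (if sh D t = 0 then 2 else if sh D t = 1 then 1 else 0))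
        (fun _ => 0) R = 26 * {t : Finset E3 | t ∈ D ∧ ∀ x ∈ t, p x ≤ R}.ncard +
        2 * {t : Finset E3 | t ∈ D ∧ (∀ x ∈ t, p x ≤ R) ∧ sh D t = 0}.ncard +
        {t : Finset E3 | t ∈ D ∧ (∀ x ∈ t, p x ≤ R) ∧ sh D t = 1}.ncard := by
      unfold GG
      rw [h1]
      have e0 : {t | t ∈ {t : Finset E3 | t ∈ D ∧ ∀ x ∈ t, p x ≤ R} ∧ sh D t = 0} =
          {t : Finset E3 | t ∈ D ∧ (∀ x ∈ t, p x ≤ R) ∧ sh D t = 0} := by
        ext t; simp only [Set.mem_setOf_eq, and_assoc]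
      have e1 : {t | t ∈ {t : Finset E3 | t ∈ D ∧ ∀ x ∈ t, p x ≤ R} ∧ sh D t = 1} =
          {t : Finset E3 | t ∈ D ∧ (∀ x ∈ t, p x ≤ R) ∧ sh D t = 1} := by
        ext t; simp only [Set.mem_setOf_eq, and_assoc]
      rw [e0, e1]
      simp
    rw [h2]
    push_cast
    linarith

end Z2

end BccP
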