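import Pool.Agent.PEN.Z4
import Pool.Agent.PEN.Z2
import Pool.Agent.PEN.W0

/-!
# [PEN] the two theorems for balls and cubes as windows
-/

set_option autoImplicit false

namespace BccP

open BccCov BccO

theorem pent_final (X : Set E3) (r : ℝ) (hr : 0 < r)
    (D : Set (Finset E3)) (hT : IsTriangulation X D) (hI : ∀ t ∈ D, Inscribed t r)
    (hV : ∀ x ∈ X, ∃ t ∈ D, x ∈ t) (φ : ℝ) (hφ : 2 < φ) (W : ℝ → Set E3)
    (hW : (∀ R, W R = Metric.closedBall 0 R) ∨ (∀ R, W R = {x | ∀ i, |x i| ≤ R}))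
    (h : ∀ᶠ R in Filter.atTop,
      ∑ᶠ x ∈ X ∩ W R, ((nf D x : ℝ) + (np D x : ℝ) / 13)
        ≤ φ * (((X ∩ W R).ncard : ℕ) : ℝ)) :
    ENNReal.ofReal (12 / (φ - 2) * (5 * Real.sqrt 5 * Real.pi / 24)) ≤
      Filter.liminf
        (fun R : ℝ =>
          ENat.toENNReal (X ∩ W R).encard *
            MeasureTheory.volume (Metric.closedBall (0 : E3) r) / MeasureTheory.volume (W R))
        Filter.atTop := by
  rcases hW with hW | hW
  · have e : ∀ R, W R = {x : E3 | ‖x‖ ≤ R} := fun R => by rw [hW, W0.win_ball]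
    simp only [e] at h ⊢
    exact Z4.main W0.gauge_ball X r hr D hT hI hV φ hφ h
  · have e : ∀ R, W R = {x : E3 | W0.cub x ≤ R} := fun R => by rw [hW, W0.win_cube]
    simp only [e] at h ⊢
    exact Z4.main W0.gauge_cube X r hr D hT hI hV φ hφ h

theorem short_final (X : Set E3) (r : ℝ) (hr : 0 < r)
    (D : Set (Finset E3)) (hT : IsTriangulation X D) (hI : ∀ t ∈ D, Inscribed t r)
    (τ : ℝ) (hτ : 0 < τ) (W : ℝ → Set E3)
    (hW : (∀ R, W R = Metric.closedBall 0 R) ∨ (∀ R, W R = {x | ∀ i, |x i| ≤ R}))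
    (h : ∀ᶠ R in Filter.atTop,
      (({t : Finset E3 | t ∈ D ∧ (t : Set E3) ⊆ W R}.ncard : ℕ) : ℝ) +
        (({t : Finset E3 | t ∈ D ∧ (t : Set E3) ⊆ W R ∧ sh D t = 0}.ncard : ℕ) : ℝ) / 13 +
        (({t : Finset E3 | t ∈ D ∧ (t : Set E3) ⊆ W R ∧ sh D t = 1}.ncard : ℕ) : ℝ) / 26
        ≤ τ * (((X ∩ W R).ncard : ℕ) : ℝ)) :
    ENNReal.ofReal (6 / τ * (5 * Real.sqrt 5 * Real.pi / 24)) ≤
      Filter.liminf
        (fun R : ℝ =>
          ENat.toENNReal (X ∩ W R).encard *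
            MeasureTheory.volume (Metric.closedBall (0 : E3) r) / MeasureTheory.volume (W R))
        Filter.atTop := by
  rcases hW with hW | hW
  · have e : ∀ R, W R = {x : E3 | ‖x‖ ≤ R} := fun R => by rw [hW, W0.win_ball]
    simp only [e] at h ⊢
    exact Z2.main W0.gauge_ball X r hr D hT hI τ hτ fun _ => h
  · have e : ∀ R, W R = {x : E3 | W0.cub x ≤ R} := fun R => by rw [hW, W0.win_cube]
    simp only [e] at h ⊢
    exact Z2.main W0.gauge_cube X r hr D hT hI τ hτ fun _ => h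

end BccP
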