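import Pool.Agent.PEN.Y7
import Pool.Agent.PEN.W0

/-!
# [PEN] the theorem on quadrilateral faces for balls and cubes as windows
-/

set_option autoImplicit false

namespace BccP

open BccCov BccO

theorem quad_final (X : Set E3) (r : ℝ) (hr : 0 < r)
    (D : Set (Finset E3)) (hT : IsTriangulation X D) (hI : ∀ t ∈ D, Inscribed t r)
    (hV : ∀ x ∈ X, ∃ t ∈ D, x ∈ t) (φ : ℝ) (hφ : 2 < φ) (W : ℝ → Set E3)
    (hW : (∀ R, W R = Metric.closedBall 0 R) ∨ (∀ R, W R = {x | ∀ i, |x i| ≤ R}))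
    (h : ∀ᶠ R in Filter.atTop,
      ∑ᶠ x ∈ X ∩ W R, ((nf D x : ℝ) + 7 * √3 * Real.pi / 250 * (6 - (nv D 4 x : ℝ))
          - 2 / 5 * (nv D 3 x : ℝ))
        ≤ φ * (((X ∩ W R).ncard : ℕ) : ℝ)) :
    ENNReal.ofReal (12 / (φ - 2) * (5 * Real.sqrt 5 * Real.pi / 24)) ≤
      Filter.liminf
        (fun R : ℝ =>
          ENat.toENNReal (X ∩ W R).encard *
            MeasureTheory.volume (Metric.closedBall (0 : E3) r) / MeasureTheory.volume (W R))
        Filter.atTop := by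
  rcases hW with hW | hW
  · have e : ∀ R, W R = {x : E3 | ‖x‖ ≤ R} := fun R => by rw [hW, W0.win_ball]
    simp only [e] at h ⊢
    exact Y7.main W0.gauge_ball X r hr D hT hI hV φ hφ h
  · have e : ∀ R, W R = {x : E3 | W0.cub x ≤ R} := fun R => by rw [hW, W0.win_cube]
    simp only [e] at h ⊢
    exact Y7.main W0.gauge_cube X r hr D hT hI hV φ hφ h

end BccP
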