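import Pool.Agent.PEN.Num

/-!
[PEN-K1] one long edge. `VD y = 4/3 y √(1-y)`.

PROOF. By `BccCov.G5.arctan_conv` with `b = 1.08867·(2/3) y √y`, `d = V`, `D = VD y`, and
`α ≤ 2 arctan(..)`, the left side is `≤` the convex combination (weights `1 - V/VD`, `V/VD`) of
`tau π - hh ≤ 0.1597` and of the value at `V = VD y`, i.e. of
`k VD y + 2 tau arctan (1.08867 √y/(2√(1-y))) - hh` (`k = 0.92546`), because
`(2/3) y √y / VD y = √y/(2√(1-y))`. Put `r = √(1-y) ∈ (0,1)`, `√y = √(1-r²)`. To prove: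
`F(r) = 4/3 k (1-r²) r + 2 tau arctan (0.544335 √(1-r²)/r) - hh ≤ 5cc`; the maximum is `0.476267` at
`r = 0.5192`, slack `0.00076`.
For `r ≤ 0.25`: `arctan ≤ π/2`: `F ≤ 4/3·k·0.25 + 0.1597 ≤ 0.4683`.
For `r ≥ 0.25`: tangent line `arctan v ≤ arctan v₀ + (v - v₀)/(1+v₀²)` (concavity) with `v₀ = 0.896`,
`arctan 0.896 = 0.7305664` (e.g. `= π/4 - arctan (0.104/1.896)`, `arctan t ≥ t - t³/3`), and
`√(1-r²) ≤ (1 - r² + q²)/(2q)` with `q = 0.8545`. After multiplication by `r` this is the polynomial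
inequality
`k·4/3·(r² - r⁴) + 2 tau ((A₀ - v₀/(1+v₀²)) r + 0.544335/(1+v₀²) · (1 - r² + q²)/(2q)) ≤ (5cc + hh) r`
on `[0.25, 1]` (slack of the undivided form at least `0.00076`, attained at `r = 0.519`): write the
difference as `(r - 0.5193)²·(quadratic) + small`, or `nlinarith`.

`one'` is the same with `V + cc (α - π/2) ≤ 5 cc · 27/26`: maximum `0.4952034` at `y = 0.7291`
(`r = 0.5205`), right side `0.4953751`, slack `0.00017`; use `v₀ = 0.893`, `q = 0.8539`
(slack in the polynomial form at least `0.00017`); for `r ≤ 0.25` trivial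
(`4/3·0.25 + cc π/2 = 0.4832`).
-/

set_option autoImplicit false

namespace BccP.K1

open BccCov BccO

/-- `t - t³/3 ≤ arctan t` for `t ≥ 0` -/
theorem k1_low (t : ℝ) (ht : 0 ≤ t) : t - t ^ 3 / 3 ≤ Real.arctan t := by
  have hd : ∀ x : ℝ, HasDerivAt (fun x => Real.arctan x - (x - x ^ 3 / 3))
      (1 / (1 + x ^ 2) - (1 - 3 * x ^ 2 / 3)) x := by
    intro x
    have h1 := Real.hasDerivAt_arctan x
    have h2 : HasDerivAt (fun x : ℝ => x ^ 3 / 3) (3 * x ^ 2 / 3) x := by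
      have := (hasDerivAt_pow 3 x).div_const 3
      exact this
    exact h1.sub ((hasDerivAt_id x).sub h2)
  have hm : Monotone (fun x => Real.arctan x - (x - x ^ 3 / 3)) := by
    apply monotone_of_deriv_nonneg (fun x => (hd x).differentiableAt)
    intro x
    rw [(hd x).deriv]
    have h3 : 1 / (1 + x ^ 2) - (1 - 3 * x ^ 2 / 3) = x ^ 4 / (1 + x ^ 2) := by
      field_simp
      ring
    rw [h3]
    positivity
  have h4 := hm ht
  simp only [Real.arctan_zero] at h4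
  linarith

/-- the tangent line of `arctan` -/
theorem k1_tan (v v₀ : ℝ) (hv : 0 ≤ v) (hv₀ : 0 < v₀) :
    Real.arctan v ≤ Real.arctan v₀ + (v - v₀) / (1 + v₀ ^ 2) := by
  have hconc := BccCov.G5.arctan_concave
  have hp : (0 : ℝ) < 1 + v₀ ^ 2 := by positivity
  rcases lt_trichotomy v v₀ with h | h | h
  · have h1 := hconc.le_slope_of_hasDerivAt (Set.mem_Ici.2 hv) (Set.mem_Ici.2 hv₀.le) h
      (Real.hasDerivAt_arctan v₀)
    rw [slope_def_field, le_div_iff₀ (by linarith)] at h1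
    have h2 : (v - v₀) / (1 + v₀ ^ 2) = -(1 / (1 + v₀ ^ 2) * (v₀ - v)) := by ring
    rw [h2]
    linarith
  · rw [h]
    simp
  · have h1 := hconc.slope_le_of_hasDerivAt (Set.mem_Ici.2 hv₀.le) (Set.mem_Ici.2 hv) h
      (Real.hasDerivAt_arctan v₀)
    rw [slope_def_field, div_le_iff₀ (by linarith)] at h1
    have h2 : (v - v₀) / (1 + v₀ ^ 2) = 1 / (1 + v₀ ^ 2) * (v - v₀) := by ring
    rw [h2]
    linarith

theorem k1_at (x t : ℝ) (hx : 0 < x) (hx1 : x < 1) (ht : t = (1 - x) / (1 + x)) :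
    Real.arctan x ≤ Real.pi / 4 - (t - t ^ 3 / 3) := by
  have ht0 : 0 ≤ t := by
    rw [ht]
    apply div_nonneg <;> linarith
  have ht1 : t < 1 := by
    rw [ht, div_lt_one (by linarith)]
    linarith
  have h1 : Real.arctan x + Real.arctan t = Real.pi / 4 := by
    rw [Real.arctan_add (by nlinarith), ← Real.arctan_one]
    congr 1
    have h2 : 1 - x * t ≠ 0 := by
      have : x * t < 1 := by nlinarith
      linarith
    rw [div_eq_one_iff_eq h2, ht]
    have h3 : (1 + x) ≠ 0 := by linarith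
    field_simp
    ring
  have h2 := k1_low t ht0
  linarith

theorem k1_A1 : Real.arctan 0.896 ≤ 0.730602 := by
  have h := k1_at 0.896 (13 / 237) (by norm_num) (by norm_num) (by norm_num)
  have hp := Real.pi_lt_d6
  norm_num at h ⊢
  linarith

theorem k1_A2 : Real.arctan 0.893 ≤ 0.728935 := by
  have h := k1_at 0.893 (107 / 1893) (by norm_num) (by norm_num) (by norm_num)
  have hp := Real.pi_lt_d6
  norm_num at h ⊢
  linarith

/-- reduction to `V = VD y` -/
theorem k1_red (k τ h R : ℝ) (hτ : 0 ≤ τ) (h0 : τ * Real.pi - h ≤ R)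
    (hF : ∀ r u : ℝ, 0 < r → 0 < u → u ^ 2 + r ^ 2 = 1 →
      4 / 3 * k * (u ^ 2 * r) + 2 * τ * Real.arctan (0.544335 * (u / r)) - h ≤ R)
    (y V α : ℝ) (hy0 : 0 < y) (hy1 : y < 1) (hV : 0 < V) (hV1 : V ≤ VD y)
    (hα : α ≤ 2 * Real.arctan (1.08867 * (2 / 3 * (y * √y) / V))) :
    k * V + τ * α - h ≤ R := by
  have hr : 0 < √(1 - y) := Real.sqrt_pos.mpr (by linarith)
  have hr2 : √(1 - y) ^ 2 = 1 - y := Real.sq_sqrt (by linarith)
  have hu : 0 < √y := Real.sqrt_pos.mpr hy0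
  have hu2 : √y ^ 2 = y := Real.sq_sqrt hy0.le
  unfold VD at hV1
  generalize √(1 - y) = r at *
  generalize √y = u at *
  have hur : u ^ 2 + r ^ 2 = 1 := by linarith
  have hb : 0 < 1.08867 * (2 / 3 * (y * u)) := by positivity
  have h1 := BccCov.G5.arctan_conv (1.08867 * (2 / 3 * (y * u))) V (4 / 3 * y * r) hb hV hV1
  have hD0 : 0 < 4 / 3 * y * r := by positivity
  have h2 : 1.08867 * (2 / 3 * (y * u)) / (4 / 3 * y * r) = 0.544335 * (u / r) := by
    field_simp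
    norm_num
  have h3 : 1.08867 * (2 / 3 * (y * u) / V) = 1.08867 * (2 / 3 * (y * u)) / V := by ring
  rw [h3] at hα
  rw [h2] at h1
  obtain ⟨t, ht⟩ : ∃ t, t = V / (4 / 3 * y * r) := ⟨_, rfl⟩
  rw [← ht] at h1
  have ht0 : 0 < t := by
    rw [ht]
    positivity
  have ht1 : t ≤ 1 := by
    rw [ht, div_le_one hD0]
    exact hV1
  have hVt : V = t * (4 / 3 * y * r) := by
    rw [ht]
    field_simp
  have h4 := hF r u hr hu hur
  rw [hu2] at h4
  generalize Real.arctan (0.544335 * (u / r)) = A at *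
  have h5 : α ≤ 2 * ((1 - t) * (Real.pi / 2) + t * A) := by linarith
  have h6 := mul_le_mul_of_nonneg_left h5 hτ
  have h7 := mul_le_mul_of_nonneg_left h4 ht0.le
  have h8 := mul_le_mul_of_nonneg_left h0 (by linarith : 0 ≤ 1 - t)
  rw [hVt]
  nlinarith

theorem k1_F1 (r u : ℝ) (hr : 0 < r) (hu : 0 < u) (hur : u ^ 2 + r ^ 2 = 1) :
    4 / 3 * 0.92546 * (u ^ 2 * r) + 2 * tau * Real.arctan (0.544335 * (u / r)) - hh ≤ 5 * cc := by
  have hcc := Num.cc_lb
  have htau := Num.tau_ub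
  have htau0 := Num.tau_pos
  have hhh := Num.hh_lb
  have hpi := Real.pi_lt_d6
  rcases le_total r (1 / 4) with hc | hc
  · have h1 : u ^ 2 * r ≤ 1 * (1 / 4) :=
      mul_le_mul (by nlinarith [sq_nonneg r]) hc hr.le zero_le_one
    have h2 := (Real.arctan_lt_pi_div_two (0.544335 * (u / r))).le
    have h3 : 2 * tau * Real.arctan (0.544335 * (u / r)) ≤ 2 * 0.0900373 * (3.141593 / 2) := by
      calc 2 * tau * Real.arctan (0.544335 * (u / r)) ≤ 2 * tau * (3.141593 / 2) :=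
            mul_le_mul_of_nonneg_left (by linarith) (by linarith)
        _ ≤ 2 * 0.0900373 * (3.141593 / 2) :=
            mul_le_mul_of_nonneg_right (by linarith) (by norm_num)
    norm_num at h1 h3 ⊢
    linarith
  · have hv : 0 ≤ 0.544335 * (u / r) := by positivity
    have h1 := k1_tan (0.544335 * (u / r)) 0.896 hv (by norm_num)
    have h2 := k1_A1
    have h3 : 0 ≤ Real.arctan (0.544335 * (u / r)) := Real.arctan_nonneg.mpr hv
    have h4 : 2 * tau * Real.arctan (0.544335 * (u / r)) ≤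
        2 * 0.0900373 * (0.730602 + (0.544335 * (u / r) - 0.896) / (1 + 0.896 ^ 2)) := by
      calc 2 * tau * Real.arctan (0.544335 * (u / r)) ≤
            2 * 0.0900373 * Real.arctan (0.544335 * (u / r)) :=
            mul_le_mul_of_nonneg_right (by linarith) h3
        _ ≤ _ := mul_le_mul_of_nonneg_left (by linarith) (by norm_num)
    have h5 : u / r * (2 * 0.8545) ≤ (1 - r ^ 2 + 0.8545 ^ 2) / r := by
      rw [div_mul_eq_mul_div]
      apply div_le_div_of_nonneg_right _ hr.le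
      nlinarith [sq_nonneg (u - 0.8545)]
    have h6 : 0 ≤ (r - 0.5187) ^ 2 * (1.2339 * r ^ 2 + 1.2801 * r - 0.2062) := by
      apply mul_nonneg (sq_nonneg _)
      nlinarith
    have hr1 : r ≤ 1 := by nlinarith [sq_nonneg u]
    have h7 : 4 / 3 * 0.92546 * ((1 - r ^ 2) * r) + 2 * 0.0900373 * (0.730602 +
        (0.544335 * ((1 - r ^ 2 + 0.8545 ^ 2) / r / (2 * 0.8545)) - 0.896) / (1 + 0.896 ^ 2)) ≤
        5 * 0.0954055 + 0.1232598 := by
      have h8 : 4 / 3 * 0.92546 * ((1 - r ^ 2) * r) + 2 * 0.0900373 * (0.730602 +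
          (0.544335 * ((1 - r ^ 2 + 0.8545 ^ 2) / r / (2 * 0.8545)) - 0.896) / (1 + 0.896 ^ 2)) =
          (4 / 3 * 0.92546 * ((1 - r ^ 2) * r ^ 2) + 2 * 0.0900373 * (0.730602 * r +
          (0.544335 * ((1 - r ^ 2 + 0.8545 ^ 2) / (2 * 0.8545)) - 0.896 * r) / (1 + 0.896 ^ 2)))
          / r := by
        field_simp
      rw [h8, div_le_iff₀ hr]
      norm_num at h6 ⊢
      nlinarith [mul_nonneg (by linarith : (0:ℝ) ≤ 1 - r) (sq_nonneg r), sq_nonneg (r ^ 2)]
    have hu2 : u ^ 2 = 1 - r ^ 2 := by linarith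
    rw [hu2]
    have h9 : u / r ≤ (1 - r ^ 2 + 0.8545 ^ 2) / r / (2 * 0.8545) := by
      rw [le_div_iff₀ (by norm_num)]
      exact h5
    have h10 : (0.544335 * (u / r) - 0.896) / (1 + 0.896 ^ 2) ≤
        (0.544335 * ((1 - r ^ 2 + 0.8545 ^ 2) / r / (2 * 0.8545)) - 0.896) / (1 + 0.896 ^ 2) := by
      apply div_le_div_of_nonneg_right _ (by norm_num)
      linarith
    linarith

theorem k1_F2 (r u : ℝ) (hr : 0 < r) (hu : 0 < u) (hur : u ^ 2 + r ^ 2 = 1) :
    4 / 3 * 1 * (u ^ 2 * r) + 2 * cc * Real.arctan (0.544335 * (u / r)) - cc * (Real.pi / 2)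
      ≤ 5 * cc * (27 / 26) := by
  have hcc := Num.cc_lb
  have hcc2 := Num.cc_ub
  have hcc0 := Num.cc_pos
  have hpi := Real.pi_lt_d6
  have hpi2 := Real.pi_gt_d6
  have h2 := (Real.arctan_lt_pi_div_two (0.544335 * (u / r))).le
  rcases le_total r (1 / 4) with hc | hc
  · have h1 : u ^ 2 * r ≤ 1 * (1 / 4) :=
      mul_le_mul (by nlinarith [sq_nonneg r]) hc hr.le zero_le_one
    have h3 : 2 * cc * Real.arctan (0.544335 * (u / r)) ≤ 2 * cc * (Real.pi / 2) :=
      mul_le_mul_of_nonneg_left h2 (by linarith)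
    have h4 : cc * (Real.pi / 2) ≤ cc * (3.141593 / 2) :=
      mul_le_mul_of_nonneg_left (by linarith) hcc0.le
    norm_num at h1 h4 hcc ⊢
    linarith
  · have hv : 0 ≤ 0.544335 * (u / r) := by positivity
    have h1 := k1_tan (0.544335 * (u / r)) 0.893 hv (by norm_num)
    have h3 := k1_A2
    have h4 : cc * (2 * Real.arctan (0.544335 * (u / r)) - Real.pi / 2 - 5 * (27 / 26)) ≤
        0.0954055 * (2 * Real.arctan (0.544335 * (u / r)) - Real.pi / 2 - 5 * (27 / 26)) :=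
      mul_le_mul_of_nonpos_right hcc (by linarith)
    have h5 : u / r * (2 * 0.8539) ≤ (1 - r ^ 2 + 0.8539 ^ 2) / r := by
      rw [div_mul_eq_mul_div]
      apply div_le_div_of_nonneg_right _ hr.le
      nlinarith [sq_nonneg (u - 0.8539)]
    have h6 : 0 ≤ (r - 0.52036) ^ 2 * (1.3333 * r ^ 2 + 1.3876 * r - 0.2165) := by
      apply mul_nonneg (sq_nonneg _)
      nlinarith
    have hr1 : r ≤ 1 := by nlinarith [sq_nonneg u]
    have h7 : 4 / 3 * ((1 - r ^ 2) * r) + 2 * 0.0954055 * (0.728935 +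
        (0.544335 * ((1 - r ^ 2 + 0.8539 ^ 2) / r / (2 * 0.8539)) - 0.893) / (1 + 0.893 ^ 2)) ≤
        0.0954055 * (3.141592 / 2 + 5 * (27 / 26)) := by
      have h8 : 4 / 3 * ((1 - r ^ 2) * r) + 2 * 0.0954055 * (0.728935 +
          (0.544335 * ((1 - r ^ 2 + 0.8539 ^ 2) / r / (2 * 0.8539)) - 0.893) / (1 + 0.893 ^ 2)) =
          (4 / 3 * ((1 - r ^ 2) * r ^ 2) + 2 * 0.0954055 * (0.728935 * r +
          (0.544335 * ((1 - r ^ 2 + 0.8539 ^ 2) / (2 * 0.8539)) - 0.893 * r) / (1 + 0.893 ^ 2)))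
          / r := by
        field_simp
      rw [h8, div_le_iff₀ hr]
      norm_num at h6 ⊢
      nlinarith [mul_nonneg (by linarith : (0:ℝ) ≤ 1 - r) (sq_nonneg r), sq_nonneg (r ^ 2)]
    have hu2 : u ^ 2 = 1 - r ^ 2 := by linarith
    rw [hu2]
    have h9 : u / r ≤ (1 - r ^ 2 + 0.8539 ^ 2) / r / (2 * 0.8539) := by
      rw [le_div_iff₀ (by norm_num)]
      exact h5
    have h10 : (0.544335 * (u / r) - 0.893) / (1 + 0.893 ^ 2) ≤
        (0.544335 * ((1 - r ^ 2 + 0.8539 ^ 2) / r / (2 * 0.8539)) - 0.893) / (1 + 0.893 ^ 2) := by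
      apply div_le_div_of_nonneg_right _ (by norm_num)
      linarith
    linarith

theorem one (y V α : ℝ) (hy0 : 0 < y) (hy1 : y < 1) (hV : 0 < V) (hV1 : V ≤ VD y)
    (hα : α ≤ 2 * Real.arctan (1.08867 * (2 / 3 * (y * √y) / V))) :
    0.92546 * V + tau * α - hh ≤ 5 * cc := by
  have h0 : tau * Real.pi - hh ≤ 5 * cc := by
    have hcc := Num.cc_lb
    have htau := Num.tau_ub
    have hhh := Num.hh_lb
    have hpi := Real.pi_lt_d6
    have h1 : tau * Real.pi ≤ 0.0900373 * 3.141593 :=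
      mul_le_mul htau hpi.le Real.pi_pos.le (by norm_num)
    norm_num at h1
    linarith
  exact k1_red 0.92546 tau hh (5 * cc) Num.tau_pos.le h0 k1_F1 y V α hy0 hy1 hV hV1 hα

theorem one' (y V α : ℝ) (hy0 : 0 < y) (hy1 : y < 1) (hV : 0 < V) (hV1 : V ≤ VD y)
    (hα : α ≤ 2 * Real.arctan (1.08867 * (2 / 3 * (y * √y) / V))) :
    V ≤ cc * (Real.pi / 2 - α) + 5 * cc * (27 / 26) := by
  have h0 : cc * Real.pi - cc * (Real.pi / 2) ≤ 5 * cc * (27 / 26) := by
    have hcc := Num.cc_pos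
    have hpi := Real.pi_lt_d6
    nlinarith
  have h1 := k1_red 1 cc (cc * (Real.pi / 2)) (5 * cc * (27 / 26)) Num.cc_pos.le h0 k1_F2
    y V α hy0 hy1 hV hV1 hα
  linarith

end BccP.K1
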