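import Pool.Agent.PEN.Num
import Pool.Agent.MP_bf7174_co.G3

/-!
[PEN-K2] the tight one-variable inequality (equality at `y = 4/5`).

PROOF. Put `u = √y/(2√(1-y)) > 0`, `u² = y/(4(1-y))`, `y = 4u²/(1+4u²)`. Then
`VD y = (16/3) u² / ((1+4u²) √(1+4u²))`, `arccos ((4-5y)/(4-3y)) = 2 arctan u` (because
`(4-5y)/(4-3y) = (1-u²)/(1+u²) = cos (2 arctan u)`, `0 ≤ 2 arctan u ≤ π`) and
`y/(4-3y) = u²/(1+u²)`. So the claim is `0 ≤ g(u)` for `u ≥ 1/√2` where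
`g(u) = 5cc + 2hh - 2π ss - (16/3) u²/((1+4u²)√(1+4u²)) - 4 tt arctan u + 4 ss arccos (u²/(1+u²))`
(`4 ss·θ - 4 tau arctan u + 4 ss arctan u`). `g 1 = 0`: `(16/3)/(5√5) = 5cc`, `arccos (1/2) = π/3`,
`2hh = tt π + 2/3 ss π`.
Derivative (`cc = 16√5/375`, `ss = 21/50·(√3/2) cc`, `tt = 29/50 cc`):
`g'(u) = (32/3) u (2u²-1)/((1+4u²)²√(1+4u²)) - (cc/(1+u²)) (2.32 + 1.68 φ(u))`, `φ(u) = √3 u/√(1+2u²)`
(the derivative of `arccos (u²/(1+u²))` is `-2u/((1+u²)√(1+2u²))`).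
Sign of `g'`: multiply by `(1+u²)/cc > 0`, `32/(3cc) = 50√5`: compare
`ℓ(u) = 50√5 u(2u²-1)(1+u²)/((1+4u²)²√(1+4u²))` with `2.32 + 1.68 φ(u)`. With `v = u²`:
* `u ≥ 1` (want `ℓ ≥ ..`): `φ ≤ (1+φ²)/2` gives `(2.32 + 1.68φ)² ≤ 9.28 + 6.72 φ² =
  (9.28 + 38.72 v)/(1+2v)`, so it is enough that
  `12500 v (2v-1)² (1+v)² (1+2v) ≥ (9.28+38.72v) (1+4v)^5` for `v ≥ 1` (equality at `v = 1`; put
  `v = 1 + w` and expand: all coefficients are positive, please check; leading 100000 - 39649).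
* `1/√2 ≤ u ≤ 1` (want `ℓ ≤ ..`): `φ ≤ 1`, so `φ ≥ φ²` and `2.32 + 1.68 φ ≥ (2.32 + 9.68 v)/(1+2v)`; it
  is enough that `12500 v (2v-1)² (1+v)² (1+2v)² ≤ (2.32+9.68v)² (1+4v)^5` for `1/2 ≤ v ≤ 1`
  (equality at `v = 1`).
So `g` is decreasing on `[1/√2, 1]` and increasing on `[1, ∞)`. Compare `MP_bf7174_co/G3.lean` (the
same argument for the case without `ss`; copy its structure: `antitoneOn_of_deriv_nonpos`,
`monotoneOn_of_deriv_nonneg`).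
-/

set_option autoImplicit false

namespace BccP.K2

open BccCov BccO

/-- the function, up to a constant -/
noncomputable def G (u : ℝ) : ℝ :=
  cc * G3.g3f u + 4 * (tt - cc) * Real.arctan u - 4 * ss * Real.arccos (u ^ 2 / (1 + u ^ 2))

theorem le_sq_aux {a b : ℝ} (h : a ^ 2 ≤ b ^ 2) (hb : 0 ≤ b) : a ≤ b :=
  (le_abs_self a).trans (abs_le_of_sq_le_sq h hb)

theorem ss_eq : ss = 21 / 100 * √3 * cc := by
  have h15 : √15 = √3 * √5 := by
    rw [← Real.sqrt_mul (by norm_num)]; norm_num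
  unfold ss cc
  rw [h15]
  ring

theorem hasDeriv (u : ℝ) : HasDerivAt G
    (cc / (1 + u ^ 2) * (2.32 + 1.68 * (√3 * u / √(1 + 2 * u ^ 2)) -
      50 * √5 * u * (2 * u ^ 2 - 1) * (1 + u ^ 2) / ((1 + 4 * u ^ 2) ^ 2 * √(1 + 4 * u ^ 2)))) u := by
  have h1 := (G3.g3_hasDeriv u).const_mul cc
  have h2 := (Real.hasDerivAt_arctan u).const_mul (4 * (tt - cc))
  have hp : 0 < 1 + u ^ 2 := by positivity
  have hw : 0 < 1 + 2 * u ^ 2 := by positivity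
  have hs : 0 < √(1 + 2 * u ^ 2) := Real.sqrt_pos.2 hw
  have hq : HasDerivAt (fun u : ℝ => u ^ 2 / (1 + u ^ 2)) (2 * u / (1 + u ^ 2) ^ 2) u := by
    have a1 : HasDerivAt (fun u : ℝ => u ^ 2) (2 * u) u := by
      refine (hasDerivAt_pow 2 u).congr_deriv ?_
      simp
    have a2 := a1.div (a1.const_add 1) hp.ne'
    refine a2.congr_deriv ?_
    congr 1
    ring
  have hq0 : 0 ≤ u ^ 2 / (1 + u ^ 2) := by positivity
  have hq1 : u ^ 2 / (1 + u ^ 2) < 1 := by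
    rw [div_lt_one hp]; linarith
  have h3 := (Real.hasDerivAt_arccos (by linarith) hq1.ne).comp u hq
  have h4 := h3.const_mul (4 * ss)
  have h5 := (h1.add h2).sub h4
  refine h5.congr_deriv ?_
  have e1 : √(1 - (u ^ 2 / (1 + u ^ 2)) ^ 2) = √(1 + 2 * u ^ 2) / (1 + u ^ 2) := by
    have : 1 - (u ^ 2 / (1 + u ^ 2)) ^ 2 = (√(1 + 2 * u ^ 2) / (1 + u ^ 2)) ^ 2 := by
      rw [div_pow, div_pow, Real.sq_sqrt hw.le]
      field_simp
      ring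
    rw [this, Real.sqrt_sq (by positivity)]
  rw [e1, ss_eq, show tt = 29 / 50 * cc from rfl]
  have hs4 : 0 < √(1 + 4 * u ^ 2) := Real.sqrt_pos.2 (by positivity)
  have hw4 : 0 < 1 + 4 * u ^ 2 := by positivity
  generalize √(1 + 2 * u ^ 2) = a at *
  generalize √(1 + 4 * u ^ 2) = b at *
  generalize √3 = c3
  generalize √5 = c5
  field_simp
  ring

theorem phi_sq (u : ℝ) : (√3 * u / √(1 + 2 * u ^ 2)) ^ 2 = 3 * u ^ 2 / (1 + 2 * u ^ 2) := by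
  rw [div_pow, mul_pow, Real.sq_sqrt (by norm_num), Real.sq_sqrt (by positivity)]

theorem l_sq (u : ℝ) : (50 * √5 * u * (2 * u ^ 2 - 1) * (1 + u ^ 2) /
    ((1 + 4 * u ^ 2) ^ 2 * √(1 + 4 * u ^ 2))) ^ 2 =
    12500 * u ^ 2 * (2 * u ^ 2 - 1) ^ 2 * (1 + u ^ 2) ^ 2 / (1 + 4 * u ^ 2) ^ 5 := by
  have h5 : √5 ^ 2 = (5 : ℝ) := Real.sq_sqrt (by norm_num)
  have h4 : √(1 + 4 * u ^ 2) ^ 2 = 1 + 4 * u ^ 2 := Real.sq_sqrt (by positivity)
  rw [div_pow, G3.g3_sq1, mul_pow, h4]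
  congr 1
  ring

theorem pos1 (v : ℝ) (hv : 1 ≤ v) :
    (9.28 + 38.72 * v) * (1 + 4 * v) ^ 5 ≤ 12500 * v * (2 * v - 1) ^ 2 * (1 + v) ^ 2 * (1 + 2 * v) := by
  obtain ⟨t, rfl⟩ : ∃ t, v = 1 + t := ⟨v - 1, by ring⟩
  have ht : 0 ≤ t := by linarith
  have e : 12500 * (1 + t) * (2 * (1 + t) - 1) ^ 2 * (1 + (1 + t)) ^ 2 * (1 + 2 * (1 + t)) -
      (9.28 + 38.72 * (1 + t)) * (1 + 4 * (1 + t)) ^ 5 =
      t * (279000 + 1143500 * t + 1770100 * t ^ 2 + 1298280 * t ^ 3 + 453040 * t ^ 4 +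
        1508768 / 25 * t ^ 5) := by
    ring
  have : 0 ≤ t * (279000 + 1143500 * t + 1770100 * t ^ 2 + 1298280 * t ^ 3 + 453040 * t ^ 4 +
        1508768 / 25 * t ^ 5) := by positivity
  linarith

theorem pos2 (v : ℝ) (hv : 1 / 2 ≤ v) (hv1 : v ≤ 1) :
    12500 * v * (2 * v - 1) ^ 2 * (1 + v) ^ 2 * (1 + 2 * v) ^ 2 ≤ (2.32 + 9.68 * v) ^ 2 * (1 + 4 * v) ^ 5 := by
  obtain ⟨t, rfl⟩ : ∃ t, v = 1 / 2 + t := ⟨v - 1 / 2, by ring⟩
  have ht : 0 ≤ t := by linarith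
  have e : (2.32 + 9.68 * (1 / 2 + t)) ^ 2 * (1 + 4 * (1 / 2 + t)) ^ 5 -
      12500 * (1 / 2 + t) * (2 * (1 / 2 + t) - 1) ^ 2 * (1 + (1 / 2 + t)) ^ 2 * (1 + 2 * (1 / 2 + t)) ^ 2 =
      (1 / 2 - t) * (15571926 / 625 + 177061788 / 625 * t + 131774112 / 125 * t ^ 2 +
        225027168 / 125 * t ^ 3 + 193827248 / 125 * t ^ 4 + 406414208 / 625 * t ^ 5 +
        65030464 / 625 * t ^ 6) := by
    ring
  have h2 : 0 ≤ 15571926 / 625 + 177061788 / 625 * t + 131774112 / 125 * t ^ 2 +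
        225027168 / 125 * t ^ 3 + 193827248 / 125 * t ^ 4 + 406414208 / 625 * t ^ 5 +
        65030464 / 625 * t ^ 6 := by positivity
  have := mul_nonneg (show 0 ≤ 1 / 2 - t by linarith) h2
  linarith

theorem deriv_nonpos (u : ℝ) (h1 : 1 ≤ u) :
    cc / (1 + u ^ 2) * (2.32 + 1.68 * (√3 * u / √(1 + 2 * u ^ 2)) -
      50 * √5 * u * (2 * u ^ 2 - 1) * (1 + u ^ 2) / ((1 + 4 * u ^ 2) ^ 2 * √(1 + 4 * u ^ 2))) ≤ 0 := by
  have hc := Num.cc_pos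
  refine mul_nonpos_of_nonneg_of_nonpos (by positivity) ?_
  have h2 : 1 ≤ u ^ 2 := by nlinarith
  have hu : 0 ≤ u := by linarith
  have hph := phi_sq u
  have hl := l_sq u
  have hph0 : 0 ≤ √3 * u / √(1 + 2 * u ^ 2) := by positivity
  have hl0 : 0 ≤ 50 * √5 * u * (2 * u ^ 2 - 1) * (1 + u ^ 2) /
    ((1 + 4 * u ^ 2) ^ 2 * √(1 + 4 * u ^ 2)) := by
    have : 0 ≤ 2 * u ^ 2 - 1 := by linarith
    positivity
  generalize √3 * u / √(1 + 2 * u ^ 2) = φ at *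
  generalize 50 * √5 * u * (2 * u ^ 2 - 1) * (1 + u ^ 2) /
    ((1 + 4 * u ^ 2) ^ 2 * √(1 + 4 * u ^ 2)) = l at *
  rw [sub_nonpos]
  apply le_sq_aux _ hl0
  rw [hl]
  have e1 : (2.32 + 1.68 * φ) ^ 2 ≤ 9.28 + 6.72 * φ ^ 2 := by nlinarith [sq_nonneg (φ - 1)]
  refine e1.trans ?_
  rw [hph]
  have hw : 0 < 1 + 2 * u ^ 2 := by positivity
  have e2 : 9.28 + 6.72 * (3 * u ^ 2 / (1 + 2 * u ^ 2)) = (9.28 + 38.72 * u ^ 2) / (1 + 2 * u ^ 2) := by
    field_simp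
    ring
  rw [e2, div_le_div_iff₀ hw (by positivity)]
  have := pos1 (u ^ 2) h2
  linarith

theorem deriv_nonneg (u : ℝ) (h0 : 0 ≤ u) (hh : 1 / 2 ≤ u ^ 2) (h1 : u ≤ 1) :
    0 ≤ cc / (1 + u ^ 2) * (2.32 + 1.68 * (√3 * u / √(1 + 2 * u ^ 2)) -
      50 * √5 * u * (2 * u ^ 2 - 1) * (1 + u ^ 2) / ((1 + 4 * u ^ 2) ^ 2 * √(1 + 4 * u ^ 2))) := by
  have hc := Num.cc_pos
  refine mul_nonneg (by positivity) ?_
  have h2 : u ^ 2 ≤ 1 := by nlinarith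
  have hph := phi_sq u
  have hl := l_sq u
  have hph0 : 0 ≤ √3 * u / √(1 + 2 * u ^ 2) := by positivity
  have hw : 0 < 1 + 2 * u ^ 2 := by positivity
  have hph1 : (√3 * u / √(1 + 2 * u ^ 2)) ^ 2 ≤ 1 := by
    rw [hph, div_le_one hw]; linarith
  generalize √3 * u / √(1 + 2 * u ^ 2) = φ at *
  generalize 50 * √5 * u * (2 * u ^ 2 - 1) * (1 + u ^ 2) /
    ((1 + 4 * u ^ 2) ^ 2 * √(1 + 4 * u ^ 2)) = l at *
  have hph2 : φ ^ 2 ≤ φ := by nlinarith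
  rw [sub_nonneg]
  have e2 : 2.32 + 1.68 * (3 * u ^ 2 / (1 + 2 * u ^ 2)) = (2.32 + 9.68 * u ^ 2) / (1 + 2 * u ^ 2) := by
    field_simp
    ring
  have e3 : (2.32 + 9.68 * u ^ 2) / (1 + 2 * u ^ 2) ≤ 2.32 + 1.68 * φ := by
    rw [← e2, ← hph]; linarith
  refine le_trans ?_ e3
  apply le_sq_aux _ (by positivity)
  rw [hl, div_pow, div_le_div_iff₀ (by positivity) (by positivity)]
  have := pos2 (u ^ 2) hh h2
  linarith

theorem G_one : G 1 = 5 * cc + tt * Real.pi - 4 / 3 * (ss * Real.pi) := by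
  unfold G
  have h2 : Real.arccos ((1 : ℝ) ^ 2 / (1 + 1 ^ 2)) = Real.pi / 3 := by
    rw [← Real.arccos_cos (x := Real.pi / 3) (by positivity) (by linarith [Real.pi_pos]), Real.cos_pi_div_three]
    norm_num
  rw [G3.g3_one, Real.arctan_one, h2]
  ring

theorem G_le (u : ℝ) (h0 : 0 ≤ u) (hu : 1 / 2 ≤ u ^ 2) : G u ≤ G 1 := by
  have hc : Continuous G := continuous_iff_continuousAt.2 fun x => (hasDeriv x).continuousAt
  rcases le_total u 1 with h | h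
  · have hm : MonotoneOn G (Set.Icc u 1) := by
      apply monotoneOn_of_deriv_nonneg (convex_Icc u 1) hc.continuousOn
      · exact fun x _ => (hasDeriv x).differentiableAt.differentiableWithinAt
      · intro x hx
        rw [interior_Icc] at hx
        rw [(hasDeriv x).deriv]
        have hx1 := hx.1
        have : u ^ 2 ≤ x ^ 2 := by nlinarith
        exact deriv_nonneg x (by linarith) (by linarith) hx.2.le
    exact hm ⟨le_rfl, h⟩ ⟨h, le_rfl⟩ h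
  · have hm : AntitoneOn G (Set.Ici 1) := by
      apply antitoneOn_of_deriv_nonpos (convex_Ici 1) hc.continuousOn
      · exact fun x _ => (hasDeriv x).differentiableAt.differentiableWithinAt
      · intro x hx
        rw [interior_Ici] at hx
        rw [(hasDeriv x).deriv]
        exact deriv_nonpos x (le_of_lt hx)
    exact hm Set.self_mem_Ici h h

theorem J_le (y : ℝ) (h0 : 2 / 3 ≤ y) (h1 : y < 1) :
    VD y - ss / 2 * SD y + tau * (4 * Real.arctan (√y / (2 * √(1 - y)))) - 2 * hh ≤ 5 * cc := by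
  have hy : 0 < y := by linarith
  have h1y : 0 < 1 - y := by linarith
  have hsy : 0 < √y := Real.sqrt_pos.2 hy
  have hs1 : 0 < √(1 - y) := Real.sqrt_pos.2 h1y
  have hsy2 : √y ^ 2 = y := Real.sq_sqrt hy.le
  have hs12 : √(1 - y) ^ 2 = 1 - y := Real.sq_sqrt h1y.le
  obtain ⟨u, hu⟩ : ∃ u, u = √y / (2 * √(1 - y)) := ⟨_, rfl⟩
  have hu0 : 0 < u := by rw [hu]; positivity
  have hu2 : u ^ 2 = y / (4 * (1 - y)) := by
    rw [hu, div_pow, mul_pow, hsy2, hs12]; norm_num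
  have hw : 1 + 4 * u ^ 2 = 1 / (1 - y) := by
    rw [hu2]; field_simp; ring
  have hww : √(1 + 4 * u ^ 2) = 1 / √(1 - y) := by
    rw [hw, Real.sqrt_div zero_le_one, Real.sqrt_one]
  have h43 : 0 < 4 - 3 * y := by linarith
  have e1 : cc * (25 * √5 * u ^ 2 / ((1 + 4 * u ^ 2) * √(1 + 4 * u ^ 2))) = VD y := by
    have h5 : √5 ^ 2 = (5 : ℝ) := Real.sq_sqrt (by norm_num)
    rw [hww, hw, hu2]
    unfold VD cc
    field_simp
    rw [h5]
    ring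
  have e2 : Real.arccos ((4 - 5 * y) / (4 - 3 * y)) = 2 * Real.arctan u := by
    have hc : Real.cos (2 * Real.arctan u) = (4 - 5 * y) / (4 - 3 * y) := by
      have h7 : 1 + y / (4 * (1 - y)) = (4 - 3 * y) / (4 * (1 - y)) := by
        field_simp; ring
      rw [Real.cos_two_mul, Real.cos_sq_arctan, hu2, h7, one_div_div]
      rw [eq_div_iff h43.ne', sub_mul, mul_assoc, div_mul_cancel₀ _ h43.ne']
      ring
    rw [← hc, Real.arccos_cos]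
    · have := Real.arctan_pos.2 hu0
      linarith
    · have := Real.arctan_lt_pi_div_two u
      linarith
  have e3 : u ^ 2 / (1 + u ^ 2) = y / (4 - 3 * y) := by
    rw [hu2]
    have : 1 + y / (4 * (1 - y)) = (4 - 3 * y) / (4 * (1 - y)) := by
      field_simp; ring
    rw [this]
    field_simp
  have hG := G_le u hu0.le (by
    rw [hu2, div_le_div_iff₀ (by norm_num) (by positivity)]
    linarith)
  rw [G_one] at hG
  unfold G G3.g3f at hG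
  rw [mul_add, e1, e3] at hG
  rw [← hu]
  unfold SD
  rw [e2]
  have e5 : tau = tt + ss := rfl
  have e6 : hh = tt * (Real.pi / 2) + ss * (Real.pi / 3) := rfl
  rw [e5, e6]
  linarith

end BccP.K2
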