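import Pool.Agent.PEN.K2

/-!
[PEN-K3] two opposite long edges, from [PEN-K2].

PROOF. Case `y ≤ 2/3`: `y √y ≤ (2/3)√(2/3) ≤ 0.54433`, so `x ≤ 4 arctan (0.3629/V)` and
`V - ss/2·S ≤ V (1 - ss/2·4.2968) ≤ 0.92546 V`. `arctan_conv` with `D = 0.5132003`: convex combination of
`2π tau - 2hh ≤ 0.3193` (at `V = 0`) and `0.92546·0.5132003 + 4 tau arctan (0.3629/0.5132003) - 2hh`
(`arctan 0.70714 ≤ 0.6155`): `0.47495 + 0.22168 - 0.24651 = 0.4502 ≤ 5cc`.
Case `y ≥ 2/3`: with `t = V/VD y ∈ (0,1]`, `S ≥ t SD y`, `arctan_conv`: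
`x ≤ 4 ((1-t) π/2 + t arctan (√y/(2√(1-y))))`, `V = t VD y`; so the left side is
`≤ t (VD y - ss/2 SD y + 4 tau arctan(..)) + (1-t) 2π tau - 2hh ≤ t (5cc + 2hh) + (1-t)(2π tau) - 2hh`
`≤ 5cc` as `2π tau ≤ 5cc + 2hh`.
-/

set_option autoImplicit false

namespace BccP.K3

open BccCov BccO

theorem two (y V S x : ℝ) (hy0 : 0 < y) (hy1 : y < 1) (hV : 0 < V) (hV1 : V ≤ VD y)
    (hV2 : V ≤ 0.5132003) (hS : 4.2968 * V ≤ S) (hS2 : 2 / 3 ≤ y → V * SD y ≤ S * VD y)
    (hx : x ≤ 4 * Real.arctan (2 / 3 * (y * √y) / V)) :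
    V - ss / 2 * S + tau * x - 2 * hh ≤ 5 * cc := by
  have hc1 := Num.cc_lb
  have hs1 := Num.ss_lb
  have hs0 := Num.ss_pos
  have ht0 := Num.tau_pos
  have ht1 := Num.tau_ub
  have hh1 := Num.hh_lb
  have hp := Real.pi_lt_d6
  have hpt : tau * Real.pi ≤ 0.0900373 * 3.141593 :=
    mul_le_mul ht1 hp.le Real.pi_pos.le (by norm_num)
  have hend : 2 * (tau * Real.pi) - 2 * hh ≤ 5 * cc := by
    norm_num at hpt hh1 hc1 ⊢
    linarith
  rcases le_or_gt y (2 / 3) with hy | hy
  · -- small y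
    have hb1 : 2 / 3 * (y * √y) ≤ 0.3629 := by
      have h1 : √y ≤ 0.8165 := by
        rw [Real.sqrt_le_iff]
        constructor
        · norm_num
        · norm_num
          linarith
      have h2 : y * √y ≤ 2 / 3 * 0.8165 := mul_le_mul hy h1 (Real.sqrt_nonneg _) (by norm_num)
      norm_num at h2 ⊢
      linarith
    have hx1 : x ≤ 4 * Real.arctan (0.3629 / V) := by
      refine hx.trans (mul_le_mul_of_nonneg_left ?_ (by norm_num))
      exact Real.arctan_strictMono.monotone (div_le_div_of_nonneg_right hb1 hV.le)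
    have h3 := BccCov.G5.arctan_conv 0.3629 V 0.5132003 (by norm_num) hV hV2
    have h4 : Real.arctan (0.3629 / 0.5132003) ≤ 0.64 := by
      have h5 : (0.3629 : ℝ) / 0.5132003 ≤ Real.tan 0.64 := by
        have h6 := Real.cos_bound (x := (0.64 : ℝ)) (by rw [abs_of_pos (by norm_num)]; norm_num)
        have h7 := Real.sin_bound (x := (0.64 : ℝ)) (by rw [abs_of_pos (by norm_num)]; norm_num)
        rw [abs_of_pos (by norm_num : (0 : ℝ) < 0.64)] at h6 h7
        have h8 := (abs_le.mp h6).2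
        have h9 := (abs_le.mp h7).1
        have h10 : 0 < Real.cos 0.64 := by
          apply Real.cos_pos_of_mem_Ioo
          constructor
          · have := Real.pi_pos
            norm_num
            linarith
          · have := Real.pi_gt_d2
            norm_num
            linarith
        rw [Real.tan_eq_sin_div_cos, le_div_iff₀ h10]
        have h11 : Real.cos 0.64 ≤ 0.805 := by
          norm_num at h8 ⊢
          linarith
        have h12 : 0.587 ≤ Real.sin 0.64 := by
          norm_num at h9 ⊢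
          linarith
        calc (0.3629 : ℝ) / 0.5132003 * Real.cos 0.64 ≤ 0.3629 / 0.5132003 * 0.805 :=
              mul_le_mul_of_nonneg_left h11 (by norm_num)
          _ ≤ 0.587 := by norm_num
          _ ≤ _ := h12
      have h13 := Real.arctan_strictMono.monotone h5
      have h14 : Real.arctan (Real.tan 0.64) = 0.64 := by
        apply Real.arctan_tan
        · have := Real.pi_pos
          norm_num
          linarith
        · have := Real.pi_gt_d2
          norm_num
          linarith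
      rw [h14] at h13
      exact h13
    obtain ⟨t, ht⟩ : ∃ t : ℝ, t = V / 0.5132003 := ⟨_, rfl⟩
    have htV : V = t * 0.5132003 := by rw [ht]; field_simp
    have ht00 : 0 ≤ t := by rw [ht]; positivity
    have ht11 : t ≤ 1 := by
      rw [ht, div_le_one (by norm_num)]
      exact hV2
    rw [← ht] at h3
    have h5 : t * Real.arctan (0.3629 / 0.5132003) ≤ t * 0.64 := mul_le_mul_of_nonneg_left h4 ht00
    have h6 : x ≤ 4 * ((1 - t) * (Real.pi / 2) + t * 0.64) := by linarith
    have h7 : tau * x ≤ tau * (4 * ((1 - t) * (Real.pi / 2) + t * 0.64)) :=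
      mul_le_mul_of_nonneg_left h6 ht0.le
    have h8 : ss / 2 * (4.2968 * V) ≤ ss / 2 * S := mul_le_mul_of_nonneg_left hS (by linarith)
    have h9 : 0.0347019 / 2 * (4.2968 * V) ≤ ss / 2 * (4.2968 * V) :=
      mul_le_mul_of_nonneg_right (by linarith) (by positivity)
    have h10 : tau * (t * 0.64) ≤ 0.0900373 * (t * 0.64) :=
      mul_le_mul_of_nonneg_right ht1 (by positivity)
    have h11 : (1 - t) * (2 * (tau * Real.pi) - 2 * hh) ≤ (1 - t) * (5 * cc) :=
      mul_le_mul_of_nonneg_left hend (by linarith)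
    have h12 : t * (0.9254466 * 0.5132003 + 4 * (0.0900373 * 0.64) - 2 * hh) ≤ t * (5 * cc) := by
      refine mul_le_mul_of_nonneg_left ?_ ht00
      norm_num at hh1 hc1 ⊢
      linarith
    have e1 : tau * (4 * ((1 - t) * (Real.pi / 2) + t * 0.64)) =
        (1 - t) * (2 * (tau * Real.pi)) + 4 * (tau * (t * 0.64)) := by ring
    rw [htV] at h8 h9 ⊢
    norm_num at h7 h8 h9 h10 h11 h12 e1 ⊢
    linarith
  · -- large y
    have hVD : 0 < VD y := lt_of_lt_of_le hV hV1
    have hb0 : 0 < 2 / 3 * (y * √y) := by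
      have := Real.sqrt_pos.mpr hy0
      positivity
    have h3 := BccCov.G5.arctan_conv (2 / 3 * (y * √y)) V (VD y) hb0 hV hV1
    have h4 : 2 / 3 * (y * √y) / VD y = √y / (2 * √(1 - y)) := by
      have h5 : 0 < √(1 - y) := Real.sqrt_pos.mpr (by linarith)
      unfold VD
      field_simp
      ring
    have h5 := K2.J_le y hy.le hy1
    rw [h4] at h3
    obtain ⟨t, ht⟩ : ∃ t : ℝ, t = V / VD y := ⟨_, rfl⟩
    obtain ⟨A, hA⟩ : ∃ A : ℝ, A = Real.arctan (√y / (2 * √(1 - y))) := ⟨_, rfl⟩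
    rw [← hA] at h3 h5
    rw [← ht] at h3
    have htV : V = t * VD y := by rw [ht]; field_simp
    have ht00 : 0 ≤ t := by rw [ht]; positivity
    have ht11 : t ≤ 1 := by
      rw [ht, div_le_one hVD]
      exact hV1
    have h6 : t * SD y ≤ S := by
      have h7 := hS2 hy.le
      rw [ht, div_mul_eq_mul_div, div_le_iff₀ hVD]
      exact h7
    have h7 : ss / 2 * (t * SD y) ≤ ss / 2 * S := mul_le_mul_of_nonneg_left h6 (by linarith)
    have h8 : x ≤ 4 * ((1 - t) * (Real.pi / 2) + t * A) := by linarith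
    have h9 : tau * x ≤ tau * (4 * ((1 - t) * (Real.pi / 2) + t * A)) :=
      mul_le_mul_of_nonneg_left h8 ht0.le
    have h10 : (1 - t) * (2 * (tau * Real.pi) - 2 * hh) ≤ (1 - t) * (5 * cc) :=
      mul_le_mul_of_nonneg_left hend (by linarith)
    have h11 := mul_le_mul_of_nonneg_left h5 ht00
    have e1 : V - ss / 2 * (t * SD y) + tau * (4 * ((1 - t) * (Real.pi / 2) + t * A)) - 2 * hh =
        (1 - t) * (2 * (tau * Real.pi) - 2 * hh) +
        t * (VD y - ss / 2 * SD y + tau * (4 * A) - 2 * hh) := by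
      rw [htV]; ring
    linarith

end BccP.K3
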