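import Pool.Agent.PEN.N1

/-!
[PEN-L1] the local inequality for the edge potential `WW` from the facts.

PROOF. Let `S = 2 Σ(A i + B i) - 4π`. Since `WW θ = ss (θ - π/3) - max (tau θ - hh) 0` (check:
`tt (π/2-θ) = ss (θ-π/3) - (tau θ - hh)`), the claim is
`V - ss/2 · S + Σᵢ Nᵢ ≤ 5cc`, `Nᵢ = max (tau A i - hh) 0 + max (tau B i - hh) 0`. For each `i`: `Nᵢ = 0`, or
`Nᵢ = tau α - hh` with `α = A i` or `α = B i`, or `Nᵢ = tau (A i + B i) - 2hh` (status 0, 1, 2).
By `sol` and `ss ≥ 0.0347019`: `V - ss/2·S ≤ 0.92546 V` (*) (`1 - 0.0347019·2.1484 = 0.925446`).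
Also, with `P = Σ(A i + B i) ≤ 3π` (add the three `cyc`) one has for every subsum `Q ≤ P` of the
angles: `V - ss/2·S + tau Q ≤ V + tt Q + 2π ss` (**) (because `S = 2P - 4π ≥ 2Q - 4π`).
Cases (status of the three pairs, up to order):
000: (*) and `0.92546·0.5132003 = 0.47495 ≤ 5cc`.
100: `one`. 200: `two`.
110: `adj`, N1.n2. 111: `V ≤ 0.1`: (**) with `Q ≤ 3π`; `V ≥ 0.1`: `tri`, n3a.
210: `V ≤ 0.3`: (*) with `A i + B i + α ≤ 2π` (`cyc`); `V ≥ 0.3`: `A i+B i+α = (A i+B i)/2 + ((A i+B i)/2+α) ≤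
(5+π-V/cc)/2 + 4 arctan(0.41722/V)` (`opp`, `mix`), n3b.
220, 211: sum of the four angles `≤ 8 arctan (0.41722/V)` (220: `dbl`; 211: twice `mix`):
`V ≤ 0.22`: (**) with `3π`: `0.22 + 3π tt + 2π ss - 4hh = 0.46652`; `[0.22,0.27]`: (**) n4B; `≥ 0.27`: n4.
221: sum of the five `≤ 10 arctan (0.41722/V)`: `x₁+x₂+α₃ = ½(x₁/2+α₃) + ½(x₂/2+α₃) + ¾(x₁+x₂)`
(`mix`, `mix`, `dbl`, `0.38766 < 0.41722`): `V ≤ 0.35`: (**) with `3π`; `[0.35,0.43]`: (**) n5B; `≥ 0.43`: n5.
222: sum `≤ 12 arctan (0.38766/V)` (three `dbl`): `V ≤ 5cc`: (**) with `3π` (`3π tt + 2π ss - 6hh = 0`);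
`V ≥ 5cc`: n6.
-/

set_option autoImplicit false

namespace BccP.L1

open BccCov BccO

theorem WW_eq (θ : ℝ) : WW θ = ss * (θ - Real.pi / 3) - max (tau * θ - hh) 0 := by
  unfold WW
  have h : tt * (Real.pi / 2 - θ) = ss * (θ - Real.pi / 3) - (tau * θ - hh) := by
    unfold tau hh; ring
  rw [h]
  rcases le_total (tau * θ - hh) 0 with h1 | h1
  · rw [max_eq_right h1, min_eq_right (by linarith)]; ring
  · rw [max_eq_left h1, min_eq_left (by linarith)]

theorem hh6 : 6 * hh = 3 * Real.pi * tt + 2 * Real.pi * ss := by unfold hh; ring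

theorem LI (V : ℝ) (A B : Fin 3 → ℝ) (h : Facts V A B) :
    V ≤ 5 * cc + ∑ i, (WW (A i) + WW (B i)) := by
  have cl := Num.cc_lb
  have ccp := Num.cc_pos
  have sl := Num.ss_lb
  have su := Num.ss_ub
  have tl := Num.tt_lb
  have tu := Num.tt_ub
  have al := Num.tau_lb
  have au := Num.tau_ub
  have hl := Num.hh_lb
  have hu := Num.hh_ub
  have hh6 := hh6
  have tas : tau = tt + ss := rfl
  have sp := Num.ss_pos
  have tp := Num.tt_pos
  have ap := Num.tau_pos
  have pl := Real.pi_gt_d6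
  have pu := Real.pi_lt_d6
  have V0 := h.V0
  have V1 : V ≤ 0.5132003 := h.V1.trans Num.vm_ub
  set x : Fin 3 → ℝ := fun i => A i + B i with hx
  set P : ℝ := ∑ i, (A i + B i) with hP
  have hP3 : P = x 0 + x 1 + x 2 := by rw [hP, Fin.sum_univ_three]
  have hx0 : ∀ i, 0 ≤ x i := fun i => add_nonneg (h.A0 i) (h.B0 i)
  have hcyc : ∀ i j, i ≠ j → x i + x j ≤ 2 * Real.pi := h.cyc
  have c01 := hcyc 0 1 (by decide)
  have c02 := hcyc 0 2 (by decide)
  have c12 := hcyc 1 2 (by decide)
  have hP3pi : P ≤ 3 * Real.pi := by linarith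
  have hle : ∀ i α, (α = A i ∨ α = B i) → α ≤ x i := by
    intro i α hα
    have h1 := h.A0 i
    have h2 := h.B0 i
    simp only [hx]
    rcases hα with rfl | rfl <;> linarith
  have hge : ∀ i α, (α = A i ∨ α = B i) → 0 ≤ α := by
    intro i α hα
    rcases hα with rfl | rfl
    · exact h.A0 i
    · exact h.B0 i
  have htriple : ∀ i j k : Fin 3, i ≠ j → i ≠ k → j ≠ k → x i + x j + x k = P := by
    intro i j k
    rw [hP3]
    fin_cases i <;> fin_cases j <;> fin_cases k <;> simp <;> ring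
  have hpair : ∀ i j : Fin 3, i ≠ j → x i + x j ≤ P := by
    intro i j hij
    have h0 := hx0 0
    have h1 := hx0 1
    have h2 := hx0 2
    rw [hP3]
    fin_cases i <;> fin_cases j <;> simp at hij ⊢ <;> linarith
  set S : ℝ := 2 * P - 4 * Real.pi with hS
  have hsol : 4.2968 * V ≤ S := h.sol
  set VS : ℝ := V - ss / 2 * S with hVS
  have star : VS ≤ 0.92546 * V := by
    have h1 : (0.0347019 : ℝ) / 2 * (4.2968 * V) ≤ ss / 2 * S := by
      apply mul_le_mul _ hsol (by positivity) (by positivity)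
      linarith
    rw [hVS]
    linarith
  have sstar : ∀ Q, Q ≤ P → VS + tau * Q ≤ V + tt * Q + 2 * Real.pi * ss := by
    intro Q hQ
    have h1 : ss * Q ≤ ss * P := mul_le_mul_of_nonneg_left hQ sp.le
    rw [hVS, hS, tas]
    linarith
  have sstar3 : ∀ Q, Q ≤ P → VS + tau * Q ≤ V + 6 * hh := by
    intro Q hQ
    have h1 := sstar Q hQ
    have h2 : tt * Q ≤ tt * (3 * Real.pi) := mul_le_mul_of_nonneg_left (hQ.trans hP3pi) tp.le
    rw [hh6]
    linarith
  have hmix : ∀ i j, i ≠ j → ∀ β, (β = A j ∨ β = B j) →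
    x i / 2 + β ≤ 4 * Real.arctan (0.41722 / V) := h.mix
  have hdbl : ∀ i j, i ≠ j → x i + x j ≤ 8 * Real.arctan (0.38766 / V) := h.dbl
  have hmono : Real.arctan (0.38766 / V) ≤ Real.arctan (0.41722 / V) := by
    apply Real.arctan_mono
    apply div_le_div_of_nonneg_right _ V0.le
    norm_num
  have taule : ∀ Q R, Q ≤ R → tau * Q ≤ tau * R := fun Q R hQ => mul_le_mul_of_nonneg_left hQ ap.le
  have ttle : ∀ Q R, Q ≤ R → tt * Q ≤ tt * R := fun Q R hQ => mul_le_mul_of_nonneg_left hQ tp.le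
  have H0 : VS ≤ 5 * cc := by linarith
  have H1 : ∀ i, ∀ α, (α = A i ∨ α = B i) → VS + (tau * α - hh) ≤ 5 * cc := by
    intro i α hα
    have := h.one i α hα
    linarith
  have H2 : ∀ i, VS + (tau * x i - 2 * hh) ≤ 5 * cc := by
    intro i
    have h2 : V - ss / 2 * S + tau * x i - 2 * hh ≤ 5 * cc := h.two i
    linarith
  have H11 : ∀ i j, i ≠ j → ∀ α β, (α = A i ∨ α = B i) → (β = A j ∨ β = B j) →
      VS + (tau * α - hh) + (tau * β - hh) ≤ 5 * cc := by
    intro i j hij α β hα hβ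
    have h1 := taule _ _ (h.adj i j hij α β hα hβ)
    have h2 := N1.n2 V V0 V1
    linarith
  have H111 : ∀ α β γ, (α = A 0 ∨ α = B 0) → (β = A 1 ∨ β = B 1) → (γ = A 2 ∨ γ = B 2) →
      VS + (tau * α - hh) + (tau * β - hh) + (tau * γ - hh) ≤ 5 * cc := by
    intro α β γ hα hβ hγ
    rcases le_total V 0.1 with hV | hV
    · have h1 := sstar3 (α + β + γ) (by
        rw [hP3]; have := hle 0 α hα; have := hle 1 β hβ; have := hle 2 γ hγ; linarith)
      linarith
    · have h1 := taule _ _ (h.tri α β γ hα hβ hγ)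
      have h2 := N1.n3a V hV V1
      linarith
  have H21 : ∀ i j, i ≠ j → ∀ β, (β = A j ∨ β = B j) →
      VS + (tau * x i - 2 * hh) + (tau * β - hh) ≤ 5 * cc := by
    intro i j hij β hβ
    rcases le_total V 0.3 with hV | hV
    · have h1 := taule (x i + β) (2 * Real.pi) (by
        have := hle j β hβ; have := hcyc i j hij; linarith)
      have h2 : tau * (2 * Real.pi) ≤ 0.0900373 * (2 * 3.141593) := by
        apply mul_le_mul au (by linarith) (by positivity) (by norm_num)
      norm_num at h2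
      linarith
    · have h0 : x i ≤ 5 + Real.pi - V / cc := by
        have h3 : V ≤ cc * (5 + Real.pi - x i) := h.opp i
        have h4 : V / cc ≤ 5 + Real.pi - x i := by
          rw [div_le_iff₀ ccp]; linarith
        linarith
      have h1 := taule (x i + β) ((5 + Real.pi - V / cc) / 2 + 4 * Real.arctan (0.41722 / V)) (by
        have := hmix i j hij β hβ; linarith)
      have h2 := N1.n3b V hV V1
      linarith
  have H4 : ∀ Q, Q ≤ P → Q ≤ 8 * Real.arctan (0.41722 / V) → VS + tau * Q - 4 * hh ≤ 5 * cc := by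
    intro Q hQ hQ2
    rcases le_total V 0.22 with hV | hV
    · have h1 := sstar3 Q hQ
      linarith
    · rcases le_total V 0.27 with hV2 | hV2
      · have h1 := sstar Q hQ
        have h2 := N1.n4B V hV hV2
        have h3 := ttle _ _ hQ2
        linarith
      · have h1 := taule _ _ hQ2
        have h2 := N1.n4 V hV2 V1
        linarith
  have H5 : ∀ Q, Q ≤ P → Q ≤ 10 * Real.arctan (0.41722 / V) → VS + tau * Q - 5 * hh ≤ 5 * cc := by
    intro Q hQ hQ2
    rcases le_total V 0.35 with hV | hV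
    · have h1 := sstar3 Q hQ
      linarith
    · rcases le_total V 0.43 with hV2 | hV2
      · have h1 := sstar Q hQ
        have h2 := N1.n5B V hV hV2
        have h3 := ttle _ _ hQ2
        linarith
      · have h1 := taule _ _ hQ2
        have h2 := N1.n5 V hV2 V1
        linarith
  have H22 : ∀ i j, i ≠ j → VS + (tau * x i - 2 * hh) + (tau * x j - 2 * hh) ≤ 5 * cc := by
    intro i j hij
    have h1 := H4 (x i + x j) (hpair i j hij) (by have := hdbl i j hij; linarith)
    linarith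
  have H211 : ∀ i j k, i ≠ j → i ≠ k → j ≠ k → ∀ β γ, (β = A j ∨ β = B j) → (γ = A k ∨ γ = B k) →
      VS + (tau * x i - 2 * hh) + (tau * β - hh) + (tau * γ - hh) ≤ 5 * cc := by
    intro i j k hij hik hjk β γ hβ hγ
    have h1 := H4 (x i + β + γ) (by
      rw [← htriple i j k hij hik hjk]
      have := hle j β hβ; have := hle k γ hγ; linarith) (by
      have := hmix i j hij β hβ; have := hmix i k hik γ hγ; linarith)
    linarith
  have H221 : ∀ i j k, i ≠ j → i ≠ k → j ≠ k → ∀ γ, (γ = A k ∨ γ = B k) →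
      VS + (tau * x i - 2 * hh) + (tau * x j - 2 * hh) + (tau * γ - hh) ≤ 5 * cc := by
    intro i j k hij hik hjk γ hγ
    have h1 := H5 (x i + x j + γ) (by
      rw [← htriple i j k hij hik hjk]
      have := hle k γ hγ; linarith) (by
      have := hmix i k hik γ hγ; have := hmix j k hjk γ hγ; have := hdbl i j hij; linarith)
    linarith
  have H222 : VS + (tau * x 0 - 2 * hh) + (tau * x 1 - 2 * hh) + (tau * x 2 - 2 * hh) ≤ 5 * cc := by
    rcases le_total V (5 * cc) with hV | hV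
    · have h1 := sstar3 P le_rfl
      rw [hP3] at h1
      linarith
    · have h1 := taule (x 0 + x 1 + x 2) (12 * Real.arctan (0.38766 / V)) (by
        have := hdbl 0 1 (by decide)
        have := hdbl 0 2 (by decide)
        have := hdbl 1 2 (by decide)
        linarith)
      have h2 := N1.n6 V hV V1
      linarith
  -- the status of each pair
  set N : Fin 3 → ℝ := fun i => max (tau * A i - hh) 0 + max (tau * B i - hh) 0 with hN
  have hst : ∀ i, N i = 0 ∨ (∃ α, (α = A i ∨ α = B i) ∧ N i = tau * α - hh) ∨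
      N i = tau * x i - 2 * hh := by
    intro i
    simp only [hN, hx]
    rcases le_total (tau * A i - hh) 0 with h1 | h1 <;> rcases le_total (tau * B i - hh) 0 with h2 | h2
    · left; rw [max_eq_right h1, max_eq_right h2]; ring
    · right; left; exact ⟨B i, Or.inr rfl, by rw [max_eq_right h1, max_eq_left h2]; ring⟩
    · right; left; exact ⟨A i, Or.inl rfl, by rw [max_eq_left h1, max_eq_right h2]; ring⟩
    · right; right; rw [max_eq_left h1, max_eq_left h2]; ring
  have hsum : ∑ i, (WW (A i) + WW (B i)) = ss / 2 * S - (N 0 + N 1 + N 2) := by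
    rw [Fin.sum_univ_three]
    simp only [WW_eq, hN]
    rw [hS, hP3]
    simp only [hx]
    ring
  rw [hsum]
  suffices hmain : VS + N 0 + N 1 + N 2 ≤ 5 * cc by rw [hVS] at hmain; linarith
  have n01 : (0 : Fin 3) ≠ 1 := by decide
  have n02 : (0 : Fin 3) ≠ 2 := by decide
  have n12 : (1 : Fin 3) ≠ 2 := by decide
  have n10 : (1 : Fin 3) ≠ 0 := by decide
  have n20 : (2 : Fin 3) ≠ 0 := by decide
  have n21 : (2 : Fin 3) ≠ 1 := by decide
  rcases hst 0 with e0 | ⟨α, hα, e0⟩ | e0 <;> rcases hst 1 with e1 | ⟨β, hβ, e1⟩ | e1 <;>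
    rcases hst 2 with e2 | ⟨γ, hγ, e2⟩ | e2 <;> rw [e0, e1, e2]
  · linarith
  · have := H1 2 γ hγ; linarith
  · have := H2 2; linarith
  · have := H1 1 β hβ; linarith
  · have := H11 1 2 n12 β γ hβ hγ; linarith
  · have := H21 2 1 n21 β hβ; linarith
  · have := H2 1; linarith
  · have := H21 1 2 n12 γ hγ; linarith
  · have := H22 1 2 n12; linarith
  · have := H1 0 α hα; linarith
  · have := H11 0 2 n02 α γ hα hγ; linarith
  · have := H21 2 0 n20 α hα; linarith
  · have := H11 0 1 n01 α β hα hβ; linarith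
  · have := H111 α β γ hα hβ hγ; linarith
  · have := H211 2 0 1 n20 n21 n01 α β hα hβ; linarith
  · have := H21 1 0 n10 α hα; linarith
  · have := H211 1 0 2 n10 n12 n02 α γ hα hγ; linarith
  · have := H221 1 2 0 n12 n10 n20 α hα; linarith
  · have := H2 0; linarith
  · have := H21 0 2 n02 γ hγ; linarith
  · have := H22 0 2 n02; linarith
  · have := H21 0 1 n01 β hβ; linarith
  · have := H211 0 1 2 n01 n02 n12 β γ hβ hγ; linarith
  · have := H221 0 2 1 n02 n01 n21 β hβ; linarith
  · have := H22 0 1 n01; linarith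
  · have := H221 0 1 2 n01 n02 n12 γ hγ; linarith
  · have := H222; linarith

end BccP.L1
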