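import Pool.Agent.PEN.N2

/-!
[PEN-L2] the local inequality for the theorem with short edges (marked = valence at most four).
`LA i`, `LB i` say that the corresponding edge is marked; `w θ = cc (π/2 - θ)` at marked edges.

PROOF. Let `n` be the number of marked edges and `Q` the sum of their angles. To show
`V + cc (Q - n π/2) ≤ 5cc` for `n ≥ 2`, `≤ 5cc·27/26` for `n = 1` (`one'`), `≤ 5cc·28/26` for `n = 0`
(`V ≤ 8√3/27 = 0.5132003 ≤ 0.51372`). Status of a pair = number of marked edges in it.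
20 0: `opp`. 110: `adj`, N2.m2. 111: `tri`, m3a. 210: `V ≤ 0.32`: `Q ≤ 2π` (`cyc`); `V ≥ 0.32`:
`Q ≤ (5+π-V/cc)/2 + 4 arctan(0.41722/V)` (`opp`, `mix`), m3b. 220, 211: `Q ≤ 8 arctan (0.41722/V)` (`dbl` or
twice `mix`); `V ≤ 0.17`: `Q ≤ 3π` (sum of the three `cyc`) : `0.17 + cc π ≤ 0.4698`; else m4. 221:
`Q ≤ 10 arctan(0.41722/V)` as in [PEN-L1]; `V ≤ 0.32`: `Q ≤ 3π`; else m5. 222: `Q ≤ 3π` if `V ≤ 5cc`, else
`Q ≤ 12 arctan(0.38766/V)`, m6.
-/

set_option autoImplicit false

namespace BccP.L2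

open BccCov BccO

open scoped Classical in
/-- number of marked edges -/
noncomputable def cnt (LA LB : Fin 3 → Prop) : ℕ :=
  ∑ i, ((if LA i then 1 else 0) + (if LB i then 1 else 0))

open scoped Classical in
theorem LI1 (V : ℝ) (A B : Fin 3 → ℝ) (h : Facts V A B) (LA LB : Fin 3 → Prop) :
    V ≤ 5 * cc * ((26 + (if cnt LA LB = 0 then 2 else if cnt LA LB = 1 then 1 else 0) : ℕ) : ℝ) / 26
      + ∑ i, ((if LA i then cc * (Real.pi / 2 - A i) else 0) +
        (if LB i then cc * (Real.pi / 2 - B i) else 0)) := by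
  have cl := Num.cc_lb
  have cu := Num.cc_ub
  have ccp := Num.cc_pos
  have pl := Real.pi_gt_d6
  have pu := Real.pi_lt_d6
  have V0 := h.V0
  have V1 : V ≤ 0.5132003 := h.V1.trans Num.vm_ub
  set x : Fin 3 → ℝ := fun i => A i + B i with hx
  have hx0 : ∀ i, 0 ≤ x i := fun i => add_nonneg (h.A0 i) (h.B0 i)
  have hcyc : ∀ i j, i ≠ j → x i + x j ≤ 2 * Real.pi := h.cyc
  have c01 := hcyc 0 1 (by decide)
  have c02 := hcyc 0 2 (by decide)
  have c12 := hcyc 1 2 (by decide)
  have hle : ∀ i α, (α = A i ∨ α = B i) → α ≤ x i := by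
    intro i α hα
    have h1 := h.A0 i
    have h2 := h.B0 i
    simp only [hx]
    rcases hα with rfl | rfl <;> linarith
  have htriple : ∀ i j k : Fin 3, i ≠ j → i ≠ k → j ≠ k → x i + x j + x k ≤ 3 * Real.pi := by
    intro i j k hij hik hjk
    have h1 := hcyc i j hij
    have h2 := hcyc i k hik
    have h3 := hcyc j k hjk
    linarith
  have hpair : ∀ i j : Fin 3, i ≠ j → x i + x j ≤ 3 * Real.pi := by
    intro i j hij
    have := hcyc i j hij
    linarith
  have hmix : ∀ i j, i ≠ j → ∀ β, (β = A j ∨ β = B j) →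
    x i / 2 + β ≤ 4 * Real.arctan (0.41722 / V) := h.mix
  have hdbl : ∀ i j, i ≠ j → x i + x j ≤ 8 * Real.arctan (0.38766 / V) := h.dbl
  have hmono : Real.arctan (0.38766 / V) ≤ Real.arctan (0.41722 / V) := by
    apply Real.arctan_mono
    apply div_le_div_of_nonneg_right _ V0.le
    norm_num
  have ccle : ∀ Q R, Q ≤ R → cc * Q ≤ cc * R := fun Q R hQ => mul_le_mul_of_nonneg_left hQ ccp.le
  have ccpi : cc * Real.pi ≤ 0.0954056 * 3.141593 := by
    apply mul_le_mul cu pu.le Real.pi_pos.le (by norm_num)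
  norm_num at ccpi
  have H1 : ∀ i, ∀ α, (α = A i ∨ α = B i) → V + cc * (α - Real.pi / 2) ≤ 5 * cc * (27 / 26) := by
    intro i α hα
    have := h.one' i α hα
    linarith
  have H2 : ∀ i, V + cc * (x i - Real.pi) ≤ 5 * cc := by
    intro i
    have h3 : V ≤ cc * (5 + Real.pi - x i) := h.opp i
    linarith
  have H11 : ∀ i j, i ≠ j → ∀ α β, (α = A i ∨ α = B i) → (β = A j ∨ β = B j) →
      V + cc * (α - Real.pi / 2) + cc * (β - Real.pi / 2) ≤ 5 * cc := by
    intro i j hij α β hα hβ
    have h1 := ccle _ _ (h.adj i j hij α β hα hβ)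
    have h2 := N2.m2 V V0 V1
    linarith
  have H111 : ∀ α β γ, (α = A 0 ∨ α = B 0) → (β = A 1 ∨ β = B 1) → (γ = A 2 ∨ γ = B 2) →
      V + cc * (α - Real.pi / 2) + cc * (β - Real.pi / 2) + cc * (γ - Real.pi / 2) ≤ 5 * cc := by
    intro α β γ hα hβ hγ
    have h1 := ccle _ _ (h.tri α β γ hα hβ hγ)
    have h2 := N2.m3a V V0 V1
    linarith
  have H21 : ∀ i j, i ≠ j → ∀ β, (β = A j ∨ β = B j) →
      V + cc * (x i - Real.pi) + cc * (β - Real.pi / 2) ≤ 5 * cc := by
    intro i j hij β hβ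
    rcases le_total V 0.32 with hV | hV
    · have h1 := ccle (x i + β) (2 * Real.pi) (by
        have := hle j β hβ; have := hcyc i j hij; linarith)
      linarith
    · have h0 : x i ≤ 5 + Real.pi - V / cc := by
        have h3 : V ≤ cc * (5 + Real.pi - x i) := h.opp i
        have h4 : V / cc ≤ 5 + Real.pi - x i := by
          rw [div_le_iff₀ ccp]; linarith
        linarith
      have h1 := ccle (x i + β) ((5 + Real.pi - V / cc) / 2 + 4 * Real.arctan (0.41722 / V)) (by
        have := hmix i j hij β hβ; linarith)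
      have h2 := N2.m3b V hV V1
      linarith
  have H4 : ∀ Q, Q ≤ 3 * Real.pi → Q ≤ 8 * Real.arctan (0.41722 / V) →
      V + cc * (Q - 2 * Real.pi) ≤ 5 * cc := by
    intro Q hQ hQ2
    rcases le_total V 0.17 with hV | hV
    · have h1 := ccle _ _ hQ
      linarith
    · have h1 := ccle _ _ hQ2
      have h2 := N2.m4 V hV V1
      linarith
  have H5 : ∀ Q, Q ≤ 3 * Real.pi → Q ≤ 10 * Real.arctan (0.41722 / V) →
      V + cc * (Q - 5 / 2 * Real.pi) ≤ 5 * cc := by
    intro Q hQ hQ2
    rcases le_total V 0.32 with hV | hV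
    · have h1 := ccle _ _ hQ
      linarith
    · have h1 := ccle _ _ hQ2
      have h2 := N2.m5 V hV V1
      linarith
  have H22 : ∀ i j, i ≠ j → V + cc * (x i - Real.pi) + cc * (x j - Real.pi) ≤ 5 * cc := by
    intro i j hij
    have h1 := H4 (x i + x j) (hpair i j hij) (by have := hdbl i j hij; linarith)
    linarith
  have H211 : ∀ i j k, i ≠ j → i ≠ k → j ≠ k → ∀ β γ, (β = A j ∨ β = B j) → (γ = A k ∨ γ = B k) →
      V + cc * (x i - Real.pi) + cc * (β - Real.pi / 2) + cc * (γ - Real.pi / 2) ≤ 5 * cc := by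
    intro i j k hij hik hjk β γ hβ hγ
    have h1 := H4 (x i + β + γ) (by
      have := htriple i j k hij hik hjk
      have := hle j β hβ; have := hle k γ hγ; linarith) (by
      have := hmix i j hij β hβ; have := hmix i k hik γ hγ; linarith)
    linarith
  have H221 : ∀ i j k, i ≠ j → i ≠ k → j ≠ k → ∀ γ, (γ = A k ∨ γ = B k) →
      V + cc * (x i - Real.pi) + cc * (x j - Real.pi) + cc * (γ - Real.pi / 2) ≤ 5 * cc := by
    intro i j k hij hik hjk γ hγ
    have h1 := H5 (x i + x j + γ) (by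
      have := htriple i j k hij hik hjk
      have := hle k γ hγ; linarith) (by
      have := hmix i k hik γ hγ; have := hmix j k hjk γ hγ; have := hdbl i j hij; linarith)
    linarith
  have H222 : V + cc * (x 0 - Real.pi) + cc * (x 1 - Real.pi) + cc * (x 2 - Real.pi) ≤ 5 * cc := by
    rcases le_total V (5 * cc) with hV | hV
    · have h1 := ccle (x 0 + x 1 + x 2) (3 * Real.pi) (by linarith)
      linarith
    · have h1 := ccle (x 0 + x 1 + x 2) (12 * Real.arctan (0.38766 / V)) (by
        have := hdbl 0 1 (by decide)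
        have := hdbl 0 2 (by decide)
        have := hdbl 1 2 (by decide)
        linarith)
      have h2 := N2.m6 V hV V1
      linarith
  -- the status of each pair
  set c : Fin 3 → ℕ := fun i => (if LA i then 1 else 0) + (if LB i then 1 else 0) with hc
  set N : Fin 3 → ℝ := fun i => (if LA i then cc * (Real.pi / 2 - A i) else 0) +
        (if LB i then cc * (Real.pi / 2 - B i) else 0) with hN
  have hst : ∀ i, (c i = 0 ∧ N i = 0) ∨
      (∃ α, (α = A i ∨ α = B i) ∧ c i = 1 ∧ N i = - (cc * (α - Real.pi / 2))) ∨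
      (c i = 2 ∧ N i = - (cc * (x i - Real.pi))) := by
    intro i
    simp only [hN, hc, hx]
    by_cases h1 : LA i <;> by_cases h2 : LB i
    · right; right
      simp only [h1, h2, if_true]
      exact ⟨trivial, by ring⟩
    · right; left
      simp only [h1, h2, if_true, if_false]
      exact ⟨A i, Or.inl rfl, by norm_num, by ring⟩
    · right; left
      simp only [h1, h2, if_true, if_false]
      exact ⟨B i, Or.inr rfl, by norm_num, by ring⟩
    · left
      simp only [h1, h2, if_false]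
      exact ⟨by norm_num, by ring⟩
  have hsum : ∑ i, ((if LA i then cc * (Real.pi / 2 - A i) else 0) +
        (if LB i then cc * (Real.pi / 2 - B i) else 0)) = N 0 + N 1 + N 2 := by
    rw [Fin.sum_univ_three]
  have hcnt : cnt LA LB = c 0 + c 1 + c 2 := by
    unfold cnt
    rw [Fin.sum_univ_three]
  rw [hsum, hcnt]
  have n01 : (0 : Fin 3) ≠ 1 := by decide
  have n02 : (0 : Fin 3) ≠ 2 := by decide
  have n12 : (1 : Fin 3) ≠ 2 := by decide
  have n10 : (1 : Fin 3) ≠ 0 := by decide
  have n20 : (2 : Fin 3) ≠ 0 := by decide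
  have n21 : (2 : Fin 3) ≠ 1 := by decide
  rcases hst 0 with ⟨k0, e0⟩ | ⟨α, hα, k0, e0⟩ | ⟨k0, e0⟩ <;>
    rcases hst 1 with ⟨k1, e1⟩ | ⟨β, hβ, k1, e1⟩ | ⟨k1, e1⟩ <;>
    rcases hst 2 with ⟨k2, e2⟩ | ⟨γ, hγ, k2, e2⟩ | ⟨k2, e2⟩ <;>
    rw [e0, e1, e2, k0, k1, k2] <;> norm_num
  · linarith
  · have := H1 2 γ hγ; linarith
  · have := H2 2; linarith
  · have := H1 1 β hβ; linarith
  · have := H11 1 2 n12 β γ hβ hγ; linarith
  · have := H21 2 1 n21 β hβ; linarith
  · have := H2 1; linarith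
  · have := H21 1 2 n12 γ hγ; linarith
  · have := H22 1 2 n12; linarith
  · have := H1 0 α hα; linarith
  · have := H11 0 2 n02 α γ hα hγ; linarith
  · have := H21 2 0 n20 α hα; linarith
  · have := H11 0 1 n01 α β hα hβ; linarith
  · have := H111 α β γ hα hβ hγ; linarith
  · have := H211 2 0 1 n20 n21 n01 α β hα hβ; linarith
  · have := H21 1 0 n10 α hα; linarith
  · have := H211 1 0 2 n10 n12 n02 α γ hα hγ; linarith
  · have := H221 1 2 0 n12 n10 n20 α hα; linarith
  · have := H2 0; linarith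
  · have := H21 0 2 n02 γ hγ; linarith
  · have := H22 0 2 n02; linarith
  · have := H21 0 1 n01 β hβ; linarith
  · have := H211 0 1 2 n01 n02 n12 β γ hβ hγ; linarith
  · have := H221 0 2 1 n02 n01 n21 β hβ; linarith
  · have := H22 0 1 n01; linarith
  · have := H221 0 1 2 n01 n02 n12 γ hγ; linarith
  · have := H222; linarith

end BccP.L2
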