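import Pool.Agent.PEN.N2

/-!
[PEN-N1] numerical one-variable inequalities for the pentagon theorem. All functions of `V` are convex
on the given intervals (`arctan (C/V) = π/2 - arctan (V/C)` and `arctan` is concave on `[0, ∞)`,
`BccCov.G5.arctan_concave`; on intervals `(0, V₁]` use `BccCov.G5.arctan_conv`), so it is enough to
check the end points (at `0` replace `arctan (C/V)` by `π/2`). Upper bounds for `arctan`: e.g.
`arctan x = π/4 - arctan ((1-x)/(1+x))` and `t - t³/3 ≤ arctan t`, or `tan` bounds as in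
`MP_bf7174_co/O/T1.lean`. Numerical values (right-hand side `5 cc = 0.4770278`):
n2: at 0: 0.31920, at 8√3/27: 0.47629 (slack 0.00074).
n3a: at 0.1: 0.4374, at 8√3/27: 0.4596. n3b: at 0.3: 0.47402, at 8√3/27: 0.47536.
n4: at 0.27: 0.47456, at 8√3/27: 0.47358. n4B: at 0.22: 0.42556, at 0.27: 0.43611.
n5: at 0.43: 0.47521, at 8√3/27: 0.47323. n5B: at 0.35: 0.43470, at 0.43: 0.45800.
n6: `V ≥ 5cc`: `arctan (0.38766/V) ≤ arctan (0.38766/0.477) = 0.68251`, total ≤ 0.4729.
-/

set_option autoImplicit false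

namespace BccP.N1

open BccCov BccO

theorem conv {V V0 V1 C k m R r0 r1 α β : ℝ} (hV0 : 0 ≤ V0) (h01 : V0 < V1) (h0 : V0 ≤ V)
    (h1 : V ≤ V1) (hV : 0 < V) (hC : 0 < C) (hk : 0 ≤ k) (hm : 0 < m)
    (a0 : Real.pi / 4 + r0 ≤ Real.arctan (V0 / C)) (a1 : Real.pi / 4 + r1 ≤ Real.arctan (V1 / C))
    (e0 : α * V0 + β - m * k * r0 ≤ R) (e1 : α * V1 + β - m * k * r1 ≤ R) :
    α * V + β + m * (k * (Real.arctan (C / V) - Real.pi / 4)) ≤ R := by
  have hc := Num.cc_pos
  have h := N2.conv (k := m * k / cc) (α := α) (β := β) (R := R) hV0 h01 h0 h1 hV hC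
    (by positivity) a0 a1 (by
      have : cc * (m * k / cc) = m * k := by field_simp
      rw [this]; exact e0) (by
      have : cc * (m * k / cc) = m * k := by field_simp
      rw [this]; exact e1)
  have e : cc * (m * k / cc * (Real.arctan (C / V) - Real.pi / 4)) =
      m * (k * (Real.arctan (C / V) - Real.pi / 4)) := by field_simp
  rw [e] at h
  exact h

theorem ssp_ub : ss * Real.pi ≤ 0.109020 := by
  have h1 := Num.ss_ub
  have h2 := Real.pi_lt_d6
  calc ss * Real.pi ≤ 0.0347020 * 3.141593 :=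
        mul_le_mul h1 h2.le Real.pi_pos.le (by norm_num)
    _ ≤ _ := by norm_num
theorem ttp_ub : tt * Real.pi ≤ 0.173842 := by
  have h1 := Num.tt_ub
  have h2 := Real.pi_lt_d6
  calc tt * Real.pi ≤ 0.0553353 * 3.141593 :=
        mul_le_mul h1 h2.le Real.pi_pos.le (by norm_num)
    _ ≤ _ := by norm_num

theorem n2 (V : ℝ) (h0 : 0 < V) (h1 : V ≤ 0.5132003) :
    0.92546 * V + tau * (4 * Real.arctan (0.42204 / V)) - 2 * hh ≤ 5 * cc := by
  have c1 := Num.cc_lb
  have c2 := Num.cc_ub
  have t1 := Num.tau_lb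
  have t2 := Num.tau_ub
  have t3 := Num.tt_lb
  have t4 := Num.tt_ub
  have s1 := Num.ss_lb
  have s2 := ssp_ub
  have s3 := ttp_ub
  have s4 := Num.ss_pos
  have e1 : tau * Real.pi = tt * Real.pi + ss * Real.pi := by unfold tau; ring
  have e2 : hh = tt * Real.pi / 2 + ss * Real.pi / 3 := by unfold hh; ring
  have h := conv (V := V) (V0 := 0) (V1 := 0.5132003) (C := 0.42204) (k := 4) (m := tau) (R := 5 * cc)
    (r0 := -(Real.pi / 4)) (r1 := 0.09716) (α := 0.92546) (β := ss * Real.pi / 3) le_rfl (by norm_num) h0.le h1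
    h0 (by norm_num) (by norm_num) Num.tau_pos N2.at0
    (N2.lo1 (by norm_num) (by norm_num) (by norm_num)) (by linarith) (by linarith)
  linarith

theorem n3a (V : ℝ) (h0 : 0.1 ≤ V) (h1 : V ≤ 0.5132003) :
    0.92546 * V + tau * (6 * Real.arctan (0.39507 / V)) - 3 * hh ≤ 5 * cc := by
  have c1 := Num.cc_lb
  have c2 := Num.cc_ub
  have t1 := Num.tau_lb
  have t2 := Num.tau_ub
  have t3 := Num.tt_lb
  have t4 := Num.tt_ub
  have s1 := Num.ss_lb
  have s2 := ssp_ub
  have s3 := ttp_ub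
  have s4 := Num.ss_pos
  have e1 : tau * Real.pi = tt * Real.pi + ss * Real.pi := by unfold tau; ring
  have e2 : hh = tt * Real.pi / 2 + ss * Real.pi / 3 := by unfold hh; ring
  have h := conv (V := V) (V0 := 0.1) (V1 := 0.5132003) (C := 0.39507) (k := 6) (m := tau) (R := 5 * cc)
    (r0 := -0.54049) (r1 := 0.12932) (α := 0.92546) (β := ss * Real.pi / 2) (by norm_num) (by norm_num) h0 h1
    (by linarith) (by norm_num) (by norm_num) Num.tau_pos (N2.lo0 (by norm_num) (by norm_num) (by norm_num) (by norm_num))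
    (N2.lo1 (by norm_num) (by norm_num) (by norm_num)) (by linarith) (by linarith)
  linarith

theorem n3b (V : ℝ) (h0 : 0.3 ≤ V) (h1 : V ≤ 0.5132003) :
    0.92546 * V + tau * ((5 + Real.pi - V / cc) / 2 + 4 * Real.arctan (0.41722 / V)) - 3 * hh
      ≤ 5 * cc := by
  have c1 := Num.cc_lb
  have c2 := Num.cc_ub
  have t1 := Num.tau_lb
  have t2 := Num.tau_ub
  have s2 := ssp_ub
  have s4 := Num.ss_pos
  have e1 : tau * Real.pi = tt * Real.pi + ss * Real.pi := by unfold tau; ring
  have e2 : hh = tt * Real.pi / 2 + ss * Real.pi / 3 := by unfold hh; ring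
  have hc := Num.cc_pos
  have q1 : 0.47186 * V ≤ tau * (V / cc) / 2 := by
    have : tau * (V / cc) / 2 = (tau / cc / 2) * V := by ring
    rw [this]
    refine mul_le_mul_of_nonneg_right ?_ (by linarith)
    rw [div_div, le_div_iff₀ (by positivity)]
    linarith
  have h := conv (V := V) (V0 := 0.3) (V1 := 0.5132003) (C := 0.41722) (k := 4) (m := tau) (R := 5 * cc)
    (r0 := -0.16201) (r1 := 0.10279) (α := 0.92546 - 0.47186) (β := 5 / 2 * tau + ss * Real.pi / 2) (by norm_num)
    (by norm_num) h0 h1 (by linarith) (by norm_num) (by norm_num) Num.tau_pos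
    (N2.lo0 (by norm_num) (by norm_num) (by norm_num) (by norm_num))
    (N2.lo1 (by norm_num) (by norm_num) (by norm_num)) (by linarith) (by linarith)
  have e3 : tau * ((5 + Real.pi - V / cc) / 2 + 4 * Real.arctan (0.41722 / V)) =
      5 / 2 * tau + tau * Real.pi / 2 - tau * (V / cc) / 2 +
        tau * (4 * Real.arctan (0.41722 / V)) := by ring
  rw [e3]
  have e4 : tau * (4 * (Real.arctan (0.41722 / V) - Real.pi / 4)) =
      tau * (4 * Real.arctan (0.41722 / V)) - tau * Real.pi := by ring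
  rw [e4] at h
  linarith

theorem n4 (V : ℝ) (h0 : 0.27 ≤ V) (h1 : V ≤ 0.5132003) :
    0.92546 * V + tau * (8 * Real.arctan (0.41722 / V)) - 4 * hh ≤ 5 * cc := by
  have c1 := Num.cc_lb
  have c2 := Num.cc_ub
  have t1 := Num.tau_lb
  have t2 := Num.tau_ub
  have t3 := Num.tt_lb
  have t4 := Num.tt_ub
  have s1 := Num.ss_lb
  have s2 := ssp_ub
  have s3 := ttp_ub
  have s4 := Num.ss_pos
  have e1 : tau * Real.pi = tt * Real.pi + ss * Real.pi := by unfold tau; ring
  have e2 : hh = tt * Real.pi / 2 + ss * Real.pi / 3 := by unfold hh; ring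
  have h := conv (V := V) (V0 := 0.27) (V1 := 0.5132003) (C := 0.41722) (k := 8) (m := tau) (R := 5 * cc)
    (r0 := -0.21104) (r1 := 0.10279) (α := 0.92546) (β := 2 / 3 * (ss * Real.pi)) (by norm_num) (by norm_num) h0 h1
    (by linarith) (by norm_num) (by norm_num) Num.tau_pos (N2.lo0 (by norm_num) (by norm_num) (by norm_num) (by norm_num))
    (N2.lo1 (by norm_num) (by norm_num) (by norm_num)) (by linarith) (by linarith)
  linarith

theorem n4B (V : ℝ) (h0 : 0.22 ≤ V) (h1 : V ≤ 0.27) :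
    V + tt * (8 * Real.arctan (0.41722 / V)) + 2 * Real.pi * ss - 4 * hh ≤ 5 * cc := by
  have c1 := Num.cc_lb
  have c2 := Num.cc_ub
  have t1 := Num.tau_lb
  have t2 := Num.tau_ub
  have t3 := Num.tt_lb
  have t4 := Num.tt_ub
  have s1 := Num.ss_lb
  have s2 := ssp_ub
  have s3 := ttp_ub
  have s4 := Num.ss_pos
  have e1 : tau * Real.pi = tt * Real.pi + ss * Real.pi := by unfold tau; ring
  have e2 : hh = tt * Real.pi / 2 + ss * Real.pi / 3 := by unfold hh; ring
  have h := conv (V := V) (V0 := 0.22) (V1 := 0.27) (C := 0.41722) (k := 8) (m := tt) (R := 5 * cc)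
    (r0 := -0.30019) (r1 := -0.21104) (α := 1) (β := 2 / 3 * (ss * Real.pi)) (by norm_num) (by norm_num) h0 h1
    (by linarith) (by norm_num) (by norm_num) Num.tt_pos (N2.lo0 (by norm_num) (by norm_num) (by norm_num) (by norm_num))
    (N2.lo0 (by norm_num) (by norm_num) (by norm_num) (by norm_num)) (by linarith) (by linarith)
  linarith

theorem n5 (V : ℝ) (h0 : 0.43 ≤ V) (h1 : V ≤ 0.5132003) :
    0.92546 * V + tau * (10 * Real.arctan (0.41722 / V)) - 5 * hh ≤ 5 * cc := by
  have c1 := Num.cc_lb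
  have c2 := Num.cc_ub
  have t1 := Num.tau_lb
  have t2 := Num.tau_ub
  have t3 := Num.tt_lb
  have t4 := Num.tt_ub
  have s1 := Num.ss_lb
  have s2 := ssp_ub
  have s3 := ttp_ub
  have s4 := Num.ss_pos
  have e1 : tau * Real.pi = tt * Real.pi + ss * Real.pi := by unfold tau; ring
  have e2 : hh = tt * Real.pi / 2 + ss * Real.pi / 3 := by unfold hh; ring
  have h := conv (V := V) (V0 := 0.43) (V1 := 0.5132003) (C := 0.41722) (k := 10) (m := tau) (R := 5 * cc)
    (r0 := 0.01508) (r1 := 0.10279) (α := 0.92546) (β := 5 / 6 * (ss * Real.pi)) (by norm_num) (by norm_num) h0 h1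
    (by linarith) (by norm_num) (by norm_num) Num.tau_pos (N2.lo1 (by norm_num) (by norm_num) (by norm_num))
    (N2.lo1 (by norm_num) (by norm_num) (by norm_num)) (by linarith) (by linarith)
  linarith

theorem n5B (V : ℝ) (h0 : 0.35 ≤ V) (h1 : V ≤ 0.43) :
    V + tt * (10 * Real.arctan (0.41722 / V)) + 2 * Real.pi * ss - 5 * hh ≤ 5 * cc := by
  have c1 := Num.cc_lb
  have c2 := Num.cc_ub
  have t1 := Num.tau_lb
  have t2 := Num.tau_ub
  have t3 := Num.tt_lb
  have t4 := Num.tt_ub
  have s1 := Num.ss_lb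
  have s2 := ssp_ub
  have s3 := ttp_ub
  have s4 := Num.ss_pos
  have e1 : tau * Real.pi = tt * Real.pi + ss * Real.pi := by unfold tau; ring
  have e2 : hh = tt * Real.pi / 2 + ss * Real.pi / 3 := by unfold hh; ring
  have h := conv (V := V) (V0 := 0.35) (V1 := 0.43) (C := 0.41722) (k := 10) (m := tt) (R := 5 * cc)
    (r0 := -0.0874) (r1 := 0.01508) (α := 1) (β := ss * Real.pi / 3) (by norm_num) (by norm_num) h0 h1
    (by linarith) (by norm_num) (by norm_num) Num.tt_pos (N2.lo0 (by norm_num) (by norm_num) (by norm_num) (by norm_num))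
    (N2.lo1 (by norm_num) (by norm_num) (by norm_num)) (by linarith) (by linarith)
  linarith

theorem n6 (V : ℝ) (h0 : 5 * cc ≤ V) (h1 : V ≤ 0.5132003) :
    0.92546 * V + tau * (12 * Real.arctan (0.38766 / V)) - 6 * hh ≤ 5 * cc := by
  have c1 := Num.cc_lb
  have c2 := Num.cc_ub
  have t1 := Num.tau_lb
  have t2 := Num.tau_ub
  have s2 := ssp_ub
  have s4 := Num.ss_pos
  have e1 : tau * Real.pi = tt * Real.pi + ss * Real.pi := by unfold tau; ring
  have e2 : hh = tt * Real.pi / 2 + ss * Real.pi / 3 := by unfold hh; ring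
  have h := conv (V := V) (V0 := 0.477) (V1 := 0.5132003) (C := 0.38766) (k := 12) (m := tau) (R := 5 * cc)
    (r0 := 0.10295) (r1 := 0.13845) (α := 0.92546) (β := ss * Real.pi) (by norm_num)
    (by norm_num) (by linarith) h1 (by linarith) (by norm_num) (by norm_num) Num.tau_pos
    (N2.lo1 (by norm_num) (by norm_num) (by norm_num))
    (N2.lo1 (by norm_num) (by norm_num) (by norm_num)) (by linarith) (by linarith)
  linarith

end BccP.N1
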