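import Pool.Agent.PEN.Num

/-!
[PEN-N2] numerical one-variable inequalities for the theorem with two short edges; see [PEN-N1] for
the method. `cc = 0.0954055670`, `5 cc = 0.4770278`. Values:
m2: at 0: 0.29973, at 0.5132003: 0.47612 (slack 0.0009).
m3a: at 0: 0.44959, at end: 0.440. m3b: at 0.32: 0.44855, at end: 0.45588.
m4: at 0.17: 0.47413, at end: 0.43474. m5: at 0.32: 0.44509, at end: 0.41512.
m6: `V ≥ 5cc`: `arctan (0.38766/V) ≤ 0.68251`, total ≤ 0.5133 - 0.1177.
-/

set_option autoImplicit false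

namespace BccP.N2

open BccCov BccO

/-- lower bound of `arctan` by its Taylor polynomial -/
theorem at_ge {t : ℝ} (ht : 0 ≤ t) : t - t ^ 3 / 3 ≤ Real.arctan t := by
  have hd : ∀ y : ℝ, HasDerivAt (fun y : ℝ => Real.arctan y - (y - y ^ 3 / 3))
      (1 / (1 + y ^ 2) - (1 - y ^ 2)) y := by
    intro y
    have h1 := (hasDerivAt_pow 3 y).div_const 3
    have h2 := (Real.hasDerivAt_arctan y).sub ((hasDerivAt_id y).sub h1)
    refine h2.congr_deriv ?_
    norm_num
    try ring
  have hm : MonotoneOn (fun y : ℝ => Real.arctan y - (y - y ^ 3 / 3)) (Set.Ici 0) := by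
    refine monotoneOn_of_deriv_nonneg (convex_Ici 0)
      (fun y _ => (hd y).continuousAt.continuousWithinAt)
      (fun y _ => (hd y).differentiableAt.differentiableWithinAt) ?_
    intro y _
    rw [(hd y).deriv]
    have e : 1 / (1 + y ^ 2) - (1 - y ^ 2) = y ^ 4 / (1 + y ^ 2) := by
      have : (1 + y ^ 2) ≠ 0 := by positivity
      field_simp
      ring
    rw [e]
    positivity
  have h := hm (Set.mem_Ici.2 le_rfl) (Set.mem_Ici.2 ht) ht
  simp only [Real.arctan_zero] at h
  norm_num at h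
  linarith

/-- upper bound of `arctan` by its Taylor polynomial -/
theorem at_le {t : ℝ} (ht : 0 ≤ t) : Real.arctan t ≤ t - t ^ 3 / 3 + t ^ 5 / 5 := by
  have hd : ∀ y : ℝ, HasDerivAt (fun y : ℝ => (y - y ^ 3 / 3) + y ^ 5 / 5 - Real.arctan y)
      (1 - y ^ 2 + y ^ 4 - 1 / (1 + y ^ 2)) y := by
    intro y
    have h1 := (hasDerivAt_pow 3 y).div_const 3
    have h3 := (hasDerivAt_pow 5 y).div_const 5
    have h2 := (((hasDerivAt_id y).sub h1).add h3).sub (Real.hasDerivAt_arctan y)
    refine h2.congr_deriv ?_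
    norm_num
    try ring
  have hm : MonotoneOn (fun y : ℝ => (y - y ^ 3 / 3) + y ^ 5 / 5 - Real.arctan y)
      (Set.Ici 0) := by
    refine monotoneOn_of_deriv_nonneg (convex_Ici 0)
      (fun y _ => (hd y).continuousAt.continuousWithinAt)
      (fun y _ => (hd y).differentiableAt.differentiableWithinAt) ?_
    intro y _
    rw [(hd y).deriv]
    have e : 1 - y ^ 2 + y ^ 4 - 1 / (1 + y ^ 2) = y ^ 6 / (1 + y ^ 2) := by
      have : (1 + y ^ 2) ≠ 0 := by positivity
      field_simp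
      ring
    rw [e]
    positivity
  have h := hm (Set.mem_Ici.2 le_rfl) (Set.mem_Ici.2 ht) ht
  simp only [Real.arctan_zero] at h
  norm_num at h
  linarith

theorem at_eq {V C : ℝ} (hV : 0 ≤ V) (hC : 0 < C) :
    Real.arctan (V / C) = Real.pi / 4 - Real.arctan ((C - V) / (C + V)) := by
  have hCV : 0 < C + V := by linarith
  have h1 : V / C * ((C - V) / (C + V)) < 1 := by
    rw [div_mul_div_comm, div_lt_one (by positivity)]
    nlinarith [sq_nonneg V]
  have h2 := Real.arctan_add h1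
  have hq : C ^ 2 + V ^ 2 ≠ 0 := by positivity
  have h3 : (V / C + (C - V) / (C + V)) / (1 - V / C * ((C - V) / (C + V))) = 1 := by
    rw [div_eq_one_iff_eq (by linarith)]
    field_simp
    ring
  rw [h3, Real.arctan_one] at h2
  linarith

/-- below the diagonal -/
theorem lo0 {V C r : ℝ} (hV : 0 ≤ V) (hC : 0 < C) (hVC : V ≤ C)
    (hr : ((C - V) / (C + V)) - ((C - V) / (C + V)) ^ 3 / 3 + ((C - V) / (C + V)) ^ 5 / 5 ≤ -r) :
    Real.pi / 4 + r ≤ Real.arctan (V / C) := by
  rw [at_eq hV hC]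
  have h := at_le (t := (C - V) / (C + V)) (div_nonneg (by linarith) (by linarith))
  linarith

/-- above the diagonal -/
theorem lo1 {V C r : ℝ} (hC : 0 < C) (hVC : C ≤ V)
    (hr : r ≤ ((V - C) / (C + V)) - ((V - C) / (C + V)) ^ 3 / 3) :
    Real.pi / 4 + r ≤ Real.arctan (V / C) := by
  rw [at_eq (by linarith) hC]
  have h := at_ge (t := (V - C) / (C + V)) (div_nonneg (by linarith) (by linarith))
  have e : (C - V) / (C + V) = -((V - C) / (C + V)) := by ring
  rw [e, Real.arctan_neg]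
  linarith

theorem conv {V V0 V1 C k R r0 r1 α β : ℝ} (hV0 : 0 ≤ V0) (h01 : V0 < V1) (h0 : V0 ≤ V)
    (h1 : V ≤ V1) (hV : 0 < V) (hC : 0 < C) (hk : 0 ≤ k)
    (a0 : Real.pi / 4 + r0 ≤ Real.arctan (V0 / C)) (a1 : Real.pi / 4 + r1 ≤ Real.arctan (V1 / C))
    (e0 : α * V0 + β - cc * k * r0 ≤ R) (e1 : α * V1 + β - cc * k * r1 ≤ R) :
    α * V + β + cc * (k * (Real.arctan (C / V) - Real.pi / 4)) ≤ R := by
  have hc := Num.cc_pos
  have hcon := G5.arctan_concave
  have hd : 0 < V1 - V0 := by linarith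
  have hq0 : 0 ≤ (V1 - V) / (V1 - V0) := div_nonneg (by linarith) hd.le
  have hq1 : 0 ≤ (V - V0) / (V1 - V0) := div_nonneg (by linarith) hd.le
  have hqs : (V1 - V) / (V1 - V0) + (V - V0) / (V1 - V0) = 1 := by
    field_simp
    ring
  have h2 := hcon.2 (x := V0 / C) (y := V1 / C) (Set.mem_Ici.2 (by positivity))
    (Set.mem_Ici.2 (div_nonneg (by linarith) hC.le)) hq0 hq1 hqs
  simp only [smul_eq_mul] at h2
  have h3 : (V1 - V) / (V1 - V0) * (V0 / C) + (V - V0) / (V1 - V0) * (V1 / C) = V / C := by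
    field_simp
    ring
  have hVe : V = (V1 - V) / (V1 - V0) * V0 + (V - V0) / (V1 - V0) * V1 := by
    field_simp
    ring
  rw [h3] at h2
  generalize (V1 - V) / (V1 - V0) = p at *
  generalize (V - V0) / (V1 - V0) = q at *
  have h4 : Real.arctan (C / V) = Real.pi / 2 - Real.arctan (V / C) := by
    have := Real.arctan_inv_of_pos (x := V / C) (by positivity)
    rwa [inv_div] at this
  have h5 : Real.pi / 4 + (p * r0 + q * r1) ≤ Real.arctan (V / C) := by
    have b0 := mul_le_mul_of_nonneg_left a0 hq0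
    have b1 := mul_le_mul_of_nonneg_left a1 hq1
    have b2 : p * (Real.pi / 4 + r0) + q * (Real.pi / 4 + r1) =
        (p + q) * (Real.pi / 4) + (p * r0 + q * r1) := by ring
    rw [hqs, one_mul] at b2
    linarith
  have h6 : cc * (k * (Real.arctan (C / V) - Real.pi / 4)) ≤ - (cc * k * (p * r0 + q * r1)) := by
    have b3 : 0 ≤ cc * k := mul_nonneg hc.le hk
    have b4 := mul_le_mul_of_nonneg_left (show Real.arctan (C / V) - Real.pi / 4 ≤
      - (p * r0 + q * r1) by rw [h4]; linarith) b3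
    calc cc * (k * (Real.arctan (C / V) - Real.pi / 4)) =
        cc * k * (Real.arctan (C / V) - Real.pi / 4) := by ring
      _ ≤ cc * k * - (p * r0 + q * r1) := b4
      _ = _ := by ring
  have b5 := mul_le_mul_of_nonneg_left e0 hq0
  have b6 := mul_le_mul_of_nonneg_left e1 hq1
  have b7 : p * R + q * R = R := by rw [← add_mul, hqs, one_mul]
  have b8 : p * (α * V0 + β - cc * k * r0) + q * (α * V1 + β - cc * k * r1) =
      α * (p * V0 + q * V1) + (p + q) * β - cc * k * (p * r0 + q * r1) := by ring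
  rw [← hVe, hqs, one_mul] at b8
  linarith

theorem at0 {C : ℝ} : Real.pi / 4 + -(Real.pi / 4) ≤ Real.arctan (0 / C) := by
  rw [zero_div, Real.arctan_zero]
  linarith

theorem m2 (V : ℝ) (h0 : 0 < V) (h1 : V ≤ 0.5132003) :
    V + cc * (4 * Real.arctan (0.42204 / V) - Real.pi) ≤ 5 * cc := by
  have c1 := Num.cc_lb
  have c2 := Num.cc_ub
  have hpi := Real.pi_lt_d2
  have hcp : cc * Real.pi ≤ cc * 3.15 := mul_le_mul_of_nonneg_left hpi.le Num.cc_pos.le
  have h := conv (V := V) (V0 := 0) (V1 := 0.5132003) (C := 0.42204) (k := 4) (R := 5 * cc)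
    (r0 := -(Real.pi / 4)) (r1 := 0.09715) (α := 1) (β := 0) le_rfl (by norm_num) h0.le h1 h0
    (by norm_num) (by norm_num) at0 (lo1 (by norm_num) (by norm_num) (by norm_num))
    (by linarith) (by linarith)
  linarith

theorem m3a (V : ℝ) (h0 : 0 < V) (h1 : V ≤ 0.5132003) :
    V + cc * (6 * Real.arctan (0.39507 / V) - 3 / 2 * Real.pi) ≤ 5 * cc := by
  have c1 := Num.cc_lb
  have c2 := Num.cc_ub
  have hpi := Real.pi_lt_d2
  have hcp : cc * Real.pi ≤ cc * 3.15 := mul_le_mul_of_nonneg_left hpi.le Num.cc_pos.le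
  have h := conv (V := V) (V0 := 0) (V1 := 0.5132003) (C := 0.39507) (k := 6) (R := 5 * cc)
    (r0 := -(Real.pi / 4)) (r1 := 0.1) (α := 1) (β := 0) le_rfl (by norm_num) h0.le h1 h0
    (by norm_num) (by norm_num) at0 (lo1 (by norm_num) (by norm_num) (by norm_num))
    (by linarith) (by linarith)
  linarith

theorem m3b (V : ℝ) (h0 : 0.32 ≤ V) (h1 : V ≤ 0.5132003) :
    V + cc * ((5 + Real.pi - V / cc) / 2 + 4 * Real.arctan (0.41722 / V) - 3 / 2 * Real.pi)
      ≤ 5 * cc := by
  have c1 := Num.cc_lb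
  have c2 := Num.cc_ub
  have h := conv (V := V) (V0 := 0.32) (V1 := 0.5132003) (C := 0.41722) (k := 4) (R := 5 * cc)
    (r0 := -0.14) (r1 := 0.1) (α := 1 / 2) (β := 5 / 2 * cc) (by norm_num) (by norm_num) h0 h1
    (by linarith) (by norm_num) (by norm_num)
    (lo0 (by norm_num) (by norm_num) (by norm_num) (by norm_num))
    (lo1 (by norm_num) (by norm_num) (by norm_num)) (by linarith) (by linarith)
  have e : cc * (V / cc) = V := mul_div_cancel₀ V Num.cc_pos.ne'
  have e2 : cc * ((5 + Real.pi - V / cc) / 2 + 4 * Real.arctan (0.41722 / V) -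
      3 / 2 * Real.pi) = (5 * cc + cc * Real.pi - cc * (V / cc)) / 2 +
        cc * (4 * Real.arctan (0.41722 / V)) - 3 / 2 * (cc * Real.pi) := by ring
  rw [e2, e]
  linarith

theorem m4 (V : ℝ) (h0 : 0.17 ≤ V) (h1 : V ≤ 0.5132003) :
    V + cc * (8 * Real.arctan (0.41722 / V) - 2 * Real.pi) ≤ 5 * cc := by
  have c1 := Num.cc_lb
  have c2 := Num.cc_ub
  have h := conv (V := V) (V0 := 0.17) (V1 := 0.5132003) (C := 0.41722) (k := 8) (R := 5 * cc)
    (r0 := -0.4) (r1 := 0.1) (α := 1) (β := 0) (by norm_num) (by norm_num) h0 h1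
    (by linarith) (by norm_num) (by norm_num)
    (lo0 (by norm_num) (by norm_num) (by norm_num) (by norm_num))
    (lo1 (by norm_num) (by norm_num) (by norm_num)) (by linarith) (by linarith)
  linarith

theorem m5 (V : ℝ) (h0 : 0.32 ≤ V) (h1 : V ≤ 0.5132003) :
    V + cc * (10 * Real.arctan (0.41722 / V) - 5 / 2 * Real.pi) ≤ 5 * cc := by
  have c1 := Num.cc_lb
  have c2 := Num.cc_ub
  have h := conv (V := V) (V0 := 0.32) (V1 := 0.5132003) (C := 0.41722) (k := 10) (R := 5 * cc)
    (r0 := -0.14) (r1 := 0.1) (α := 1) (β := 0) (by norm_num) (by norm_num) h0 h1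
    (by linarith) (by norm_num) (by norm_num)
    (lo0 (by norm_num) (by norm_num) (by norm_num) (by norm_num))
    (lo1 (by norm_num) (by norm_num) (by norm_num)) (by linarith) (by linarith)
  linarith

theorem m6 (V : ℝ) (h0 : 5 * cc ≤ V) (h1 : V ≤ 0.5132003) :
    V + cc * (12 * Real.arctan (0.38766 / V) - 3 * Real.pi) ≤ 5 * cc := by
  have c1 := Num.cc_lb
  have c2 := Num.cc_ub
  have h := conv (V := V) (V0 := 0.47702) (V1 := 0.5132003) (C := 0.38766) (k := 12)
    (R := 5 * cc) (r0 := 0.09) (r1 := 0.1) (α := 1) (β := 0) (by norm_num) (by norm_num)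
    (by linarith) h1 (by linarith) (by norm_num) (by norm_num)
    (lo1 (by norm_num) (by norm_num) (by norm_num))
    (lo1 (by norm_num) (by norm_num) (by norm_num)) (by linarith) (by linarith)
  linarith

end BccP.N2
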