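import Pool.Agent.PEN.Defs

/-!
[PEN-Num] numerical values of the constants.
`cc = 16 √5/375 = 0.09540556704`, `ss = 21/50 · 8 √15/375 = 0.03470193078`, `tt = 29/50 cc = 0.05533522888`,
`tau = 0.09003715967`, `hh = tt π/2 + ss π/3 = 0.12326015`, `8√3/27 = 0.51320024`.
-/

set_option autoImplicit false

namespace BccP.Num

open BccCov BccO

theorem cc_lb : 0.0954055 ≤ cc := by
  have h : (2.23606 : ℝ) ≤ √5 := Real.le_sqrt_of_sq_le (by norm_num)
  have h' : (2.236067 : ℝ) ≤ √5 := Real.le_sqrt_of_sq_le (by norm_num)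
  unfold cc; linarith
theorem cc_ub : cc ≤ 0.0954056 := by
  have h' : √5 ≤ (2.2360680 : ℝ) := Real.sqrt_le_iff.2 ⟨by norm_num, by norm_num⟩
  unfold cc; linarith
theorem ss_lb : 0.0347019 ≤ ss := by
  have h' : (3.872982 : ℝ) ≤ √15 := Real.le_sqrt_of_sq_le (by norm_num)
  unfold ss; linarith
theorem ss_ub : ss ≤ 0.0347020 := by
  have h' : √15 ≤ (3.872984 : ℝ) := Real.sqrt_le_iff.2 ⟨by norm_num, by norm_num⟩
  unfold ss; linarith
theorem tt_lb : 0.0553351 ≤ tt := by have := cc_lb; unfold tt; linarith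
theorem tt_ub : tt ≤ 0.0553353 := by have := cc_ub; unfold tt; linarith
theorem tau_lb : 0.0900370 ≤ tau := by have := tt_lb; have := ss_lb; unfold tau; linarith
theorem tau_ub : tau ≤ 0.0900373 := by have := tt_ub; have := ss_ub; unfold tau; linarith
theorem hh_lb : 0.1232598 ≤ hh := by
  have h1 := tt_lb; have h2 := ss_lb; have h3 := Real.pi_gt_d6
  have h4 : 0.0553351 * (3.141592 / 2) ≤ tt * (Real.pi / 2) :=
    mul_le_mul h1 (by linarith) (by norm_num) (by linarith)
  have h5 : 0.0347019 * (3.141592 / 3) ≤ ss * (Real.pi / 3) :=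
    mul_le_mul h2 (by linarith) (by norm_num) (by linarith)
  unfold hh; norm_num at h4 h5 ⊢; linarith
theorem hh_ub : hh ≤ 0.1232605 := by
  have h1 := tt_ub; have h2 := ss_ub; have h3 := Real.pi_lt_d6
  have h4 : tt * (Real.pi / 2) ≤ 0.0553353 * (3.141593 / 2) :=
    mul_le_mul h1 (by linarith) (by linarith [Real.pi_pos]) (by norm_num)
  have h5 : ss * (Real.pi / 3) ≤ 0.0347020 * (3.141593 / 3) :=
    mul_le_mul h2 (by linarith) (by linarith [Real.pi_pos]) (by norm_num)
  unfold hh; norm_num at h4 h5 ⊢; linarith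
theorem vm_ub : 8 * √3 / 27 ≤ 0.5132003 := by
  have h' : √3 ≤ (1.7320509 : ℝ) := Real.sqrt_le_iff.2 ⟨by norm_num, by norm_num⟩
  linarith
theorem cc_pos : 0 < cc := by linarith [cc_lb]
theorem ss_pos : 0 < ss := by linarith [ss_lb]
theorem tt_pos : 0 < tt := by linarith [tt_lb]
theorem tau_pos : 0 < tau := by linarith [tau_lb]

end BccP.Num
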