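import Pool.Agent.PEN.Defs

/-!
[PEN-Q1] the four dihedral angles at a 4-cycle of edges (= two pairs of opposite edges) have sum
`≤ 2π`.

PROOF. `p = y-x, q = z-x, r = w-x`. Face vectors (cross products, all inward or all outward)
`Aw = p×q, Az = r×p, Ay = q×r, Ax = -(p×q + q×r + r×p)`, sum zero, pairwise linearly independent (det3 ≠ 0).
The dihedral angle at an edge is `π - angle` of the two face vectors of the faces containing it:
`dih x y z w = π - ∠(Aw, Az)`, `dih z w x y = π - ∠(Ax, Ay)`, `dih x z y w = π - ∠(Aw, Ay)`,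
`dih y w x z = π - ∠(Az, Ax)`. (The edge `xy` lies in the faces `xyz` (opposite w) and `xyw`
(opposite z).) For the first: `⟪p×q, p×r⟫ = |p|² ⟪perp p q, perp p r⟫` and
`‖p×q‖ = |p| ‖perp p q‖`, so `angle (p×q) (p×r) = angle (perp p q) (perp p r)`. For edges not at `x`
translate: e.g. `dih z w x y`: `perp (w-z) (x-z)`, `(w-z)×(x-z) = -(q×r)...` compute signs in
coordinates (all are polynomial identities; `E3` coordinates `v 0, v 1, v 2`; it may be easiest to
define `cr (u v : E3) : E3` by `!₂[..]` and prove one lemma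
`dih_cross : dih x y z w = angle (cr (y-x) (z-x)) (cr (y-x) (w-x))` for `y ≠ x`).
Then put `m = Aw + Az = -(Ax + Ay) ≠ 0`. By `InnerProductGeometry.angle_add_angle_sub_add_angle_sub_eq_pi`
(`x := a, y := -b`): `∠(a, a+b) + ∠(a+b, b) = ∠(a,b)`. Triangle inequality for angles
(`InnerProductGeometry.angle_le_angle_add_angle`):
`π = ∠(m,-m) ≤ ∠(m,Aw) + ∠(Aw,Ay) + ∠(Ay,-m)` and `π ≤ ∠(m,Az) + ∠(Az,Ax) + ∠(Ax,-m)`;
`∠(m,Aw) + ∠(m,Az) = ∠(Aw,Az)`, `∠(Ay,-m) + ∠(Ax,-m) = ∠(Ax,Ay)`. Sum:
`2π ≤ ∠(Aw,Az) + ∠(Ax,Ay) + ∠(Aw,Ay) + ∠(Az,Ax) = 4π - (sum of the four dihedral angles)`.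
-/

set_option autoImplicit false

open scoped InnerProductSpace

namespace BccP.Q1

open BccCov BccO InnerProductGeometry

/-- cross product -/
noncomputable def cr (u v : E3) : E3 :=
  !₂[u 1 * v 2 - u 2 * v 1, u 2 * v 0 - u 0 * v 2, u 0 * v 1 - u 1 * v 0]

theorem inner3 (u v : E3) : ⟪u, v⟫_ℝ = u 0 * v 0 + u 1 * v 1 + u 2 * v 2 := by
  simp [PiLp.inner_apply, Fin.sum_univ_three]
  ring

theorem cr0 (u v : E3) : cr u v 0 = u 1 * v 2 - u 2 * v 1 := by simp [cr]
theorem cr1 (u v : E3) : cr u v 1 = u 2 * v 0 - u 0 * v 2 := by simp [cr]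
theorem cr2 (u v : E3) : cr u v 2 = u 0 * v 1 - u 1 * v 0 := by simp [cr]

theorem ext3 (u v : E3) (h0 : u 0 = v 0) (h1 : u 1 = v 1) (h2 : u 2 = v 2) : u = v := by
  ext i
  fin_cases i
  · exact h0
  · exact h1
  · exact h2

theorem cr_inner (u a b : E3) (hu : u ≠ 0) :
    ⟪cr u a, cr u b⟫_ℝ = ⟪u, u⟫_ℝ * ⟪perp u a, perp u b⟫_ℝ := by
  have h : ⟪u, u⟫_ℝ ≠ 0 := inner_self_ne_zero.2 hu
  rw [inner_perp_perp hu, mul_sub, mul_div_cancel₀ _ h]
  simp only [inner3, cr0, cr1, cr2]
  ring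

theorem dih_cross (u a b : E3) (hu : u ≠ 0) :
    angle (perp u a) (perp u b) = angle (cr u a) (cr u b) := by
  have hn : ∀ c : E3, ‖cr u c‖ = ‖u‖ * ‖perp u c‖ := by
    intro c
    have h1 := cr_inner u c c hu
    rw [real_inner_self_eq_norm_sq, real_inner_self_eq_norm_sq, real_inner_self_eq_norm_sq] at h1
    have h2 : ‖cr u c‖ ^ 2 = (‖u‖ * ‖perp u c‖) ^ 2 := by rw [h1]; ring
    exact (sq_eq_sq₀ (norm_nonneg _) (by positivity)).mp h2
  have hun : ‖u‖ ≠ 0 := norm_ne_zero_iff.2 hu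
  unfold angle
  rw [hn, hn, cr_inner u a b hu, real_inner_self_eq_norm_sq]
  have : ‖u‖ * ‖perp u a‖ * (‖u‖ * ‖perp u b‖) = ‖u‖ ^ 2 * (‖perp u a‖ * ‖perp u b‖) := by ring
  rw [this, mul_div_mul_left _ _ (pow_ne_zero 2 hun)]

theorem split (a b : E3) (hb : b ≠ 0) : angle a (a + b) + angle b (a + b) = angle a b := by
  have h := angle_add_angle_sub_add_angle_sub_eq_pi a (y := -b) (neg_ne_zero.2 hb)
  have e1 : a - -b = a + b := by abel
  have e2 : -b - a = -(a + b) := by abel
  rw [e1, e2, angle_neg_neg, angle_neg_right] at h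
  linarith

theorem four (a b c d : E3) (hsum : a + b + (c + d) = 0) (hm : a + b ≠ 0) (hb : b ≠ 0)
    (hd : d ≠ 0) : 2 * Real.pi ≤ angle a b + angle c d + (angle a c + angle b d) := by
  have hcd : c + d = -(a + b) := by
    rw [eq_neg_iff_add_eq_zero, add_comm]; exact hsum
  have h1 := split a b hb
  have h2 := split c d hd
  rw [hcd] at h2
  have hpi : angle (a + b) (-(a + b)) = Real.pi := by
    rw [angle_neg_right, angle_self hm, sub_zero]
  have t1 := angle_le_angle_add_angle (a + b) a (-(a + b))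
  have t2 := angle_le_angle_add_angle a c (-(a + b))
  have t3 := angle_le_angle_add_angle (a + b) b (-(a + b))
  have t4 := angle_le_angle_add_angle b d (-(a + b))
  rw [hpi] at t1 t3
  rw [angle_comm (a + b) a] at t1
  rw [angle_comm (a + b) b] at t3
  linarith

theorem cyc (x y z w : E3) (h : det3 x y z w ≠ 0) :
    dih x y z w + dih z w x y + (dih x z y w + dih y w x z) ≤ 2 * Real.pi := by
  set p : E3 := y - x with hp
  set q : E3 := z - x with hq
  set r : E3 := w - x with hr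
  have p0 : p 0 = y 0 - x 0 := by rw [hp]; simp
  have p1 : p 1 = y 1 - x 1 := by rw [hp]; simp
  have p2 : p 2 = y 2 - x 2 := by rw [hp]; simp
  have q0 : q 0 = z 0 - x 0 := by rw [hq]; simp
  have q1 : q 1 = z 1 - x 1 := by rw [hq]; simp
  have q2 : q 2 = z 2 - x 2 := by rw [hq]; simp
  have r0 : r 0 = w 0 - x 0 := by rw [hr]; simp
  have r1 : r 1 = w 1 - x 1 := by rw [hr]; simp
  have r2 : r 2 = w 2 - x 2 := by rw [hr]; simp
  have hdet : det3 x y z w = ⟪cr p q, r⟫_ℝ := by
    unfold det3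
    rw [inner3, cr0, cr1, cr2, p0, p1, p2, q0, q1, q2, r0, r1, r2]; ring
  have hdet2 : det3 x y z w = ⟪cr r p, q⟫_ℝ := by
    unfold det3
    rw [inner3, cr0, cr1, cr2, p0, p1, p2, q0, q1, q2, r0, r1, r2]; ring
  have hdet3 : det3 x y z w = ⟪cr q r, p⟫_ℝ := by
    unfold det3
    rw [inner3, cr0, cr1, cr2, p0, p1, p2, q0, q1, q2, r0, r1, r2]; ring
  set a : E3 := cr p q with ha
  set b : E3 := cr r p with hb
  set c : E3 := cr q r with hc
  set d : E3 := -(a + b + c) with hd
  -- nonvanishing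
  have ha0 : a ≠ 0 := by
    intro h0; apply h; rw [hdet, h0, inner_zero_left]
  have hb0 : b ≠ 0 := by
    intro h0; apply h; rw [hdet2, h0, inner_zero_left]
  have hc0 : c ≠ 0 := by
    intro h0; apply h; rw [hdet3, h0, inner_zero_left]
  have hd0 : d ≠ 0 := by
    intro h0
    apply h
    have h1 : ⟪d, p⟫_ℝ = - det3 x y z w := by
      rw [hd, hdet3]
      simp only [inner3, PiLp.neg_apply, PiLp.add_apply, ha, hb, hc, cr0, cr1, cr2]
      ring
    rw [h0, inner_zero_left] at h1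
    linarith
  have hm0 : a + b ≠ 0 := by
    intro h0
    apply h
    have h1 : ⟪a + b, q⟫_ℝ = det3 x y z w := by
      rw [hdet2]
      simp only [inner3, PiLp.add_apply, ha, hb, cr0, cr1, cr2]
      ring
    rw [h0, inner_zero_left] at h1
    exact h1.symm
  have crz : ∀ v : E3, cr 0 v = 0 := by
    intro v
    apply ext3
    · rw [cr0]; simp
    · rw [cr1]; simp
    · rw [cr2]; simp
  have hp0 : p ≠ 0 := by
    intro h0; apply ha0; rw [ha, h0, crz]
  have hq0 : q ≠ 0 := by
    intro h0; apply hc0; rw [hc, h0, crz]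
  -- the edge vectors not at x
  have e1 : w - z = r - q := by rw [hr, hq]; abel
  have e2 : x - z = - q := by rw [hq]; abel
  have e3 : y - z = p - q := by rw [hp, hq]; abel
  have e4 : w - y = r - p := by rw [hr, hp]; abel
  have e5 : x - y = - p := by rw [hp]; abel
  have e6 : z - y = q - p := by rw [hp, hq]; abel
  have f1 : cr (r - q) (-q) = c := by
    apply ext3
    · simp only [hc, cr0, PiLp.sub_apply, PiLp.neg_apply]; ring
    · simp only [hc, cr1, PiLp.sub_apply, PiLp.neg_apply]; ring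
    · simp only [hc, cr2, PiLp.sub_apply, PiLp.neg_apply]; ring
  have f2 : cr (r - q) (p - q) = -d := by
    apply ext3
    · simp only [hd, ha, hb, hc, cr0, PiLp.sub_apply, PiLp.neg_apply, PiLp.add_apply]; ring
    · simp only [hd, ha, hb, hc, cr1, PiLp.sub_apply, PiLp.neg_apply, PiLp.add_apply]; ring
    · simp only [hd, ha, hb, hc, cr2, PiLp.sub_apply, PiLp.neg_apply, PiLp.add_apply]; ring
  have f3 : cr (r - p) (-p) = -b := by
    apply ext3
    · simp only [hb, cr0, PiLp.sub_apply, PiLp.neg_apply]; ring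
    · simp only [hb, cr1, PiLp.sub_apply, PiLp.neg_apply]; ring
    · simp only [hb, cr2, PiLp.sub_apply, PiLp.neg_apply]; ring
  have f4 : cr (r - p) (q - p) = d := by
    apply ext3
    · simp only [hd, ha, hb, hc, cr0, PiLp.sub_apply, PiLp.neg_apply, PiLp.add_apply]; ring
    · simp only [hd, ha, hb, hc, cr1, PiLp.sub_apply, PiLp.neg_apply, PiLp.add_apply]; ring
    · simp only [hd, ha, hb, hc, cr2, PiLp.sub_apply, PiLp.neg_apply, PiLp.add_apply]; ring
  have f5 : cr p r = -b := by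
    apply ext3
    · simp only [hb, cr0, PiLp.neg_apply]; ring
    · simp only [hb, cr1, PiLp.neg_apply]; ring
    · simp only [hb, cr2, PiLp.neg_apply]; ring
  have f6 : cr q p = -a := by
    apply ext3
    · simp only [ha, cr0, PiLp.neg_apply]; ring
    · simp only [ha, cr1, PiLp.neg_apply]; ring
    · simp only [ha, cr2, PiLp.neg_apply]; ring
  have hrq0 : r - q ≠ 0 := by
    intro h0; apply hc0; rw [← f1, h0, crz]
  have hrp0 : r - p ≠ 0 := by
    intro h0; apply hd0; rw [← f4, h0, crz]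
  have g1 : dih x y z w = Real.pi - angle a b := by
    show angle (perp (y - x) (z - x)) (perp (y - x) (w - x)) = _
    rw [← hp, ← hq, ← hr, dih_cross p q r hp0, f5, ← ha, angle_neg_right]
  have g2 : dih z w x y = Real.pi - angle c d := by
    show angle (perp (w - z) (x - z)) (perp (w - z) (y - z)) = _
    rw [e1, e2, e3, dih_cross _ _ _ hrq0, f1, f2, angle_neg_right]
  have g3 : dih x z y w = Real.pi - angle a c := by
    show angle (perp (z - x) (y - x)) (perp (z - x) (w - x)) = _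
    rw [← hp, ← hq, ← hr, dih_cross q p r hq0, f6, ← hc, angle_neg_left]
  have g4 : dih y w x z = Real.pi - angle b d := by
    show angle (perp (w - y) (x - y)) (perp (w - y) (z - y)) = _
    rw [e4, e5, e6, dih_cross _ _ _ hrp0, f3, f4, angle_neg_left]
  have key := four a b c d (by rw [hd]; abel) hm0 hb0 hd0
  rw [g1, g2, g3, g4]
  linarith

end BccP.Q1
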