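import Pool.Agent.PEN.Num

/-!
[PEN-S1] Coxeter-Few-Rogers inequality for the unit sphere.

PROOF. `BccO.SS_eq : SS = cG * |det3| * FF(sd ..)`. `BccO.all_lb` or `pair_lb` (O/D2.lean) with
`s = (sum of the six sd)/6`: `QQ s ≤ QQ s * (1 + min ..) ≤ FF`, `QQ s = Sr * √2 / (cG * √(s^3))`; and
`sum_sd_le` (O/H1.lean, `R = 1`, `ρ = 1`): `s ≤ 8/3`, so `√(s^3) ≤ √((8/3)^3)`. Hence
`SS ≥ |det3| * Sr * √2 / √((8/3)^3) = (|det3|/6) * Sr * 6√2/√(512/27)`; `Sr ≥ 2.20514` (`Sr_lb'`, in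
O/D1.lean or wherever; `Sr_lb : 2.20513 ≤ Sr` in O/T1.lean is also enough: `2.20513·1.948557 = 4.29682`).
`PosF_of_det` (O/G2.lean) gives the positivity hypothesis `PosF`.
-/

set_option autoImplicit false

namespace BccP.S1

open BccCov BccO

theorem SS_ge (x y z w o : E3) (h : det3 x y z w ≠ 0) (hx : dist x o = 1) (hy : dist y o = 1)
    (hz : dist z o = 1) (hw : dist w o = 1) :
    4.2968 * (|det3 x y z w| / 6) ≤ SS x y z w := by
  have hp : 0 < |det3 x y z w| := abs_pos.2 h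
  obtain ⟨hxy, -, -, -, -, -⟩ := ne_of_det h
  have d0 : ∀ u v : E3, 0 ≤ sd u v := fun u v => sq_nonneg _
  have d1 : 0 < sd x y := by
    unfold sd
    have := dist_pos.2 hxy
    positivity
  have hsum := sum_sd_le (R := 1) hx hy hz hw le_rfl
  set s : ℝ := (sd x y + sd x z + sd x w + sd y z + sd y w + sd z w) / 6 with hs
  have hs0 : 0 < s := by
    have := d0 x z; have := d0 x w; have := d0 y z; have := d0 y w; have := d0 z w
    rw [hs]; linarith
  have hs1 : s ≤ 8 / 3 := by rw [hs]; linarith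
  have hlb := pair_lb (PosF_of_det h) hs (m := (sd x y + sd z w) / 2 / s - 1)
    (by field_simp; ring) hs0
  have hcG : 0 < cG := by unfold cG; positivity
  have hSr : 2.20513 ≤ Sr := Sr_lb
  have hQ0 : 0 ≤ QQ s := by unfold QQ; positivity
  have hFF : QQ s ≤ FF (sd x y) (sd x z) (sd x w) (sd y z) (sd y w) (sd z w) := by
    refine le_trans ?_ hlb
    have hmin : 0 ≤ min (1 / 20 : ℝ) (((sd x y + sd z w) / 2 / s - 1) ^ 2 / 2) :=
      le_min (by norm_num) (by positivity)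
    nlinarith
  rw [SS_eq h]
  have hc1 : √(s ^ 3) ≤ 4.354649 := by
    refine Real.sqrt_le_iff.2 ⟨by norm_num, ?_⟩
    calc s ^ 3 ≤ (8 / 3) ^ 3 := pow_le_pow_left₀ hs0.le hs1 3
      _ ≤ 4.354649 ^ 2 := by norm_num
  have hc0 : 0 < √(s ^ 3) := Real.sqrt_pos.2 (by positivity)
  have h2 : (1.4142135 : ℝ) ≤ √2 := Real.le_sqrt_of_sq_le (by norm_num)
  have hQ : 4.2968 / 6 ≤ cG * QQ s := by
    have e : cG * QQ s = Sr * √2 / √(s ^ 3) := by
      unfold QQ; field_simp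
    rw [e, le_div_iff₀ hc0]
    have h3 : (2.20513 : ℝ) * 1.4142135 ≤ Sr * √2 :=
      mul_le_mul hSr h2 (by norm_num) (by linarith)
    nlinarith
  calc 4.2968 * (|det3 x y z w| / 6) = |det3 x y z w| * (4.2968 / 6) := by ring
    _ ≤ |det3 x y z w| * (cG * QQ s) := mul_le_mul_of_nonneg_left hQ hp.le
    _ = cG * |det3 x y z w| * QQ s := by ring
    _ ≤ cG * |det3 x y z w| * FF (sd x y) (sd x z) (sd x w) (sd y z) (sd y w) (sd z w) :=
      mul_le_mul_of_nonneg_left hFF (by positivity)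

end BccP.S1
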