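import Pool.Agent.PEN.Num

/-!
[PEN-S2] the refined inequality: comparison with the disphenoid `D(y)`.

PROOF. Put `X = (sd x y + sd z w)/2 = 4y`, `Y = (sum of the four others)/4`; `2X + 4Y ≤ 16` by
`sum_sd_le` (`R = 1`), so `Y ≤ Y' := 4 - 2y`. `SS = cG |det3| FF(sd..)` (`SS_eq`) and
`FF X Y Y Y Y X ≤ FF(sd ..)`, `PosF X Y Y Y Y X` (`avg_D4`, O/F2.lean). Claim: `FF X Y' Y' Y' Y' X ≤ FF X Y Y Y Y X`.
Proof of the claim: `l := 8/(X+2Y) ≥ 1`, `X₁ = l X`, `Y₁ = l Y`, so `X₁ + 2Y₁ = 8`, `X₁ ≥ X ≥ 8/3`. The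
point `(X, Y')` is the convex combination `(1-ν)(8/3, 8/3) + ν (X₁, Y₁)` with
`ν = (X - 8/3)/(X₁ - 8/3) ∈ [0,1]` (if `X₁ = 8/3` then `X = 8/3`, trivial); convexity `FF_avg` (O/F1.lean)
gives `FF(X,Y') ≤ (1-ν) FF(8/3,..) + ν FF(X₁,Y₁)`; `FF(8/3,...) ≤ FF(X₁,Y₁)` by `reg_val` and `pair_lb`
(`QQ s ≤ FF` with `s = 8/3`, the mean of the six entries of `(X₁,Y₁)` being `(2X₁+4Y₁)/6 = 8/3`);
`FF(X₁,Y₁) = l^(-3/2) FF(X,Y) ≤ FF(X,Y)`: homogeneity; instead of proving homogeneity of the integral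
use `dis_FF` (O/D1.lean), which gives both values: `cG (X √(Y - X/2)) FF X Y Y Y Y X = 4 arccos(..) + 8
arccos(..) - 4π` where the right side is invariant under scaling and `X√(Y-X/2)` is multiplied by
`l^{3/2} ≥ 1` (`0 < X < 2Y` from `dis_pos`, O/D2.lean).
Finally `dis_FF` at `(X, Y')` (`4Y' - 3X = 16 - 20y`, `4Y' - X = 16 - 12y`, `X < 2Y'` as `y < 1`;
`X √(Y' - X/2) = 4y √(4-4y) = 8 y √(1-y) = 6 VD y`): `cG (6 VD y) FF X Y' .. = SD y`. Hence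
`SS * VD y = cG |det3| FF(..) VD y ≥ |det3| (cG VD y FF(X,Y')) = |det3| SD y / 6`.
-/

set_option autoImplicit false

namespace BccP.S2

open BccCov BccO

private lemma s2_sqrt_scale {l u : ℝ} (hl : 1 ≤ l) (hu : 0 < u) :
    √u ≤ l * √(l * u) := by
  have h1 : √u ≤ √(l * u) := Real.sqrt_le_sqrt (by nlinarith)
  have h2 : 0 ≤ √(l * u) := Real.sqrt_nonneg _
  nlinarith

private lemma s2_scale {X Y l : ℝ} (hX : 0 < X) (hY : X < 2 * Y) (hl : 1 ≤ l)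
    (hF : 0 ≤ FF X Y Y Y Y X) :
    FF (l * X) (l * Y) (l * Y) (l * Y) (l * Y) (l * X) ≤ FF X Y Y Y Y X := by
  have hl0 : 0 < l := by linarith
  have h1 := dis_FF hX hY
  have h2 := dis_FF (X := l * X) (Y := l * Y) (by positivity) (by nlinarith)
  have e1 : 4 * (l * Y) - 3 * (l * X) = l * (4 * Y - 3 * X) := by ring
  have e2 : 4 * (l * Y) - l * X = l * (4 * Y - X) := by ring
  have e3 : l * Y - l * X / 2 = l * (Y - X / 2) := by ring
  rw [e1, e2, e3, mul_div_mul_left _ _ hl0.ne', mul_div_mul_left _ _ hl0.ne', ← h1] at h2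
  have hc := cG_pos
  have hu : 0 < Y - X / 2 := by linarith
  have hsu : 0 < √(Y - X / 2) := Real.sqrt_pos.2 hu
  have h3 := s2_sqrt_scale hl hu
  have h4 : 0 < √(l * (Y - X / 2)) := Real.sqrt_pos.2 (by positivity)
  have h5 : cG * (X * √(Y - X / 2)) * FF X Y Y Y Y X ≤
      cG * (l * X * √(l * (Y - X / 2))) * FF X Y Y Y Y X := by
    have h6 : X * √(Y - X / 2) ≤ l * X * √(l * (Y - X / 2)) := by
      calc X * √(Y - X / 2) ≤ X * (l * √(l * (Y - X / 2))) := by gcongr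
        _ = l * X * √(l * (Y - X / 2)) := by ring
    gcongr
  rw [← h2] at h5
  exact le_of_mul_le_mul_left h5 (by positivity)

private lemma s2_reg_le {X Y : ℝ} (hX : 0 < X) (hY : X < 2 * Y) (hs : X + 2 * Y = 8) :
    FF (8 / 3) (8 / 3) (8 / 3) (8 / 3) (8 / 3) (8 / 3) ≤ FF X Y Y Y Y X := by
  have h0 : (0 : ℝ) < 8 / 3 := by norm_num
  have hP : PosF X Y Y Y Y X := PosF_reg h0 hX hY rfl
  have h1 := pair_lb hP (s := 8 / 3) (m := X / (8 / 3) - 1) (by linarith) (by ring) h0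
  rw [reg_val h0]
  refine le_trans ?_ h1
  have hQ := QQ_pos h0
  have h2 : (0 : ℝ) ≤ min (1 / 20) ((X / (8 / 3) - 1) ^ 2 / 2) := le_min (by norm_num) (by positivity)
  nlinarith

private lemma s2_claim {X Y : ℝ} (hX : 0 < X) (hY : X < 2 * Y) (h83 : 8 / 3 ≤ X)
    (hs : X + 2 * Y ≤ 8) (hF : 0 ≤ FF X Y Y Y Y X) :
    FF X (4 - X / 2) (4 - X / 2) (4 - X / 2) (4 - X / 2) X ≤ FF X Y Y Y Y X := by
  have h0 : (0 : ℝ) < 8 / 3 := by norm_num
  have hXY : 0 < X + 2 * Y := by linarith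
  set l : ℝ := 8 / (X + 2 * Y) with hl
  have hl1 : 1 ≤ l := by
    rw [hl, le_div_iff₀ hXY]; linarith
  have hlXY : l * (X + 2 * Y) = 8 := by rw [hl]; field_simp
  have hX1 : 0 < l * X := by positivity
  have hXX : X ≤ l * X := by nlinarith
  have hY1 : l * X < 2 * (l * Y) := by nlinarith
  have hsum : l * X + 2 * (l * Y) = 8 := by linarith
  have hsc := s2_scale hX hY hl1 hF
  have hreg := s2_reg_le hX1 hY1 hsum
  refine le_trans ?_ hsc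
  rcases eq_or_lt_of_le (h83.trans hXX) with heq | hlt
  · have hXe : X = 8 / 3 := by linarith
    have e : 4 - X / 2 = 8 / 3 := by rw [hXe]; norm_num
    rw [e]
    rw [hXe] at hreg ⊢
    exact hreg
  · have hd : 0 < l * X - 8 / 3 := by linarith
    set ν : ℝ := (X - 8 / 3) / (l * X - 8 / 3) with hν
    have hν0 : 0 ≤ ν := by
      apply div_nonneg <;> linarith
    have hν1 : ν ≤ 1 := by
      rw [hν, div_le_one hd]; linarith
    have hνe : ν * (l * X - 8 / 3) = X - 8 / 3 := by rw [hν, div_mul_cancel₀ _ hd.ne']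
    have hP0 : PosF (8 / 3) (8 / 3) (8 / 3) (8 / 3) (8 / 3) (8 / 3) :=
      PosF_reg h0 h0 (by norm_num) rfl
    have hP1 : PosF (l * X) (l * Y) (l * Y) (l * Y) (l * Y) (l * X) :=
      PosF_reg h0 hX1 hY1 rfl
    have hav := FF_avg hP0 hP1 (w := 1 - ν) (w' := ν) (by linarith) hν0 (by ring)
    have e1 : (1 - ν) * (8 / 3) + ν * (l * X) = X := by linarith
    have e2 : (1 - ν) * (8 / 3) + ν * (l * Y) = 4 - X / 2 := by
      have : l * Y = (8 - l * X) / 2 := by linarith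
      rw [this]
      linarith
    rw [e1, e2] at hav
    refine hav.trans ?_
    nlinarith

theorem SS_ge2 (x y z w o : E3) (h : det3 x y z w ≠ 0) (hx : dist x o = 1) (hy : dist y o = 1)
    (hz : dist z o = 1) (hw : dist w o = 1) (Y : ℝ) (hY : Y = (sd x y + sd z w) / 8)
    (h0 : 2 / 3 ≤ Y) (h1 : Y < 1) :
    |det3 x y z w| / 6 * SD Y ≤ SS x y z w * VD Y := by
  obtain ⟨a, ha⟩ : ∃ a, a = sd x y := ⟨_, rfl⟩
  obtain ⟨b, hb⟩ : ∃ a, a = sd x z := ⟨_, rfl⟩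
  obtain ⟨c, hc⟩ : ∃ a, a = sd x w := ⟨_, rfl⟩
  obtain ⟨d, hd⟩ : ∃ a, a = sd y z := ⟨_, rfl⟩
  obtain ⟨e, he⟩ : ∃ a, a = sd y w := ⟨_, rfl⟩
  obtain ⟨f, hf⟩ : ∃ a, a = sd z w := ⟨_, rfl⟩
  have hP := PosF_of_det h
  have hS := SS_eq h
  have hsum := sum_sd_le hx hy hz hw (le_refl (1 : ℝ))
  rw [← ha, ← hb, ← hc, ← hd, ← he, ← hf] at hP hS hsum
  rw [← ha, ← hf] at hY
  obtain ⟨P, A⟩ := avg_D4 hP
  obtain ⟨Z, hZ⟩ : ∃ Z, Z = (b + c + d + e) / 4 := ⟨_, rfl⟩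
  have hX : (a + f) / 2 = 4 * Y := by rw [hY]; ring
  rw [← hZ, hX] at P A
  obtain ⟨hX0, hXZ⟩ := dis_pos P
  have hs : 4 * Y + 2 * Z ≤ 8 := by
    rw [hZ]; linarith
  have hF0 : 0 ≤ FF (4 * Y) Z Z Z Z (4 * Y) := by
    have hs0 : 0 < (2 * (4 * Y) + 4 * Z) / 6 := by linarith
    have h1 := pair_lb P (s := (2 * (4 * Y) + 4 * Z) / 6)
      (m := 4 * Y / ((2 * (4 * Y) + 4 * Z) / 6) - 1) (by ring)
      (by rw [add_sub_cancel, mul_div_cancel₀ _ hs0.ne']; ring) hs0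
    have hQ := QQ_pos hs0
    have h2 : (0 : ℝ) ≤ min (1 / 20) ((4 * Y / ((2 * (4 * Y) + 4 * Z) / 6) - 1) ^ 2 / 2) :=
      le_min (by norm_num) (by positivity)
    refine le_trans ?_ h1
    positivity
  have hcl := s2_claim hX0 hXZ (by linarith) hs hF0
  have hfin := hcl.trans A
  have e0 : 4 - 4 * Y / 2 = 4 - 2 * Y := by ring
  rw [e0] at hfin
  have hD := dis_FF (X := 4 * Y) (Y := 4 - 2 * Y) hX0 (by linarith)
  have e1 : 4 * (4 - 2 * Y) - 3 * (4 * Y) = 4 * (4 - 5 * Y) := by ring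
  have e2 : 4 * (4 - 2 * Y) - 4 * Y = 4 * (4 - 3 * Y) := by ring
  have e3 : 4 - 2 * Y - 4 * Y / 2 = 2 ^ 2 * (1 - Y) := by ring
  have e4 : √(2 ^ 2 * (1 - Y)) = 2 * √(1 - Y) := by
    rw [Real.sqrt_mul (by norm_num), Real.sqrt_sq (by norm_num)]
  rw [e1, e2, e3, e4, mul_div_mul_left _ _ (by norm_num : (4 : ℝ) ≠ 0),
    mul_div_mul_left _ _ (by norm_num : (4 : ℝ) ≠ 0)] at hD
  have hVD : 0 ≤ VD Y := by
    unfold VD
    have := Real.sqrt_nonneg (1 - Y)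
    have : 0 < Y := by linarith
    positivity
  have hSD : SD Y = 6 * (cG * VD Y *
      FF (4 * Y) (4 - 2 * Y) (4 - 2 * Y) (4 - 2 * Y) (4 - 2 * Y) (4 * Y)) := by
    rw [SD, ← hD, VD]
    ring
  have hcG := cG_pos
  rw [hS, hSD]
  have hdet : 0 ≤ |det3 x y z w| := abs_nonneg _
  calc |det3 x y z w| / 6 * (6 * (cG * VD Y *
      FF (4 * Y) (4 - 2 * Y) (4 - 2 * Y) (4 - 2 * Y) (4 - 2 * Y) (4 * Y)))
      = (|det3 x y z w| * (cG * VD Y)) *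
        FF (4 * Y) (4 - 2 * Y) (4 - 2 * Y) (4 - 2 * Y) (4 - 2 * Y) (4 * Y) := by ring
    _ ≤ (|det3 x y z w| * (cG * VD Y)) * FF a b c d e f := by gcongr
    _ = cG * |det3 x y z w| * FF a b c d e f * VD Y := by ring

end BccP.S2
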