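import Pool.Agent.PEN.A5
import Pool.Agent.PEN.K1
import Pool.Agent.PEN.K3
import Pool.Agent.PEN.S1
import Pool.Agent.PEN.S2
import Pool.Agent.PEN.Q1

/-!
[PEN-T1] all facts for a tetrahedron inscribed in the unit sphere (assembly).
-/

set_option autoImplicit false

namespace BccP.T1

open BccCov BccO

theorem t1_opp (x y z w o : E3) (h : det3 x y z w ≠ 0) (hx : dist x o = 1) (hy : dist y o = 1)
    (hz : dist z o = 1) (hw : dist w o = 1) :
    |det3 x y z w| / 6 ≤ cc * (5 + Real.pi - (dih x y z w + dih z w x y)) := by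
  have h1 := BccCov.G6.local_ineq x y z w o 1 1 le_rfl hx hy hz hw h
  have h2 : cc * (1 : ℝ) ^ 3 * (5 + Real.pi - dih x y z w - dih z w x y) =
      cc * (5 + Real.pi - (dih x y z w + dih z w x y)) := by ring
  rw [← h2]
  exact h1

theorem facts (x y z w o : E3) (h : det3 x y z w ≠ 0) (hx : dist x o = 1) (hy : dist y o = 1)
    (hz : dist z o = 1) (hw : dist w o = 1) :
    Facts (|det3 x y z w| / 6) ![dih x y z w, dih x z y w, dih x w y z]
      ![dih z w x y, dih y w x z, dih y z x w] := by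
  obtain ⟨hxy, hxz, hxw, hyz, hyw, hzw⟩ := ne_of_det h
  obtain ⟨V, hV⟩ : ∃ V, V = |det3 x y z w| / 6 := ⟨_, rfl⟩
  obtain ⟨A, hA⟩ : ∃ A : Fin 3 → ℝ, A = ![dih x y z w, dih x z y w, dih x w y z] := ⟨_, rfl⟩
  obtain ⟨B, hB⟩ : ∃ B : Fin 3 → ℝ, B = ![dih z w x y, dih y w x z, dih y z x w] := ⟨_, rfl⟩
  obtain ⟨Y, hY⟩ : ∃ Y : Fin 3 → ℝ, Y = ![(sd x y + sd z w) / 8, (sd x z + sd y w) / 8,
    (sd x w + sd y z) / 8] := ⟨_, rfl⟩
  obtain ⟨r1, r2, r3, r4, r5, r6⟩ := A5.arcs x y z w o h hx hy hz hw V hV A B Y hA hB hY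
  rw [← hV, ← hA, ← hB]
  have A0' : A 0 = dih x y z w := by rw [hA]; rfl
  have A1' : A 1 = dih x z y w := by rw [hA]; rfl
  have A2' : A 2 = dih x w y z := by rw [hA]; rfl
  have B0' : B 0 = dih z w x y := by rw [hB]; rfl
  have B1' : B 1 = dih y w x z := by rw [hB]; rfl
  have B2' : B 2 = dih y z x w := by rw [hB]; rfl
  have Y0' : Y 0 = (sd x y + sd z w) / 8 := by rw [hY]; rfl
  have Y1' : Y 1 = (sd x z + sd y w) / 8 := by rw [hY]; rfl
  have Y2' : Y 2 = (sd x w + sd y z) / 8 := by rw [hY]; rfl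
  have e2 : |det3 x z y w| / 6 = V := by rw [hV, det3_swap12, abs_neg]
  have e3 : |det3 x w y z| / 6 = V := by rw [hV, det3_swap12 x y w z, det3_swap23, neg_neg]
  have h2 : det3 x z y w ≠ 0 := by rw [det3_swap12]; exact neg_ne_zero.2 h
  have h3 : det3 x w y z ≠ 0 := by rw [det3_swap12 x y w z, det3_swap23, neg_neg]; exact h
  have hS1 : SS x y z w = 2 * ∑ i, (A i + B i) - 4 * Real.pi := by
    rw [SS, Fin.sum_univ_three, A0', A1', A2', B0', B1', B2']
    ring
  have hS2 : SS x z y w = SS x y z w := SS_swap23 x y z w hyz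
  have hS3 : SS x w y z = SS x y z w := by
    rw [SS_swap23 x y w z hyw, SS_swap34 x y z w hzw]
  have hvol : ∀ i, 0 < Y i ∧ Y i < 1 ∧ V ≤ VD (Y i) := by
    have g1 := A3.vol_le x y z w o h hx hy hz hw
    have g2 := A3.vol_le x z y w o h2 hx hz hy hw
    have g3 := A3.vol_le x w y z o h3 hx hw hy hz
    rw [← hV, ← Y0'] at g1
    rw [e2, ← Y1'] at g2
    rw [e3, ← Y2'] at g3
    intro i
    fin_cases i
    · exact g1
    · exact g2
    · exact g3
  have hSD : ∀ i, 2 / 3 ≤ Y i → V * SD (Y i) ≤ (2 * ∑ i, (A i + B i) - 4 * Real.pi) * VD (Y i) := by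
    have g1 := S2.SS_ge2 x y z w o h hx hy hz hw (Y 0) Y0'
    have g2 := S2.SS_ge2 x z y w o h2 hx hz hy hw (Y 1) Y1'
    have g3 := S2.SS_ge2 x w y z o h3 hx hw hy hz (Y 2) Y2'
    rw [← hV, hS1] at g1
    rw [e2, hS2, hS1] at g2
    rw [e3, hS3, hS1] at g3
    intro i hi
    fin_cases i
    · exact g1 hi (hvol 0).2.1
    · exact g2 hi (hvol 1).2.1
    · exact g3 hi (hvol 2).2.1
  have hV0 : 0 < V := by
    rw [hV]
    have := abs_pos.2 h
    positivity
  have hV1 : V ≤ 8 * √3 / 27 :=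
    (hvol 0).2.2.trans (A3.VD_le _ (hvol 0).1.le (hvol 0).2.1.le)
  have hopp : ∀ i, V ≤ cc * (5 + Real.pi - (A i + B i)) := by
    have g1 := t1_opp x y z w o h hx hy hz hw
    have g2 := t1_opp x z y w o h2 hx hz hy hw
    have g3 := t1_opp x w y z o h3 hx hw hy hz
    rw [← hV, ← A0', ← B0'] at g1
    rw [e2, ← A1', ← B1'] at g2
    rw [e3, ← A2', ← B2'] at g3
    intro i
    fin_cases i
    · exact g1
    · exact g2
    · exact g3
  have hsol : 4.2968 * V ≤ 2 * ∑ i, (A i + B i) - 4 * Real.pi := by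
    rw [hV, ← hS1]
    exact S1.SS_ge x y z w o h hx hy hz hw
  have hAd : ∀ i, 0 ≤ A i ∧ A i ≤ Real.pi := by
    intro i
    fin_cases i
    · exact A0' ▸ dih_bd _ _ _ _
    · exact A1' ▸ dih_bd _ _ _ _
    · exact A2' ▸ dih_bd _ _ _ _
  have hBd : ∀ i, 0 ≤ B i ∧ B i ≤ Real.pi := by
    intro i
    fin_cases i
    · exact B0' ▸ dih_bd _ _ _ _
    · exact B1' ▸ dih_bd _ _ _ _
    · exact B2' ▸ dih_bd _ _ _ _
  have c01 : A 0 + B 0 + (A 1 + B 1) ≤ 2 * Real.pi := by
    have := Q1.cyc x y z w h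
    rw [A0', A1', B0', B1']
    exact this
  have c02 : A 0 + B 0 + (A 2 + B 2) ≤ 2 * Real.pi := by
    have g := Q1.cyc x y w z (by rw [det3_swap23]; exact neg_ne_zero.2 h)
    rw [BccCov.S.dih_swap_right x y z w, BccCov.S.dih_swap_left z w x y hzw] at g
    rw [A0', A2', B0', B2']
    exact g
  have c12 : A 1 + B 1 + (A 2 + B 2) ≤ 2 * Real.pi := by
    have g := Q1.cyc x z w y (by
      rw [det3_swap23 x z y w]; exact neg_ne_zero.2 h2)
    rw [BccCov.S.dih_swap_right x z y w, BccCov.S.dih_swap_left y w x z hyw,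
      BccCov.S.dih_swap_right x w y z, BccCov.S.dih_swap_left y z x w hyz] at g
    rw [A1', A2', B1', B2']
    exact g
  refine
    { V0 := hV0
      V1 := hV1
      A0 := fun i => (hAd i).1
      A1 := fun i => (hAd i).2
      B0 := fun i => (hBd i).1
      B1 := fun i => (hBd i).2
      cyc := ?_
      sol := hsol
      opp := hopp
      one := fun i α hα => K1.one (Y i) V α (hvol i).1 (hvol i).2.1 hV0 (hvol i).2.2 (r1 i α hα)
      one' := fun i α hα => K1.one' (Y i) V α (hvol i).1 (hvol i).2.1 hV0 (hvol i).2.2 (r1 i α hα)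
      two := fun i => K3.two (Y i) V _ _ (hvol i).1 (hvol i).2.1 hV0 (hvol i).2.2
        (hV1.trans Num.vm_ub) hsol (hSD i) (r2 i)
      adj := r3
      mix := r4
      dbl := r5
      tri := r6 }
  intro i j hij
  fin_cases i <;> fin_cases j
  · exact absurd rfl hij
  · exact c01
  · exact c02
  · exact (add_comm _ _).trans_le c01
  · exact absurd rfl hij
  · exact c12
  · exact (add_comm _ _).trans_le c02
  · exact (add_comm _ _).trans_le c12
  · exact absurd rfl hij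

end BccP.T1
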