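import Pool.Agent.PEN.T1
import Pool.Agent.PEN.L1
import Pool.Agent.PEN.L2

/-!
[PEN-T2] scaling: the two local inequalities for a tetrahedron with circumradius `ρ ≤ r`.

PROOF. `ρ > 0` (the points are distinct). Put `x' = ρ⁻¹ • (x - o)` etc.: `dist x' 0 = 1`,
`det3 x' y' z' w' = ρ⁻³ det3 x y z w` (coordinates, `ring`), `dih x' y' z' w' = dih x y z w` (`perp` is
homogeneous: `perp (c•u) (c•v) = c • perp u v` for `c ≠ 0`, `angle (c•a) (c•b) = angle a b` for `c > 0`: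
`InnerProductGeometry.angle_smul_left_of_pos`, `angle_smul_right_of_pos`; see also
`SS (c • x) ..` lemma in O/R*.lean). Apply `T1.facts` and `L1.LI`, `L2.LI1`: with `K` the right side for the
unit sphere, `V = ρ³ V' ≤ ρ³ K ≤ r³ K` because `K ≥ V' ≥ 0`.
-/

set_option autoImplicit false

namespace BccP.T2

open BccCov BccO

open scoped InnerProductSpace in
lemma t2_dih_smul {c : ℝ} (hc : 0 < c) (x y z w : E3) :
    dih (c • x) (c • y) (c • z) (c • w) = dih x y z w := by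
  unfold dih
  have hp : ∀ u v : E3, perp (c • u) (c • v) = c • perp u v := by
    intro u v
    unfold perp
    rw [inner_smul_left, inner_smul_right, inner_smul_left, inner_smul_right, smul_sub, smul_smul,
      smul_smul]
    congr 2
    simp only [RCLike.conj_to_real]
    by_cases h : ⟪u, u⟫_ℝ = 0
    · rw [h, mul_zero, mul_zero, div_zero, div_zero, zero_mul, mul_zero]
    · field_simp
  rw [← smul_sub, ← smul_sub, ← smul_sub, hp, hp, InnerProductGeometry.angle_smul_smul hc.ne']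

lemma t2_det3_smul (c : ℝ) (x y z w : E3) :
    det3 (c • x) (c • y) (c • z) (c • w) = c ^ 3 * det3 x y z w := by
  unfold det3
  simp only [PiLp.smul_apply, smul_eq_mul]
  ring

lemma t2_pos {x y z w o : E3} {ρ : ℝ} (hx : dist x o = ρ) (hy : dist y o = ρ)
    (hz : dist z o = ρ) (hw : dist w o = ρ) (h : det3 x y z w ≠ 0) : 0 < ρ := by
  have h0 : 0 ≤ ρ := by
    rw [← hx]
    exact dist_nonneg
  rcases h0.eq_or_lt with h1 | h1
  · exfalso
    apply h
    have ex : x = o := dist_eq_zero.1 (hx.trans h1.symm)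
    have ey : y = o := dist_eq_zero.1 (hy.trans h1.symm)
    have ez : z = o := dist_eq_zero.1 (hz.trans h1.symm)
    have ew : w = o := dist_eq_zero.1 (hw.trans h1.symm)
    rw [ex, ey, ez, ew]
    unfold det3
    ring
  · exact h1

lemma t2_facts {x y z w o : E3} {ρ : ℝ} (hx : dist x o = ρ) (hy : dist y o = ρ)
    (hz : dist z o = ρ) (hw : dist w o = ρ) (h : det3 x y z w ≠ 0) :
    Facts (ρ⁻¹ ^ 3 * |det3 x y z w| / 6) ![dih x y z w, dih x z y w, dih x w y z]
      ![dih z w x y, dih y w x z, dih y z x w] := by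
  have hρ := t2_pos hx hy hz hw h
  have hc : 0 < ρ⁻¹ := inv_pos.2 hρ
  have hd : ∀ p : E3, dist p o = ρ → dist (ρ⁻¹ • p) (ρ⁻¹ • o) = 1 := by
    intro p hp
    rw [dist_smul₀, Real.norm_eq_abs, abs_of_pos hc, hp, inv_mul_cancel₀ hρ.ne']
  have key := T1.facts (ρ⁻¹ • x) (ρ⁻¹ • y) (ρ⁻¹ • z) (ρ⁻¹ • w) (ρ⁻¹ • o)
    (by rw [t2_det3_smul]; exact mul_ne_zero (by positivity) h) (hd x hx) (hd y hy) (hd z hz)
    (hd w hw)
  simp only [t2_dih_smul hc] at key
  rw [t2_det3_smul, abs_mul, abs_of_pos (by positivity : 0 < ρ⁻¹ ^ 3)] at key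
  exact key

lemma t2_scale {v K ρ r : ℝ} (hρ : 0 < ρ) (hr : ρ ≤ r) (hv : 0 ≤ v) (h : ρ⁻¹ ^ 3 * v / 6 ≤ K) :
    v / 6 ≤ r ^ 3 * K := by
  have h1 : 0 ≤ ρ⁻¹ ^ 3 * v / 6 := by positivity
  have hK : 0 ≤ K := h1.trans h
  have h2 : ρ ^ 3 ≤ r ^ 3 := pow_le_pow_left₀ hρ.le hr 3
  have h3 : v / 6 = ρ ^ 3 * (ρ⁻¹ ^ 3 * v / 6) := by
    field_simp
  rw [h3]
  exact (mul_le_mul_of_nonneg_left h (by positivity)).trans (mul_le_mul_of_nonneg_right h2 hK)

theorem local_WW (x y z w o : E3) (ρ r : ℝ) (hρ : ρ ≤ r) (hx : dist x o = ρ) (hy : dist y o = ρ)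
    (hz : dist z o = ρ) (hw : dist w o = ρ) (h : det3 x y z w ≠ 0) :
    |det3 x y z w| / 6 ≤ r ^ 3 * (5 * cc + ((WW (dih x y z w) + WW (dih z w x y)) +
      (WW (dih x z y w) + WW (dih y w x z)) + (WW (dih x w y z) + WW (dih y z x w)))) := by
  have hρ0 := t2_pos hx hy hz hw h
  have h1 := L1.LI _ _ _ (t2_facts hx hy hz hw h)
  rw [Fin.sum_univ_three] at h1
  exact t2_scale hρ0 hρ (abs_nonneg _) h1

open scoped Classical in
theorem local_L (x y z w o : E3) (ρ r : ℝ) (hρ : ρ ≤ r) (hx : dist x o = ρ) (hy : dist y o = ρ)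
    (hz : dist z o = ρ) (hw : dist w o = ρ) (h : det3 x y z w ≠ 0) (LA LB : Fin 3 → Prop) :
    |det3 x y z w| / 6 ≤ r ^ 3 * (5 * cc *
        ((26 + (if L2.cnt LA LB = 0 then 2 else if L2.cnt LA LB = 1 then 1 else 0) : ℕ) : ℝ) / 26
      + (((if LA 0 then cc * (Real.pi / 2 - dih x y z w) else 0) +
          (if LB 0 then cc * (Real.pi / 2 - dih z w x y) else 0)) +
        ((if LA 1 then cc * (Real.pi / 2 - dih x z y w) else 0) +
          (if LB 1 then cc * (Real.pi / 2 - dih y w x z) else 0)) +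
        ((if LA 2 then cc * (Real.pi / 2 - dih x w y z) else 0) +
          (if LB 2 then cc * (Real.pi / 2 - dih y z x w) else 0)))) := by
  have hρ0 := t2_pos hx hy hz hw h
  have h1 := L2.LI1 _ _ _ (t2_facts hx hy hz hw h) LA LB
  rw [Fin.sum_univ_three] at h1
  exact t2_scale hρ0 hρ (abs_nonneg _) h1

end BccP.T2
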