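import Pool.Agent.PEN.C1

/-!
[PEN-Y1] counting with positive weights on incident pairs (tetrahedron, vertex).

PROOF. As `BccP.C1.counting2` (the finished file C1.lean is in the cache; copy it). `T = {t ∈ D | ∃ x ∈ t, p x ≤ R + 2r}`,
all vertices of `t ∈ T` lie in `Y1 = X ∩ {p ≤ R + 4r}`, so (`q ≥ 0`, exchange of sums)
`Σ_{t∈T} Σ_{x∈t} q t x ≤ Σ_{x∈Y1} Σ_{t∈D, x∈t} q t x = HH (R+4r)`. Boundary tetrahedra `B ⊆ T` (some vertex with
`p > R + 2r`): all their vertices lie in `Y1` and not in `Y0 = X ∩ {p ≤ R}`, so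
`4 q0 B.card ≤ Σ_{t∈B} Σ_{x∈t} q t x ≤ Σ_{x∈Y1∖Y0} Σ_{t∋x} q t x = HH (R+4r) - HH R`. Inner pairs: `hedge`, sum `≤ 0`; outer
pairs: at most `6 C B.card`. The sets `{t | t ∈ D ∧ x ∈ t}` are finite (`BccCov.finiteness`, third part with
`m = {x}`), `Y1` is finite (`‖x‖ ≤ 2 p x`).
-/

set_option autoImplicit false

open scoped InnerProductSpace
open MeasureTheory

namespace BccP

open BccCov BccO

/-- sum over the points of `X` in the window of the weights of the tetrahedra at the point -/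
noncomputable def HH (p : E3 → ℝ) (X : Set E3) (D : Set (Finset E3)) (q : Finset E3 → E3 → ℝ)
    (R : ℝ) : ℝ :=
  ∑ᶠ x ∈ X ∩ {x | p x ≤ R}, ∑ᶠ t ∈ {t | t ∈ D ∧ x ∈ t}, q t x

namespace Y1

theorem y1_fX {p : E3 → ℝ} {v : ℝ} (hp : Gauge p v) {X : Set E3}
    (hfin : ∀ R : ℝ, (X ∩ Metric.closedBall (0 : E3) R).Finite) (R : ℝ) :
    (X ∩ {x | p x ≤ R}).Finite := by
  refine (hfin (2 * R)).subset ?_
  rintro x ⟨hx, hR⟩
  refine ⟨hx, ?_⟩
  rw [Metric.mem_closedBall, dist_zero_right]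
  have h1 := hp.bdd x
  have h2 : p x ≤ R := hR
  linarith

theorem y1_g_nonneg (D : Set (Finset E3)) (q : Finset E3 → E3 → ℝ)
    (hq : ∀ t ∈ D, ∀ x ∈ t, 0 ≤ q t x) (x : E3) : 0 ≤ ∑ᶠ t ∈ {t | t ∈ D ∧ x ∈ t}, q t x :=
  finsum_mem_induction (fun a => 0 ≤ a) le_rfl (fun _ _ => add_nonneg)
    (fun t ht => hq t ht.1 x ht.2)

/-- exchange of sums for a finite set of tetrahedra -/
theorem y1_exch (D : Set (Finset E3)) (q : Finset E3 → E3 → ℝ)
    (hq : ∀ t ∈ D, ∀ x ∈ t, 0 ≤ q t x) (hfd : ∀ x, {t | t ∈ D ∧ x ∈ t}.Finite)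
    (S : Finset (Finset E3)) (Y : Finset E3) (hS : ∀ t ∈ S, t ∈ D)
    (hY : ∀ t ∈ S, ∀ x ∈ t, x ∈ Y) :
    ∑ t ∈ S, ∑ x ∈ t, q t x ≤ ∑ x ∈ Y, ∑ᶠ t ∈ {t | t ∈ D ∧ x ∈ t}, q t x := by
  classical
  rw [Finset.sum_comm' (s' := fun x => S.filter (fun t => x ∈ t)) (t' := Y) ?_]
  · refine Finset.sum_le_sum fun x _ => ?_
    rw [finsum_mem_eq_finite_toFinset_sum _ (hfd x)]
    refine Finset.sum_le_sum_of_subset_of_nonneg ?_ ?_
    · intro t ht
      rw [Finset.mem_filter] at ht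
      rw [Set.Finite.mem_toFinset]
      exact ⟨hS t ht.1, ht.2⟩
    · intro t ht _
      rw [Set.Finite.mem_toFinset] at ht
      exact hq t ht.1 x ht.2
  · intro t x
    rw [Finset.mem_filter]
    exact ⟨fun h => ⟨⟨h.1, h.2⟩, hY t h.1 x h.2⟩, fun h => h.1⟩

theorem HH_mono {p : E3 → ℝ} {v : ℝ} (hp : Gauge p v) {X : Set E3} {D : Set (Finset E3)}
    (hfin : ∀ R : ℝ, (X ∩ Metric.closedBall (0 : E3) R).Finite)
    (q : Finset E3 → E3 → ℝ) (hq : ∀ t ∈ D, ∀ x ∈ t, 0 ≤ q t x) :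
    Monotone (HH p X D q) ∧ ∀ R, 0 ≤ HH p X D q R := by
  have hg := y1_g_nonneg D q hq
  constructor
  · intro a b hab
    have ha := y1_fX hp hfin a
    have hb := y1_fX hp hfin b
    unfold HH
    rw [finsum_mem_eq_finite_toFinset_sum _ ha, finsum_mem_eq_finite_toFinset_sum _ hb]
    refine Finset.sum_le_sum_of_subset_of_nonneg ?_ fun x _ _ => hg x
    intro x hx
    rw [Set.Finite.mem_toFinset] at hx ⊢
    exact ⟨hx.1, le_trans hx.2 hab⟩
  · intro R
    exact finsum_mem_induction (fun a => 0 ≤ a) le_rfl (fun _ _ => add_nonneg)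
      (fun x _ => hg x)

theorem counting3 {p : E3 → ℝ} {v : ℝ} (hp : Gauge p v) {X : Set E3} {D : Set (Finset E3)} {r : ℝ}
    (hr : 0 < r) (hT : IsTriangulation X D) (hI : ∀ t ∈ D, Inscribed t r)
    (hfin : ∀ R : ℝ, (X ∩ Metric.closedBall (0 : E3) R).Finite)
    (q0 C : ℝ) (hq0 : 0 < q0) (hC : 0 ≤ C) (q : Finset E3 → E3 → ℝ)
    (hq : ∀ t ∈ D, ∀ x ∈ t, q0 ≤ q t x)
    (wt : Finset E3 → Finset E3 → ℝ) (hwC : ∀ t m, |wt t m| ≤ C)
    (hvol : ∀ t ∈ D, (volume (convexHull ℝ (t : Set E3))).toReal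
      ≤ ∑ x ∈ t, q t x + ∑ m ∈ t.powersetCard 2, wt t m)
    (hedge : ∀ (m : Finset E3) (s : Finset (Finset E3)), m.card = 2 → (∃ t ∈ D, m ⊆ t) →
      (∀ t, t ∈ s ↔ t ∈ D ∧ m ⊆ t) → ∑ t ∈ s, wt t m ≤ 0) (R : ℝ) :
    (volume {x | p x ≤ R}).toReal
      ≤ HH p X D q (R + 4 * r) +
        6 * C / (4 * q0) * (HH p X D q (R + 4 * r) - HH p X D q R) := by
  classical
  obtain ⟨hF1, -, -, -⟩ := finiteness hT hI hfin
  have hF2 := C1.c1_F2 hp hT hI hfin
  -- the finite set of tetrahedra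
  let T : Finset (Finset E3) := (hF2 (R + 2 * r)).toFinset
  have hTm : ∀ t, t ∈ T ↔ t ∈ D ∧ ∃ x ∈ t, p x ≤ R + 2 * r := by
    intro t
    simp only [T, Set.Finite.mem_toFinset, Set.mem_ofPred_eq]
  have hTD : ∀ t ∈ T, t ∈ D := fun t ht => ((hTm t).1 ht).1
  have hdist : ∀ t ∈ D, ∀ x ∈ t, ∀ y ∈ t, p x ≤ p y + 2 * r := by
    intro t ht x hx y hy
    have h1 := hF1 t ht x (subset_convexHull ℝ _ (Finset.mem_coe.2 hx)) y
      (subset_convexHull ℝ _ (Finset.mem_coe.2 hy))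
    have h2 := hp.lip x y
    linarith
  have hfd : ∀ x, {t | t ∈ D ∧ x ∈ t}.Finite := by
    intro x
    refine (hF2 (p x)).subset ?_
    rintro t ⟨h1, h2⟩
    exact ⟨h1, x, h2, le_rfl⟩
  have hq' : ∀ t ∈ D, ∀ x ∈ t, 0 ≤ q t x := fun t ht x hx => hq0.le.trans (hq t ht x hx)
  have hg := y1_g_nonneg D q hq'
  have hY1 := y1_fX hp hfin (R + 4 * r)
  have hY0 := y1_fX hp hfin R
  have hH1 : HH p X D q (R + 4 * r) =
      ∑ x ∈ hY1.toFinset, ∑ᶠ t ∈ {t | t ∈ D ∧ x ∈ t}, q t x := by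
    unfold HH
    rw [finsum_mem_eq_finite_toFinset_sum _ hY1]
  have hH0 : HH p X D q R = ∑ x ∈ hY0.toFinset, ∑ᶠ t ∈ {t | t ∈ D ∧ x ∈ t}, q t x := by
    unfold HH
    rw [finsum_mem_eq_finite_toFinset_sum _ hY0]
  have hTY : ∀ t ∈ T, ∀ x ∈ t, x ∈ hY1.toFinset := by
    intro t ht x hx
    obtain ⟨htD, y, hy, hyn⟩ := (hTm t).1 ht
    rw [Set.Finite.mem_toFinset]
    refine ⟨hT.vertices t htD x hx, ?_⟩
    show p x ≤ R + 4 * r
    linarith [hdist t htD x hx y hy]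
  have hsumT := y1_exch D q hq' hfd T hY1.toFinset hTD hTY
  rw [← hH1] at hsumT
  -- boundary tetrahedra
  let B : Finset (Finset E3) := T.filter (fun t => ∃ y ∈ t, R + 2 * r < p y)
  have hBm : ∀ t, t ∈ B ↔ t ∈ T ∧ ∃ y ∈ t, R + 2 * r < p y := by
    intro t
    simp only [B, Finset.mem_filter]
  have hBY : ∀ t ∈ B, ∀ x ∈ t, x ∈ hY1.toFinset \ hY0.toFinset := by
    intro t ht x hx
    obtain ⟨htT, y, hy, hyn⟩ := (hBm t).1 ht
    rw [Finset.mem_sdiff]
    refine ⟨hTY t htT x hx, fun h0 => ?_⟩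
    rw [Set.Finite.mem_toFinset] at h0
    have h1 : p x ≤ R := h0.2
    linarith [hdist t (hTD t htT) y hy x hx]
  have hsumB := y1_exch D q hq' hfd B (hY1.toFinset \ hY0.toFinset)
    (fun t ht => hTD t ((hBm t).1 ht).1) hBY
  have hY01 : hY0.toFinset ⊆ hY1.toFinset := by
    intro x hx
    rw [Set.Finite.mem_toFinset] at hx ⊢
    refine ⟨hx.1, ?_⟩
    have h1 : p x ≤ R := hx.2
    show p x ≤ R + 4 * r
    linarith
  have hsd := Finset.sum_sdiff (f := fun x => ∑ᶠ t ∈ {t | t ∈ D ∧ x ∈ t}, q t x) hY01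
  rw [← hH1, ← hH0] at hsd
  have hcB : (B.card : ℝ) * (4 * q0) ≤ HH p X D q (R + 4 * r) - HH p X D q R := by
    have h1 : (B.card : ℝ) * (4 * q0) ≤ ∑ t ∈ B, ∑ x ∈ t, q t x := by
      have h2 : ∑ t ∈ B, (4 * q0) ≤ ∑ t ∈ B, ∑ x ∈ t, q t x := by
        refine Finset.sum_le_sum fun t ht => ?_
        have htD := hTD t ((hBm t).1 ht).1
        have h3 : ∑ x ∈ t, q0 ≤ ∑ x ∈ t, q t x := Finset.sum_le_sum fun x hx => hq t htD x hx
        rw [Finset.sum_const, hT.card_eq t htD, nsmul_eq_mul] at h3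
        exact_mod_cast h3
      rw [Finset.sum_const, nsmul_eq_mul] at h2
      exact h2
    linarith
  -- volume
  have hvfin : ∀ t : Finset E3, volume (convexHull ℝ (t : Set E3)) ≠ ⊤ := fun t =>
    (Set.Finite.isCompact_convexHull ℝ t.finite_toSet).measure_lt_top.ne
  have hV : (volume {x : E3 | p x ≤ R}).toReal
      ≤ ∑ t ∈ T, (volume (convexHull ℝ (t : Set E3))).toReal := by
    have h1 : {x : E3 | p x ≤ R} ⊆ ⋃ t ∈ T, convexHull ℝ (t : Set E3) := by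
      intro z hz
      have h2 : z ∈ ⋃ t ∈ D, convexHull ℝ (t : Set E3) := by rw [hT.cover]; exact Set.mem_univ z
      simp only [Set.mem_iUnion, exists_prop] at h2 ⊢
      obtain ⟨t, ht, hzt⟩ := h2
      refine ⟨t, (hTm t).2 ⟨ht, ?_⟩, hzt⟩
      have hc := hT.card_eq t ht
      have hne : t.Nonempty := by
        rw [← Finset.card_pos]; omega
      obtain ⟨x, hxt⟩ := hne
      have h5 := hF1 t ht x (subset_convexHull ℝ _ (Finset.mem_coe.2 hxt)) z hzt
      have h6 := hp.lip x z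
      have h7 : p z ≤ R := hz
      exact ⟨x, hxt, by linarith⟩
    have h3 : volume {x : E3 | p x ≤ R}
        ≤ ∑ t ∈ T, volume (convexHull ℝ (t : Set E3)) :=
      (measure_mono h1).trans (measure_biUnion_finset_le _ _)
    rw [← ENNReal.toReal_sum fun t _ => hvfin t]
    exact ENNReal.toReal_mono (ENNReal.sum_ne_top.2 fun t _ => hvfin t) h3
  -- splitting
  let Q : Finset E3 → Prop := fun m => ∀ x ∈ m, p x ≤ R + 2 * r
  have hsplit : ∑ t ∈ T, ∑ m ∈ t.powersetCard 2, wt t m =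
      ∑ t ∈ T, ∑ m ∈ (t.powersetCard 2).filter Q, wt t m +
      ∑ t ∈ T, ∑ m ∈ (t.powersetCard 2).filter (fun m => ¬ Q m), wt t m := by
    rw [← Finset.sum_add_distrib]
    refine Finset.sum_congr rfl fun t _ => ?_
    rw [Finset.sum_filter_add_sum_filter_not]
  -- inner pairs
  have hin : ∑ t ∈ T, ∑ m ∈ (t.powersetCard 2).filter Q, wt t m ≤ 0 := by
    rw [Finset.sum_comm' (s' := fun m => T.filter (fun t => m ⊆ t))
      (t' := T.biUnion (fun t => (t.powersetCard 2).filter Q)) ?_]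
    · have h1 : ∑ m ∈ T.biUnion (fun t => (t.powersetCard 2).filter Q),
          ∑ t ∈ T.filter (fun t => m ⊆ t), wt t m ≤
          ∑ m ∈ T.biUnion (fun t => (t.powersetCard 2).filter Q), (0 : ℝ) := by
        refine Finset.sum_le_sum fun m hm => ?_
        rw [Finset.mem_biUnion] at hm
        obtain ⟨t0, ht0, hm0⟩ := hm
        rw [Finset.mem_filter, Finset.mem_powersetCard] at hm0
        obtain ⟨⟨hmt0, hmc⟩, hmQ⟩ := hm0
        refine hedge m _ hmc ⟨t0, hTD t0 ht0, hmt0⟩ fun t => ?_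
        rw [Finset.mem_filter]
        refine ⟨fun h => ⟨hTD t h.1, h.2⟩, fun h => ⟨(hTm t).2 ⟨h.1, ?_⟩, h.2⟩⟩
        have hne : m.Nonempty := by
          rw [← Finset.card_pos]; omega
        obtain ⟨x, hx⟩ := hne
        exact ⟨x, h.2 hx, hmQ x hx⟩
      refine h1.trans (le_of_eq ?_)
      exact Finset.sum_const_zero
    · intro t m
      simp only [Finset.mem_filter, Finset.mem_powersetCard, Finset.mem_biUnion]
      constructor
      · rintro ⟨h1, ⟨h2, h3⟩, h4⟩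
        exact ⟨⟨h1, h2⟩, t, h1, ⟨h2, h3⟩, h4⟩
      · rintro ⟨⟨h1, h2⟩, t', h3, ⟨h4, h5⟩, h6⟩
        exact ⟨h1, ⟨h2, h5⟩, h6⟩
  -- boundary pairs
  have hout : ∑ t ∈ T, ∑ m ∈ (t.powersetCard 2).filter (fun m => ¬ Q m), wt t m
      ≤ B.card * (6 * C) := by
    have h1 : ∀ t ∈ T, ∑ m ∈ (t.powersetCard 2).filter (fun m => ¬ Q m), wt t m
        ≤ if (∃ y ∈ t, R + 2 * r < p y) then 6 * C else 0 := by
      intro t ht
      split_ifs with hy
      · have h2 : ∑ m ∈ (t.powersetCard 2).filter (fun m => ¬ Q m), wt t m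
            ≤ ∑ m ∈ (t.powersetCard 2).filter (fun m => ¬ Q m), C :=
          Finset.sum_le_sum fun m _ => (le_abs_self _).trans (hwC t m)
        refine h2.trans ?_
        rw [Finset.sum_const, nsmul_eq_mul]
        refine mul_le_mul_of_nonneg_right ?_ hC
        have h3 : ((t.powersetCard 2).filter (fun m => ¬ Q m)).card ≤ 6 := by
          refine (Finset.card_filter_le _ _).trans ?_
          rw [Finset.card_powersetCard, hT.card_eq t (hTD t ht)]
          decide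
        exact_mod_cast h3
      · rw [Finset.sum_eq_zero]
        intro m hm
        exfalso
        rw [Finset.mem_filter, Finset.mem_powersetCard] at hm
        apply hm.2
        intro x hx
        by_contra hc
        push Not at hc
        exact hy ⟨x, hm.1.1 hx, hc⟩
    refine (Finset.sum_le_sum h1).trans ?_
    rw [← Finset.sum_filter, Finset.sum_const, nsmul_eq_mul]
  -- conclusion
  have htot : ∑ t ∈ T, (volume (convexHull ℝ (t : Set E3))).toReal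
      ≤ ∑ t ∈ T, ∑ x ∈ t, q t x + ∑ t ∈ T, ∑ m ∈ t.powersetCard 2, wt t m := by
    have h1 := Finset.sum_le_sum fun t ht => hvol t (hTD t ht)
    rw [Finset.sum_add_distrib] at h1
    exact h1
  have e2 : (B.card : ℝ) * (6 * C) ≤
      6 * C / (4 * q0) * (HH p X D q (R + 4 * r) - HH p X D q R) := by
    have h1 : 0 ≤ 6 * C / (4 * q0) := by positivity
    have h2 := mul_le_mul_of_nonneg_left hcB h1
    have h3 : 6 * C / (4 * q0) * ((B.card : ℝ) * (4 * q0)) = (B.card : ℝ) * (6 * C) := by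
      field_simp
    linarith
  linarith

end Y1

end BccP
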