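import Pool.Agent.PEN.C1

/-!
[PEN-Y2] the lemma on lower densities for real-valued monotone functions.

PROOF. Copy of `BccCov.L.lower_density` (`MP_bf7174_co/L.lean`) with `N : ℝ → ℝ` and `v` in place of
`4/3 π` (only monotonicity and `N ≥ 0` are used).
-/

set_option autoImplicit false

namespace BccP.Y2

theorem lower_density (N : ℝ → ℝ) (hN : Monotone N) (hN0 : ∀ R, 0 ≤ N R) (v A B d : ℝ)
    (hv : 0 < v) (hA : 0 < A) (hB : 0 ≤ B) (hd : 0 < d)
    (h : ∀ R : ℝ, 0 ≤ R → v * R ^ 3 ≤ A * N (R + d) + B * (N (R + d) - N R))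
    (η : ℝ) (hη : A * η < 1) :
    ∀ᶠ R in Filter.atTop, η * (v * R ^ 3) ≤ N R := by
  rcases le_or_gt η 0 with hη0 | hη0
  · filter_upwards [Filter.eventually_ge_atTop 0] with R hR
    have h1 : η * (v * R ^ 3) ≤ 0 :=
      mul_nonpos_of_nonpos_of_nonneg hη0 (by positivity)
    exact h1.trans (hN0 _)
  obtain ⟨J, hJ⟩ := exists_nat_gt (B * η / (1 - A * η))
  have h1A : 0 < 1 - A * η := by linarith
  rw [div_lt_iff₀ h1A] at hJ
  have hJ0 : (0 : ℝ) < J := by
    have h2 : 0 ≤ B * η := mul_nonneg hB hη0.le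
    by_contra hcon
    have h3 : (J : ℝ) * (1 - A * η) ≤ 0 := mul_nonpos_of_nonpos_of_nonneg (not_lt.1 hcon) h1A.le
    linarith
  set c : ℝ := (J * A + B) * η with hc
  have hcJ : c < J := by rw [hc]; nlinarith
  have hJAB : 0 < J * A + B := by positivity
  -- the telescoping sum
  have key : ∀ R : ℝ, J * d ≤ R →
      J * (v * (R - J * d) ^ 3) ≤ (J * A + B) * N R := by
    intro R hR
    have hsum : ∀ k : ℕ, (k : ℝ) ≤ J → k * (v * (R - J * d) ^ 3) ≤
        k * A * N R + B * (N R - N (R - k * d)) := by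
      intro k
      induction k with
      | zero => intro _; simp
      | succ k ih =>
        intro hk
        push_cast at hk
        have ih' := ih (by linarith)
        have hkd : (k + 1) * d ≤ J * d := mul_le_mul_of_nonneg_right hk hd.le
        have h3 := h (R - (k + 1) * d) (by linarith)
        have e1 : R - (k + 1) * d + d = R - k * d := by ring
        rw [e1] at h3
        have h4 : (R - J * d) ^ 3 ≤ (R - (k + 1) * d) ^ 3 :=
          pow_le_pow_left₀ (by linarith) (by linarith) 3
        have h5 : v * (R - J * d) ^ 3 ≤ v * (R - (k + 1) * d) ^ 3 :=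
          mul_le_mul_of_nonneg_left h4 hv.le
        have h6 : N (R - k * d) ≤ N R :=
          hN (by nlinarith [Nat.cast_nonneg (α := ℝ) k])
        have h7 : A * N (R - k * d) ≤ A * N R := mul_le_mul_of_nonneg_left h6 hA.le
        push_cast
        nlinarith
    have h8 := hsum J le_rfl
    have h9 : B * (N R - N (R - J * d)) ≤ B * N R := by
      apply mul_le_mul_of_nonneg_left _ hB
      have : (0 : ℝ) ≤ N (R - J * d) := hN0 _
      linarith
    nlinarith
  -- the limit
  have hlim : Filter.Tendsto (fun R : ℝ => (J : ℝ) * (1 - (J : ℝ) * d / R) ^ 3) Filter.atTop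
      (nhds (J : ℝ)) := by
    have h1 : Filter.Tendsto (fun R : ℝ => (J : ℝ) * d / R) Filter.atTop (nhds 0) :=
      Filter.Tendsto.div_atTop tendsto_const_nhds Filter.tendsto_id
    have h2 := (((tendsto_const_nhds (x := (1 : ℝ))).sub h1).pow 3).const_mul (J : ℝ)
    simpa using h2
  filter_upwards [hlim.eventually (lt_mem_nhds hcJ), Filter.eventually_ge_atTop (J * d),
    Filter.eventually_gt_atTop 0] with R h1 h2 h3
  have h4 := key R h2
  have h5 : c * R ^ 3 ≤ J * (R - J * d) ^ 3 := by
    have e : (R - J * d) ^ 3 = (1 - J * d / R) ^ 3 * R ^ 3 := by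
      rw [← mul_pow]
      congr 1
      field_simp
    rw [e, ← mul_assoc]
    exact mul_le_mul_of_nonneg_right h1.le (by positivity)
  have h6 : (J * A + B) * (η * (v * R ^ 3)) ≤ (J * A + B) * N R := by
    calc (J * A + B) * (η * (v * R ^ 3)) = v * (c * R ^ 3) := by
          rw [hc]; ring
      _ ≤ v * (J * (R - J * d) ^ 3) := mul_le_mul_of_nonneg_left h5 hv.le
      _ = J * (v * (R - J * d) ^ 3) := by ring
      _ ≤ _ := h4
  exact le_of_mul_le_mul_left h6 hJAB

end BccP.Y2
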