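import Pool.Agent.PEN.C2
import Pool.Agent.PEN.Y1
import Pool.Agent.PEN.Y2

/-!
[PEN-Y3] from the counting inequality `counting3` to the lower density.

PROOF. `Y2.lower_density` with `N = HH p X D q` (monotone, nonnegative), `A = 1`, `B = 6C/(4 q0)`, `d = 4r`
(`Y1.counting3`, `Gauge.vol`): for all `η < 1` eventually `η (v R³) ≤ HH R`. With `HH R ≤ σ #(X ∩ {p ≤ R})`
eventually: for `η'` with `σ η' < 1` put `η = σ η'`: eventually `σ η' (v R³) ≤ HH R ≤ σ #(..)`, divide by `σ > 0`; then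
`C2.density2` with `A = σ`.
-/

set_option autoImplicit false

open scoped InnerProductSpace
open MeasureTheory

namespace BccP.Y3

open BccCov BccO

theorem master {p : E3 → ℝ} {v : ℝ} (hp : Gauge p v) {X : Set E3} {D : Set (Finset E3)} {r : ℝ}
    (hr : 0 < r) (hT : IsTriangulation X D) (hI : ∀ t ∈ D, Inscribed t r)
    (q0 C σ : ℝ) (hq0 : 0 < q0) (hC : 0 ≤ C) (hσ : 0 < σ) (q : Finset E3 → E3 → ℝ)
    (hq : ∀ t ∈ D, ∀ x ∈ t, q0 ≤ q t x)
    (wt : Finset E3 → Finset E3 → ℝ) (hwC : ∀ t m, |wt t m| ≤ C)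
    (hvol : ∀ t ∈ D, (volume (convexHull ℝ (t : Set E3))).toReal
      ≤ ∑ x ∈ t, q t x + ∑ m ∈ t.powersetCard 2, wt t m)
    (hedge : (∀ R : ℝ, (X ∩ Metric.closedBall (0 : E3) R).Finite) →
      ∀ (m : Finset E3) (s : Finset (Finset E3)), m.card = 2 → (∃ t ∈ D, m ⊆ t) →
      (∀ t, t ∈ s ↔ t ∈ D ∧ m ⊆ t) → ∑ t ∈ s, wt t m ≤ 0)
    (hG : (∀ R : ℝ, (X ∩ Metric.closedBall (0 : E3) R).Finite) →
      ∀ᶠ R in Filter.atTop, HH p X D q R ≤ σ * ((X ∩ {x | p x ≤ R}).ncard : ℝ)) :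
    ENNReal.ofReal (4 / 3 * Real.pi * r ^ 3 / σ) ≤
      Filter.liminf
        (fun R : ℝ =>
          ENat.toENNReal (X ∩ {x | p x ≤ R}).encard *
            MeasureTheory.volume (Metric.closedBall (0 : EuclideanSpace ℝ (Fin 3)) r) /
            MeasureTheory.volume {x | p x ≤ R})
        Filter.atTop := by
  have hv := hp.pos
  refine C2.density2 hp X r hr σ hσ ?_
  intro hfin η hη
  have hmono := Y1.HH_mono hp (D := D) hfin q (fun t ht x hx => hq0.le.trans (hq t ht x hx))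
  have hcount : ∀ R : ℝ, 0 ≤ R → v * R ^ 3 ≤
      1 * HH p X D q (R + 4 * r) +
        (6 * C / (4 * q0)) * (HH p X D q (R + 4 * r) - HH p X D q R) := by
    intro R hR
    have h1 := Y1.counting3 hp hr hT hI hfin q0 C hq0 hC q hq wt hwC hvol (hedge hfin) R
    rw [hp.vol R hR, ENNReal.toReal_ofReal (by positivity)] at h1
    rw [one_mul]
    exact h1
  have hlow := Y2.lower_density (HH p X D q) hmono.1 hmono.2 v 1 (6 * C / (4 * q0)) (4 * r)
    hv one_pos (by positivity) (by positivity) hcount (σ * η) (by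
      rw [one_mul]
      exact hη)
  filter_upwards [hlow, hG hfin] with R h1 h2
  have h3 : σ * η * (v * R ^ 3) = σ * (η * (v * R ^ 3)) := by ring
  rw [h3] at h1
  exact le_of_mul_le_mul_left (h1.trans h2) hσ

end BccP.Y3
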