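import Pool.Agent.PEN.Num

/-!
[PEN-Y4] the potential around an edge, all valences.

PROOF. `WW θ ≤ tt (π/2 - θ)` and `WW θ ≤ ss (θ - π/3)`, `tt, ss > 0`. `n = s.card ≤ 3`: the sum is
`≤ tt (n π/2 - 2π) ≤ -(tt π/6) n` (as `2n/3 ≤ 2`); `n = 4`: `≤ tt (2π - 2π) = 0`; `n ≥ 5`: `≤ ss (2π - n π/3)`.
`Om_lb`: `n ≤ 3`: `Om n / n = -(tt π/6)` (or `0` if `n = 0`), `tt/6 ≤ ss/3` (`0.0553353/6 = 0.00922 ≤ 0.01156`); `n = 4`: `0`;
`n ≥ 5`: `Om n / n = ss (2π/n - π/3) ≥ -ss π/3`. `Om_abs`: also `Om n / n ≤ ss · 2π/5 ≤ 1`.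
`Om_le`: for all `n`, with `L n = ss (2π - n π/3)`: `Om n ≤ L n`; `Om 4 = L 4 - 2 ss π/3`;
`Om 3 = L 3 - (tt π/2 + ss π)`.
-/

set_option autoImplicit false

namespace BccP

open BccCov BccO

/-- upper bound for the sum of `WW` over `n` angles with sum `2π` -/
noncomputable def Om (n : ℕ) : ℝ :=
  if n ≤ 3 then -(tt * Real.pi / 6) * n else if n = 4 then 0
  else ss * (2 * Real.pi - n * (Real.pi / 3))

namespace Y4

theorem sum_le {ι : Type} (s : Finset ι) (θ : ι → ℝ) (hs : ∑ i ∈ s, θ i = 2 * Real.pi) :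
    ∑ i ∈ s, WW (θ i) ≤ Om s.card := by
  have hpi := Real.pi_pos
  have ht := Num.tt_pos
  have hss := Num.ss_pos
  have h1 : ∑ i ∈ s, WW (θ i) ≤ tt * ((s.card : ℝ) * (Real.pi / 2) - 2 * Real.pi) := by
    have h2 : ∑ i ∈ s, WW (θ i) ≤ ∑ i ∈ s, tt * (Real.pi / 2 - θ i) :=
      Finset.sum_le_sum fun i _ => min_le_left _ _
    rw [← Finset.mul_sum, Finset.sum_sub_distrib, hs, Finset.sum_const, nsmul_eq_mul] at h2
    exact h2
  have h3 : ∑ i ∈ s, WW (θ i) ≤ ss * (2 * Real.pi - (s.card : ℝ) * (Real.pi / 3)) := by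
    have h2 : ∑ i ∈ s, WW (θ i) ≤ ∑ i ∈ s, ss * (θ i - Real.pi / 3) :=
      Finset.sum_le_sum fun i _ => min_le_right _ _
    rw [← Finset.mul_sum, Finset.sum_sub_distrib, hs, Finset.sum_const, nsmul_eq_mul] at h2
    exact h2
  unfold Om
  by_cases hn : s.card ≤ 3
  · rw [if_pos hn]
    refine h1.trans ?_
    have hn' : (s.card : ℝ) ≤ 3 := by exact_mod_cast hn
    have h4 : 0 ≤ tt * Real.pi * (3 - (s.card : ℝ)) :=
      mul_nonneg (by positivity) (by linarith)
    nlinarith [h4]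
  · rw [if_neg hn]
    by_cases h4 : s.card = 4
    · rw [if_pos h4]
      refine h1.trans (le_of_eq ?_)
      rw [h4]
      push_cast
      ring
    · rw [if_neg h4]
      exact h3

/-- the lower bound without division -/
theorem lb_aux (n : ℕ) : -(ss * Real.pi / 3) * n ≤ Om n := by
  have hpi := Real.pi_pos
  have ht := Num.tt_ub
  have ht0 := Num.tt_pos
  have hss := Num.ss_lb
  have hn0 : (0 : ℝ) ≤ n := Nat.cast_nonneg n
  unfold Om
  by_cases hn : n ≤ 3
  · rw [if_pos hn]
    have h1 : 0 ≤ Real.pi * n * (ss / 3 - tt / 6) := by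
      apply mul_nonneg (by positivity)
      linarith
    nlinarith [h1]
  · rw [if_neg hn]
    by_cases h4 : n = 4
    · rw [if_pos h4]
      have h1 : 0 ≤ (ss * Real.pi / 3) * n := by
        have := Num.ss_pos
        positivity
      linarith
    · rw [if_neg h4]
      have h1 : 0 ≤ ss * Real.pi := by
        have := Num.ss_pos
        positivity
      nlinarith [h1]

theorem Om_abs (n : ℕ) : |Om n / n| ≤ 1 := by
  have hpi := Real.pi_pos
  have hpi' := Real.pi_lt_d6
  have ht0 := Num.tt_pos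
  have hss0 := Num.ss_pos
  have hss := Num.ss_ub
  rcases Nat.eq_zero_or_pos n with h0 | h0
  · rw [h0, Nat.cast_zero, div_zero, abs_zero]
    exact zero_le_one
  have hn : (0 : ℝ) < n := by exact_mod_cast h0
  have hsp : ss * Real.pi ≤ 0.0347020 * 3.141593 :=
    mul_le_mul hss hpi'.le hpi.le (by norm_num)
  rw [abs_le, le_div_iff₀ hn, div_le_iff₀ hn]
  constructor
  · have h1 := lb_aux n
    nlinarith [h1, hn]
  · unfold Om
    by_cases h3 : n ≤ 3
    · rw [if_pos h3]
      have h1 : 0 ≤ (tt * Real.pi / 6) * n := by positivity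
      linarith
    · rw [if_neg h3]
      by_cases h4 : n = 4
      · rw [if_pos h4]
        linarith
      · rw [if_neg h4]
        have h5 : (5 : ℝ) ≤ n := by
          have : 5 ≤ n := by omega
          exact_mod_cast this
        have h6 : 0 ≤ ss * Real.pi := by positivity
        nlinarith [mul_nonneg h6 hn.le]

theorem Om_lb (n : ℕ) : -(ss * Real.pi / 3) ≤ Om n / n := by
  rcases Nat.eq_zero_or_pos n with h0 | h0
  · rw [h0, Nat.cast_zero, div_zero]
    have h1 := Num.ss_pos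
    have h2 := Real.pi_pos
    have h3 : 0 ≤ ss * Real.pi / 3 := by positivity
    linarith
  have hn : (0 : ℝ) < n := by exact_mod_cast h0
  rw [le_div_iff₀ hn]
  exact lb_aux n

theorem Om_le (n : ℕ) : Om n ≤ ss * (2 * Real.pi - n * (Real.pi / 3))
    - (if n = 4 then 2 * ss * Real.pi / 3 else 0)
    - (if n = 3 then tt * Real.pi / 2 + ss * Real.pi else 0) := by
  have hpi := Real.pi_pos
  have ht0 := Num.tt_pos
  have hss0 := Num.ss_pos
  unfold Om
  by_cases h3 : n = 3
  · rw [if_pos (by omega), if_neg (by omega), if_pos h3, h3]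
    push_cast
    linarith
  · rw [if_neg h3]
    by_cases hn : n ≤ 3
    · rw [if_pos hn, if_neg (by omega)]
      have h4 : (n : ℝ) ≤ 2 := by
        have : n ≤ 2 := by omega
        exact_mod_cast this
      have h5 : (0 : ℝ) ≤ n := Nat.cast_nonneg n
      have h6 : 0 ≤ (tt * Real.pi / 6) * n := by positivity
      have h7 : 0 ≤ ss * (Real.pi * (2 - (n : ℝ) / 3)) := by
        apply mul_nonneg hss0.le
        apply mul_nonneg hpi.le
        linarith
      nlinarith [h6, h7]
    · rw [if_neg hn]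
      by_cases h4 : n = 4
      · rw [if_pos h4, if_pos h4, h4]
        push_cast
        linarith
      · rw [if_neg h4, if_neg h4]
        linarith

end Y4

end BccP
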