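import Pool.Agent.PEN.T2
import Pool.Agent.PEN.Y4
import Pool.Agent.PEN.E1
import Pool.Agent.MP_bf7174_co.O.R1

/-!
[PEN-Y5] the weights of the incident pairs.

PROOF. `lb`: for `x ∈ t`, `t.card = 4`, exactly three pairs `m ∈ t.powersetCard 2` contain `x` (`BccO.six_sum` after
`BccO.exists_label`, O/R1.lean, or `Finset.card`), each contributes `≥ -ss π/3` (`Y4.Om_lb`):
`5cc/4 - ½·3·ss π/3 = 0.1192568 - 0.0545088 = 0.06475 ≥ 3/50`.
`vol`: `Σ_{x∈t} Σ_{m∋x} = 2 Σ_m` (`Finset.sum_comm`, each `m` has two points, both in `t`), so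
`Σ_x qq = r³ (5cc + Σ_m Om(val m)/val m)` (`t.card = 4`), and `wq t m = r³ (WW (tdih t m) - Om(val m)/val m)`, so the
right side is `r³ (5cc + Σ_m WW (tdih t m))`; the inequality is `T2.local_WW` as in Z1.lean (finished
file: see the proof of `hvol` in `BccP.Z1.main`): `t = {x,y,z,w}`, `vol_tet`, `six_sum`, `six_dih`.
`edge`: `angle_sum`, `Y4.sum_le`, `val D m = s.card`, `s.card • (Om n / n) = Om n` (`n ≠ 0` because
`∃ t ∈ D, m ⊆ t`).
`abs`: `tdih_facts.2.1` (`0 ≤ tdih t m ≤ π`), `E1.WW_abs`-type bound `|WW θ| ≤ 1` for `0 ≤ θ ≤ π` (import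
`Pool.Agent.PEN.E1`), `Y4.Om_abs`.
-/

set_option autoImplicit false

open MeasureTheory

namespace BccP

open BccCov BccO

/-- number of tetrahedra at the edge `m` -/
noncomputable def val (D : Set (Finset E3)) (m : Finset E3) : ℕ := {t | t ∈ D ∧ m ⊆ t}.ncard

/-- weight of the pair (tetrahedron `t`, vertex `x`) -/
noncomputable def qq (r : ℝ) (D : Set (Finset E3)) (t : Finset E3) (x : E3) : ℝ :=
  r ^ 3 * (5 * cc / 4 + 1 / 2 * ∑ m ∈ t.powersetCard 2,
    (open Classical in if x ∈ m then Om (val D m) / (val D m : ℝ) else 0))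

/-- weight of the pair (tetrahedron `t`, edge `m`) -/
noncomputable def wq (r : ℝ) (D : Set (Finset E3)) (t m : Finset E3) : ℝ :=
  r ^ 3 * (WW (tdih t m) - Om (val D m) / (val D m : ℝ))

namespace Y5

theorem lb (r : ℝ) (hr : 0 < r) (D : Set (Finset E3)) (t : Finset E3) (ht : t.card = 4) (x : E3)
    (hx : x ∈ t) : 3 / 50 * r ^ 3 ≤ qq r D t x := by
  classical
  obtain ⟨y, z, w, hxyzw⟩ := exists_label ht hx
  obtain ⟨hxy, hxz, hxw, hyz, hyw, hzw⟩ := BccCov.S.distinct ht hxyzw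
  unfold qq
  rw [six_sum ht hxyzw]
  simp only [Finset.mem_insert, Finset.mem_singleton, hxy, hxz, hxw, true_or, or_self, if_true,
    if_false, add_zero]
  have h1 := Y4.Om_lb (val D {x, y})
  have h2 := Y4.Om_lb (val D {x, z})
  have h3 := Y4.Om_lb (val D {x, w})
  have h4 : ss * Real.pi ≤ 0.0347020 * 3.141593 :=
    mul_le_mul Num.ss_ub Real.pi_lt_d6.le Real.pi_pos.le (by norm_num)
  have h5 := Num.cc_lb
  have hr3 : 0 ≤ r ^ 3 := by positivity
  rw [mul_comm (3 / 50 : ℝ)]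
  refine mul_le_mul_of_nonneg_left ?_ hr3
  norm_num at h4 h5
  linarith

theorem vol {X : Set E3} {D : Set (Finset E3)} {r : ℝ} (hr : 0 < r) (hT : IsTriangulation X D)
    (hI : ∀ t ∈ D, Inscribed t r) (t : Finset E3) (ht : t ∈ D) :
    (volume (convexHull ℝ (t : Set E3))).toReal
      ≤ ∑ x ∈ t, qq r D t x + ∑ m ∈ t.powersetCard 2, wq r D t m := by
  classical
  have hc := hT.card_eq t ht
  obtain ⟨x, hx⟩ : t.Nonempty := Finset.card_pos.1 (by omega)
  obtain ⟨y, z, w, hxyzw⟩ := exists_label hc hx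
  obtain ⟨hxy, hxz, hxw, hyz, hyw, hzw⟩ := BccCov.S.distinct hc hxyzw
  obtain ⟨o, ρ, hρ, ho⟩ := hI t ht
  have hy : y ∈ t := by rw [← Finset.mem_coe, hxyzw]; simp
  have hz : z ∈ t := by rw [← Finset.mem_coe, hxyzw]; simp
  have hw : w ∈ t := by rw [← Finset.mem_coe, hxyzw]; simp
  have hdet := tdih_facts.2.2 x y z w t hc hxyzw (hT.indep t ht)
  have hloc := T2.local_WW x y z w o ρ r hρ (ho x hx) (ho y hy) (ho z hz) (ho w hw) hdet
  obtain ⟨d1, d2, d3, d4, d5, d6⟩ := six_dih hc hxyzw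
  unfold qq wq
  rw [sum_four hc hxyzw]
  simp only [six_sum hc hxyzw]
  rw [d1, d2, d3, d4, d5, d6, hxyzw, BccCov.V.vol_tet, ENNReal.toReal_ofReal (by positivity)]
  simp only [Finset.mem_insert, Finset.mem_singleton, hxy, hxz, hxw, hyz, hyw, hzw, hxy.symm,
    hxz.symm, hxw.symm, hyz.symm, hyw.symm, hzw.symm, true_or, or_true, or_self, if_true,
    if_false, add_zero, zero_add]
  refine hloc.trans (le_of_eq ?_)
  ring

theorem edge {X : Set E3} {D : Set (Finset E3)} {r : ℝ} (hr : 0 < r) (hT : IsTriangulation X D)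
    (hI : ∀ t ∈ D, Inscribed t r) (hfin : ∀ R : ℝ, (X ∩ Metric.closedBall (0 : E3) R).Finite)
    (m : Finset E3) (s : Finset (Finset E3)) (hm : m.card = 2) (hmD : ∃ t ∈ D, m ⊆ t)
    (hs : ∀ t, t ∈ s ↔ t ∈ D ∧ m ⊆ t) : ∑ t ∈ s, wq r D t m ≤ 0 := by
  classical
  unfold wq
  rw [← Finset.mul_sum, Finset.sum_sub_distrib]
  have h1 := Y4.sum_le s (fun t => tdih t m) (BccCov.A.angle_sum hT hI hfin m hm hmD s hs)
  have h2 : {t | t ∈ D ∧ m ⊆ t} = (s : Set (Finset E3)) := by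
    ext t
    rw [Set.mem_ofPred_eq, Finset.mem_coe, hs t]
  have h3 : val D m = s.card := by
    unfold val
    rw [h2, Set.ncard_coe_finset]
  obtain ⟨t, ht, hmt⟩ := hmD
  have hts : t ∈ s := (hs t).2 ⟨ht, hmt⟩
  have h4 : 0 < s.card := Finset.card_pos.2 ⟨t, hts⟩
  have h5 : (0 : ℝ) < s.card := by exact_mod_cast h4
  rw [h3, Finset.sum_const, nsmul_eq_mul]
  have h6 : (s.card : ℝ) * (Om s.card / (s.card : ℝ)) = Om s.card := by
    field_simp
  rw [h6]
  exact mul_nonpos_of_nonneg_of_nonpos (by positivity) (by linarith)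

theorem abs_le (r : ℝ) (hr : 0 < r) (D : Set (Finset E3)) (t m : Finset E3) :
    |wq r D t m| ≤ 2 * r ^ 3 := by
  have hr3 : 0 < r ^ 3 := by positivity
  unfold wq
  rw [abs_mul, abs_of_pos hr3, mul_comm (2 : ℝ)]
  refine mul_le_mul_of_nonneg_left ?_ hr3.le
  have h1 := E1.WW_abs (tdih t m) (tdih_facts.2.1 t m).1 (tdih_facts.2.1 t m).2
  have h2 := Y4.Om_abs (val D m)
  have h3 := abs_sub (WW (tdih t m)) (Om (val D m) / (val D m : ℝ))
  linarith

end Y5

end BccP
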