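import Pool.Agent.PEN.Z3

/-!
[PEN-Z5] Euler's relation at a vertex: `#(tetrahedra at v) + 4 ≤ 2 #(edges at v)` (in fact equality).

PROOF. `tsol t v = Σ_{m ∋ v, m ⊆ t, |m| = 2} tdih t m - π` (definition of `tsol`, O/R1.lean). Sum over `t ∈ s` and
exchange the sums (`Finset.sum_comm'`): `Σ_{m ∈ e} Σ_{t ⊇ m} tdih t m = 2π e.card` (`BccCov.angle_sum`, see
`MP_bf7174_co/T.lean` for its use; every `t ∈ D` with `m ⊆ t` contains `v`). With `Z3.ge`:
`4π ≤ 2π e.card - π s.card`.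
-/

set_option autoImplicit false

open scoped InnerProductSpace
open MeasureTheory

namespace BccP.Z5

open BccCov BccO

theorem euler {X : Set E3} {D : Set (Finset E3)} {r : ℝ} (hT : IsTriangulation X D)
    (hI : ∀ t ∈ D, Inscribed t r) (hfin : ∀ R : ℝ, (X ∩ Metric.closedBall (0 : E3) R).Finite)
    (v : E3) (hv : ∃ t ∈ D, v ∈ t) (s : Finset (Finset E3)) (hs : ∀ t, t ∈ s ↔ t ∈ D ∧ v ∈ t)
    (e : Finset (Finset E3)) (he : ∀ m, m ∈ e ↔ m.card = 2 ∧ v ∈ m ∧ ∃ t ∈ D, m ⊆ t) :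
    s.card + 4 ≤ 2 * e.card := by
  classical
  have hpi := Real.pi_pos
  have h1 := Z3.ge hT hI hfin v hv s hs
  have h2 : ∀ t ∈ s, tsol t v = ∑ m ∈ (t.powersetCard 2).filter (fun m => v ∈ m), tdih t m - Real.pi := by
    intro t _
    rw [tsol, Finset.sum_filter]
  rw [Finset.sum_congr rfl h2, Finset.sum_sub_distrib, Finset.sum_const, nsmul_eq_mul] at h1
  rw [Finset.sum_comm' (s' := fun m => s.filter (fun t => m ⊆ t)) (t' := e) (by
    intro t m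
    simp only [Finset.mem_filter, Finset.mem_powersetCard, he]
    constructor
    · rintro ⟨h1, ⟨h2, h3⟩, h4⟩
      exact ⟨⟨h1, h2⟩, h3, h4, t, ((hs t).1 h1).1, h2⟩
    · rintro ⟨⟨h1, h2⟩, h3, h4, h5⟩
      exact ⟨h1, ⟨h2, h3⟩, h4⟩)] at h1
  have h3 : ∀ m ∈ e, ∑ t ∈ s.filter (fun t => m ⊆ t), tdih t m = 2 * Real.pi := by
    intro m hm
    obtain ⟨hc, hvm, hD⟩ := (he m).1 hm
    refine angle_sum hT hI hfin m hc hD _ fun t => ?_
    rw [Finset.mem_filter, hs]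
    exact ⟨fun h => ⟨h.1.1, h.2⟩, fun h => ⟨⟨h.1, h.2 hvm⟩, h.2⟩⟩
  rw [Finset.sum_congr rfl h3, Finset.sum_const, nsmul_eq_mul] at h1
  have h4 : ((s.card : ℝ) + 4) * Real.pi ≤ (2 * (e.card : ℝ)) * Real.pi := by linarith
  have h5 := le_of_mul_le_mul_right h4 hpi
  exact_mod_cast h5

end BccP.Z5
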