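import Pool.Agent.PEN.Z1
import Pool.Agent.PEN.Z5

/-!
[PEN-Z4] the pentagon theorem in terms of the average numbers of faces and of pentagonal faces of the
Voronoi cells (`nf D x` = number of edges of `D` at `x`, `np D x` = number of those in exactly five
tetrahedra).

PROOF. `Z1.main` with `τ = (φ - 2)/2` (`6/τ = 12/(φ-2)`). Let `X` be locally finite, `Y = X ∩ {p ≤ R}` (finite:
`‖x‖ ≤ 2 p x`), `T`, `E5` the two finite sets of `Z1.main` (finite by `BccCov.finiteness`). Double counting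
(`Finset.sum_comm'` or `Finset.sum_card_bipartiteAbove_eq_sum_card_bipartiteBelow`):
`4 T ≤ Σ_{x∈Y} n(x)`, `n(x)` = number of tetrahedra at `x` (all four vertices of `t ∈ T` lie in `Y`), and
`n(x) + 4 ≤ 2 nf D x` (`Z5.euler`, `hV`); `2 E5 ≤ Σ_{x∈Y} np D x`. So `T + E5/13 ≤ ¼ Σ (2 nf - 4) + (1/26) Σ np =
½ Σ (nf + np/13) - #Y ≤ (φ/2 - 1) #Y`.
-/

set_option autoImplicit false

namespace BccP

open BccCov BccO

/-- number of edges of `D` at `x` (number of faces of the Voronoi cell of `x`) -/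
noncomputable def nf (D : Set (Finset E3)) (x : E3) : ℕ :=
  {m : Finset E3 | m.card = 2 ∧ x ∈ m ∧ ∃ t ∈ D, m ⊆ t}.ncard

/-- number of edges of `D` at `x` which lie in exactly five tetrahedra (number of pentagonal faces) -/
noncomputable def np (D : Set (Finset E3)) (x : E3) : ℕ :=
  {m : Finset E3 | m.card = 2 ∧ x ∈ m ∧ {t | t ∈ D ∧ m ⊆ t}.encard = 5}.ncard

namespace Z4

theorem fin_nf {X : Set E3} {D : Set (Finset E3)} {r : ℝ} (hT : IsTriangulation X D)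
    (hI : ∀ t ∈ D, Inscribed t r) (hfin : ∀ R : ℝ, (X ∩ Metric.closedBall (0 : E3) R).Finite)
    (x : E3) : {m : Finset E3 | m.card = 2 ∧ x ∈ m ∧ ∃ t ∈ D, m ⊆ t}.Finite := by
  classical
  obtain ⟨-, -, hF3, -⟩ := finiteness hT hI hfin
  have h1 := hF3 {x} (Finset.singleton_nonempty x)
  refine (((h1.toFinset.biUnion (fun t => t.powersetCard 2)).finite_toSet).subset ?_)
  rintro m ⟨hc, hx, t, ht, hmt⟩
  rw [Finset.mem_coe, Finset.mem_biUnion]
  refine ⟨t, ?_, Finset.mem_powersetCard.mpr ⟨hmt, hc⟩⟩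
  rw [Set.Finite.mem_toFinset]
  exact ⟨ht, Finset.singleton_subset_iff.mpr (hmt hx)⟩

theorem main {p : E3 → ℝ} {v : ℝ} (hp : Gauge p v) (X : Set E3) (r : ℝ) (hr : 0 < r)
    (D : Set (Finset E3)) (hT : IsTriangulation X D) (hI : ∀ t ∈ D, Inscribed t r)
    (hV : ∀ x ∈ X, ∃ t ∈ D, x ∈ t) (φ : ℝ) (hφ : 2 < φ)
    (h : ∀ᶠ R in Filter.atTop,
      ∑ᶠ x ∈ X ∩ {x | p x ≤ R}, ((nf D x : ℝ) + (np D x : ℝ) / 13)
        ≤ φ * (((X ∩ {x | p x ≤ R}).ncard : ℕ) : ℝ)) :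
    ENNReal.ofReal (12 / (φ - 2) * (5 * Real.sqrt 5 * Real.pi / 24)) ≤
      Filter.liminf
        (fun R : ℝ =>
          ENat.toENNReal (X ∩ {x | p x ≤ R}).encard *
            MeasureTheory.volume (Metric.closedBall (0 : EuclideanSpace ℝ (Fin 3)) r) /
            MeasureTheory.volume {x | p x ≤ R})
        Filter.atTop := by
  classical
  have hτ : 0 < (φ - 2) / 2 := by linarith
  have e1 : 12 / (φ - 2) = 6 / ((φ - 2) / 2) := by
    have : φ - 2 ≠ 0 := by linarith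
    field_simp
    norm_num
  rw [e1]
  refine Z1.main hp X r hr D hT hI ((φ - 2) / 2) hτ fun hfin => ?_
  filter_upwards [h] with R hR
  have hY : (X ∩ {x | p x ≤ R}).Finite := by
    refine (hfin (2 * R)).subset fun x hx => ⟨hx.1, ?_⟩
    rw [mem_closedBall_zero_iff]
    have h1 := hp.bdd x
    have h2 : p x ≤ R := hx.2
    linarith
  have hYm : ∀ x, x ∈ hY.toFinset ↔ x ∈ X ∧ p x ≤ R := by
    intro x
    rw [Set.Finite.mem_toFinset]
    exact Iff.rfl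
  rw [finsum_mem_eq_finite_toFinset_sum _ hY] at hR
  have hYc : (X ∩ {x | p x ≤ R}).ncard = hY.toFinset.card := Set.ncard_eq_toFinset_card _ hY
  have hTf := C1.c1_fS hp hT hI hfin R
  have hEf : {m : Finset E3 | m.card = 2 ∧ (∀ x ∈ m, p x ≤ R) ∧
      {t | t ∈ D ∧ m ⊆ t}.encard = 5}.Finite := by
    refine (C1.c1_fM hp hT hI hfin R).subset ?_
    rintro m ⟨h1, h2, h3⟩
    have h4 : {t | t ∈ D ∧ m ⊆ t}.Nonempty := by
      rw [← Set.encard_pos, h3]
      norm_num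
    obtain ⟨t, ht⟩ := h4
    exact ⟨h1, ⟨t, ht.1, ht.2⟩, h2⟩
  have hTm : ∀ t, t ∈ hTf.toFinset ↔ t ∈ D ∧ ∀ x ∈ t, p x ≤ R := by
    intro t
    rw [Set.Finite.mem_toFinset]
    exact Iff.rfl
  have hEm : ∀ m, m ∈ hEf.toFinset ↔ m.card = 2 ∧ (∀ x ∈ m, p x ≤ R) ∧
      {t | t ∈ D ∧ m ⊆ t}.encard = 5 := by
    intro m
    rw [Set.Finite.mem_toFinset]
    exact Iff.rfl
  rw [Set.ncard_eq_toFinset_card _ hTf, Set.ncard_eq_toFinset_card _ hEf, hYc]
  rw [hYc] at hR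
  set Y := hY.toFinset with hYdef
  set T := hTf.toFinset with hTdef
  set E := hEf.toFinset with hEdef
  -- tetrahedra
  have a1 : ∑ t ∈ T, t.card = ∑ x ∈ Y, (T.filter (fun t => x ∈ t)).card := by
    simp only [Finset.card_eq_sum_ones]
    refine Finset.sum_comm' fun t x => ?_
    simp only [Finset.mem_filter]
    refine ⟨fun h => ⟨⟨h.1, h.2⟩, ?_⟩, fun h => ⟨h.1.1, h.1.2⟩⟩
    have h1 := (hTm t).1 h.1
    exact (hYm x).2 ⟨hT.vertices t h1.1 x h.2, h1.2 x h.2⟩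
  have a2 : ∑ t ∈ T, t.card = 4 * T.card := by
    rw [Finset.sum_congr rfl (fun t ht => hT.card_eq t ((hTm t).1 ht).1), Finset.sum_const, smul_eq_mul,
      mul_comm]
  have a3 : ∀ x ∈ Y, (T.filter (fun t => x ∈ t)).card + 4 ≤ 2 * nf D x := by
    intro x hx
    obtain ⟨hxX, hxR⟩ := (hYm x).1 hx
    obtain ⟨-, -, hF3, -⟩ := finiteness hT hI hfin
    have h1 := hF3 {x} (Finset.singleton_nonempty x)
    have h2 : ∀ t, t ∈ h1.toFinset ↔ t ∈ D ∧ x ∈ t := by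
      intro t
      rw [Set.Finite.mem_toFinset]
      exact ⟨fun h => ⟨h.1, Finset.singleton_subset_iff.1 h.2⟩,
        fun h => ⟨h.1, Finset.singleton_subset_iff.2 h.2⟩⟩
    have h3 := fin_nf hT hI hfin x
    have h4 : ∀ m, m ∈ h3.toFinset ↔ m.card = 2 ∧ x ∈ m ∧ ∃ t ∈ D, m ⊆ t := by
      intro m
      rw [Set.Finite.mem_toFinset]
      exact Iff.rfl
    have h5 := Z5.euler hT hI hfin x (hV x hxX) h1.toFinset h2 h3.toFinset h4
    have h6 : nf D x = h3.toFinset.card := Set.ncard_eq_toFinset_card _ h3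
    have h7 : (T.filter (fun t => x ∈ t)).card ≤ h1.toFinset.card := by
      refine Finset.card_le_card fun t ht => ?_
      rw [Finset.mem_filter] at ht
      exact (h2 t).2 ⟨((hTm t).1 ht.1).1, ht.2⟩
    omega
  have a4 : 4 * T.card + 4 * Y.card ≤ 2 * ∑ x ∈ Y, nf D x := by
    rw [← a2, a1, Finset.mul_sum]
    have := Finset.sum_le_sum a3
    rw [Finset.sum_add_distrib, Finset.sum_const, smul_eq_mul] at this
    omega
  -- edges
  have b1 : ∑ m ∈ E, m.card = ∑ x ∈ Y, (E.filter (fun m => x ∈ m)).card := by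
    simp only [Finset.card_eq_sum_ones]
    refine Finset.sum_comm' fun m x => ?_
    simp only [Finset.mem_filter]
    refine ⟨fun h => ⟨⟨h.1, h.2⟩, ?_⟩, fun h => ⟨h.1.1, h.1.2⟩⟩
    obtain ⟨h1, h2, h3⟩ := (hEm m).1 h.1
    have h4 : {t | t ∈ D ∧ m ⊆ t}.Nonempty := by
      rw [← Set.encard_pos, h3]
      norm_num
    obtain ⟨t, ht⟩ := h4
    exact (hYm x).2 ⟨hT.vertices t ht.1 x (ht.2 h.2), h2 x h.2⟩
  have b2 : ∑ m ∈ E, m.card = 2 * E.card := by
    rw [Finset.sum_congr rfl (fun m hm => ((hEm m).1 hm).1), Finset.sum_const, smul_eq_mul, mul_comm]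
  have b3 : ∀ x ∈ Y, (E.filter (fun m => x ∈ m)).card ≤ np D x := by
    intro x hx
    have h3 : {m : Finset E3 | m.card = 2 ∧ x ∈ m ∧ {t | t ∈ D ∧ m ⊆ t}.encard = 5}.Finite := by
      refine (fin_nf hT hI hfin x).subset ?_
      rintro m ⟨h1, h2, h3⟩
      have h4 : {t | t ∈ D ∧ m ⊆ t}.Nonempty := by
        rw [← Set.encard_pos, h3]
        norm_num
      obtain ⟨t, ht⟩ := h4
      exact ⟨h1, h2, t, ht.1, ht.2⟩
    have h6 : np D x = h3.toFinset.card := Set.ncard_eq_toFinset_card _ h3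
    rw [h6]
    refine Finset.card_le_card fun m hm => ?_
    rw [Finset.mem_filter, hEm] at hm
    rw [Set.Finite.mem_toFinset]
    exact ⟨hm.1.1, hm.2, hm.1.2.2⟩
  have b4 : 2 * E.card ≤ ∑ x ∈ Y, np D x := by
    rw [← b2, b1]
    exact Finset.sum_le_sum b3
  have c1 : (4 : ℝ) * T.card + 4 * Y.card ≤ 2 * ∑ x ∈ Y, (nf D x : ℝ) := by exact_mod_cast a4
  have c2 : (2 : ℝ) * E.card ≤ ∑ x ∈ Y, (np D x : ℝ) := by exact_mod_cast b4
  rw [Finset.sum_add_distrib, ← Finset.sum_div] at hR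
  linarith

end Z4

end BccP
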