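import Pool.Agent.PEN.Y5
import Pool.Agent.PEN.Z4

/-!
[PEN-Y6] the total weight at a vertex, from Euler's relation.

PROOF. `s` = the (finite) set of tetrahedra at `x`, `e` = the (finite, `Z4.fin_nf`) set of edges at `x`,
`e.card = nf D x`. Exchange of sums as in Z5.lean (finished file): `Σ_{t∈s} qq r D t x =
r³ (5cc/4 · s.card + ½ Σ_{m∈e} Σ_{t∈s, m⊆t} Om(val m)/val m) = r³ (5cc/4 · s.card + ½ Σ_{m∈e} Om (val D m))`, because
`#{t ∈ s | m ⊆ t} = val D m ≠ 0`. Also `Σ_{m∈e} val D m = 3 s.card` (every `t ∈ s` has exactly three `m ⊆ t` with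
`x ∈ m`, `m.card = 2`). By `Y4.Om_le`: `Σ_{m∈e} Om (val m) ≤ ss (2π e.card - π s.card) - (2 ss π/3) n4 -
(tt π/2 + ss π) n3` with `n4 = nv D 4 x` etc. (filters of `e`). `s.card + 4 ≤ 2 e.card` (`Z5.euler`) and
`5cc/4 - ss π/2 ≥ 0`, so the total is `≤ r³ (5cc (e-2)/2 + (ss π/3)(6 - n4) - ½ (tt π/2 + ss π) n3)`; finally
`ss π/3 = 5cc · (7 √3 π/500)` (`√15 = √3 √5`) and `½ (tt π/2 + ss π) ≥ cc` (`0.0979 ≥ 0.0955`).
-/

set_option autoImplicit false

namespace BccP

open BccCov BccO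

/-- number of edges of `D` at `x` which lie in exactly `k` tetrahedra (number of `k`-gonal faces of the
Voronoi cell of `x`) -/
noncomputable def nv (D : Set (Finset E3)) (k : ℕ) (x : E3) : ℕ :=
  {m : Finset E3 | m.card = 2 ∧ x ∈ m ∧ {t | t ∈ D ∧ m ⊆ t}.encard = k}.ncard

namespace Y6

theorem y6_three (t : Finset E3) (ht : t.card = 4) (x : E3) (hx : x ∈ t) :
    ((open Classical in (t.powersetCard 2).filter (fun m => x ∈ m))).card = 3 := by
  classical
  have h1 := Finset.card_filter_add_card_filter_not (s := t.powersetCard 2) (fun m => x ∈ m)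
  have h2 : (t.powersetCard 2).filter (fun m => ¬ x ∈ m) = (t.erase x).powersetCard 2 := by
    ext m
    simp only [Finset.mem_filter, Finset.mem_powersetCard, Finset.subset_erase]
    tauto
  rw [h2, Finset.card_powersetCard, Finset.card_powersetCard, Finset.card_erase_of_mem hx, ht] at h1
  have h3 : Nat.choose (4 - 1) 2 = 3 := by decide
  have h4 : Nat.choose 4 2 = 6 := by decide
  rw [h3, h4] at h1
  convert (by omega : ((t.powersetCard 2).filter (fun m => x ∈ m)).card = 3) using 2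

theorem y6_const : ss * Real.pi / 3 = 5 * cc * (7 * √3 * Real.pi / 500) := by
  unfold ss cc
  have h1 : √15 = √3 * √5 := by
    rw [← Real.sqrt_mul (by norm_num)]
    norm_num
  rw [h1]
  ring

theorem y6_num (r S E n3 n4 W : ℝ) (hr : 0 < r) (hn3 : 0 ≤ n3) (hS : S + 4 ≤ 2 * E)
    (hW : W ≤ ss * (2 * Real.pi * E - Real.pi * S) - 2 * ss * Real.pi / 3 * n4
      - (tt * Real.pi / 2 + ss * Real.pi) * n3) :
    r ^ 3 * (5 * cc / 4 * S + 1 / 2 * W) ≤ 5 * cc * r ^ 3 * ((E - 2) / 2 +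
      7 * √3 * Real.pi / 500 * (6 - n4) - 1 / 5 * n3) := by
  have h0 := y6_const
  have hcl := Num.cc_lb
  have hcu := Num.cc_ub
  have hsl := Num.ss_lb
  have hsu := Num.ss_ub
  have htl := Num.tt_lb
  have hpl := Real.pi_gt_d6
  have hpu := Real.pi_lt_d6
  have hr3 : 0 < r ^ 3 := by positivity
  have h1 : 0 ≤ 5 * cc / 4 - ss * Real.pi / 2 := by
    have : ss * Real.pi ≤ 0.0347020 * 3.141593 :=
      mul_le_mul hsu hpu.le Real.pi_pos.le (by norm_num)
    norm_num at this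
    linarith
  have h2 : cc ≤ 1 / 2 * (tt * Real.pi / 2 + ss * Real.pi) := by
    have h3 : 0.0553351 * 3.141592 ≤ tt * Real.pi :=
      mul_le_mul htl hpl.le (by norm_num) (by linarith)
    have h4 : 0.0347019 * 3.141592 ≤ ss * Real.pi :=
      mul_le_mul hsl hpl.le (by norm_num) (by linarith)
    norm_num at h3 h4
    linarith
  have h5 : (5 * cc / 4 - ss * Real.pi / 2) * S ≤ (5 * cc / 4 - ss * Real.pi / 2) * (2 * E - 4) :=
    mul_le_mul_of_nonneg_left (by linarith) h1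
  have h6 : cc * n3 ≤ 1 / 2 * (tt * Real.pi / 2 + ss * Real.pi) * n3 :=
    mul_le_mul_of_nonneg_right h2 hn3
  have h7 : 5 * cc / 4 * S + 1 / 2 * W ≤ 5 * cc * ((E - 2) / 2 +
      7 * √3 * Real.pi / 500 * (6 - n4) - 1 / 5 * n3) := by
    have h8 : 5 * cc * ((E - 2) / 2 + 7 * √3 * Real.pi / 500 * (6 - n4) - 1 / 5 * n3) =
        5 * cc * ((E - 2) / 2) + (5 * cc * (7 * √3 * Real.pi / 500)) * (6 - n4) - cc * n3 := by
      ring
    rw [h8, ← h0]
    linarith
  have h9 := mul_le_mul_of_nonneg_left h7 hr3.le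
  linarith

theorem vertex {X : Set E3} {D : Set (Finset E3)} {r : ℝ} (hr : 0 < r) (hT : IsTriangulation X D)
    (hI : ∀ t ∈ D, Inscribed t r) (hfin : ∀ R : ℝ, (X ∩ Metric.closedBall (0 : E3) R).Finite)
    (x : E3) (hx : ∃ t ∈ D, x ∈ t) :
    ∑ᶠ t ∈ {t | t ∈ D ∧ x ∈ t}, qq r D t x ≤ 5 * cc * r ^ 3 * (((nf D x : ℝ) - 2) / 2 +
      7 * √3 * Real.pi / 500 * (6 - (nv D 4 x : ℝ)) - 1 / 5 * (nv D 3 x : ℝ)) := by
  classical
  obtain ⟨-, -, hF3, -⟩ := finiteness hT hI hfin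
  have hfs : {t | t ∈ D ∧ x ∈ t}.Finite := by
    refine (hF3 {x} (Finset.singleton_nonempty x)).subset ?_
    rintro t ⟨h1, h2⟩
    exact ⟨h1, Finset.singleton_subset_iff.2 h2⟩
  have hs : ∀ t, t ∈ hfs.toFinset ↔ t ∈ D ∧ x ∈ t := by
    intro t
    rw [Set.Finite.mem_toFinset]
    exact Iff.rfl
  have hfe := Z4.fin_nf hT hI hfin x
  have he : ∀ m, m ∈ hfe.toFinset ↔ m.card = 2 ∧ x ∈ m ∧ ∃ t ∈ D, m ⊆ t := by
    intro m
    rw [Set.Finite.mem_toFinset]
    exact Iff.rfl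
  have heu := Z5.euler hT hI hfin x hx hfs.toFinset hs hfe.toFinset he
  have hnf : nf D x = hfe.toFinset.card := Set.ncard_eq_toFinset_card _ hfe
  rw [finsum_mem_eq_finite_toFinset_sum _ hfs]
  generalize hsdef : hfs.toFinset = s at hs heu ⊢
  generalize hedef : hfe.toFinset = e at he heu hnf
  -- the valences
  have hvs : ∀ m ∈ e, {t | t ∈ D ∧ m ⊆ t} = ((s.filter (fun t => m ⊆ t) : Finset (Finset E3)) :
      Set (Finset E3)) := by
    intro m hm
    obtain ⟨h1, h2, h3⟩ := (he m).1 hm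
    ext t
    rw [Finset.mem_coe, Finset.mem_filter, hs]
    exact ⟨fun h => ⟨⟨h.1, h.2 h2⟩, h.2⟩, fun h => ⟨h.1.1, h.2⟩⟩
  have hval : ∀ m ∈ e, val D m = (s.filter (fun t => m ⊆ t)).card := by
    intro m hm
    unfold val
    rw [hvs m hm, Set.ncard_coe_finset]
  have hval0 : ∀ m ∈ e, (val D m : ℝ) ≠ 0 := by
    intro m hm
    obtain ⟨h1, h2, t, ht, hmt⟩ := (he m).1 hm
    have h3 : 0 < (s.filter (fun t => m ⊆ t)).card := by
      apply Finset.card_pos.2
      refine ⟨t, ?_⟩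
      rw [Finset.mem_filter, hs]
      exact ⟨⟨ht, hmt h2⟩, hmt⟩
    rw [hval m hm]
    exact_mod_cast h3.ne'
  -- exchange of sums
  have hex : ∀ g : Finset E3 → ℝ, ∑ t ∈ s, ∑ m ∈ (t.powersetCard 2).filter (fun m => x ∈ m), g m =
      ∑ m ∈ e, (val D m : ℝ) * g m := by
    intro g
    rw [Finset.sum_comm' (s' := fun m => s.filter (fun t => m ⊆ t)) (t' := e) (by
      intro t m
      simp only [Finset.mem_filter, Finset.mem_powersetCard, he]
      constructor
      · rintro ⟨h1, ⟨h2, h3⟩, h4⟩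
        exact ⟨⟨h1, h2⟩, h3, h4, t, ((hs t).1 h1).1, h2⟩
      · rintro ⟨⟨h1, h2⟩, h3, h4, h5⟩
        exact ⟨h1, ⟨h2, h3⟩, h4⟩)]
    refine Finset.sum_congr rfl fun m hm => ?_
    rw [Finset.sum_const, nsmul_eq_mul, hval m hm]
  have hsum : ∑ t ∈ s, qq r D t x = r ^ 3 * (5 * cc / 4 * (s.card : ℝ) +
      1 / 2 * ∑ m ∈ e, Om (val D m)) := by
    have h1 : ∀ t ∈ s, qq r D t x = r ^ 3 * (5 * cc / 4) + r ^ 3 * (1 / 2) *
        ∑ m ∈ (t.powersetCard 2).filter (fun m => x ∈ m), Om (val D m) / (val D m : ℝ) := by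
      intro t _
      unfold qq
      rw [Finset.sum_filter]
      have h2 : ∑ m ∈ t.powersetCard 2, (open Classical in
          if x ∈ m then Om (val D m) / (val D m : ℝ) else 0) =
          ∑ m ∈ t.powersetCard 2, (if x ∈ m then Om (val D m) / (val D m : ℝ) else 0) := by
        refine Finset.sum_congr rfl fun m _ => ?_
        split_ifs <;> rfl
      rw [h2]
      ring
    rw [Finset.sum_congr rfl h1, Finset.sum_add_distrib, Finset.sum_const, nsmul_eq_mul,
      ← Finset.mul_sum, hex]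
    have h3 : ∑ m ∈ e, (val D m : ℝ) * (Om (val D m) / (val D m : ℝ)) = ∑ m ∈ e, Om (val D m) := by
      refine Finset.sum_congr rfl fun m hm => ?_
      rw [mul_div_cancel₀ _ (hval0 m hm)]
    rw [h3]
    ring
  have hthree : ∑ m ∈ e, (val D m : ℝ) = 3 * (s.card : ℝ) := by
    have h1 := hex (fun _ => 1)
    simp only [mul_one] at h1
    rw [← h1]
    have h2 : ∀ t ∈ s, ∑ m ∈ (t.powersetCard 2).filter (fun m => x ∈ m), (1 : ℝ) = 3 := by
      intro t ht
      obtain ⟨h3, h4⟩ := (hs t).1 ht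
      rw [Finset.sum_const, nsmul_eq_mul, mul_one]
      have h5 := y6_three t (hT.card_eq t h3) x h4
      have h6 : ((t.powersetCard 2).filter (fun m => x ∈ m)).card = 3 := by
        convert h5
      rw [h6]
      norm_num
    rw [Finset.sum_congr rfl h2, Finset.sum_const, nsmul_eq_mul]
    ring
  have hnv : ∀ k : ℕ, k ≠ 0 → (nv D k x : ℝ) = ∑ m ∈ e, (if val D m = k then (1 : ℝ) else 0) := by
    intro k hk
    have h1 : {m : Finset E3 | m.card = 2 ∧ x ∈ m ∧ {t | t ∈ D ∧ m ⊆ t}.encard = k} =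
        ((e.filter (fun m => val D m = k) : Finset (Finset E3)) : Set (Finset E3)) := by
      ext m
      rw [Finset.mem_coe, Finset.mem_filter]
      constructor
      · rintro ⟨h2, h3, h4⟩
        have h5 : {t | t ∈ D ∧ m ⊆ t}.Nonempty := by
          rw [← Set.encard_pos, h4]
          exact_mod_cast Nat.pos_of_ne_zero hk
        obtain ⟨t, ht⟩ := h5
        refine ⟨(he m).2 ⟨h2, h3, t, ht.1, ht.2⟩, ?_⟩
        unfold val
        rw [Set.ncard_def, h4]
        rfl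
      · rintro ⟨h2, h3⟩
        obtain ⟨h4, h5, h6⟩ := (he m).1 h2
        refine ⟨h4, h5, ?_⟩
        have h7 : {t | t ∈ D ∧ m ⊆ t}.Finite := by
          rw [hvs m h2]
          exact Finset.finite_toSet _
        rw [← h7.cast_ncard_eq]
        unfold val at h3
        rw [h3]
    unfold nv
    rw [h1, Set.ncard_coe_finset, Finset.card_filter]
    push_cast
    rfl
  have hW : ∑ m ∈ e, Om (val D m) ≤ ss * (2 * Real.pi * (e.card : ℝ) - Real.pi * (s.card : ℝ))
      - 2 * ss * Real.pi / 3 * (nv D 4 x : ℝ)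
      - (tt * Real.pi / 2 + ss * Real.pi) * (nv D 3 x : ℝ) := by
    have h1 : ∑ m ∈ e, Om (val D m) ≤ ∑ m ∈ e, (ss * (2 * Real.pi - (val D m : ℝ) * (Real.pi / 3))
        - (if val D m = 4 then 2 * ss * Real.pi / 3 else 0)
        - (if val D m = 3 then tt * Real.pi / 2 + ss * Real.pi else 0)) :=
      Finset.sum_le_sum fun m _ => Y4.Om_le (val D m)
    refine le_trans h1 (le_of_eq ?_)
    rw [Finset.sum_sub_distrib, Finset.sum_sub_distrib, ← Finset.mul_sum, Finset.sum_sub_distrib,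
      Finset.sum_const, nsmul_eq_mul, ← Finset.sum_mul, hthree, hnv 4 (by norm_num),
      hnv 3 (by norm_num), Finset.mul_sum, Finset.mul_sum]
    have h2 : ∀ m ∈ e, (if val D m = 4 then 2 * ss * Real.pi / 3 else 0) =
        2 * ss * Real.pi / 3 * (if val D m = 4 then (1 : ℝ) else 0) := by
      intro m _
      split_ifs <;> ring
    have h3 : ∀ m ∈ e, (if val D m = 3 then tt * Real.pi / 2 + ss * Real.pi else 0) =
        (tt * Real.pi / 2 + ss * Real.pi) * (if val D m = 3 then (1 : ℝ) else 0) := by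
      intro m _
      split_ifs <;> ring
    rw [Finset.sum_congr rfl h2, Finset.sum_congr rfl h3]
    ring
  rw [hsum, hnf]
  refine y6_num r _ _ _ _ _ hr (Nat.cast_nonneg _) ?_ hW
  exact_mod_cast heu

end Y6

end BccP
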