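import Pool.Agent.PEN.Y3
import Pool.Agent.PEN.Y6

/-!
[PEN-Y7] the theorem on quadrilateral faces (windows `{x | p x ≤ R}`).

PROOF. `Y3.master` with `q = qq r D`, `q0 = 3/50 r³`, `wt = wq r D`, `C = 2 r³` (`Y5.lb`, `Y5.vol`, `Y5.edge`, `Y5.abs_le`),
`σ = 5 cc r³ (φ-2)/2`: by `Y6.vertex` and `hV`, with `Y = X ∩ {p ≤ R}` (finite),
`HH R ≤ 5cc r³ Σ_{x∈Y} ((nf-2)/2 + ..) = (5cc r³/2) (Σ_{x∈Y} (nf + 7√3π/250 (6 - n4) - 2/5 n3) - 2 #Y) ≤ σ #Y`
(see Z4.lean for the handling of `finsum` and `ncard`). `4/3 π r³/σ = 12/(φ-2)·5√5π/24` (`cc = 16√5/375`).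
-/

set_option autoImplicit false

namespace BccP.Y7

open BccCov BccO

theorem main {p : E3 → ℝ} {v : ℝ} (hp : Gauge p v) (X : Set E3) (r : ℝ) (hr : 0 < r)
    (D : Set (Finset E3)) (hT : IsTriangulation X D) (hI : ∀ t ∈ D, Inscribed t r)
    (hV : ∀ x ∈ X, ∃ t ∈ D, x ∈ t) (φ : ℝ) (hφ : 2 < φ)
    (h : ∀ᶠ R in Filter.atTop,
      ∑ᶠ x ∈ X ∩ {x | p x ≤ R}, ((nf D x : ℝ) + 7 * √3 * Real.pi / 250 * (6 - (nv D 4 x : ℝ))
          - 2 / 5 * (nv D 3 x : ℝ))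
        ≤ φ * (((X ∩ {x | p x ≤ R}).ncard : ℕ) : ℝ)) :
    ENNReal.ofReal (12 / (φ - 2) * (5 * Real.sqrt 5 * Real.pi / 24)) ≤
      Filter.liminf
        (fun R : ℝ =>
          ENat.toENNReal (X ∩ {x | p x ≤ R}).encard *
            MeasureTheory.volume (Metric.closedBall (0 : EuclideanSpace ℝ (Fin 3)) r) /
            MeasureTheory.volume {x | p x ≤ R})
        Filter.atTop := by
  have hφ2 : 0 < φ - 2 := by linarith
  have h5 : 0 < √(5 : ℝ) := Real.sqrt_pos.mpr (by norm_num)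
  have hcc : 0 < cc := by
    unfold cc
    positivity
  have hcc' : cc = 16 * √5 / 375 := by
    unfold cc
    ring
  have hr3 : 0 < r ^ 3 := by positivity
  have hσ : 0 < 5 * cc * r ^ 3 * ((φ - 2) / 2) := by positivity
  have e1 : 12 / (φ - 2) * (5 * Real.sqrt 5 * Real.pi / 24) =
      4 / 3 * Real.pi * r ^ 3 / (5 * cc * r ^ 3 * ((φ - 2) / 2)) := by
    have h55 : √(5 : ℝ) ^ 2 = 5 := Real.sq_sqrt (by norm_num)
    rw [eq_div_iff hσ.ne', hcc']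
    field_simp
    rw [h55]
    norm_num
  rw [e1]
  refine Y3.master hp hr hT hI (3 / 50 * r ^ 3) (2 * r ^ 3) (5 * cc * r ^ 3 * ((φ - 2) / 2))
    (by positivity) (by positivity) hσ (qq r D)
    (fun t ht x hx => Y5.lb r hr D t (hT.card_eq t ht) x hx) (wq r D)
    (fun t m => Y5.abs_le r hr D t m) (fun t ht => Y5.vol hr hT hI t ht)
    (fun hfin m s hm hmD hs => Y5.edge hr hT hI hfin m s hm hmD hs) fun hfin => ?_
  filter_upwards [h] with R hR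
  have hY : (X ∩ {x | p x ≤ R}).Finite := by
    refine (hfin (2 * R)).subset fun x hx => ⟨hx.1, ?_⟩
    rw [mem_closedBall_zero_iff]
    have h1 := hp.bdd x
    have h2 : p x ≤ R := hx.2
    linarith
  have hYc : (X ∩ {x | p x ≤ R}).ncard = hY.toFinset.card := Set.ncard_eq_toFinset_card _ hY
  unfold HH
  rw [finsum_mem_eq_finite_toFinset_sum _ hY] at hR ⊢
  rw [hYc] at hR ⊢
  have h1 : ∀ x ∈ hY.toFinset, ∑ᶠ t ∈ {t | t ∈ D ∧ x ∈ t}, qq r D t x ≤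
      5 * cc * r ^ 3 * (1 / 2 * ((nf D x : ℝ) + 7 * √3 * Real.pi / 250 * (6 - (nv D 4 x : ℝ))
          - 2 / 5 * (nv D 3 x : ℝ)) - 1) := by
    intro x hx
    rw [Set.Finite.mem_toFinset] at hx
    refine (Y6.vertex hr hT hI hfin x (hV x hx.1)).trans (le_of_eq ?_)
    ring
  refine (Finset.sum_le_sum h1).trans ?_
  rw [← Finset.mul_sum, Finset.sum_sub_distrib, ← Finset.mul_sum, Finset.sum_const, nsmul_eq_mul,
    mul_one, mul_assoc (5 * cc * r ^ 3)]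
  refine mul_le_mul_of_nonneg_left ?_ (by positivity)
  linarith

end BccP.Y7
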