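import Pool.Agent.PEN.T2
import Pool.Agent.PEN.E1
import Pool.Agent.PEN.C2
import Pool.Agent.MP_bf7174_co.O.R1

/-!
[PEN-Z1] the pentagon theorem (windows `{x | p x ≤ R}`).

PROOF. `C2.master` with `K = 5 cc r³/13`, `kt = 13`, `ke m = if {t | t ∈ D ∧ m ⊆ t}.encard = 5 then 1 else 0`,
`wt t m = r³ WW (tdih t m)`, `C = r³` (`E1.WW_abs`, `tdih_bounds`), `σ = 13 τ`;
`4/3 π r³/(5 cc r³ τ) = (6/τ)·5√5π/24` (`cc = 16√5/375`).
`hvol`: as in `BccCov.T.hvol` (`MP_bf7174_co/T.lean`): `t = {x,y,z,w}`, `vol_tet`, `tdih_facts`, `T2.local_WW`; the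
sum over `t.powersetCard 2` is the sum over the six pairs (`BccO.six_sum`, `BccO.six_dih` in O/R1.lean, import
`Pool.Agent.MP_bf7174_co.O.R1`).
`hedge`: `angle_sum` and `E1.edge_sum`, `s.card = 5 ↔ encard = 5`.
`hG`: `GG p D kt ke R = 13 * (..).ncard + (..).ncard` (`finsum_mem` of a constant / indicator on finite sets;
`{t | t ∈ D ∧ m ⊆ t}.encard = 5` implies `∃ t ∈ D, m ⊆ t`; the index sets are finite by `BccCov.finiteness` and
`‖x‖ ≤ 2 p x`).
-/

set_option autoImplicit false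

namespace BccP.Z1

open BccCov BccO

theorem z1_fin {p : E3 → ℝ} {v : ℝ} (hp : Gauge p v) {X : Set E3} {D : Set (Finset E3)}
    (hT : IsTriangulation X D)
    (hfin : ∀ R : ℝ, (X ∩ Metric.closedBall (0 : E3) R).Finite) (R : ℝ) :
    {m : Finset E3 | (∃ t ∈ D, m ⊆ t) ∧ ∀ x ∈ m, p x ≤ R}.Finite := by
  refine ((hfin (2 * R)).toFinset.powerset.finite_toSet).subset ?_
  rintro m ⟨⟨t, ht, hmt⟩, hm⟩
  rw [Finset.mem_coe, Finset.mem_powerset]
  intro x hx
  rw [Set.Finite.mem_toFinset]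
  refine ⟨hT.vertices t ht x (hmt hx), ?_⟩
  rw [Metric.mem_closedBall, dist_zero_right]
  have h1 := hp.bdd x
  have h2 := hm x hx
  linarith

theorem main {p : E3 → ℝ} {v : ℝ} (hp : Gauge p v) (X : Set E3) (r : ℝ) (hr : 0 < r)
    (D : Set (Finset E3)) (hT : IsTriangulation X D) (hI : ∀ t ∈ D, Inscribed t r)
    (τ : ℝ) (hτ : 0 < τ)
    (h : (∀ R : ℝ, (X ∩ Metric.closedBall (0 : E3) R).Finite) → ∀ᶠ R in Filter.atTop,
      (({t : Finset E3 | t ∈ D ∧ ∀ x ∈ t, p x ≤ R}.ncard : ℕ) : ℝ) +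
        (({m : Finset E3 | m.card = 2 ∧ (∀ x ∈ m, p x ≤ R) ∧
          {t | t ∈ D ∧ m ⊆ t}.encard = 5}.ncard : ℕ) : ℝ) / 13
      ≤ τ * (((X ∩ {x | p x ≤ R}).ncard : ℕ) : ℝ)) :
    ENNReal.ofReal (6 / τ * (5 * Real.sqrt 5 * Real.pi / 24)) ≤
      Filter.liminf
        (fun R : ℝ =>
          ENat.toENNReal (X ∩ {x | p x ≤ R}).encard *
            MeasureTheory.volume (Metric.closedBall (0 : EuclideanSpace ℝ (Fin 3)) r) /
            MeasureTheory.volume {x | p x ≤ R})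
        Filter.atTop := by
  classical
  have hcc := Num.cc_pos
  have hr3 : 0 < r ^ 3 := by positivity
  obtain ⟨ke, hke⟩ : ∃ ke : Finset E3 → ℕ, ∀ m, ke m =
      if {t | t ∈ D ∧ m ⊆ t}.encard = 5 then 1 else 0 := ⟨_, fun _ => rfl⟩
  have hmaster := C2.master hp hr hT hI (5 * cc * r ^ 3 / 13) (r ^ 3) (13 * τ) (by positivity)
    hr3.le (by positivity) (fun _ => 13) ke (fun _ => by norm_num)
    (fun t m => r ^ 3 * WW (tdih t m)) ?_ ?_ ?_ ?_
  · have e : 4 / 3 * Real.pi * r ^ 3 / (5 * cc * r ^ 3 / 13 * (13 * τ)) =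
        6 / τ * (5 * Real.sqrt 5 * Real.pi / 24) := by
      have h5 : (0 : ℝ) < √5 := by positivity
      have h55 : √5 * √5 = (5 : ℝ) := Real.mul_self_sqrt (by norm_num)
      unfold cc
      rw [div_eq_iff (by positivity)]
      field_simp
      linear_combination (-7200 : ℝ) * h55
    rw [← e]
    exact hmaster
  · intro t m
    rw [abs_mul, abs_of_pos hr3]
    have h1 := E1.WW_abs (tdih t m) (tdih_facts.2.1 t m).1 (tdih_facts.2.1 t m).2
    nlinarith
  · intro t ht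
    have hc := hT.card_eq t ht
    obtain ⟨x, hx⟩ : t.Nonempty := Finset.card_pos.1 (by omega)
    obtain ⟨y, z, w, hxyzw⟩ := exists_label hc hx
    obtain ⟨o, ρ, hρ, ho⟩ := hI t ht
    have hy : y ∈ t := by rw [← Finset.mem_coe, hxyzw]; simp
    have hz : z ∈ t := by rw [← Finset.mem_coe, hxyzw]; simp
    have hw : w ∈ t := by rw [← Finset.mem_coe, hxyzw]; simp
    have hdet := tdih_facts.2.2 x y z w t hc hxyzw (hT.indep t ht)
    have hloc := T2.local_WW x y z w o ρ r hρ (ho x hx) (ho y hy) (ho z hz) (ho w hw) hdet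
    obtain ⟨d1, d2, d3, d4, d5, d6⟩ := six_dih hc hxyzw
    rw [six_sum hc hxyzw, d1, d2, d3, d4, d5, d6, hxyzw, BccCov.V.vol_tet,
      ENNReal.toReal_ofReal (by positivity)]
    refine hloc.trans (le_of_eq ?_)
    push_cast
    ring
  · intro hfin m s hm hmD hs
    rw [← Finset.mul_sum]
    have h1 := E1.edge_sum s (fun t => tdih t m) (BccCov.A.angle_sum hT hI hfin m hm hmD s hs)
    have h2 : {t | t ∈ D ∧ m ⊆ t} = (s : Set (Finset E3)) := by
      ext t
      rw [Set.mem_ofPred_eq, Finset.mem_coe, hs t]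
    rw [hke, h2, Set.encard_coe_eq_coe_finsetCard]
    have h3 : ((s.card : ℕ∞) = 5) ↔ s.card = 5 := by
      constructor
      · intro h
        exact_mod_cast h
      · intro h
        rw [h]
        rfl
    have h4 := mul_le_mul_of_nonneg_left h1 hr3.le
    refine h4.trans (le_of_eq ?_)
    by_cases hs5 : s.card = 5
    · rw [if_pos hs5, if_pos (h3.2 hs5)]
      push_cast
      ring
    · rw [if_neg hs5, if_neg (fun h => hs5 (h3.1 h))]
      simp
  · intro hfin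
    filter_upwards [h hfin] with R hR
    have hf1 : {t | t ∈ D ∧ ∀ x ∈ t, p x ≤ R}.Finite :=
      (z1_fin hp hT hfin R).subset fun t ht => ⟨⟨t, ht.1, subset_rfl⟩, ht.2⟩
    have hf2 : {m : Finset E3 | m.card = 2 ∧ (∃ t ∈ D, m ⊆ t) ∧ ∀ x ∈ m, p x ≤ R}.Finite :=
      (z1_fin hp hT hfin R).subset fun t ht => ht.2
    have hG1 : (∑ᶠ t ∈ {t | t ∈ D ∧ ∀ x ∈ t, p x ≤ R}, 13) =
        13 * {t | t ∈ D ∧ ∀ x ∈ t, p x ≤ R}.ncard := by
      rw [finsum_mem_eq_finite_toFinset_sum _ hf1, Finset.sum_const, smul_eq_mul,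
        Set.ncard_eq_toFinset_card _ hf1, mul_comm]
    have hG2 : (∑ᶠ m ∈ {m : Finset E3 | m.card = 2 ∧ (∃ t ∈ D, m ⊆ t) ∧ ∀ x ∈ m, p x ≤ R}, ke m) =
        {m : Finset E3 | m.card = 2 ∧ (∀ x ∈ m, p x ≤ R) ∧
          {t | t ∈ D ∧ m ⊆ t}.encard = 5}.ncard := by
      rw [finsum_mem_eq_finite_toFinset_sum _ hf2]
      simp only [hke]
      rw [Finset.sum_boole]
      have e : {m : Finset E3 | m.card = 2 ∧ (∀ x ∈ m, p x ≤ R) ∧
          {t | t ∈ D ∧ m ⊆ t}.encard = 5} =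
          ((hf2.toFinset.filter fun m => {t | t ∈ D ∧ m ⊆ t}.encard = 5 : Finset (Finset E3)) :
            Set (Finset E3)) := by
        ext m
        rw [Finset.mem_coe, Finset.mem_filter, Set.Finite.mem_toFinset]
        simp only [Set.mem_ofPred_eq]
        constructor
        · rintro ⟨h1, h2, h3⟩
          have h4 : {t | t ∈ D ∧ m ⊆ t}.Nonempty := by
            rw [Set.nonempty_iff_ne_empty]
            intro h5
            rw [h5, Set.encard_empty] at h3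
            exact absurd h3 (by norm_num)
          exact ⟨⟨h1, h4, h2⟩, h3⟩
        · rintro ⟨⟨h1, -, h2⟩, h3⟩
          exact ⟨h1, h2, h3⟩
      rw [e, Set.ncard_coe_finset]
      rfl
    have hGG : GG p D (fun _ => 13) ke R = 13 * {t | t ∈ D ∧ ∀ x ∈ t, p x ≤ R}.ncard +
        {m : Finset E3 | m.card = 2 ∧ (∀ x ∈ m, p x ≤ R) ∧
          {t | t ∈ D ∧ m ⊆ t}.encard = 5}.ncard := by
      unfold GG
      rw [hG1, hG2]
    rw [hGG]
    push_cast
    linarith

end BccP.Z1
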