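import Pool.Agent.PEN.Defs
import Pool.Agent.MP_bf7174_co.O.R1

/-!
[PEN-Z3] the solid angles at a vertex add up to at least `4π` (the reverse of `BccO.vertex_sum`, O/R1.lean).

PROOF. There is `ε₁ > 0` such that every `t ∈ D` with `hull t ∩ ball v ε₁ ≠ ∅` contains `v` AS A VERTEX: only
finitely many tetrahedra meet `ball v 1` (`BccCov.finiteness`: each has a vertex within `2r` of a point of
it), each hull is closed, and `v ∈ hull t`, `t ∈ D` implies `v ∈ t`: take `t₀ ∈ s` (there is one);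
`v ∈ hull t ∩ hull t₀ = hull (t ∩ t₀)` (`faceToFace`), and `v` is a vertex of `t₀`, so it is in the hull of a subset
of `t₀` only if it belongs to it (`AffineIndependent.convexHull_inter`-type lemma, e.g.
`AffineIndependent.notMem_convexHull_of_notMem..`, or apply `faceToFace`-free argument with the affine equivalence
`hull_eq`). So for `ε ≤ ε₁`: `vol (ball v ε) ≤ Σ_{t∈s} vol (hull t ∩ ball v ε)`, because `cover`, and
`hull {v,y,z,w} ⊆ v + LL '' (closed orthant)` (`BccCov.V.hull_eq`), whose volume in the ball is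
`frac (ocone ..) · vol (ball v ε)`: the closed cone minus the open cone is a null set (image under the
linear map `LL` of the three coordinate planes; or: contained in three planes), and for the open cone
`cone_ball`, as in `local_cone`. `tsol t v = 4π · frac` by `girard` (as at the end of `vertex_sum`). Alternatively
take the closed cone as the set in `frac`: `frac` only depends on volumes.
-/

set_option autoImplicit false

open scoped InnerProductSpace
open MeasureTheory

namespace BccP.Z3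

open BccCov BccO

/-- the image of a coordinate plane is a null set -/
theorem z3_plane {p q r : E3} (h : LinearMap.det (W2.LL p q r) ≠ 0) (i : Fin 3) :
    volume (W2.LL p q r '' {u : E3 | u i = 0}) = 0 := by
  obtain ⟨Le, hLe⟩ := exists_equiv h
  obtain ⟨φ, hφ⟩ : ∃ φ : E3 →ₗ[ℝ] ℝ, ∀ v, φ v = (Le.symm v) i := by
    refine ⟨{ toFun := fun v => (Le.symm v) i, map_add' := ?_, map_smul' := ?_ }, fun _ => rfl⟩
    · intro a b
      rw [map_add, PiLp.add_apply]
    · intro c a
      rw [map_smul, PiLp.smul_apply, RingHom.id_apply]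
  have h1 : W2.LL p q r '' {u : E3 | u i = 0} ⊆ (LinearMap.ker φ : Set E3) := by
    rintro _ ⟨u, hu, rfl⟩
    rw [SetLike.mem_coe, LinearMap.mem_ker, hφ, ← hLe, Le.symm_apply_apply]
    exact hu
  refine measure_mono_null h1 ?_
  apply Measure.addHaar_submodule
  intro htop
  have h2 : Le (EuclideanSpace.single i (1 : ℝ)) ∈ LinearMap.ker φ := by
    rw [htop]
    exact Submodule.mem_top
  rw [LinearMap.mem_ker, hφ, Le.symm_apply_apply] at h2
  rw [EuclideanSpace.single_apply, if_pos rfl] at h2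
  exact one_ne_zero h2

/-- a tetrahedron is contained in its cone -/
theorem z3_cone {x y z w : E3} (h : det3 x y z w ≠ 0) {ε : ℝ} (hε : 0 < ε) :
    volume (convexHull ℝ ({x, y, z, w} : Set E3) ∩ Metric.ball x ε) ≤
      ENNReal.ofReal (frac (ocone (y - x) (z - x) (w - x))) * volume (Metric.ball x ε) := by
  have h' := h
  rw [← W2.det_LL] at h'
  set C := ocone (y - x) (z - x) (w - x) with hC
  have hB : volume (Metric.ball (0 : E3) 1) ≠ 0 := (Metric.measure_ball_pos volume _ one_pos).ne'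
  have hBt : volume (Metric.ball (0 : E3) 1) ≠ ⊤ := measure_ball_lt_top.ne
  have hCt : volume (C ∩ Metric.ball (0 : E3) 1) ≠ ⊤ :=
    ((measure_mono Set.inter_subset_right).trans_lt measure_ball_lt_top).ne
  have e1 : ENNReal.ofReal (frac C) * volume (Metric.ball (0 : E3) 1) =
      volume (C ∩ Metric.ball (0 : E3) 1) := by
    rw [frac, ENNReal.ofReal_div_of_pos (ENNReal.toReal_pos hB hBt), ENNReal.ofReal_toReal hCt,
      ENNReal.ofReal_toReal hBt, ENNReal.div_mul_cancel hB hBt]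
  have e2 : volume (Metric.ball x ε) = ENNReal.ofReal (ε ^ 3) * volume (Metric.ball (0 : E3) 1) := by
    rw [Measure.addHaar_ball_of_pos volume x hε]
    simp
  have e3 : ENNReal.ofReal (frac C) * volume (Metric.ball x ε) = volume (C ∩ Metric.ball (0 : E3) ε) := by
    rw [e2, cone_ball (isCone_ocone _ _ _) hε, ← e1]
    ring
  rw [e3]
  obtain ⟨N, hN⟩ : ∃ N : Set E3, N = ⋃ i : Fin 3,
      W2.LL (y - x) (z - x) (w - x) '' {u : E3 | u i = 0} := ⟨_, rfl⟩
  have hN0 : volume N = 0 := by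
    rw [hN, measure_iUnion_null_iff]
    exact fun i => z3_plane h' i
  have e4 : volume ((fun v => x + v) '' ((C ∩ Metric.ball (0 : E3) ε) ∪ N)) =
      volume ((C ∩ Metric.ball (0 : E3) ε) ∪ N) := by
    rw [Set.image_add_left, measure_preimage_add]
  have e5 : volume ((C ∩ Metric.ball (0 : E3) ε) ∪ N) ≤ volume (C ∩ Metric.ball (0 : E3) ε) := by
    refine (measure_union_le _ _).trans ?_
    rw [hN0, add_zero]
  refine le_trans ?_ (e4.le.trans e5)
  apply measure_mono
  rintro a ⟨ha, hab⟩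
  rw [BccCov.V.hull_eq] at ha
  obtain ⟨_, ⟨u, hu, rfl⟩, rfl⟩ := ha
  refine ⟨_, ?_, rfl⟩
  have hab' : ‖W2.LL (y - x) (z - x) (w - x) u‖ < ε := by
    have h1 := Metric.mem_ball.1 hab
    rw [dist_eq_norm, add_sub_cancel_left] at h1
    exact h1
  by_cases hpos : ∀ i, 0 < u i
  · left
    refine ⟨⟨u, hpos, rfl⟩, ?_⟩
    rw [mem_ball_zero_iff]
    exact hab'
  · right
    push Not at hpos
    obtain ⟨i, hi⟩ := hpos
    rw [hN]
    refine Set.mem_iUnion.2 ⟨i, ⟨u, ?_, rfl⟩⟩
    show u i = 0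
    obtain ⟨h0, h1, h2, _⟩ := hu
    refine le_antisymm hi ?_
    fin_cases i
    · exact h0
    · exact h1
    · exact h2

/-- a vertex of the triangulation lies in a tetrahedron only as a vertex -/
theorem z3_vertex {X : Set E3} {D : Set (Finset E3)} (hT : IsTriangulation X D)
    {v : E3} {t₀ t : Finset E3} (ht₀ : t₀ ∈ D) (hv : v ∈ t₀) (ht : t ∈ D)
    (hvt : v ∈ convexHull ℝ (t : Set E3)) : v ∈ t := by
  classical
  have h1 : v ∈ convexHull ℝ ((t : Set E3) ∩ (t₀ : Set E3)) := by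
    rw [← hT.faceToFace t ht t₀ ht₀]
    exact ⟨hvt, subset_convexHull ℝ _ hv⟩
  have h2 := (hT.indep t₀ ht₀).convexHull_inter (t₁ := {v}) (t₂ := t ∩ t₀)
    (Finset.singleton_subset_iff.2 hv) Finset.inter_subset_right
  have h3 : v ∈ convexHull ℝ ((({v} : Finset E3) : Set E3) ∩ ((t ∩ t₀ : Finset E3) : Set E3)) := by
    rw [h2]
    refine ⟨subset_convexHull ℝ _ (by simp), ?_⟩
    rw [Finset.coe_inter]
    exact h1
  by_contra hcon
  have h4 : (({v} : Finset E3) : Set E3) ∩ ((t ∩ t₀ : Finset E3) : Set E3) = ∅ := by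
    rw [← Finset.coe_inter, ← Finset.coe_empty, Finset.coe_inj, ← Finset.disjoint_iff_inter_eq_empty,
      Finset.disjoint_singleton_left, Finset.mem_inter]
    exact fun h => hcon h.1
  rw [h4, convexHull_empty] at h3
  exact h3

/-- near a vertex there are only tetrahedra with this vertex -/
theorem z3_near {X : Set E3} {D : Set (Finset E3)} {r : ℝ} (hT : IsTriangulation X D)
    (hI : ∀ t ∈ D, Inscribed t r) (hfin : ∀ R : ℝ, (X ∩ Metric.closedBall (0 : E3) R).Finite)
    (v : E3) (hv : ∃ t ∈ D, v ∈ t) : ∃ ε > 0, ∀ t ∈ D, ∀ u ∈ convexHull ℝ (t : Set E3),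
      u ∈ Metric.ball v ε → v ∈ t := by
  classical
  obtain ⟨t₀, ht₀, hv₀⟩ := hv
  obtain ⟨f1, f2, _, _⟩ := finiteness hT hI hfin
  have hF := f2 (‖v‖ + 1 + 2 * r)
  have hev : ∀ᶠ ε in nhdsWithin (0 : ℝ) (Set.Ioi 0), ∀ t ∈ hF.toFinset,
      ∀ u ∈ convexHull ℝ (t : Set E3), u ∈ Metric.ball v ε → v ∈ t := by
    rw [Filter.eventually_all_finset]
    intro t ht
    have htD : t ∈ D := (hF.mem_toFinset.1 ht).1
    by_cases hvt : v ∈ t
    · exact Filter.Eventually.of_forall fun _ _ _ _ => hvt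
    · have hclosed : IsClosed (convexHull ℝ (t : Set E3)) :=
        (Set.Finite.isCompact_convexHull ℝ t.finite_toSet).isClosed
      have hnot : v ∉ convexHull ℝ (t : Set E3) := fun h => hvt (z3_vertex hT ht₀ hv₀ htD h)
      obtain ⟨ε₀, hε₀, hsub⟩ := Metric.isOpen_iff.1 hclosed.isOpen_compl v hnot
      filter_upwards [Ioo_mem_nhdsGT hε₀] with ε hε u hu hub
      exfalso
      exact hsub (Metric.ball_subset_ball hε.2.le hub) hu
  obtain ⟨ε, h1, hε⟩ := (hev.and (Ioo_mem_nhdsGT (zero_lt_one (α := ℝ)))).exists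
  refine ⟨ε, hε.1, fun t ht u hu hub => h1 t ?_ u hu hub⟩
  rw [hF.mem_toFinset]
  refine ⟨ht, ?_⟩
  have hpos : 0 < t.card := by
    rw [hT.card_eq t ht]
    norm_num
  obtain ⟨x, hx⟩ := Finset.card_pos.1 hpos
  refine ⟨x, hx, ?_⟩
  have h2 := f1 t ht x (subset_convexHull ℝ _ hx) u hu
  have h3 : dist u v < 1 := (Metric.mem_ball.1 hub).trans hε.2
  have h4 : ‖x‖ ≤ dist x u + dist u v + ‖v‖ := by
    rw [← dist_zero_right x, ← dist_zero_right v]
    have h5 := dist_triangle x u 0
    have h6 := dist_triangle u v 0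
    linarith
  linarith

theorem ge {X : Set E3} {D : Set (Finset E3)} {r : ℝ} (hT : IsTriangulation X D)
    (hI : ∀ t ∈ D, Inscribed t r) (hfin : ∀ R : ℝ, (X ∩ Metric.closedBall (0 : E3) R).Finite)
    (v : E3) (hv : ∃ t ∈ D, v ∈ t) (s : Finset (Finset E3)) (hs : ∀ t, t ∈ s ↔ t ∈ D ∧ v ∈ t) :
    4 * Real.pi ≤ ∑ t ∈ s, tsol t v := by
  classical
  have hpi := Real.pi_pos
  obtain ⟨ε, hε, hnear⟩ := z3_near hT hI hfin v hv
  have hlab : ∀ t ∈ s, volume (convexHull ℝ (t : Set E3) ∩ Metric.ball v ε) ≤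
      ENNReal.ofReal (tsol t v / (4 * Real.pi)) * volume (Metric.ball v ε) ∧
      0 ≤ tsol t v / (4 * Real.pi) := by
    intro t ht
    obtain ⟨htD, hvt⟩ := (hs t).1 ht
    have hc := hT.card_eq t htD
    obtain ⟨y, z, w, hl⟩ := exists_label hc hvt
    have hdet : det3 v y z w ≠ 0 := BccCov.S.det3_ne_zero v y z w t hc hl (hT.indep t htD)
    rw [tsol_eq hc hl, ← girard hdet, hl]
    exact ⟨z3_cone hdet hε, frac_nonneg _⟩
  have hcov : Metric.ball v ε ⊆ ⋃ t ∈ s, (convexHull ℝ (t : Set E3) ∩ Metric.ball v ε) := by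
    intro u hu
    have h1 : u ∈ ⋃ t ∈ D, convexHull ℝ (t : Set E3) := by
      rw [hT.cover]
      exact Set.mem_univ u
    obtain ⟨t, ht, hut⟩ := Set.mem_iUnion₂.1 h1
    exact Set.mem_iUnion₂.2 ⟨t, (hs t).2 ⟨ht, hnear t ht u hut hu⟩, hut, hu⟩
  have hsum : volume (Metric.ball v ε) ≤
      (∑ t ∈ s, ENNReal.ofReal (tsol t v / (4 * Real.pi))) * volume (Metric.ball v ε) := by
    refine (measure_mono hcov).trans ((measure_biUnion_finset_le s _).trans ?_)
    rw [Finset.sum_mul]
    exact Finset.sum_le_sum fun t ht => (hlab t ht).1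
  have hv0 : volume (Metric.ball v ε) ≠ 0 := (Metric.measure_ball_pos volume v hε).ne'
  have hvt : volume (Metric.ball v ε) ≠ ⊤ := measure_ball_lt_top.ne
  have hone : 1 ≤ ∑ t ∈ s, ENNReal.ofReal (tsol t v / (4 * Real.pi)) := by
    have h3 : 1 * volume (Metric.ball v ε) ≤
        (∑ t ∈ s, ENNReal.ofReal (tsol t v / (4 * Real.pi))) * volume (Metric.ball v ε) := by
      rw [one_mul]
      exact hsum
    exact (ENNReal.mul_le_mul_iff_left hv0 hvt).1 h3
  rw [← ENNReal.ofReal_sum_of_nonneg (fun t ht => (hlab t ht).2), ENNReal.one_le_ofReal,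
    ← Finset.sum_div, le_div_iff₀ (by positivity), one_mul] at hone
  exact hone

end BccP.Z3
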